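import Mathlib

/-!
# Relations between Frobenius eigenvalues in prime power dimension: the group theoretic part

A finite group `G` acts transitively on a set `Ω` of `2 * ℓ ^ a` elements and commutes with a
fixed point free involution `i`. If `s : Ω → ℤ` is antisymmetric with half total absolute value
`N` odd, and `ℓ = 2` or `N < ℓ`, then every antisymmetric integer function orthogonal to all
translates of `s` vanishes.
-/

namespace Pool.Agent.Lib.MP_950c68_ag

open MulAction

variable {G Ω : Type*} [Group G] [MulAction G Ω]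

/-- The lattice of antisymmetric functions orthogonal to all translates of `s`. -/
def relLattice (G : Type*) {Ω : Type*} [Group G] [MulAction G Ω] [Fintype Ω]
    (i : Ω → Ω) (s : Ω → ℤ) : AddSubgroup (Ω → ℤ) where
  carrier := {d | (∀ x, d (i x) = - d x) ∧ ∀ g : G, ∑ x, d x * s (g • x) = 0}
  zero_mem' := by simp
  add_mem' := by
    rintro a b ⟨ha1, ha2⟩ ⟨hb1, hb2⟩
    refine ⟨fun x => by simp [ha1, hb1]; ring, fun g => ?_⟩
    simp only [Pi.add_apply, add_mul, Finset.sum_add_distrib, ha2 g, hb2 g, add_zero]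
  neg_mem' := by
    rintro a ⟨ha1, ha2⟩
    refine ⟨fun x => by simp [ha1], fun g => ?_⟩
    simp only [Pi.neg_apply, neg_mul, Finset.sum_neg_distrib, ha2 g, neg_zero]

theorem mem_relLattice [Fintype Ω] {i : Ω → Ω} {s : Ω → ℤ} {d : Ω → ℤ} :
    d ∈ relLattice G i s ↔ (∀ x, d (i x) = - d x) ∧ ∀ g : G, ∑ x, d x * s (g • x) = 0 :=
  Iff.rfl

/-- The translate of a lattice element is in the lattice. -/
theorem smul_mem_relLattice [Fintype Ω] {i : Ω → Ω} {s : Ω → ℤ}
    (hi : ∀ (g : G) x, i (g • x) = g • i x) {d : Ω → ℤ}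
    (hd : d ∈ relLattice G i s) (h : G) : (fun x => d (h⁻¹ • x)) ∈ relLattice G i s := by
  refine ⟨fun x => ?_, fun g => ?_⟩
  · simp only
    rw [← hi, hd.1]
  · have := hd.2 (g * h)
    rw [← this]
    rw [← Equiv.sum_comp (MulAction.toPerm h)]
    refine Finset.sum_congr rfl fun x _ => ?_
    simp [mul_smul]


/-- The reduction of the lattice modulo `ℓ`. -/
def redLattice (G : Type*) {Ω : Type*} [Group G] [MulAction G Ω] [Fintype Ω]
    (i : Ω → Ω) (s : Ω → ℤ) (ℓ : ℕ) : AddSubgroup (Ω → ZMod ℓ) where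
  carrier := {w | ∃ d ∈ relLattice G i s, ∀ x, (d x : ZMod ℓ) = w x}
  zero_mem' := ⟨0, AddSubgroup.zero_mem _, by simp⟩
  add_mem' := by
    rintro a b ⟨d, hd, hda⟩ ⟨e, he, heb⟩
    exact ⟨d + e, AddSubgroup.add_mem _ hd he, fun x => by simp [hda, heb]⟩
  neg_mem' := by
    rintro a ⟨d, hd, hda⟩
    exact ⟨-d, AddSubgroup.neg_mem _ hd, fun x => by simp [hda]⟩

/-- The action of a subgroup on the reduced lattice. -/
@[reducible] def redAction [Fintype Ω] {i : Ω → Ω} {s : Ω → ℤ} (hi : ∀ (g : G) x, i (g • x) = g • i x)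
    (ℓ : ℕ) (P : Subgroup G) : MulAction P (redLattice G i s ℓ) where
  smul h w := ⟨fun x => (w : Ω → ZMod ℓ) ((h : G)⁻¹ • x), by
    obtain ⟨d, hd, hdw⟩ := w.2
    exact ⟨_, smul_mem_relLattice hi hd (h : G), fun x => hdw _⟩⟩
  one_smul w := by
    apply Subtype.ext
    funext x
    change (w : Ω → ZMod ℓ) (((1 : P) : G)⁻¹ • x) = _
    simp
  mul_smul g h w := by
    apply Subtype.ext
    funext x
    change (w : Ω → ZMod ℓ) (((g * h : P) : G)⁻¹ • x) =
      (w : Ω → ZMod ℓ) ((h : G)⁻¹ • ((g : G)⁻¹ • x))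
    simp [mul_smul]

/-- Infinite descent: a lattice element divisible by all powers of `ℓ` vanishes; if the reduced
lattice is trivial then so is the lattice. -/
theorem relLattice_eq_bot_of_red [Fintype Ω] {i : Ω → Ω} {s : Ω → ℤ} {ℓ : ℕ} (hℓ : 1 < ℓ)
    (h : redLattice G i s ℓ = ⊥) {d : Ω → ℤ} (hd : d ∈ relLattice G i s) : d = 0 := by
  -- strong induction on the sum of absolute values
  induction' hn : ∑ x, (d x).natAbs using Nat.strong_induction_on with n ih generalizing d
  have hw : (fun x => (d x : ZMod ℓ)) ∈ redLattice G i s ℓ := ⟨d, hd, fun x => rfl⟩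
  rw [h, AddSubgroup.mem_bot] at hw
  have hdiv : ∀ x, (ℓ : ℤ) ∣ d x := fun x => by
    have := congrFun hw x
    simpa [ZMod.intCast_zmod_eq_zero_iff_dvd] using this
  choose e he using hdiv
  have hl0 : (ℓ : ℤ) ≠ 0 := by positivity
  have hemem : e ∈ relLattice G i s := by
    refine ⟨fun x => ?_, fun g => ?_⟩
    · have := hd.1 x
      rw [he, he] at this
      have h2 : (ℓ : ℤ) * e (i x) = ℓ * (- e x) := by rw [this]; ring
      exact mul_left_cancel₀ hl0 h2
    · have := hd.2 g
      simp only [he, mul_assoc, ← Finset.mul_sum] at this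
      exact (mul_eq_zero.mp this).resolve_left hl0
  by_cases h0 : d = 0
  · exact h0
  exfalso
  obtain ⟨x, hx⟩ : ∃ x, d x ≠ 0 := by
    by_contra hcon
    push Not at hcon
    exact h0 (funext hcon)
  have hlt : ∑ x, (e x).natAbs < n := by
    rw [← hn]
    apply Finset.sum_lt_sum
    · intro y _
      rw [he y, Int.natAbs_mul, Int.natAbs_natCast]
      exact Nat.le_mul_of_pos_left _ (by omega)
    · refine ⟨x, Finset.mem_univ _, ?_⟩
      rw [he x, Int.natAbs_mul, Int.natAbs_natCast]
      have : 0 < (e x).natAbs := by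
        rw [Int.natAbs_pos]
        intro h3
        exact hx (by rw [he x, h3, mul_zero])
      exact (Nat.lt_mul_iff_one_lt_left this).mpr hℓ
  have := ih _ hlt hemem rfl
  exact hx (by rw [he x, this]; simp)

/-- If the lattice is nonzero then there is an element whose reduction mod `ℓ` is nonzero and
constant on the orbits of a Sylow `ℓ`-subgroup. -/
theorem exists_fixed [Fintype Ω] [Finite G] {i : Ω → Ω} {s : Ω → ℤ}
    (hi : ∀ (g : G) x, i (g • x) = g • i x) {ℓ : ℕ} [hℓ : Fact ℓ.Prime] (P : Sylow ℓ G)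
    {d : Ω → ℤ} (hd : d ∈ relLattice G i s) (hd0 : d ≠ 0) :
    ∃ e ∈ relLattice G i s, (∃ x, (e x : ZMod ℓ) ≠ 0) ∧
      ∀ g ∈ P, ∀ x, (e (g • x) : ZMod ℓ) = e x := by
  classical
  let _ := redAction (s := s) hi ℓ (P : Subgroup G)
  have hne : redLattice G i s ℓ ≠ ⊥ := fun h =>
    hd0 (relLattice_eq_bot_of_red hℓ.out.one_lt h hd)
  obtain ⟨w, hw, hw0⟩ := AddSubgroup.ne_bot_iff_exists_ne_zero.mp hne |>.imp (fun w h => h) |> fun h =>
    (h : ∃ w : redLattice G i s ℓ, w ≠ 0) |> fun ⟨w, hw⟩ => (⟨w, trivial, hw⟩ : ∃ w : redLattice G i s ℓ, True ∧ w ≠ 0)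
  have hcard : ℓ ∣ Nat.card (redLattice G i s ℓ) := by
    have h1 : addOrderOf w = ℓ := by
      apply addOrderOf_eq_prime _ hw0
      apply Subtype.ext
      funext x
      simp
    have h2 := addOrderOf_dvd_natCard w
    rwa [h1] at h2
  obtain ⟨b, hb, hb0⟩ := P.isPGroup'.exists_fixed_point_of_prime_dvd_card_of_fixed_point
    (redLattice G i s ℓ) hcard (a := 0) (by
      intro g
      apply Subtype.ext
      funext x
      rfl)
  obtain ⟨e, he, heb⟩ := b.2
  refine ⟨e, he, ?_, ?_⟩
  · by_contra hcon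
    push Not at hcon
    apply hb0
    apply Subtype.ext
    funext x
    rw [← heb x, hcon x]
    rfl
  · intro g hg x
    have h1 := hb ⟨g⁻¹, P.inv_mem hg⟩
    have h2 := congrFun (congrArg Subtype.val h1) x
    change (b : Ω → ZMod ℓ) ((g⁻¹)⁻¹ • x) = (b : Ω → ZMod ℓ) x at h2
    rw [inv_inv] at h2
    rw [heb, heb, h2]

/-- For a transitive group, a prime power dividing the degree divides the size of every orbit of
a Sylow subgroup. -/
theorem pow_dvd_card_orbit [Finite G] [IsPretransitive G Ω] {ℓ : ℕ} [hℓ : Fact ℓ.Prime]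
    (P : Sylow ℓ G) {b : ℕ} (hb : ℓ ^ b ∣ Nat.card Ω) (x : Ω) :
    ℓ ^ b ∣ (orbit P x).ncard := by
  have h1 : (stabilizer G x).index = Nat.card Ω := index_stabilizer_of_transitive G x
  have h2 : (stabilizer P x).index = (orbit P x).ncard := index_stabilizer P x
  have h3 : stabilizer P x = (stabilizer G x).subgroupOf (P : Subgroup G) := by
    ext g
    simp [Subgroup.mem_subgroupOf, Subgroup.smul_def]
  have h4 : (stabilizer G x).relIndex (P : Subgroup G) = (orbit P x).ncard := by
    rw [← h2, h3]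
    rfl
  have h5 : ((stabilizer G x) ⊓ (P : Subgroup G)).index =
      (orbit P x).ncard * (P : Subgroup G).index := by
    rw [← h4, ← Subgroup.inf_relIndex_right]
    exact (Subgroup.relIndex_mul_index inf_le_right).symm
  have h6 : Nat.card Ω ∣ (orbit P x).ncard * (P : Subgroup G).index := by
    rw [← h5, ← h1]
    exact Subgroup.index_dvd_of_le inf_le_left
  have h7 : Nat.Coprime (ℓ ^ b) (P : Subgroup G).index := by
    apply Nat.Coprime.pow_left
    rw [Nat.Prime.coprime_iff_not_dvd hℓ.out]
    exact P.not_dvd_index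
  exact h7.dvd_of_dvd_mul_right (hb.trans h6)

/-- A half system for a fixed point free involution. -/
theorem exists_half [Fintype Ω] {i : Ω → Ω} (hii : ∀ x, i (i x) = x) (hfix : ∀ x, i x ≠ x) :
    ∃ H : Finset Ω, ∀ x, x ∈ H ↔ i x ∉ H := by
  classical
  let e := Fintype.equivFin Ω
  refine ⟨Finset.univ.filter fun x => e x < e (i x), fun x => ?_⟩
  simp only [Finset.mem_filter, Finset.mem_univ, true_and, hii, not_lt]
  constructor
  · exact fun h => h.le
  · intro h
    exact lt_of_le_of_ne h fun h2 => hfix x (e.injective h2).symm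

/-- The sum of a symmetric function is twice the sum over a half system. -/
theorem sum_half [Fintype Ω] {i : Ω → Ω} (hii : ∀ x, i (i x) = x) {H : Finset Ω}
    (hH : ∀ x, x ∈ H ↔ i x ∉ H) {f : Ω → ℤ} (hf : ∀ x, f (i x) = f x) :
    ∑ x, f x = 2 * ∑ x ∈ H, f x := by
  classical
  have h1 : ∑ x, f x = ∑ x ∈ H, f x + ∑ x ∈ Hᶜ, f x := (Finset.sum_add_sum_compl H f).symm
  have h2 : ∑ x ∈ Hᶜ, f x = ∑ x ∈ H, f x := by
    refine Finset.sum_bij' (fun x _ => i x) (fun x _ => i x) ?_ ?_ ?_ ?_ ?_
    · intro x hx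
      rw [Finset.mem_compl] at hx
      rw [hH, hii]
      exact hx
    · intro x hx
      rw [Finset.mem_compl]
      exact (hH x).mp hx
    · intro x _
      exact hii x
    · intro x _
      exact hii x
    · intro x _
      exact (hf x).symm
  rw [h1, h2]
  ring

/-- **Main group theoretic lemma.** -/
theorem relLattice_trivial [Fintype Ω] [Finite G] [IsPretransitive G Ω] {i : Ω → Ω} {s : Ω → ℤ}
    (hi : ∀ (g : G) x, i (g • x) = g • i x) (hii : ∀ x, i (i x) = x) (hfix : ∀ x, i x ≠ x)
    (hs : ∀ x, s (i x) = - s x) {ℓ a : ℕ} [hℓ : Fact ℓ.Prime]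
    (hcard : Nat.card Ω = 2 * ℓ ^ a) {N : ℕ} (hN : ∑ x, |s x| = 2 * N) (hodd : Odd N)
    (hlN : ℓ = 2 ∨ N < ℓ) {d : Ω → ℤ} (hd : d ∈ relLattice G i s) : d = 0 := by
  classical
  by_contra hd0
  obtain ⟨P⟩ : Nonempty (Sylow ℓ G) := inferInstance
  obtain ⟨e, he, ⟨x0, hx0⟩, hfixed⟩ := exists_fixed hi P hd hd0
  -- a half system on which `e` is constant modulo `ℓ`
  obtain ⟨H, hH, hconst⟩ : ∃ H : Finset Ω, (∀ x, x ∈ H ↔ i x ∉ H) ∧
      ∀ x ∈ H, (e x : ZMod ℓ) = e x0 := by
    by_cases h2 : ℓ = 2
    · subst h2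
      obtain ⟨H, hH⟩ := exists_half hii hfix
      refine ⟨H, hH, fun x _ => ?_⟩
      have horb : (orbit P x0).ncard = Nat.card Ω := by
        have h3 := pow_dvd_card_orbit P (b := a + 1) (Ω := Ω) (by rw [hcard, pow_succ, mul_comm]) x0
        apply le_antisymm
        · rw [← Set.ncard_univ]
          exact Set.ncard_le_ncard (Set.subset_univ _)
        · rw [hcard, mul_comm, ← pow_succ]
          apply Nat.le_of_dvd _ h3
          rw [Set.ncard_pos]
          exact ⟨x0, mem_orbit_self x0⟩
      have huniv : orbit P x0 = Set.univ := by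
        apply Set.eq_of_subset_of_ncard_le (Set.subset_univ _)
        rw [horb, Set.ncard_univ]
      have hx : x ∈ orbit P x0 := by rw [huniv]; trivial
      obtain ⟨g, rfl⟩ := hx
      exact hfixed g g.2 x0
    · have hl2 : Odd ℓ := hℓ.out.odd_of_ne_two h2
      have hfin : (orbit P x0).Finite := Set.toFinite _
      refine ⟨hfin.toFinset, ?_, ?_⟩
      · -- the orbit is a half system
        have hstable : ∀ x ∈ orbit P x0, ∀ y ∈ orbit P x0, i x ∈ orbit P x0 → i y ∈ orbit P x0 := by
          rintro x hx y hy hix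
          rw [← orbit_eq_iff.mpr hx] at hy
          obtain ⟨g, rfl⟩ := hy
          have : i (g • x) = g • i x := hi g x
          simp only
          rw [this, ← orbit_eq_iff.mpr hix]
          exact ⟨g, rfl⟩
        have hoddcard : Odd (orbit P x0).ncard := by
          obtain ⟨n, hn⟩ := P.isPGroup'.card_orbit x0
          rw [Nat.card_coe_set_eq] at hn
          rw [hn]
          exact hl2.pow
        have hdisj : ∀ x ∈ orbit P x0, i x ∉ orbit P x0 := by
          intro x hx hix
          have hall : ∀ y ∈ orbit P x0, i y ∈ orbit P x0 := fun y hy => hstable x hx y hy hix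
          have hsum : ∑ y ∈ hfin.toFinset, (1 : ZMod 2) = 0 := by
            refine Finset.sum_involution (fun y _ => i y) ?_ ?_ ?_ ?_
            · intro y _
              decide
            · intro y _ _
              exact hfix y
            · intro y hy
              rw [Set.Finite.mem_toFinset] at hy ⊢
              exact hall y hy
            · intro y _
              exact hii y
          rw [Finset.sum_const, nsmul_eq_mul, mul_one, ← Set.ncard_eq_toFinset_card _ hfin,
            ZMod.natCast_eq_zero_iff] at hsum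
          rw [Nat.odd_iff] at hoddcard
          omega
        have hge : ℓ ^ a ≤ (orbit P x0).ncard := by
          apply Nat.le_of_dvd
          · rw [Set.ncard_pos]
            exact ⟨x0, mem_orbit_self x0⟩
          · exact pow_dvd_card_orbit P (by rw [hcard]; exact dvd_mul_left _ _) x0
        have hinj : Function.Injective i := fun x y h => by rw [← hii x, h, hii]
        have hunion : orbit P x0 ∪ i '' orbit P x0 = Set.univ := by
          apply Set.eq_of_subset_of_ncard_le (Set.subset_univ _)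
          rw [Set.ncard_univ, hcard, Set.ncard_union_eq, Set.ncard_image_of_injective _ hinj]
          · omega
          · rw [Set.disjoint_left]
            rintro x hx ⟨y, hy, rfl⟩
            exact hdisj y hy hx
        intro x
        rw [Set.Finite.mem_toFinset, Set.Finite.mem_toFinset]
        refine ⟨hdisj x, fun hx => ?_⟩
        have : i x ∈ orbit P x0 ∪ i '' orbit P x0 := by rw [hunion]; trivial
        rcases this with h | ⟨y, hy, hyx⟩
        · exact absurd h hx
        · rwa [← hinj hyx]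
      · intro x hx
        rw [Set.Finite.mem_toFinset] at hx
        obtain ⟨g, rfl⟩ := hx
        exact hfixed g g.2 x0
  -- half sums
  have hS : ∑ x ∈ H, |s x| = N := by
    have := sum_half hii hH (f := fun x => |s x|) (fun x => by rw [hs, abs_neg])
    rw [hN] at this
    linarith
  have hE : ∑ x ∈ H, e x * s x = 0 := by
    have h1 := sum_half hii hH (f := fun x => e x * s x) (fun x => by rw [hs, he.1]; ring)
    have h2 := he.2 1
    simp only [one_smul] at h2
    rw [h2] at h1
    linarith
  have hT : (ℓ : ℤ) ∣ ∑ x ∈ H, s x := by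
    rw [← ZMod.intCast_zmod_eq_zero_iff_dvd]
    have h1 : ((∑ x ∈ H, e x * s x : ℤ) : ZMod ℓ) = e x0 * ((∑ x ∈ H, s x : ℤ) : ZMod ℓ) := by
      push_cast
      rw [Finset.mul_sum]
      exact Finset.sum_congr rfl fun x hx => by rw [hconst x hx]
    rw [hE, Int.cast_zero] at h1
    exact (mul_eq_zero.mp h1.symm).resolve_left hx0
  have hpar : Odd (∑ x ∈ H, s x) := by
    have h1 : Even (∑ x ∈ H, (|s x| - s x)) := by
      apply Finset.even_sum
      intro x _
      rcases abs_choice (s x) with h | h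
      · rw [h]; simp
      · rw [h]
        exact ⟨- s x, by ring⟩
    rw [Finset.sum_sub_distrib, hS] at h1
    have h2 : Odd (N : ℤ) := by exact_mod_cast hodd
    have h3 : ∑ x ∈ H, s x = N - (N - ∑ x ∈ H, s x) := by ring
    rw [h3]
    exact h2.sub_even h1
  rcases hlN with h2 | hlt
  · subst h2
    rw [Int.odd_iff] at hpar
    omega
  · have hle : |∑ x ∈ H, s x| ≤ N := by
      rw [← hS]
      exact Finset.abs_sum_le_sum_abs _ _
    have h0 : ∑ x ∈ H, s x = 0 := by
      apply Int.eq_zero_of_abs_lt_dvd hT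
      have : (N : ℤ) < ℓ := by exact_mod_cast hlt
      linarith
    rw [h0] at hpar
    simp at hpar

end Pool.Agent.Lib.MP_950c68_ag
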