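import Mathlib
import Pool.Agent.Lib.MP_950c68_ag.Rel

/-!
# Relations between Frobenius eigenvalues: the Galois theoretic part
-/

namespace Pool.Agent.Lib.MP_950c68_ag

open Polynomial MulAction

/-- From an arbitrary relation to the symmetric one, abstractly. -/
theorem symm_of_relation {G Ω : Type*} [Group G] [MulAction G Ω] [Fintype Ω] [Finite G]
    [IsPretransitive G Ω] {i : Ω → Ω} {s : Ω → ℤ}
    (hi : ∀ (g : G) x, i (g • x) = g • i x) (hii : ∀ x, i (i x) = x)
    (hs : ∀ x, s (i x) = - s x) {ℓ a : ℕ} [hℓ : Fact ℓ.Prime]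
    (hcard : Nat.card Ω = 2 * ℓ ^ a) {N : ℕ} (hN : ∑ x, |s x| = 2 * N) (hodd : Odd N)
    (hlN : ℓ = 2 ∨ N < ℓ) {c : Ω → ℤ} {C : ℤ} (hc : ∀ g : G, ∑ x, c x * s (g • x) = C) :
    (∀ x, i x ≠ x) ∧ ∀ x, c (i x) = c x := by
  classical
  have := Fintype.ofFinite G
  have hinj : Function.Injective i := fun x y h => by rw [← hii x, h, hii]
  have hfix : ∀ x, i x ≠ x := by
    intro x hx
    have hall : ∀ y, s y = 0 := by
      intro y
      obtain ⟨g, rfl⟩ := exists_smul_eq G x y
      have h1 := hs (g • x)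
      rw [hi, hx] at h1
      omega
    have : (2 * N : ℤ) = 0 := by rw [← hN]; simp [hall]
    have h0 : N = 0 := by omega
    rw [h0] at hodd
    simp at hodd
  refine ⟨hfix, ?_⟩
  -- the constant is zero
  have hsum : ∀ y, ∑ g : G, s (g • y) = 0 := by
    intro y
    have hconst : ∀ h : G, ∑ g : G, s (g • (h • y)) = ∑ g : G, s (g • y) := by
      intro h
      rw [← Equiv.sum_comp (Equiv.mulRight h) (fun g => s (g • y))]
      refine Finset.sum_congr rfl fun g _ => ?_
      simp [mul_smul]
    obtain ⟨h, hh⟩ := exists_smul_eq G y (i y)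
    have h1 := hconst h
    rw [hh] at h1
    have h2 : ∑ g : G, s (g • i y) = - ∑ g : G, s (g • y) := by
      rw [← Finset.sum_neg_distrib]
      refine Finset.sum_congr rfl fun g _ => ?_
      rw [← hi, hs]
    rw [h2] at h1
    linarith
  have hC : C = 0 := by
    have h1 : ∑ g : G, ∑ x, c x * s (g • x) = Fintype.card G * C := by
      rw [Finset.sum_congr rfl fun g _ => hc g, Finset.sum_const, Finset.card_univ, nsmul_eq_mul]
    rw [Finset.sum_comm] at h1
    simp only [← Finset.mul_sum, hsum, mul_zero, Finset.sum_const_zero] at h1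
    have h2 : (Fintype.card G : ℤ) ≠ 0 := by
      exact_mod_cast Fintype.card_ne_zero
    rcases mul_eq_zero.mp h1.symm with h | h
    · exact absurd h h2
    · exact h
  subst hC
  have hd : (fun x => c x - c (i x)) ∈ relLattice G i s := by
    refine ⟨fun x => by simp only [hii]; ring, fun g => ?_⟩
    have h1 := hc g
    have h2 : ∑ x, c (i x) * s (g • x) = - ∑ x, c x * s (g • x) := by
      rw [← Finset.sum_neg_distrib]
      refine Finset.sum_bij (fun x _ => i x) (fun _ _ => Finset.mem_univ _)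
        (fun x _ y _ h => hinj h) (fun y _ => ⟨i y, Finset.mem_univ _, hii y⟩) ?_
      intro x _
      rw [← hi, hs]
      ring
    simp only [sub_mul, Finset.sum_sub_distrib]
    rw [h2, h1]
    simp
  have h0 := relLattice_trivial hi hii hfix hs hcard hN hodd hlN hd
  intro x
  have := congrFun h0 x
  simp only [Pi.zero_apply] at this
  linarith

section

variable {k : Type*} [Field k] {R : k[X]} {q : ℕ}

theorem ne_zero_of_root {E : Type*} [Field E] [Algebra k E] (hR : Irreducible R)
    (hdeg : R.natDegree ≠ 1) {z : E} (hz : aeval z R = 0) : z ≠ 0 := by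
  rintro rfl
  apply hdeg
  have h1 : R.eval 0 = 0 := by
    have h2 : aeval (algebraMap k E 0) R = algebraMap k E (R.eval 0) := by
      rw [aeval_algebraMap_apply, coe_aeval_eq_eval]
    rw [map_zero, hz] at h2
    exact (map_eq_zero _).mp h2.symm
  exact natDegree_eq_of_degree_eq_some (degree_eq_one_of_irreducible_of_root hR h1)

/-- Closure of the set of roots under `z ↦ q / z` in any field, if it holds in one algebraically
closed field. -/
theorem closed_transfer {A : Type*} [Field A] [Algebra k A] [IsAlgClosed A]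
    {E : Type*} [Field E] [Algebra k E] (hR : Irreducible R)
    (hsym : ∀ z : A, aeval z R = 0 → aeval ((q : A) / z) R = 0) {z : E} (hz : aeval z R = 0) :
    aeval ((q : E) / z) R = 0 := by
  have : Fact (Irreducible R) := ⟨hR⟩
  obtain ⟨w, hw⟩ := IsAlgClosed.exists_aeval_eq_zero A R (by
    intro h
    exact hR.not_isUnit (isUnit_iff_degree_eq_zero.mpr h))
  let φ : AdjoinRoot R →ₐ[k] E := AdjoinRoot.liftAlgHom R (Algebra.ofId k E) z (by
    rw [← hz]; rfl)
  let ψ : AdjoinRoot R →ₐ[k] A := AdjoinRoot.liftAlgHom R (Algebra.ofId k A) w (by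
    rw [← hw]; rfl)
  have hφ : φ (AdjoinRoot.root R) = z := AdjoinRoot.liftAlgHom_root _ _ _ _
  have hψ : ψ (AdjoinRoot.root R) = w := AdjoinRoot.liftAlgHom_root _ _ _ _
  have h3 := hsym w hw
  have h4 : (q : A) / w = ψ ((q : AdjoinRoot R) / AdjoinRoot.root R) := by
    rw [map_div₀, map_natCast, hψ]
  rw [h4, aeval_algHom_apply] at h3
  have h5 : aeval ((q : AdjoinRoot R) / AdjoinRoot.root R) R = 0 := (map_eq_zero _).mp h3
  have h6 : (q : E) / z = φ ((q : AdjoinRoot R) / AdjoinRoot.root R) := by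
    rw [map_div₀, map_natCast, hφ]
  rw [h6, aeval_algHom_apply, h5, map_zero]

/-- The roots of `R` in the splitting field and in another field where `R` splits. -/
theorem prod_roots_eq [DecidableEq k] {E : Type*} [Field E] [Algebra k E] (hR : R ≠ 0)
    (τ : R.SplittingField →ₐ[k] E) {A : Type*} [CommMonoid A] (F : E → A) :
    ∏ z ∈ (R.rootSet_finite E).toFinset, F z = ∏ x : R.rootSet R.SplittingField, F (τ x) := by
  classical
  have hinj : Function.Injective τ := τ.injective
  symm
  refine Finset.prod_bij (fun x _ => τ x) ?_ ?_ ?_ ?_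
  · intro x _
    rw [Set.Finite.mem_toFinset, mem_rootSet]
    refine ⟨hR, ?_⟩
    rw [aeval_algHom_apply, (mem_rootSet.mp x.2).2, map_zero]
  · intro x _ y _ h
    exact Subtype.ext (hinj h)
  · intro z hz
    rw [Set.Finite.mem_toFinset, mem_rootSet] at hz
    have key := (SplittingField.splits R).roots_map (τ : R.SplittingField →+* E)
    rw [map_map, AlgHom.comp_algebraMap] at key
    have h1 : z ∈ (R.map (algebraMap k E)).roots := by
      rw [mem_roots_map hR]
      exact hz.2
    rw [key, Multiset.mem_map] at h1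
    obtain ⟨x, hx, rfl⟩ := h1
    refine ⟨⟨x, ?_⟩, Finset.mem_univ _, rfl⟩
    rw [mem_rootSet]
    refine ⟨hR, ?_⟩
    rw [mem_roots_map hR] at hx
    exact hx
  · intro x _
    rfl

/-- **No nontrivial relations**, general form. -/
theorem no_relations_aux [CharZero k] (hR : Irreducible R) {ℓ a : ℕ} [hℓ : Fact ℓ.Prime]
    (hdeg : R.natDegree = 2 * ℓ ^ a) (hq0 : (q : k) ≠ 0)
    {B : Type*} [Field B] [Algebra k B] [IsAlgClosed B]
    (hsym : ∀ z : B, aeval z R = 0 → aeval ((q : B) / z) R = 0)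
    (v : B → ℝ) (hv : ∀ x y : B, x ≠ 0 → y ≠ 0 → v (x * y) = v x + v y) (hvq : v (q : B) = 1)
    (m : B → ℤ) (D : ℝ)
    (hm : ∀ z ∈ R.rootSet B, D * (2 * v z - 1) = m z)
    {N : ℕ} (hN : ∑ z ∈ (R.rootSet_finite B).toFinset, |m z| = 2 * N)
    (hodd : Odd N) (hlN : ℓ = 2 ∨ N < ℓ)
    {E : Type*} [Field E] [Algebra k E] (hsplit : (R.map (algebraMap k E)).Splits)
    (c : E → ℕ) (M : ℕ)
    (hrel : ∏ z ∈ (R.rootSet_finite E).toFinset, z ^ c z = (q : E) ^ M) :
    ∀ z, aeval z R = 0 → (q : E) / z ≠ z ∧ c ((q : E) / z) = c z := by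
  classical
  have hdeg1 : R.natDegree ≠ 1 := by
    rw [hdeg]
    intro h
    have h2 : 0 < ℓ ^ a := pow_pos hℓ.out.pos _
    omega
  have hR0 := hR.ne_zero
  let L := R.SplittingField
  let σ : L →ₐ[k] B := IsAlgClosed.lift
  let τ : L →ₐ[k] E := SplittingField.lift R hsplit
  have hmem : ∀ x : L, x ∈ R.rootSet L ↔ aeval x R = 0 := fun x => by
    rw [mem_rootSet]; exact ⟨fun h => h.2, fun h => ⟨hR0, h⟩⟩
  -- the involution
  let i : R.rootSet L → R.rootSet L := fun x => ⟨(q : L) / x, (hmem _).mpr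
    (closed_transfer hR hsym ((hmem _).mp x.2))⟩
  have hne : ∀ x : R.rootSet L, (x : L) ≠ 0 := fun x => ne_zero_of_root hR hdeg1 ((hmem _).mp x.2)
  have hqL : (q : L) ≠ 0 := by
    have : algebraMap k L (q : k) ≠ 0 := (_root_.map_ne_zero _).mpr hq0
    rwa [map_natCast] at this
  have hqB : (q : B) ≠ 0 := by
    have : algebraMap k B (q : k) ≠ 0 := (_root_.map_ne_zero _).mpr hq0
    rwa [map_natCast] at this
  have hii : ∀ x, i (i x) = x := by
    intro x
    apply Subtype.ext
    change (q : L) / ((q : L) / x) = x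
    rw [div_div_cancel₀ hqL]
  -- the Galois action
  have htrans : IsPretransitive R.Gal (R.rootSet L) := by
    refine ⟨fun x y => ?_⟩
    have hx := minpoly.eq_of_irreducible hR ((hmem _).mp x.2)
    have hy := minpoly.eq_of_irreducible hR ((hmem _).mp y.2)
    obtain ⟨g, hg⟩ := (Normal.minpoly_eq_iff_mem_orbit R.SplittingField).mp (hy.symm.trans hx)
    exact ⟨g, Subtype.ext hg⟩
  have hi : ∀ (g : R.Gal) x, i (g • x) = g • i x := by
    intro g x
    apply Subtype.ext
    change (q : L) / (g x) = g ((q : L) / x)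
    rw [map_div₀, map_natCast]
  -- slopes
  let s : R.rootSet L → ℤ := fun x => m (σ x)
  have hσmem : ∀ x : R.rootSet L, σ x ∈ R.rootSet B := by
    intro x
    rw [mem_rootSet]
    refine ⟨hR0, ?_⟩
    rw [aeval_algHom_apply, (hmem _).mp x.2, map_zero]
  have hσne : ∀ x : L, x ≠ 0 → σ x ≠ 0 := fun x hx => (_root_.map_ne_zero σ).mpr hx
  have hslope : ∀ x : L, x ≠ 0 → v (σ ((q : L) / x)) = 1 - v (σ x) := by
    intro x hx
    have h1 : σ ((q : L) / x) * σ x = (q : B) := by
      rw [← map_mul, div_mul_cancel₀ _ hx, map_natCast]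
    have h2 := hv (σ ((q : L) / x)) (σ x) (hσne _ (div_ne_zero hqL hx)) (hσne _ hx)
    rw [h1, hvq] at h2
    linarith
  have hs : ∀ x, s (i x) = - s x := by
    intro x
    have h1 := hm _ (hσmem (i x))
    have h2 := hm _ (hσmem x)
    have h3 : v (σ (i x : L)) = 1 - v (σ x) := hslope x (hne x)
    rw [h3] at h1
    have h4 : ((m (σ (i x : L)) : ℤ) : ℝ) = - (m (σ (x : L)) : ℤ) := by
      rw [← h1, ← h2]; ring
    exact_mod_cast h4
  have hcard : Nat.card (R.rootSet L) = 2 * ℓ ^ a := by
    rw [Nat.card_eq_fintype_card]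
    rw [card_rootSet_eq_natDegree hR.separable (SplittingField.splits R), hdeg]
  have hN' : ∑ x, |s x| = 2 * N := by
    rw [← hN]
    exact (prod_roots_eq (A := Multiplicative ℤ) hR0 σ (fun z => Multiplicative.ofAdd |m z|)).symm
  -- the relation in the splitting field
  have hv1 : v 1 = 0 := by
    have := hv 1 1 one_ne_zero one_ne_zero
    rw [mul_one] at this
    linarith
  have hvpow : ∀ (x : B) (n : ℕ), x ≠ 0 → v (x ^ n) = n * v x := by
    intro x n hx
    induction n with
    | zero => simp [hv1]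
    | succ n ih =>
      rw [pow_succ, hv _ _ (pow_ne_zero _ hx) hx, ih]
      push_cast
      ring
  have hvprod : ∀ (S : Finset (R.rootSet L)) (F : R.rootSet L → B) (e : R.rootSet L → ℕ),
      (∀ x, F x ≠ 0) → v (∏ x ∈ S, F x ^ e x) = ∑ x ∈ S, e x * v (F x) := by
    intro S F e hF
    induction S using Finset.induction_on with
    | empty => simp [hv1]
    | insert a S ha ih =>
      rw [Finset.prod_insert ha, Finset.sum_insert ha, hv, ih, hvpow _ _ (hF a)]
      · exact pow_ne_zero _ (hF a)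
      · exact Finset.prod_ne_zero_iff.mpr fun x _ => pow_ne_zero _ (hF x)
  have hrelL : ∏ x : R.rootSet L, (x : L) ^ c (τ x) = (q : L) ^ M := by
    have h1 := hrel
    rw [prod_roots_eq hR0 τ] at h1
    apply τ.injective
    rw [map_prod, map_pow, map_natCast, ← h1]
    refine Finset.prod_congr rfl fun x _ => ?_
    rw [map_pow]
    rfl
  have hvrel : ∀ g : R.Gal, ∑ x : R.rootSet L, (c (τ x) : ℝ) * v (σ (g • x : R.rootSet L)) = M := by
    intro g
    have h1 := congrArg (fun y => v (σ (g y))) hrelL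
    simp only [map_prod, map_pow, map_natCast] at h1
    rw [hvprod _ _ _ (fun x => hσne _ ((_root_.map_ne_zero g).mpr (hne x))), hvpow _ _ hqB, hvq,
      mul_one] at h1
    exact h1
  have hconst : ∀ g : R.Gal, ∑ x : R.rootSet L, (c (τ x) : ℤ) * s (g • x) =
      ∑ x : R.rootSet L, (c (τ x) : ℤ) * s x := by
    have key : ∀ g : R.Gal, ((∑ x : R.rootSet L, (c (τ x) : ℤ) * s (g • x) : ℤ) : ℝ) =
        D * (2 * M - ∑ x : R.rootSet L, (c (τ x) : ℝ)) := by
      intro g
      rw [← hvrel g]
      push_cast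
      rw [Finset.mul_sum, ← Finset.sum_sub_distrib, Finset.mul_sum]
      refine Finset.sum_congr rfl fun x _ => ?_
      have h2 := hm _ (hσmem (g • x))
      change (c (τ x) : ℝ) * (m (σ (g • x : R.rootSet L)) : ℝ) = _
      rw [← h2]
      ring
    intro g
    have h1 := key g
    have h2 := key 1
    simp only [one_smul] at h2
    rw [← h2] at h1
    exact_mod_cast h1
  obtain ⟨hfix, hsymm⟩ := symm_of_relation hi hii hs hcard hN' hodd hlN hconst
  intro z hz
  obtain ⟨x, rfl⟩ : ∃ x : R.rootSet L, z = τ x := by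
    have key := (SplittingField.splits R).roots_map (τ : R.SplittingField →+* E)
    rw [map_map, AlgHom.comp_algebraMap] at key
    have h1 : z ∈ (R.map (algebraMap k E)).roots := by
      rw [mem_roots_map hR0]
      exact hz
    rw [key, Multiset.mem_map] at h1
    obtain ⟨x, hx, rfl⟩ := h1
    refine ⟨⟨x, ?_⟩, rfl⟩
    rw [mem_rootSet]
    refine ⟨hR0, ?_⟩
    rw [mem_roots_map hR0] at hx
    exact hx
  have h1 : (q : E) / τ x = τ (i x) := by
    change _ = τ ((q : L) / x)
    rw [map_div₀, map_natCast]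
  rw [h1]
  refine ⟨fun h => hfix x (Subtype.ext (τ.injective h)), ?_⟩
  have h2 := hsymm x
  exact_mod_cast h2

end

end Pool.Agent.Lib.MP_950c68_ag
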