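import Mathlib
import Pool.Agent.Lib.MP_950c68_ag.Gal

/-!
# Pairs of eigenvalues with product `q`, and eigenspace decompositions
-/

namespace Pool.Agent.Lib.MP_950c68_ag

open Polynomial

/-- Sum of kernels for a product of distinct linear factors. -/
theorem iSup_eigenspace_of_prod {E V : Type*} [Field E] [AddCommGroup V] [Module E V]
    (F : Module.End E V) (Z : Finset E) :
    LinearMap.ker (aeval F (∏ μ ∈ Z, (X - C μ))) = ⨆ μ ∈ Z, F.eigenspace μ := by
  classical
  induction Z using Finset.induction_on with
  | empty =>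
    simp only [Finset.prod_empty, map_one, Finset.notMem_empty, iSup_false, iSup_bot]
    exact LinearMap.ker_eq_bot.mpr (fun x y h => h)
  | insert a Z ha ih =>
    rw [Finset.prod_insert ha, ← sup_ker_aeval_eq_ker_aeval_mul_of_coprime, ih,
      Finset.iSup_insert]
    · congr 1
      rw [Module.End.eigenspace_def]
      congr 1
      simp [aeval_def, Algebra.algebraMap_eq_smul_one]
    · apply IsCoprime.prod_right
      intro μ hμ
      apply pairwise_coprime_X_sub_C Function.injective_id
      rintro rfl
      exact ha hμ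

/-- An element of the span of eigenvectors which is itself an eigenvector lies in the span of the
eigenvectors with the same eigenvalue. -/
theorem mem_span_of_eigen {E W : Type*} [Field E] [AddCommGroup W] [Module E W]
    (f : Module.End E W) (S : Set W) (hS : ∀ w ∈ S, ∃ μ : E, f w = μ • w) (lam : E) {x : W}
    (hx : x ∈ Submodule.span E S) (hfx : f x = lam • x) :
    x ∈ Submodule.span E {w ∈ S | f w = lam • w} := by
  classical
  let U : E → Submodule E W := fun μ => Submodule.span E {w ∈ S | f w = μ • w}
  have hU : ∀ μ, U μ ≤ f.eigenspace μ := by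
    intro μ
    rw [Submodule.span_le]
    rintro w ⟨_, hw⟩
    exact Module.End.mem_eigenspace_iff.mpr hw
  have hle : Submodule.span E S ≤ U lam ⊔ ⨆ (μ) (_ : μ ≠ lam), U μ := by
    rw [Submodule.span_le]
    intro w hw
    obtain ⟨μ, hμ⟩ := hS w hw
    by_cases h : μ = lam
    · subst h
      exact Submodule.mem_sup_left (Submodule.subset_span ⟨hw, hμ⟩)
    · apply Submodule.mem_sup_right
      exact Submodule.mem_iSup_of_mem μ (Submodule.mem_iSup_of_mem h (Submodule.subset_span ⟨hw, hμ⟩))
  obtain ⟨a, ha, b, hb, hab⟩ := Submodule.mem_sup.mp (hle hx)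
  have hb' : b ∈ ⨆ (μ) (_ : μ ≠ lam), f.eigenspace μ :=
    (iSup_mono fun μ => iSup_mono fun _ => hU μ) hb
  have hb2 : b ∈ f.eigenspace lam := by
    have h1 : b = x - a := by rw [← hab]; abel
    rw [h1]
    exact Submodule.sub_mem _ (Module.End.mem_eigenspace_iff.mpr hfx) (hU _ ha)
  have hdis := f.eigenspaces_iSupIndep lam
  rw [Submodule.disjoint_def] at hdis
  have hb0 : b = 0 := hdis b hb2 hb'
  rw [hb0, add_zero] at hab
  rw [← hab]
  exact ha

section

variable {R : ℚ[X]} {q : ℕ}

/-- The data of the theorem, bundled for convenience: `R` has no nontrivial relations in `E`. -/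
def NoRel (R : ℚ[X]) (q : ℕ) (E : Type*) [Field E] [Algebra ℚ E] : Prop :=
  ∀ (c : E → ℕ) (M : ℕ), ∏ z ∈ (R.rootSet_finite E).toFinset, z ^ c z = (q : E) ^ M →
    ∀ z, aeval z R = 0 → (q : E) / z ≠ z ∧ c ((q : E) / z) = c z

theorem exists_pair {E : Type*} [Field E] [Algebra ℚ E] (hR0 : R ≠ 0) (h0 : ∀ z : E, aeval z R = 0 → z ≠ 0)
    (hq0 : (q : E) ≠ 0) (hrel : NoRel R q E) {β : Type*} (μ : β → E) (l : List β) {n : ℕ}
    (hn : n ≠ 0) {j : ℕ} (hlen : l.length = 2 * (j + 1))
    (hl : ∀ b ∈ l, aeval (μ b) R = 0 ∨ μ b ^ 2 = q)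
    (hprod : ((l.map μ).prod) ^ n = (q : E) ^ (n * (j + 1))) :
    ∃ a b rest, l.Perm (a :: b :: rest) ∧ (μ a * μ b) ^ n = (q : E) ^ n := by
  classical
  let l1 := l.filter (fun b => aeval (μ b) R = 0)
  let l2 := l.filter (fun b => ¬ aeval (μ b) R = 0)
  have hperm : (l1 ++ l2).Perm l := by
    have := List.filter_append_perm (fun b => decide (aeval (μ b) R = 0)) l
    simpa [l1, l2] using this
  have hlen12 : l1.length + l2.length = 2 * (j + 1) := by
    rw [← hlen, ← hperm.length_eq, List.length_append]
  have hprod12 : (l.map μ).prod = (l1.map μ).prod * (l2.map μ).prod := by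
    rw [← (hperm.map μ).prod_eq, List.map_append, List.prod_append]
  have hl2 : ∀ b ∈ l2, μ b ^ 2 = q := by
    intro b hb
    simp only [l2, List.mem_filter, decide_not, Bool.not_eq_eq_eq_not, Bool.not_true,
      decide_eq_false_iff_not] at hb
    rcases hl b hb.1 with h | h
    · exact absurd h hb.2
    · exact h
  have hl2prod : ((l2.map μ).prod) ^ 2 = (q : E) ^ l2.length := by
    clear_value l2
    clear hperm hlen12 hprod12
    induction l2 with
    | nil => simp
    | cons b t ih =>
      rw [List.map_cons, List.prod_cons, mul_pow, hl2 b List.mem_cons_self,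
        ih (fun c hc => hl2 c (List.mem_cons_of_mem _ hc)), List.length_cons, pow_succ, mul_comm]
  have hl1prod : ((l1.map μ).prod) ^ (2 * n) = (q : E) ^ (n * l1.length) := by
    have h1 : ((l1.map μ).prod) ^ (2 * n) * (q : E) ^ (n * l2.length) =
        (q : E) ^ (n * l1.length) * (q : E) ^ (n * l2.length) := by
      rw [← pow_add, ← mul_add, hlen12]
      have h2 : (((l.map μ).prod) ^ n) ^ 2 = ((q : E) ^ (n * (j + 1))) ^ 2 := by rw [hprod]
      rw [hprod12, mul_pow, mul_pow, ← pow_mul, ← pow_mul, mul_comm n 2, pow_mul (l2.map μ).prod,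
        hl2prod, ← pow_mul, ← pow_mul] at h2
      rw [show n * (2 * (j + 1)) = n * (j + 1) * 2 by ring, ← h2, mul_comm n l2.length]
    exact mul_right_cancel₀ (pow_ne_zero _ hq0) h1
  -- the multiset of eigenvalues that are roots of `R`
  let m : Multiset E := ((l1.map μ : List E) : Multiset E)
  have hmsub : m.toFinset ⊆ (R.rootSet_finite E).toFinset := by
    intro z hz
    rw [Multiset.mem_toFinset] at hz
    rw [Set.Finite.mem_toFinset, mem_rootSet]
    simp only [m, Multiset.mem_coe, List.mem_map, l1, List.mem_filter, decide_eq_true_eq] at hz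
    obtain ⟨b, hb, rfl⟩ := hz
    exact ⟨hR0, hb.2⟩
  have hmprod : m.prod = ∏ z ∈ (R.rootSet_finite E).toFinset, z ^ m.count z :=
    Finset.prod_multiset_count_of_subset m _ hmsub
  have hkey := hrel (fun z => m.count z * (2 * n)) (n * l1.length) (by
    rw [← hl1prod]
    have : (l1.map μ).prod = m.prod := by simp [m]
    rw [this, hmprod, ← Finset.prod_pow]
    exact Finset.prod_congr rfl fun z _ => by rw [pow_mul])
  by_cases hne : l1 = []
  · -- all eigenvalues are square roots of `q`
    have hall : ∀ b ∈ l, μ b ^ 2 = q := by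
      intro b hb
      apply hl2
      have : b ∈ l1 ++ l2 := hperm.mem_iff.mpr hb
      rw [hne] at this
      simpa using this
    match l, hlen, hall, hprod with
    | [], hlen, _, _ => simp at hlen
    | [a], hlen, _, _ => simp at hlen; omega
    | [a, b], hlen, _, hprod =>
      refine ⟨a, b, [], List.Perm.refl _, ?_⟩
      simp only [List.length_cons, List.length_nil] at hlen
      have hj : j = 0 := by omega
      subst hj
      simpa using hprod
    | a :: b :: c :: t, _, hall, _ =>
      have ha := hall a (by simp)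
      have hb := hall b (by simp)
      have hc := hall c (by simp)
      have hab : μ b = μ a ∨ μ b = - μ a := by
        apply sq_eq_sq_iff_eq_or_eq_neg.mp
        rw [ha, hb]
      have hac : μ c = μ a ∨ μ c = - μ a := by
        apply sq_eq_sq_iff_eq_or_eq_neg.mp
        rw [ha, hc]
      rcases hab with hab | hab
      · refine ⟨a, b, c :: t, List.Perm.refl _, ?_⟩
        rw [hab, ← sq, ha]
      rcases hac with hac | hac
      · refine ⟨a, c, b :: t, List.Perm.cons _ (List.Perm.swap _ _ _), ?_⟩
        rw [hac, ← sq, ha]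
      · refine ⟨b, c, a :: t, ?_, ?_⟩
        · exact (List.Perm.swap _ _ _).trans (List.Perm.cons _ (List.Perm.swap _ _ _))
        · rw [hac, ← hab, ← sq, hb]
  · obtain ⟨a, ha⟩ := List.exists_mem_of_ne_nil _ hne
    have ha' := ha
    simp only [l1, List.mem_filter, decide_eq_true_eq] at ha'
    obtain ⟨hfix, hcount⟩ := hkey (μ a) ha'.2
    have hcount' : m.count ((q : E) / μ a) = m.count (μ a) := by
      have h2n : 0 < 2 * n := by omega
      exact Nat.eq_of_mul_eq_mul_right h2n hcount
    have hpos : 0 < m.count (μ a) := by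
      rw [Multiset.count_pos]
      simp only [m, Multiset.mem_coe, List.mem_map]
      exact ⟨a, ha, rfl⟩
    rw [← hcount', Multiset.count_pos] at hpos
    simp only [m, Multiset.mem_coe, List.mem_map] at hpos
    obtain ⟨b, hb, hbμ⟩ := hpos
    have hb' := hb
    simp only [l1, List.mem_filter, decide_eq_true_eq] at hb'
    have hne' : b ≠ a := by
      rintro rfl
      exact hfix hbμ.symm
    have hbe : b ∈ l.erase a := (List.mem_erase_of_ne hne').mpr hb'.1
    refine ⟨a, b, (l.erase a).erase b, ?_, ?_⟩
    · exact (List.perm_cons_erase ha'.1).trans (List.Perm.cons _ (List.perm_cons_erase hbe))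
    · rw [hbμ, mul_div_cancel₀ _ (h0 _ ha'.2)]

end

end Pool.Agent.Lib.MP_950c68_ag
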