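import Mathlib
import Pool.Agent.Lib.MP_950c68_ag.Ext

/-!
# Descent from an extension field for exterior algebras
-/

namespace Pool.Agent.Lib.MP_950c68_ag

open Polynomial
open scoped TensorProduct

section

variable (K E : Type*) {V : Type*} [Field K] [Field E] [Algebra K E] [AddCommGroup V] [Module K V]

/-- The map `⋀ (E ⊗ V) → E ⊗ ⋀ V`. -/
noncomputable def toTensor :
    ExteriorAlgebra E (E ⊗[K] V) →ₐ[E] E ⊗[K] ExteriorAlgebra K V :=
  ExteriorAlgebra.lift E ⟨(ExteriorAlgebra.ι K : V →ₗ[K] ExteriorAlgebra K V).baseChange E, by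
    have hanti : ∀ x y : E ⊗[K] V,
        (ExteriorAlgebra.ι K : V →ₗ[K] ExteriorAlgebra K V).baseChange E x *
          (ExteriorAlgebra.ι K : V →ₗ[K] ExteriorAlgebra K V).baseChange E y +
        (ExteriorAlgebra.ι K : V →ₗ[K] ExteriorAlgebra K V).baseChange E y *
          (ExteriorAlgebra.ι K : V →ₗ[K] ExteriorAlgebra K V).baseChange E x = 0 := by
      intro x y
      induction x using TensorProduct.induction_on with
      | zero => simp
      | add x x' hx hx' =>
        rw [map_add, add_mul, mul_add]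
        rw [← add_zero (0 : E ⊗[K] ExteriorAlgebra K V)]
        nth_rewrite 1 [← hx]
        rw [← hx']
        abel
      | tmul a v =>
        induction y using TensorProduct.induction_on with
        | zero => simp
        | add y y' hy hy' =>
          rw [map_add, mul_add, add_mul]
          rw [← add_zero (0 : E ⊗[K] ExteriorAlgebra K V)]
          nth_rewrite 1 [← hy]
          rw [← hy']
          abel
        | tmul b w =>
          simp only [LinearMap.baseChange_tmul, Algebra.TensorProduct.tmul_mul_tmul]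
          rw [mul_comm b a, ← TensorProduct.tmul_add, ExteriorAlgebra.ι_add_mul_swap,
            TensorProduct.tmul_zero]
    intro m
    induction m using TensorProduct.induction_on with
    | zero => simp
    | add x y hx hy =>
      rw [map_add, mul_add, add_mul, add_mul, hx, hy]
      have := hanti x y
      rw [zero_add, add_zero, add_comm]
      exact this
    | tmul a v =>
      simp only [LinearMap.baseChange_tmul, Algebra.TensorProduct.tmul_mul_tmul,
        ExteriorAlgebra.ι_sq_zero, TensorProduct.tmul_zero]⟩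

theorem toTensor_ι (m : E ⊗[K] V) :
    toTensor K E (ExteriorAlgebra.ι E m) =
      (ExteriorAlgebra.ι K : V →ₗ[K] ExteriorAlgebra K V).baseChange E m := by
  rw [toTensor, ExteriorAlgebra.lift_ι_apply]

/-- The map `⋀ V → ⋀ (E ⊗ V)`. -/
noncomputable def ofBase : ExteriorAlgebra K V →ₐ[K] ExteriorAlgebra E (E ⊗[K] V) :=
  ExteriorAlgebra.lift K
    ⟨((ExteriorAlgebra.ι E : (E ⊗[K] V) →ₗ[E] _).restrictScalars K) ∘ₗ (TensorProduct.mk K E V 1), by
      intro m
      simp only [LinearMap.coe_comp, Function.comp_apply, LinearMap.restrictScalars_apply,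
        ExteriorAlgebra.ι_sq_zero]⟩

theorem ofBase_ι (v : V) :
    ofBase K E (ExteriorAlgebra.ι K v) = ExteriorAlgebra.ι E ((1 : E) ⊗ₜ[K] v) := by
  rw [ofBase, ExteriorAlgebra.lift_ι_apply]
  rfl

theorem toTensor_ofBase (x : ExteriorAlgebra K V) :
    toTensor K E (ofBase K E x) = (1 : E) ⊗ₜ[K] x := by
  have h : ((toTensor K E).restrictScalars K).comp (ofBase K E) =
      (Algebra.TensorProduct.includeRight : ExteriorAlgebra K V →ₐ[K] E ⊗[K] ExteriorAlgebra K V) := by
    apply ExteriorAlgebra.hom_ext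
    ext v
    simp only [LinearMap.coe_comp, Function.comp_apply, AlgHom.toLinearMap_apply, AlgHom.coe_comp,
      AlgHom.restrictScalars_apply, Algebra.TensorProduct.includeRight_apply]
    rw [ofBase_ι, toTensor_ι, LinearMap.baseChange_tmul]
  exact congrArg (fun f => f x) h

theorem ofBase_map (F : V →ₗ[K] V) (x : ExteriorAlgebra K V) :
    ofBase K E (ExteriorAlgebra.map F x) =
      ExteriorAlgebra.map (F.baseChange E) (ofBase K E x) := by
  have h : (ofBase K E).comp (ExteriorAlgebra.map F) =
      ((ExteriorAlgebra.map (F.baseChange E)).restrictScalars K).comp (ofBase K E) := by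
    apply ExteriorAlgebra.hom_ext
    ext v
    simp only [LinearMap.coe_comp, Function.comp_apply, AlgHom.toLinearMap_apply, AlgHom.coe_comp,
      AlgHom.restrictScalars_apply, ExteriorAlgebra.map_apply_ι]
    rw [ofBase_ι, ofBase_ι, ExteriorAlgebra.map_apply_ι, LinearMap.baseChange_tmul]
  exact congrArg (fun f => f x) h

theorem toTensor_map (F : V →ₗ[K] V) (y : ExteriorAlgebra E (E ⊗[K] V)) :
    toTensor K E (ExteriorAlgebra.map (F.baseChange E) y) =
      (ExteriorAlgebra.map F).toLinearMap.baseChange E (toTensor K E y) := by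
  have h : (toTensor K E).comp (ExteriorAlgebra.map (F.baseChange E)) =
      (Algebra.TensorProduct.map (AlgHom.id E E) (ExteriorAlgebra.map F)).comp (toTensor K E) := by
    refine ExteriorAlgebra.hom_ext (LinearMap.ext fun m => ?_)
    change toTensor K E (ExteriorAlgebra.map (F.baseChange E) (ExteriorAlgebra.ι E m)) =
      Algebra.TensorProduct.map (AlgHom.id E E) (ExteriorAlgebra.map F)
        (toTensor K E (ExteriorAlgebra.ι E m))
    rw [ExteriorAlgebra.map_apply_ι, toTensor_ι, toTensor_ι]
    induction m using TensorProduct.induction_on with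
    | zero => simp
    | add x y hx hy => simp only [map_add, hx, hy]
    | tmul a v =>
      simp only [LinearMap.baseChange_tmul, Algebra.TensorProduct.map_tmul,
        ExteriorAlgebra.map_apply_ι, AlgHom.coe_id, id_eq]
  have h2 := congrArg (fun f => f y) h
  simp only [AlgHom.coe_comp, Function.comp_apply] at h2
  rw [h2]
  rfl

variable {K}

/-- Contraction with a functional on `E`. -/
noncomputable def contr {W : Type*} [AddCommGroup W] [Module K W] (φ : E →ₗ[K] K) :
    E ⊗[K] W →ₗ[K] W :=
  (TensorProduct.lid K W).toLinearMap ∘ₗ φ.rTensor W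

theorem contr_tmul {W : Type*} [AddCommGroup W] [Module K W] (φ : E →ₗ[K] K) (e : E) (w : W) :
    contr E φ (e ⊗ₜ[K] w) = φ e • w := by
  simp [contr]

theorem contr_smul {W : Type*} [AddCommGroup W] [Module K W] (φ : E →ₗ[K] K) (e : E)
    (z : E ⊗[K] W) : contr E φ (e • z) = contr E (φ ∘ₗ LinearMap.mulLeft K e) z := by
  induction z using TensorProduct.induction_on with
  | zero => simp
  | add x y hx hy => rw [smul_add, map_add, hx, hy, map_add]
  | tmul a w =>
    rw [TensorProduct.smul_tmul', contr_tmul, contr_tmul]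
    rfl

/-- The `E`-span of a `K`-subspace in the base change. -/
noncomputable def BC {W : Type*} [AddCommGroup W] [Module K W] (T : Submodule K W) :
    Submodule E (E ⊗[K] W) :=
  Submodule.span E ((fun t : W => (1 : E) ⊗ₜ[K] t) '' (T : Set W))

theorem contr_mem {W : Type*} [AddCommGroup W] [Module K W] {T : Submodule K W}
    {z : E ⊗[K] W} (hz : z ∈ BC E T) : ∀ φ : E →ₗ[K] K, contr E φ z ∈ T := by
  refine Submodule.span_induction (p := fun z _ => ∀ φ : E →ₗ[K] K, contr E φ z ∈ T)
    ?_ ?_ ?_ ?_ hz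
  · rintro _ ⟨t, ht, rfl⟩ φ
    rw [contr_tmul]
    exact T.smul_mem _ ht
  · intro φ
    rw [map_zero]
    exact T.zero_mem
  · intro x y _ _ hx hy φ
    rw [map_add]
    exact T.add_mem (hx φ) (hy φ)
  · intro a x _ hx φ
    rw [contr_smul]
    exact hx _

theorem mem_BC {W : Type*} [AddCommGroup W] [Module K W] {T : Submodule K W}
    {z : E ⊗[K] W} (hz : ∀ φ : E →ₗ[K] K, contr E φ z ∈ T) : z ∈ BC E T := by
  classical
  let b := Module.Basis.ofVectorSpace K E
  obtain ⟨c, rfl⟩ := TensorProduct.eq_repr_basis_left b z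
  have hc : ∀ i, c i ∈ T := by
    intro i
    have h1 := hz (b.coord i)
    have h2 : contr E (b.coord i) (c.sum fun i m => b i ⊗ₜ[K] m) = c i := by
      rw [Finsupp.sum, map_sum]
      simp only [contr_tmul, Module.Basis.coord_apply, Module.Basis.repr_self]
      rw [Finset.sum_eq_single i]
      · simp
      · intro j _ hj
        rw [Finsupp.single_apply, if_neg hj, zero_smul]
      · intro hi
        rw [Finsupp.notMem_support_iff] at hi
        rw [hi, smul_zero]
    rwa [h2] at h1
  rw [Finsupp.sum]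
  refine Submodule.sum_mem _ fun i _ => ?_
  have h3 : b i ⊗ₜ[K] c i = b i • ((1 : E) ⊗ₜ[K] c i) := by
    rw [TensorProduct.smul_tmul', smul_eq_mul, mul_one]
  rw [h3]
  exact Submodule.smul_mem _ _ (Submodule.subset_span ⟨_, hc i, rfl⟩)

theorem BC_mul {A : Type*} [Ring A] [Algebra K A] (S T : Submodule K A) :
    BC E S * BC E T ≤ BC E (S * T) := by
  rw [BC, BC, Submodule.span_mul_span, Submodule.span_le]
  rintro _ ⟨_, ⟨s, hs, rfl⟩, _, ⟨t, ht, rfl⟩, rfl⟩
  apply Submodule.subset_span
  refine ⟨s * t, Submodule.mul_mem_mul hs ht, ?_⟩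
  simp

theorem BC_pow {A : Type*} [Ring A] [Algebra K A] (S : Submodule K A) (n : ℕ) :
    (BC E S) ^ n ≤ BC E (S ^ n) := by
  induction n with
  | zero =>
    rw [pow_zero, pow_zero, Submodule.one_le]
    exact Submodule.subset_span ⟨1, Submodule.one_le.mp le_rfl, rfl⟩
  | succ n ih =>
    rw [pow_succ, pow_succ]
    exact (mul_le_mul' ih le_rfl).trans (BC_mul E _ _)

theorem of_mem_BC {W : Type*} [AddCommGroup W] [Module K W] {T : Submodule K W} {x : W}
    (hx : (1 : E) ⊗ₜ[K] x ∈ BC E T) : x ∈ T := by
  obtain ⟨φ, hφ⟩ : ∃ φ : E →ₗ[K] K, φ 1 = 1 := by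
    obtain ⟨φ, hφ⟩ := (LinearMap.toSpanSingleton K E (1 : E)).exists_leftInverse_of_injective (by
      rw [LinearMap.ker_toSpanSingleton K one_ne_zero])
    refine ⟨φ, ?_⟩
    have := LinearMap.congr_fun hφ 1
    simpa using this
  have h := contr_mem E hx φ
  rwa [contr_tmul, hφ, one_smul] at h

variable (K) in
theorem ofBase_mem {m : ℕ} {x : ExteriorAlgebra K V} (hx : x ∈ ⋀[K]^m V) :
    ofBase K E x ∈ ⋀[E]^m (E ⊗[K] V) := by
  rw [← ExteriorAlgebra.ιMulti_span_fixedDegree] at hx
  refine Submodule.span_induction (p := fun x _ => ofBase K E x ∈ ⋀[E]^m (E ⊗[K] V))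
    ?_ ?_ ?_ ?_ hx
  · rintro _ ⟨v, rfl⟩
    have h1 : ofBase K E (ExteriorAlgebra.ιMulti K m v) =
        ExteriorAlgebra.ιMulti E m (fun i => (1 : E) ⊗ₜ[K] v i) := by
      rw [ExteriorAlgebra.ιMulti_apply, ExteriorAlgebra.ιMulti_apply, map_list_prod,
        List.map_ofFn]
      simp only [Function.comp_def, ofBase_ι]
    rw [h1, ← ExteriorAlgebra.ιMulti_span_fixedDegree]
    exact Submodule.subset_span ⟨_, rfl⟩
  · rw [map_zero]
    exact Submodule.zero_mem _
  · intro x y _ _ hx hy
    rw [map_add]
    exact Submodule.add_mem _ hx hy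
  · intro a x _ hx
    rw [map_smul, ← algebraMap_smul E a]
    exact Submodule.smul_mem _ _ hx

variable (K)

theorem toTensor_mem {m : ℕ} {y : ExteriorAlgebra E (E ⊗[K] V)} (hy : y ∈ ⋀[E]^m (E ⊗[K] V)) :
    toTensor K E y ∈ BC E (⋀[K]^m V) := by
  have h1 : (LinearMap.range (ExteriorAlgebra.ι E : (E ⊗[K] V) →ₗ[E] _)).map
      (toTensor K E).toLinearMap ≤
      BC E (LinearMap.range (ExteriorAlgebra.ι K : V →ₗ[K] ExteriorAlgebra K V)) := by
    rintro _ ⟨_, ⟨v, rfl⟩, rfl⟩
    change toTensor K E (ExteriorAlgebra.ι E v) ∈ _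
    rw [toTensor_ι]
    induction v using TensorProduct.induction_on with
    | zero => rw [map_zero]; exact Submodule.zero_mem _
    | add x y hx hy => rw [map_add]; exact Submodule.add_mem _ hx hy
    | tmul a v =>
      rw [LinearMap.baseChange_tmul]
      have h3 : a ⊗ₜ[K] (ExteriorAlgebra.ι K v) = a • ((1 : E) ⊗ₜ[K] (ExteriorAlgebra.ι K v)) := by
        rw [TensorProduct.smul_tmul', smul_eq_mul, mul_one]
      rw [h3]
      exact Submodule.smul_mem _ _ (Submodule.subset_span ⟨_, ⟨v, rfl⟩, rfl⟩)
  have h2 : toTensor K E y ∈ ((⋀[E]^m (E ⊗[K] V)).map (toTensor K E).toLinearMap) :=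
    Submodule.mem_map_of_mem hy
  rw [ExteriorAlgebra.exteriorPower, Submodule.map_pow] at h2
  exact BC_pow E _ m (pow_le_pow_left' h1 m h2)

/-- Descent of the inclusion from `E` to `K`. -/
theorem tateClasses_descent (F : V →ₗ[K] V) (Q : K) (j : ℕ)
    (h : tateClasses E (F.baseChange E) (algebraMap K E Q) j ≤
      (tateClasses E (F.baseChange E) (algebraMap K E Q) 1) ^ j) :
    tateClasses K F Q j ≤ (tateClasses K F Q 1) ^ j := by
  intro x hx
  rw [mem_tateClasses] at hx
  apply of_mem_BC E
  have h1 : ofBase K E x ∈ tateClasses E (F.baseChange E) (algebraMap K E Q) j := by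
    rw [mem_tateClasses]
    refine ⟨ofBase_mem K E hx.1, ?_⟩
    rw [← ofBase_map, hx.2, map_smul, ← map_pow, algebraMap_smul]
  have h2 : (tateClasses E (F.baseChange E) (algebraMap K E Q) 1).map (toTensor K E).toLinearMap ≤
      BC E (tateClasses K F Q 1 : Submodule K (ExteriorAlgebra K V)) := by
    rintro _ ⟨y, hy, rfl⟩
    change toTensor K E y ∈ _
    have hy' := mem_tateClasses.mp hy
    apply mem_BC
    intro φ
    rw [mem_tateClasses]
    refine ⟨contr_mem E (toTensor_mem K E hy'.1) φ, ?_⟩
    have h3 := toTensor_map K E F y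
    rw [hy'.2, map_smul, pow_one] at h3
    have h4 : ∀ (φ : E →ₗ[K] K) (z : E ⊗[K] ExteriorAlgebra K V),
        contr E φ ((ExteriorAlgebra.map F).toLinearMap.baseChange E z) =
        ExteriorAlgebra.map F (contr E φ z) := by
      intro φ z
      induction z using TensorProduct.induction_on with
      | zero => simp
      | add x y hx hy => simp only [map_add, hx, hy]
      | tmul a v =>
        rw [LinearMap.baseChange_tmul, contr_tmul, contr_tmul, map_smul]
        rfl
    rw [← h4, ← h3, contr_smul, pow_one]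
    have h5 : φ ∘ₗ LinearMap.mulLeft K (algebraMap K E Q) = Q • φ := by
      ext a
      simp [← Algebra.smul_def]
    rw [h5]
    generalize toTensor K E y = z
    induction z using TensorProduct.induction_on with
    | zero => simp
    | add x y hx hy => simp only [map_add, hx, hy, smul_add]
    | tmul a v =>
      rw [contr_tmul, contr_tmul, LinearMap.smul_apply, smul_assoc]
  have h3 : toTensor K E (ofBase K E x) ∈
      ((tateClasses E (F.baseChange E) (algebraMap K E Q) 1) ^ j).map (toTensor K E).toLinearMap :=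
    Submodule.mem_map_of_mem (h h1)
  rw [toTensor_ofBase, Submodule.map_pow] at h3
  exact BC_pow E _ j (pow_le_pow_left' h2 j h3)

end

end Pool.Agent.Lib.MP_950c68_ag
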