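import Mathlib

/-!
# Tate classes on products of abelian varieties of dimension at most three

Let `k` be a finite field with `q = p ^ f` elements.  For an abelian variety `A` over `k` the
Frobenius acts semisimply on `H¹(Ā)` (Weil), its eigenvalues are Weil `q`-numbers, and
`H^{2j}(Ā) = ⋀^{2j} H¹(Ā)`; so the union of the spaces `E^j(A)` over the finite extensions of `k`
is spanned over an algebraic closure of `ℚ_l` by the products `v_1 ⋯ v_{2j}` of eigenvectors whose
eigenvalues form a multiset `{α_1, ..., α_{2j}}` with `(α_1 ⋯ α_{2j}) ^ n = q ^ (n j)` for some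
`n ≥ 1` (`IsTate`).  Call a multiset `{α_1, ..., α_{2j}}` of Weil numbers *algebraic* if for all
abelian varieties `A_i` and all eigenvectors `v_i ∈ H¹(Ā_i)` with eigenvalue `α_i` the class
`v_1 ⊗ ⋯ ⊗ v_{2j}` on `A_1 × ⋯ × A_{2j}` is a combination of classes of algebraic cycles.  Then

* (`one`) Tate multisets with two elements are algebraic: Tate's theorem of 1966;
* (`weil`) if `x` is the Weil number of an absolutely simple abelian threefold `A` with
  commutative endomorphism algebra `ℚ(x)` containing an imaginary quadratic field `F`, if `Φ` is the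
  set of conjugates over `F` of `x` or of `q / x`, and if `w` is the Weil number with
  `w ∏ Φ = q ^ 2`, then `Φ ∪ {w}` is algebraic.  Here `w` belongs to an elliptic curve `E` with an
  action of `F`, the classes are the Weil classes for `F` on the abelian fourfold `A × E`, they lift
  to Weil classes on abelian fourfolds of Weil type in characteristic zero, which have
  polarizations of discriminant one, and these are algebraic by theorems of Schoen and Markman;
* (`cubic`) the same for abelian threefolds `A` whose endomorphism algebra is of degree three over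
  the imaginary quadratic field `F = ℚ(x)`: if `w` belongs to an ordinary elliptic curve and
  `{x, x, x, w}` is a Tate multiset, it is algebraic;
* (`add`) exterior products of cycles are cycles;
* (`cancel`) if `{α, q / α} + s` is algebraic, so is `s`: multiply with a class of codimension
  `dim - 1`, algebraic by Tate's theorem and hard Lefschetz, and push forward.

The theorem in `Results/MP_950c68_ag/DimThree` says that these rules produce all Tate multisets
whose members are Weil numbers of absolutely simple abelian varieties of dimension at most three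
(or of prime dimension without imaginary quadratic fields in their centers), if different factors
with centers of degree at least four have different Galois closures.

A condition of this kind is necessary: let `B` be an abelian surface of `p`-rank one with Weil numbers
`y₁, y₂, q / y₁, q / y₂` generating a field with group `D₄`, and let `q` be a square.  Then
`x = q √q / (y₁ y₂)` is the Weil number of an ordinary abelian surface with the same Galois closure,
and `{x, y₁, y₂, √q}` is a Tate multiset without Tate pairs which is not a Weil class.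
-/

namespace Pool.Agent.Lib.MP_950c68_ag.Dim3

open Polynomial

/-- `α` is a Weil `q`-number. -/
def IsWeil (q : ℕ) (α : ℂ) : Prop :=
  IsIntegral ℤ α ∧ ∀ β : ℂ, IsConjRoot ℚ α β → ‖β‖ ^ 2 = q

/-- A multiset of an even number `2 j` of Weil `q`-numbers whose product equals `q ^ j` up to a
root of unity. -/
def IsTate (q : ℕ) (s : Multiset ℂ) : Prop :=
  (∀ α ∈ s, IsWeil q α) ∧
    ∃ j n : ℕ, Multiset.card s = 2 * j ∧ 0 < n ∧ s.prod ^ n = (q : ℂ) ^ (n * j)

/-- Weil numbers of supersingular elliptic curves, up to roots of unity. -/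
def Supersingular (q : ℕ) (w : ℂ) : Prop := ∃ n : ℕ, n ≠ 0 ∧ w ^ (2 * n) = (q : ℂ) ^ n

/-- Weil numbers of ordinary elliptic curves: the trace `a` is prime to `p`. -/
def Ordinary (p q : ℕ) (w : ℂ) : Prop := ∃ a : ℤ, ¬ (p : ℤ) ∣ a ∧ w ^ 2 - a * w + q = 0

/-- Weil numbers of absolutely simple abelian threefolds with imaginary quadratic center (slopes
`1/3` and `2/3`): `x` has degree two and `x ^ 3 / q` belongs to an ordinary elliptic curve. -/
def Cubic (p q : ℕ) (x : ℂ) : Prop :=
  (minpoly ℚ x).natDegree = 2 ∧ ∃ w : ℂ, Ordinary p q w ∧ x ^ 3 = q * w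

/-- No power of `x` equals the same power of another conjugate: `ℚ(x ^ n) = ℚ(x)` for all
`n ≥ 1`. -/
def Distinct (x : ℂ) : Prop :=
  ∀ y : ℂ, IsConjRoot ℚ x y → y ≠ x → ∀ n : ℕ, n ≠ 0 → y ^ n ≠ x ^ n

/-- The condition of Honda and Tate: for every monic factor `h` of the minimal polynomial of `x`
over `ℚ_p` the absolute value of `h(0)` is an integral power of `q`. -/
def HondaTate (p : ℕ) [Fact p.Prime] (q : ℕ) (x : ℂ) : Prop :=
  ∀ h : ℚ_[p][X], h.Monic → h ∣ (minpoly ℚ x).map (algebraMap ℚ ℚ_[p]) →
    ∃ m : ℤ, ‖h.eval 0‖ = (q : ℝ) ^ m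

/-- Weil numbers of absolutely simple abelian varieties of dimension `g` with commutative
endomorphism algebra `ℚ(x)`. -/
def Simple (p : ℕ) [Fact p.Prime] (q g : ℕ) (x : ℂ) : Prop :=
  (minpoly ℚ x).natDegree = 2 * g ∧ Distinct x ∧ HondaTate p q x

/-- `Φ` contains one of `z, q / z` for each conjugate `z` of `x`, and each automorphism maps `Φ`
to itself or its complement: `Φ` is the set of conjugates of `x` or `q / x` over an imaginary
quadratic field contained in `ℚ(x)`. -/
def HalfSystem (q : ℕ) (x : ℂ) (Φ : Finset ℂ) : Prop :=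
  (∀ z ∈ Φ, IsConjRoot ℚ x z) ∧ (∀ z : ℂ, IsConjRoot ℚ x z → (z ∈ Φ ↔ q / z ∉ Φ)) ∧
  ∀ σ : ℂ ≃ₐ[ℚ] ℂ, (∀ z ∈ Φ, σ z ∈ Φ) ∨ ∀ z ∈ Φ, σ z ∉ Φ

/-- The Weil numbers of dimension two, of dimension three and center of degree six, and of prime
dimension `l` without imaginary quadratic fields in the center (of degree `2 l`). -/
def Large (p : ℕ) [Fact p.Prime] (q : ℕ) (x : ℂ) : Prop :=
  Simple p q 2 x ∨ Simple p q 3 x ∨
    ∃ l : ℕ, l.Prime ∧ (minpoly ℚ x).natDegree = 2 * l ∧ Distinct x ∧ ∀ Φ, ¬ HalfSystem q x Φ

/-- The multisets obtained from Tate multisets with two elements and from Weil classes on abelian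
fourfolds `A × E` by forming unions and by removing pairs `{α, q / α}`. -/
inductive Gen (p : ℕ) [Fact p.Prime] (q : ℕ) : Multiset ℂ → Prop
  /-- divisor classes -/
  | one (α β : ℂ) : IsTate q {α, β} → Gen p q {α, β}
  /-- Weil classes on abelian fourfolds -/
  | weil (x w : ℂ) (Φ : Finset ℂ) : IsWeil q x → Simple p q 3 x → HalfSystem q x Φ →
      Ordinary p q w ∨ Supersingular q w → w * ∏ z ∈ Φ, z = q ^ 2 → Gen p q (w ::ₘ Φ.val)
  /-- Weil classes on abelian fourfolds, second kind -/
  | cubic (x w : ℂ) : IsWeil q x → IsWeil q w → Cubic p q x → Ordinary p q w →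
      IsTate q {x, x, x, w} → Gen p q {x, x, x, w}
  /-- exterior products -/
  | add (s t : Multiset ℂ) : Gen p q s → Gen p q t → Gen p q (s + t)
  /-- contraction -/
  | cancel (α : ℂ) (s : Multiset ℂ) : IsWeil q α → s ≠ 0 → Gen p q ({α, q / α} + s) → Gen p q s

end Pool.Agent.Lib.MP_950c68_ag.Dim3
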