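import Mathlib

/-!
# Arithmetic of quadratic Weil numbers
-/

namespace Pool.Agent.Lib.MP_950c68_ag.Orb

open Polynomial

/-- A number of absolute value one with integral trace. -/
theorem pow_twelve {u : ℂ} (hu : ‖u‖ = 1) {m : ℤ} (h : u + u⁻¹ = m) : u ^ 12 = 1 := by
  have hu0 : u ≠ 0 := by
    rintro rfl
    simp at hu
  have h2 : u ^ 2 = m * u - 1 := by
    field_simp at h
    linear_combination h
  have hm : ‖(m : ℂ)‖ ≤ 2 := by
    rw [← h]
    calc ‖u + u⁻¹‖ ≤ ‖u‖ + ‖u⁻¹‖ := norm_add_le _ _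
      _ = 2 := by rw [norm_inv, hu]; norm_num
  have hm' : |(m : ℝ)| ≤ 2 := by
    have h3 : ‖(m : ℂ)‖ = |(m : ℝ)| := by
      rw [show (m : ℂ) = ((m : ℝ) : ℂ) by push_cast; rfl, Complex.norm_real, Real.norm_eq_abs]
    rwa [h3] at hm
  have hm2 : |m| ≤ 2 := by exact_mod_cast hm'
  rw [abs_le] at hm2
  have hcase : m = -2 ∨ m = -1 ∨ m = 0 ∨ m = 1 ∨ m = 2 := by omega
  rcases hcase with rfl | rfl | rfl | rfl | rfl
  · push_cast at h2
    have h3 : (u + 1) ^ 2 = 0 := by linear_combination h2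
    have h4 : u = -1 := by
      have := pow_eq_zero_iff (two_ne_zero) |>.mp h3
      linear_combination this
    rw [h4]
    norm_num
  · push_cast at h2
    have h3 : u ^ 3 = 1 := by linear_combination (u - 1) * h2
    calc u ^ 12 = (u ^ 3) ^ 4 := by ring
      _ = 1 := by rw [h3]; norm_num
  · push_cast at h2
    have h3 : u ^ 2 = -1 := by linear_combination h2
    calc u ^ 12 = (u ^ 2) ^ 6 := by ring
      _ = 1 := by rw [h3]; norm_num
  · push_cast at h2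
    have h3 : u ^ 3 = -1 := by linear_combination (u + 1) * h2
    calc u ^ 12 = (u ^ 3) ^ 4 := by ring
      _ = 1 := by rw [h3]; norm_num
  · push_cast at h2
    have h3 : (u - 1) ^ 2 = 0 := by linear_combination h2
    have h4 : u = 1 := by
      have := pow_eq_zero_iff (two_ne_zero) |>.mp h3
      linear_combination this
    rw [h4]
    norm_num

/-- Either the constant term divides the square of the trace, or the slopes are different; in the
second case the polynomial has a root in `ℚ_p` whose absolute value is the one of the trace. -/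
theorem padic_alternative (p f g : ℕ) [Fact p.Prime] (b : ℤ)
    (h : ∀ β : ℚ_[p], β ^ 2 - b * β + ((p ^ f : ℕ) : ℚ_[p]) ^ g = 0 →
      ∃ m : ℤ, ‖β‖ = ((p ^ f : ℕ) : ℝ) ^ m) :
    ((p ^ f : ℕ) : ℤ) ^ g ∣ b ^ 2 ∨
      ∃ (a : ℕ) (c : ℤ), 2 * a < g ∧ ¬ (p : ℤ) ∣ c ∧ b = ((p ^ f : ℕ) : ℤ) ^ a * c := by
  have hp : p.Prime := Fact.out
  have hp1 : (1 : ℝ) < p := by exact_mod_cast hp.one_lt
  have hp0 : (0 : ℝ) < p := by linarith
  by_cases hdvd : ((p ^ f : ℕ) : ℤ) ^ g ∣ b ^ 2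
  · left; exact hdvd
  right
  have hb0 : b ≠ 0 := by
    rintro rfl
    exact hdvd ⟨0, by ring⟩
  have hbp : (b : ℚ_[p]) ≠ 0 := by exact_mod_cast hb0
  -- the norms
  have hqn : ‖(((p ^ f : ℕ) : ℚ_[p]) ^ g)‖ = (p : ℝ) ^ (-((f * g : ℕ) : ℤ)) := by
    rw [norm_pow, Nat.cast_pow, norm_pow, Padic.norm_p, ← pow_mul, inv_pow, zpow_neg, zpow_natCast]
  have hlt : ‖(((p ^ f : ℕ) : ℚ_[p]) ^ g)‖ < ‖(b : ℚ_[p]) ^ 2‖ := by
    by_contra hcon
    push Not at hcon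
    apply hdvd
    have h1 : ‖((b ^ 2 : ℤ) : ℚ_[p])‖ ≤ (p : ℝ) ^ (-((f * g : ℕ) : ℤ)) := by
      rw [← hqn]
      push_cast at hcon ⊢
      exact hcon
    have h2 := (Padic.norm_int_le_pow_iff_dvd (b ^ 2) (f * g)).mp h1
    have h3 : ((p ^ f : ℕ) : ℤ) ^ g = ((p ^ (f * g) : ℕ) : ℤ) := by
      push_cast
      rw [← pow_mul]
    rw [h3]
    exact_mod_cast h2
  -- the root
  have hu : ‖(((p ^ f : ℕ) : ℚ_[p]) ^ g) / (b : ℚ_[p]) ^ 2‖ < 1 := by
    rw [norm_div, div_lt_one (norm_pos_iff.mpr (pow_ne_zero 2 hbp))]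
    exact hlt
  let u : ℤ_[p] := ⟨(((p ^ f : ℕ) : ℚ_[p]) ^ g) / (b : ℚ_[p]) ^ 2, hu.le⟩
  have hu' : ‖u‖ < 1 := hu
  have hF1 : (aeval (1 : ℤ_[p])) (X ^ 2 - X + C u : ℤ_[p][X]) = u := by simp
  have hF2 : (aeval (1 : ℤ_[p])) (derivative (X ^ 2 - X + C u : ℤ_[p][X])) = 1 := by
    simp only [derivative_add, derivative_sub, derivative_X_pow, derivative_X, derivative_C]
    simp
    norm_num
  obtain ⟨z, hz, hz1, _, _⟩ := hensels_lemma (p := p) (F := (X ^ 2 - X + C u : ℤ_[p][X])) (a := 1)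
    (by rw [hF1, hF2, norm_one, one_pow]; exact hu')
  rw [hF2, norm_one] at hz1
  have hz2 : ‖z‖ = 1 := by
    have h1 : ‖(1 : ℤ_[p])‖ = 1 := norm_one
    have h2 : z = (z - 1) + 1 := by ring
    rw [h2]
    rw [PadicInt.norm_add_eq_max_of_ne (by rw [h1]; exact hz1.ne), h1]
    exact max_eq_right hz1.le
  have hz3 : (z : ℚ_[p]) ^ 2 - z + (((p ^ f : ℕ) : ℚ_[p]) ^ g) / (b : ℚ_[p]) ^ 2 = 0 := by
    have h1 : z ^ 2 - z + u = 0 := by simpa using hz
    have h2 : (z : ℚ_[p]) ^ 2 - z + (u : ℚ_[p]) = 0 := by exact_mod_cast congrArg (fun w : ℤ_[p] => (w : ℚ_[p])) h1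
    exact h2
  obtain ⟨m, hm⟩ := h (b * z) (by
    field_simp at hz3
    linear_combination hz3)
  have hbn : ‖(b : ℚ_[p])‖ = ((p ^ f : ℕ) : ℝ) ^ m := by
    rw [← hm, norm_mul]
    have : ‖(z : ℚ_[p])‖ = 1 := hz2
    rw [this, mul_one]
  -- the exponent is not positive
  rcases Nat.eq_zero_or_pos f with rfl | hf
  · exfalso
    apply hdvd
    simp
  have hq1 : (1 : ℝ) < ((p ^ f : ℕ) : ℝ) := by
    push_cast
    exact one_lt_pow₀ hp1 hf.ne'
  have hm0 : m ≤ 0 := by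
    by_contra hcon
    push Not at hcon
    have h1 : (1 : ℝ) < ((p ^ f : ℕ) : ℝ) ^ m := one_lt_zpow₀ hq1 hcon
    rw [← hbn] at h1
    exact absurd (Padic.norm_int_le_one b) (not_le.mpr h1)
  obtain ⟨a, ha⟩ := Int.eq_ofNat_of_zero_le (show 0 ≤ -m by omega)
  have hma : m = -(a : ℤ) := by omega
  have hbn' : ‖(b : ℚ_[p])‖ = (p : ℝ) ^ (-((f * a : ℕ) : ℤ)) := by
    rw [hbn, hma, zpow_neg, zpow_neg, zpow_natCast, zpow_natCast]
    push_cast
    rw [← pow_mul]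
  have hd1 : ((p ^ (f * a) : ℕ) : ℤ) ∣ b := by
    have := (Padic.norm_int_le_pow_iff_dvd b (f * a)).mp hbn'.le
    exact_mod_cast this
  obtain ⟨c, hc⟩ := hd1
  refine ⟨a, c, ?_, ?_, ?_⟩
  · by_contra hcon
    push Not at hcon
    apply hdvd
    rw [hc]
    push_cast
    rw [← pow_mul, mul_pow, ← pow_mul]
    apply Dvd.dvd.mul_right
    apply pow_dvd_pow
    calc f * g ≤ f * (2 * a) := Nat.mul_le_mul_left f hcon
      _ = f * a * 2 := by ring
  · rintro ⟨d, rfl⟩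
    have h1 : ((p ^ (f * a + 1) : ℕ) : ℤ) ∣ b := by
      rw [hc]
      push_cast
      rw [pow_succ]
      exact ⟨d, by ring⟩
    have h2 := (Padic.norm_int_le_pow_iff_dvd b (f * a + 1)).mpr (by exact_mod_cast h1)
    rw [hbn'] at h2
    have h3 : (p : ℝ) ^ (-((f * a + 1 : ℕ) : ℤ)) < (p : ℝ) ^ (-((f * a : ℕ) : ℤ)) := by
      apply zpow_lt_zpow_right₀ hp1
      push_cast
      omega
    linarith
  · rw [hc]
    push_cast
    rw [← pow_mul]

end Pool.Agent.Lib.MP_950c68_ag.Orb
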