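import Mathlib

/-!
# Lattices of antisymmetric functions stable under a finite group

`G` is a finite group acting on a finite set `Ω`, and `ι : G` acts as a central fixed point free
involution.  `Λ` is a `G`-stable lattice of antisymmetric integer functions on `Ω`.
-/

namespace Pool.Agent.Lib.MP_950c68_ag.Orb

open MulAction

variable {G Ω : Type*} [Group G] [MulAction G Ω]

/-- Averaging over the stabilizer of a point. -/
theorem exists_avg [Finite G] {Λ : AddSubgroup (Ω → ℤ)}
    (hΛ : ∀ d ∈ Λ, ∀ g : G, (fun y => d (g • y)) ∈ Λ) (x : Ω) {d : Ω → ℤ} (hd : d ∈ Λ) :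
    ∃ e ∈ Λ, (∀ h : G, h • x = x → ∀ y, e (h • y) = e y) ∧ (e x = 0 → d x = 0) := by
  classical
  have := Fintype.ofFinite G
  let S : Finset G := Finset.univ.filter fun g => g • x = x
  have hS : ∀ g, g ∈ S ↔ g • x = x := fun g => by simp [S]
  refine ⟨∑ g ∈ S, fun y => d (g • y), Λ.sum_mem fun g _ => hΛ d hd g, ?_, ?_⟩
  · intro h hh y
    simp only [Finset.sum_apply]
    refine Finset.sum_bij' (fun g _ => g * h) (fun g _ => g * h⁻¹) ?_ ?_ ?_ ?_ ?_
    · intro g hg
      rw [hS] at hg ⊢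
      rw [mul_smul, hh, hg]
    · intro g hg
      rw [hS] at hg ⊢
      rw [mul_smul, inv_smul_eq_iff.mpr hh.symm, hg]
    · intro g _
      simp
    · intro g _
      simp
    · intro g _
      rw [mul_smul]
  · intro h0
    simp only [Finset.sum_apply] at h0
    have h1 : ∑ g ∈ S, d (g • x) = S.card * d x := by
      rw [Finset.sum_congr rfl fun g hg => by rw [(hS g).mp hg], Finset.sum_const, nsmul_eq_mul]
    rw [h1] at h0
    have h2 : (S.card : ℤ) ≠ 0 := by
      have : S.Nonempty := ⟨1, (hS 1).mpr (one_smul _ _)⟩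
      exact_mod_cast this.card_pos.ne'
    exact (mul_eq_zero.mp h0).resolve_left h2

/-- If every other point `y` is conjugate to `ι • y` under the stabilizer of `x`, then everything
is decided on `{x, ι • x}`. -/
theorem eq_zero_of_selfDual [Finite G] {ι : G} {Λ : AddSubgroup (Ω → ℤ)}
    (hΛ : ∀ d ∈ Λ, ∀ g : G, (fun y => d (g • y)) ∈ Λ)
    (hanti : ∀ d ∈ Λ, ∀ y, d (ι • y) = - d y) (x : Ω)
    (hsd : ∀ y, y ≠ x → y ≠ ι • x → ∃ g : G, g • x = x ∧ g • y = ι • y)
    (hns : ∀ d ∈ Λ, (∀ y, y ≠ x → y ≠ ι • x → d y = 0) → d x = 0)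
    {d : Ω → ℤ} (hd : d ∈ Λ) : d x = 0 := by
  obtain ⟨e, he, hinv, h0⟩ := exists_avg hΛ x hd
  apply h0
  apply hns e he
  intro y hy1 hy2
  obtain ⟨g, hg1, hg2⟩ := hsd y hy1 hy2
  have h1 := hinv g hg1 y
  rw [hg2, hanti e he] at h1
  omega

/-- Primitivity gives self duality. -/
theorem selfDual_of_primitive {ι : G} (hι : ∀ (g : G) (y : Ω), g • ι • y = ι • g • y)
    (hιι : ∀ y : Ω, ι • ι • y = y) (x : Ω)
    (hprim : ∀ H : Subgroup G, (∀ g : G, g • x = x ∨ g • x = ι • x → g ∈ H) →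
      H = ⊤ ∨ ∀ g ∈ H, g • x = x ∨ g • x = ι • x)
    {g₀ : G} (hg₀ : ∀ z ∈ orbit G x, g₀ • z = z ∨ g₀ • z = ι • z) (hg₀x : g₀ • x = x)
    {y₀ : Ω} (hy₀ : y₀ ∈ orbit G x) (hgy₀ : g₀ • y₀ ≠ y₀) :
    ∀ y ∈ orbit G x, y ≠ x → y ≠ ι • x → ∃ g : G, g • x = x ∧ g • y = ι • y := by
  classical
  have hinjι : ∀ u v : Ω, ι • u = ι • v ↔ u = v := fun u v => smul_left_cancel_iff ι
  let C : Set G := {g | ∀ z ∈ orbit G x, g • z = z ∨ g • z = ι • z}
  have hCconj : ∀ c ∈ C, ∀ g : G, g⁻¹ * c * g ∈ C := by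
    intro c hc g z hz
    have hgz : g • z ∈ orbit G x := by
      rw [← orbit_eq_iff.mpr hz]
      exact mem_orbit _ _
    rcases hc _ hgz with h | h
    · left
      rw [mul_smul, mul_smul, h, inv_smul_smul]
    · right
      rw [mul_smul, mul_smul, h, ← hι, inv_smul_smul]
  let r : Ω → Ω → Prop := fun u v => ∀ c ∈ C, c • u = u ↔ c • v = v
  have hr_smul : ∀ (g : G) u v, r u v → r (g • u) (g • v) := by
    intro g u v huv c hc
    have h1 := huv _ (hCconj c hc g)
    rw [mul_smul, mul_smul, inv_smul_eq_iff, mul_smul, mul_smul, inv_smul_eq_iff] at h1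
    exact h1
  have hr_symm : ∀ u v, r u v → r v u := fun u v h c hc => (h c hc).symm
  have hr_trans : ∀ u v w, r u v → r v w → r u w := fun u v w h h' c hc => (h c hc).trans (h' c hc)
  let H : Subgroup G :=
    { carrier := {g | r x (g • x)}
      one_mem' := by
        change r x ((1 : G) • x)
        rw [one_smul]
        exact fun c _ => Iff.rfl
      mul_mem' := by
        intro g h hg hh
        change r x ((g * h) • x)
        rw [mul_smul]
        exact hr_trans _ _ _ hg (hr_smul g _ _ hh)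
      inv_mem' := by
        intro g hg
        change r x (g⁻¹ • x)
        have h1 := hr_smul g⁻¹ _ _ hg
        rw [inv_smul_smul] at h1
        exact hr_symm _ _ h1 }
  have hH : ∀ g, g ∈ H ↔ r x (g • x) := fun g => Iff.rfl
  have hle : ∀ g : G, g • x = x ∨ g • x = ι • x → g ∈ H := by
    intro g hg
    rw [hH]
    rcases hg with hg | hg
    · rw [hg]; exact fun c _ => Iff.rfl
    · rw [hg]
      intro c _
      rw [hι, hinjι]
  rcases hprim H hle with htop | hsmall
  · exfalso
    obtain ⟨g, rfl⟩ := hy₀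
    have hg : g ∈ H := by rw [htop]; trivial
    exact hgy₀ ((((hH g).mp hg) g₀ hg₀).mp hg₀x)
  · intro y hy hy1 hy2
    obtain ⟨g, rfl⟩ := hy
    have hg : g ∉ H := by
      intro hg
      rcases hsmall g hg with h | h
      · exact hy1 h
      · exact hy2 h
    rw [hH] at hg
    have hg' : ∃ c ∈ C, ¬ (c • x = x ↔ c • (g • x) = g • x) := by
      by_contra hcon
      push Not at hcon
      exact hg fun c hc => hcon c hc
    obtain ⟨c, hc, hne⟩ := hg'
    have h1 := hc x (mem_orbit_self x)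
    have h2 := hc (g • x) (mem_orbit x g)
    by_cases hcx : c • x = x
    · refine ⟨c, hcx, ?_⟩
      rcases h2 with h2 | h2
      · exact absurd ⟨fun _ => h2, fun _ => hcx⟩ hne
      · exact h2
    · have hcx' := h1.resolve_left hcx
      have hcy : c • (g • x) = g • x := by
        by_contra hcy
        exact hne ⟨fun h => absurd h hcx, fun h => absurd h hcy⟩
      refine ⟨ι * c, ?_, ?_⟩
      · rw [mul_smul, hcx', hιι]
      · rw [mul_smul, hcy]

end Pool.Agent.Lib.MP_950c68_ag.Orb
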