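import Mathlib
import Pool.Agent.Lib.MP_950c68_ag.OrbGroup

/-!
# Several orbits: reduction to relations supported on one orbit
-/

namespace Pool.Agent.Lib.MP_950c68_ag.Orb

open MulAction

variable {G Ω : Type*} [Group G] [MulAction G Ω]

/-- The averaging operator with its support. -/
theorem exists_avg_supp [Finite G] {Λ : AddSubgroup (Ω → ℤ)}
    (hΛ : ∀ d ∈ Λ, ∀ g : G, (fun y => d (g • y)) ∈ Λ) (x : Ω) {d : Ω → ℤ} (hd : d ∈ Λ) :
    ∃ e ∈ Λ, (∀ h : G, h • x = x → ∀ y, e (h • y) = e y) ∧ (e x = 0 → d x = 0) ∧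
      ∀ y, (∀ z ∈ orbit G y, d z = 0) → e y = 0 := by
  classical
  have := Fintype.ofFinite G
  let S : Finset G := Finset.univ.filter fun g => g • x = x
  have hS : ∀ g, g ∈ S ↔ g • x = x := fun g => by simp [S]
  refine ⟨∑ g ∈ S, fun y => d (g • y), Λ.sum_mem fun g _ => hΛ d hd g, ?_, ?_, ?_⟩
  · intro h hh y
    simp only [Finset.sum_apply]
    refine Finset.sum_bij' (fun g _ => g * h) (fun g _ => g * h⁻¹) ?_ ?_ ?_ ?_ ?_
    · intro g hg
      rw [hS] at hg ⊢
      rw [mul_smul, hh, hg]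
    · intro g hg
      rw [hS] at hg ⊢
      rw [mul_smul, inv_smul_eq_iff.mpr hh.symm, hg]
    · intro g _
      simp
    · intro g _
      simp
    · intro g _
      rw [mul_smul]
  · intro h0
    simp only [Finset.sum_apply] at h0
    have h1 : ∑ g ∈ S, d (g • x) = S.card * d x := by
      rw [Finset.sum_congr rfl fun g hg => by rw [(hS g).mp hg], Finset.sum_const, nsmul_eq_mul]
    rw [h1] at h0
    have h2 : (S.card : ℤ) ≠ 0 := by
      have : S.Nonempty := ⟨1, (hS 1).mpr (one_smul _ _)⟩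
      exact_mod_cast this.card_pos.ne'
    exact (mul_eq_zero.mp h0).resolve_left h2
  · intro y hy
    simp only [Finset.sum_apply]
    exact Finset.sum_eq_zero fun g _ => hy _ (mem_orbit y g)

/-- A relation on several orbits reduces to relations on one orbit, if for any two orbits the
points of one of them are conjugate to their images under `ι` over each point of the other. -/
theorem eq_zero_of_cross [Finite G] [Finite Ω] {ι : G} {Λ : AddSubgroup (Ω → ℤ)}
    (hΛ : ∀ d ∈ Λ, ∀ g : G, (fun y => d (g • y)) ∈ Λ)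
    (hanti : ∀ d ∈ Λ, ∀ y, d (ι • y) = - d y)
    (hloc : ∀ x : Ω, ∀ d ∈ Λ, (∀ y ∉ orbit G x, d y = 0) → d x = 0)
    (hcross : ∀ x y : Ω, y ∉ orbit G x →
      (∀ y' ∈ orbit G y, ∃ g : G, g • x = x ∧ g • y' = ι • y') ∨
      (∀ x' ∈ orbit G x, ∃ g : G, g • y = y ∧ g • x' = ι • x')) :
    ∀ d ∈ Λ, ∀ x, d x = 0 := by
  classical
  have := Fintype.ofFinite Ω
  -- one step
  have step : ∀ d ∈ Λ, ∀ x y : Ω, d x ≠ 0 →
      (∀ y' ∈ orbit G y, ∃ g : G, g • x = x ∧ g • y' = ι • y') →
      ∃ e ∈ Λ, e x ≠ 0 ∧ (∀ z ∈ orbit G y, e z = 0) ∧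
        ∀ z, (∀ w ∈ orbit G z, d w = 0) → e z = 0 := by
    intro d hd x y hdx hy
    obtain ⟨e, he, hinv, h0, hsupp⟩ := exists_avg_supp hΛ x hd
    refine ⟨e, he, fun h => hdx (h0 h), ?_, hsupp⟩
    intro z hz
    obtain ⟨g, hg1, hg2⟩ := hy z hz
    have h1 := hinv g hg1 z
    rw [hg2, hanti e he] at h1
    omega
  let cnt : (Ω → ℤ) → ℕ := fun d =>
    (Finset.univ.filter fun O : orbitRel.Quotient G Ω => ∃ z, (Quotient.mk'' z = O) ∧ d z ≠ 0).card
  have hlt : ∀ d e : Ω → ℤ, ∀ y : Ω, d y ≠ 0 → (∀ z ∈ orbit G y, e z = 0) →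
      (∀ z, (∀ w ∈ orbit G z, d w = 0) → e z = 0) → cnt e < cnt d := by
    intro d e y hdy hey hsupp
    apply Finset.card_lt_card
    rw [Finset.ssubset_iff_of_subset]
    · refine ⟨(Quotient.mk'' y : orbitRel.Quotient G Ω), ?_, ?_⟩
      · rw [Finset.mem_filter]
        exact ⟨Finset.mem_univ _, y, rfl, hdy⟩
      · rw [Finset.mem_filter]
        rintro ⟨_, z, hz, hez⟩
        apply hez
        apply hey
        exact (orbitRel_apply.mp (Quotient.eq''.mp hz))
    · intro O hO
      rw [Finset.mem_filter] at hO ⊢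
      obtain ⟨_, z, rfl, hez⟩ := hO
      refine ⟨Finset.mem_univ _, ?_⟩
      by_contra hcon
      push Not at hcon
      apply hez
      apply hsupp
      intro w hw
      apply hcon w
      apply Quotient.eq''.mpr
      exact orbitRel_apply.mpr hw
  suffices H : ∀ n : ℕ, ∀ d ∈ Λ, cnt d ≤ n → ∀ x, d x = 0 from
    fun d hd => H (cnt d) d hd le_rfl
  intro n
  induction n with
  | zero =>
    intro d _ hcnt x
    by_contra hx
    have h1 : (Quotient.mk'' x : orbitRel.Quotient G Ω) ∈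
        (Finset.univ.filter fun O : orbitRel.Quotient G Ω =>
          ∃ z, (Quotient.mk'' z = O) ∧ d z ≠ 0) := by
      rw [Finset.mem_filter]
      exact ⟨Finset.mem_univ _, x, rfl, hx⟩
    have h2 := Finset.card_pos.mpr ⟨_, h1⟩
    simp only [cnt] at hcnt
    omega
  | succ n ih =>
    intro d hd hcnt x
    by_contra hx
    by_cases hone : ∀ y ∉ orbit G x, d y = 0
    · exact hx (hloc x d hd hone)
    · push Not at hone
      obtain ⟨y, hy, hdy⟩ := hone
      rcases hcross x y hy with h | h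
      · obtain ⟨e, he, hex, hey, hsupp⟩ := step d hd x y hx h
        have h1 := hlt d e y hdy hey hsupp
        exact hex (ih e he (by omega) x)
      · obtain ⟨e, he, hey, hex, hsupp⟩ := step d hd y x hdy h
        have h1 := hlt d e x hx hex hsupp
        exact hey (ih e he (by omega) y)

end Pool.Agent.Lib.MP_950c68_ag.Orb
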