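import Mathlib
import Pool.Agent.Lib.MP_950c68_ag.OrbGroup

/-!
# Groups acting 3-transitively on pairs
-/

namespace Pool.Agent.Lib.MP_950c68_ag.Orb

open MulAction

variable {G Ω : Type*} [Group G] [MulAction G Ω]

/-- The case of a group acting 3-transitively on the pairs `{y, ι • y}` of the orbit of `x`: if
`x` is not self dual, there is a half system of the orbit of `x` which is a block for `G`. -/
theorem eq_zero_of_threeTransitive [Finite G] [Fintype Ω] {ι : G} {Λ : AddSubgroup (Ω → ℤ)}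
    (hΛ : ∀ d ∈ Λ, ∀ g : G, (fun y => d (g • y)) ∈ Λ)
    (hanti : ∀ d ∈ Λ, ∀ y, d (ι • y) = - d y)
    (hι : ∀ (g : G) (y : Ω), g • ι • y = ι • g • y)
    (hιι : ∀ y : Ω, ι • ι • y = y) (hfix : ∀ y : Ω, ι • y ≠ y) (x : Ω)
    (E : Ω → Ω → Prop) (hE : ∀ u v, E u v ↔ (v = u ∨ v = ι • u))
    (h3 : ∀ u v w u' v' w', u ∈ orbit G x → v ∈ orbit G x → w ∈ orbit G x →
      u' ∈ orbit G x → v' ∈ orbit G x → w' ∈ orbit G x →
      ¬ E u v → ¬ E v w → ¬ E w u → ¬ E u' v' → ¬ E v' w' → ¬ E w' u' →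
      ∃ g : G, E u' (g • u) ∧ E v' (g • v) ∧ E w' (g • w))
    (hthree : ∃ y ∈ orbit G x, ∃ z ∈ orbit G x, ¬ E x y ∧ ¬ E y z ∧ ¬ E z x)
    (hcross : ∀ y ∉ orbit G x, ∃ g : G, g • x = x ∧ g • y = ι • y)
    (hns : ∀ d ∈ Λ, (∀ y, y ≠ x → y ≠ ι • x → d y = 0) → d x = 0)
    (hΦ : ∀ Φ : Finset Ω, x ∈ Φ → (∀ z ∈ Φ, z ∈ orbit G x) →
      (∀ z ∈ orbit G x, z ∈ Φ ↔ ι • z ∉ Φ) →
      (∀ g : G, (∀ z ∈ Φ, g • z ∈ Φ) ∨ ∀ z ∈ Φ, g • z ∉ Φ) →
      ∀ d ∈ Λ, (∀ y ∉ orbit G x, d y = 0) →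
        (∀ y ∈ Φ, ∀ z ∈ Φ, y ≠ x → z ≠ x → d y = d z) → d x = 0)
    {d : Ω → ℤ} (hd : d ∈ Λ) : d x = 0 := by
  classical
  by_cases hcase : ∀ y ∈ orbit G x, y ≠ x → y ≠ ι • x → ∃ g : G, g • x = x ∧ g • y = ι • y
  · refine eq_zero_of_selfDual hΛ hanti x (fun y hy1 hy2 => ?_) hns hd
    by_cases hy : y ∈ orbit G x
    · exact hcase y hy hy1 hy2
    · exact hcross y hy
  push Not at hcase
  obtain ⟨y₀, hy₀, hy₀1, hy₀2, hno⟩ := hcase
  obtain ⟨y₁, hy₁, z₁, hz₁, hxy, hyz, hzx⟩ := hthree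
  have hEr : ∀ u, E u u := fun u => (hE _ _).mpr (Or.inl rfl)
  have hEs : ∀ u v, E u v → E v u := by
    intro u v h
    rw [hE] at h ⊢
    rcases h with h | h
    · left; exact h.symm
    · right; rw [h, hιι]
  have hEt : ∀ u v w, E u v → E v w → E u w := by
    intro u v w h h'
    rw [hE] at h h' ⊢
    rcases h with rfl | rfl <;> rcases h' with rfl | rfl
    · left; rfl
    · right; rfl
    · right; rfl
    · left; exact hιι u
  have hEι : ∀ u v, E u v → E u (ι • v) := by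
    intro u v h
    exact hEt _ _ _ h ((hE _ _).mpr (Or.inr rfl))
  have hEn : ∀ u v, ¬ E u v → ¬ E v u := fun u v h h' => h (hEs _ _ h')
  have hEιn : ∀ u v, ¬ E u v → ¬ E u (ι • v) := by
    intro u v h h'
    apply h
    have := hEι _ _ h'
    rwa [hιι] at this
  have hιn : ∀ u v, ¬ E u v → ¬ E (ι • u) v := by
    intro u v h
    exact hEn _ _ (hEιn _ _ (hEn _ _ h))
  have hxO : x ∈ orbit G x := mem_orbit_self x
  have hgO : ∀ (g : G) u, u ∈ orbit G x → g • u ∈ orbit G x := by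
    intro g u hu
    rw [← orbit_eq_iff.mpr hu]
    exact mem_orbit _ _
  -- a third pair
  have hthird : ∀ u v, ∃ w ∈ orbit G x, ¬ E u w ∧ ¬ E v w := by
    intro u v
    by_contra hcon
    push Not at hcon
    have h1 : ∀ w ∈ orbit G x, E u w ∨ E v w := by
      intro w hw
      by_cases h : E u w
      · exact Or.inl h
      · exact Or.inr (hcon w hw h)
    rcases h1 x hxO with a | a <;> rcases h1 y₁ hy₁ with b | b <;> rcases h1 z₁ hz₁ with c | c
    · exact hxy (hEt _ _ _ (hEs _ _ a) b)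
    · exact hxy (hEt _ _ _ (hEs _ _ a) b)
    · exact hzx (hEt _ _ _ (hEs _ _ c) a)
    · exact hyz (hEt _ _ _ (hEs _ _ b) c)
    · exact hyz (hEt _ _ _ (hEs _ _ b) c)
    · exact hzx (hEt _ _ _ (hEs _ _ c) a)
    · exact hxy (hEt _ _ _ (hEs _ _ a) b)
    · exact hxy (hEt _ _ _ (hEs _ _ a) b)
  -- double transitivity
  have T2 : ∀ u v u' v', u ∈ orbit G x → v ∈ orbit G x → u' ∈ orbit G x → v' ∈ orbit G x →
      ¬ E u v → ¬ E u' v' → ∃ g : G, g • u = u' ∧ E v' (g • v) := by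
    intro u v u' v' hu hv hu' hv' huv huv'
    obtain ⟨w, hw, hw1, hw2⟩ := hthird u v
    obtain ⟨w', hw', hw1', hw2'⟩ := hthird u' v'
    obtain ⟨g, hg1, hg2, _⟩ := h3 u v w u' v' w' hu hv hw hu' hv' hw' huv hw2 (hEn _ _ hw1) huv'
      hw2' (hEn _ _ hw1')
    rcases (hE _ _).mp hg1 with h | h
    · exact ⟨g, h, hg2⟩
    · refine ⟨ι * g, ?_, ?_⟩
      · rw [mul_smul, h, hιι]
      · rw [mul_smul]
        exact hEι _ _ hg2
  have hxy₀ : ¬ E x y₀ := by
    rw [hE]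
    push Not
    exact ⟨hy₀1, hy₀2⟩
  -- the orbit of the pair `(x, y₀)`
  let ε : Ω → Ω → Prop := fun u v => ∃ g : G, g • x = u ∧ g • y₀ = v
  have e1 : ∀ u v, u ∈ orbit G x → v ∈ orbit G x → ¬ E u v → ε u v ∨ ε u (ι • v) := by
    intro u v hu hv huv
    obtain ⟨g, hg1, hg2⟩ := T2 x y₀ u v hxO hy₀ hu hv hxy₀ huv
    rcases (hE _ _).mp hg2 with h | h
    · exact Or.inl ⟨g, hg1, h⟩
    · exact Or.inr ⟨g, hg1, h⟩
  have e2 : ∀ u v, ε u v → ¬ ε u (ι • v) := by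
    rintro u v ⟨g, hg1, hg2⟩ ⟨h, hh1, hh2⟩
    apply hno (g⁻¹ * h)
    · rw [mul_smul, hh1, ← hg1, inv_smul_smul]
    · rw [mul_smul, hh2, hι, ← hg2, inv_smul_smul]
  have e3 : ∀ (g : G) u v, ε u v → ε (g • u) (g • v) := by
    rintro g u v ⟨h, rfl, rfl⟩
    exact ⟨g * h, mul_smul _ _ _, mul_smul _ _ _⟩
  have e3' : ∀ (g : G) u v, ε (g • u) (g • v) ↔ ε u v := by
    intro g u v
    refine ⟨fun h => ?_, e3 g u v⟩
    have := e3 g⁻¹ _ _ h
    rwa [inv_smul_smul, inv_smul_smul] at this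
  let s : Ω → Ω → ℤ := fun u v => if ε u v then 1 else -1
  have s_sq : ∀ u v, s u v * s u v = 1 := by
    intro u v
    simp only [s]
    split_ifs <;> norm_num
  have s_g : ∀ (g : G) u v, s (g • u) (g • v) = s u v := by
    intro g u v
    simp only [s, e3']
  have s_2 : ∀ u v, u ∈ orbit G x → v ∈ orbit G x → ¬ E u v → s u (ι • v) = - s u v := by
    intro u v hu hv huv
    simp only [s]
    by_cases h : ε u v
    · rw [if_pos h, if_neg (e2 u v h)]
    · rw [if_neg h, if_pos ((e1 u v hu hv huv).resolve_left h)]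
      norm_num
  have s_1 : ∀ u v, u ∈ orbit G x → v ∈ orbit G x → ¬ E u v → s (ι • u) v = - s u v := by
    intro u v hu hv huv
    have h1 := s_g ι u (ι • v)
    rw [hιι] at h1
    rw [h1, s_2 u v hu hv huv]
  have s_12 : ∀ u v, s (ι • u) (ι • v) = s u v := fun u v => s_g ι u v
  -- invariance of double and triple products
  have hp : ∀ u v u' v', u ∈ orbit G x → v ∈ orbit G x → ¬ E u v → E u u' → E v v' →
      s u' v' * s v' u' = s u v * s v u := by
    intro u v u' v' hu hv huv hu' hv'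
    have huv' := hEn _ _ huv
    rcases (hE _ _).mp hu' with rfl | rfl <;> rcases (hE _ _).mp hv' with rfl | rfl
    · rfl
    · rw [s_2 _ _ hu hv huv, s_1 _ _ hv hu huv']; ring
    · rw [s_1 _ _ hu hv huv, s_2 _ _ hv hu huv']; ring
    · rw [s_12, s_12]
  have ht : ∀ u v w u' v' w', u ∈ orbit G x → v ∈ orbit G x → w ∈ orbit G x →
      ¬ E u v → ¬ E v w → ¬ E w u → E u u' → E v v' → E w w' →
      s u' v' * s v' w' * s w' u' = s u v * s v w * s w u := by
    intro u v w u' v' w' hu hv hw huv hvw hwu hu' hv' hw'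
    rcases (hE _ _).mp hu' with rfl | rfl <;> rcases (hE _ _).mp hv' with rfl | rfl <;>
      rcases (hE _ _).mp hw' with rfl | rfl
    · rfl
    · rw [s_2 _ _ hv hw hvw, s_1 _ _ hw hu hwu]; ring
    · rw [s_2 _ _ hu hv huv, s_1 _ _ hv hw hvw]; ring
    · rw [s_2 _ _ hu hv huv, s_12, s_1 _ _ hw hu hwu]; ring
    · rw [s_1 _ _ hu hv huv, s_2 _ _ hw hu hwu]; ring
    · rw [s_1 _ _ hu hv huv, s_2 _ _ hv hw hvw, s_12]; ring
    · rw [s_12, s_1 _ _ hv hw hvw, s_2 _ _ hw hu hwu]; ring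
    · rw [s_12, s_12, s_12]
  set κ := s x y₀ * s y₀ x with hκ
  have hpconst : ∀ u v, u ∈ orbit G x → v ∈ orbit G x → ¬ E u v → s u v * s v u = κ := by
    intro u v hu hv huv
    obtain ⟨g, hg1, hg2⟩ := T2 x y₀ u v hxO hy₀ hu hv hxy₀ huv
    have h1 := hp u v (g • x) (g • y₀) hu hv huv (by rw [hg1]; exact hEr _) hg2
    rw [s_g, s_g] at h1
    exact h1.symm
  set τ := s x y₁ * s y₁ z₁ * s z₁ x with hτ
  have htconst : ∀ u v w, u ∈ orbit G x → v ∈ orbit G x → w ∈ orbit G x →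
      ¬ E u v → ¬ E v w → ¬ E w u → s u v * s v w * s w u = τ := by
    intro u v w hu hv hw huv hvw hwu
    obtain ⟨g, hg1, hg2, hg3⟩ := h3 x y₁ z₁ u v w hxO hy₁ hz₁ hu hv hw hxy hyz hzx huv hvw hwu
    have h1 := ht u v w (g • x) (g • y₁) (g • z₁) hu hv hw huv hvw hwu hg1 hg2 hg3
    rw [s_g, s_g, s_g] at h1
    exact h1.symm
  have hττ : τ * τ = 1 := by
    rw [hτ]
    calc _ = (s x y₁ * s x y₁) * (s y₁ z₁ * s y₁ z₁) * (s z₁ x * s z₁ x) := by ring
      _ = 1 := by rw [s_sq, s_sq, s_sq]; norm_num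
  have hκκ : κ * κ = 1 := by
    rw [hκ]
    calc _ = (s x y₀ * s x y₀) * (s y₀ x * s y₀ x) := by ring
      _ = 1 := by rw [s_sq, s_sq]; norm_num
  have hκ1 : κ = 1 := by
    have h1 := htconst x y₁ z₁ hxO hy₁ hz₁ hxy hyz hzx
    have h2 := htconst y₁ x z₁ hy₁ hxO hz₁ (hEn _ _ hxy) (hEn _ _ hzx) (hEn _ _ hyz)
    have h3 := hpconst x y₁ hxO hy₁ hxy
    have h4 := hpconst y₁ z₁ hy₁ hz₁ hyz
    have h5 := hpconst z₁ x hz₁ hxO hzx
    have h6 : κ * κ * κ = τ * τ := by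
      calc κ * κ * κ = (s x y₁ * s y₁ x) * (s y₁ z₁ * s z₁ y₁) * (s z₁ x * s x z₁) := by
            rw [h3, h4, h5]
        _ = (s x y₁ * s y₁ z₁ * s z₁ x) * (s y₁ x * s x z₁ * s z₁ y₁) := by ring
        _ = τ * τ := by rw [h1, h2]
    rw [hκκ, one_mul, hττ] at h6
    exact h6
  have hsymm : ∀ u v, u ∈ orbit G x → v ∈ orbit G x → ¬ E u v → s v u = s u v := by
    intro u v hu hv huv
    have h1 := hpconst u v hu hv huv
    rw [hκ1] at h1
    calc s v u = (s u v * s u v) * s v u := by rw [s_sq, one_mul]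
      _ = s u v * (s u v * s v u) := by ring
      _ = s u v := by rw [h1, mul_one]
  have hval : ∀ u v, τ * s u v = 1 ∨ τ * s u v = -1 := by
    intro u v
    have h1 : (τ * s u v) * (τ * s u v) = 1 := by
      calc _ = (τ * τ) * (s u v * s u v) := by ring
        _ = 1 := by rw [hττ, s_sq]; norm_num
    exact mul_self_eq_one_iff.mp h1
  -- the half system
  let Φ : Finset Ω := Finset.univ.filter fun v =>
    v ∈ orbit G x ∧ (v = x ∨ (¬ E x v ∧ τ * s x v = 1))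
  have hΦm : ∀ v, v ∈ Φ ↔ v ∈ orbit G x ∧ (v = x ∨ (¬ E x v ∧ τ * s x v = 1)) := by
    intro v
    simp only [Φ, Finset.mem_filter, Finset.mem_univ, true_and]
  have hxΦ : x ∈ Φ := (hΦm x).mpr ⟨hxO, Or.inl rfl⟩
  have hΦO : ∀ z ∈ Φ, z ∈ orbit G x := fun z hz => ((hΦm z).mp hz).1
  have hιO : ∀ z, z ∈ orbit G x → ι • z ∈ orbit G x := hgO ι
  have hιx : ι • x ∉ Φ := by
    rw [hΦm]
    rintro ⟨_, h | h⟩
    · exact hfix x h
    · exact h.1 ((hE _ _).mpr (Or.inr rfl))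
  have hsec : ∀ z ∈ orbit G x, z ∈ Φ ↔ ι • z ∉ Φ := by
    intro z hz
    by_cases hzE : E x z
    · rcases (hE _ _).mp hzE with rfl | rfl
      · exact ⟨fun _ => hιx, fun _ => hxΦ⟩
      · rw [hιι]
        exact ⟨fun h => absurd h hιx, fun h => absurd hxΦ h⟩
    · have hzE' := hEιn _ _ hzE
      have hzx' : z ≠ x := fun h => hzE (h ▸ hEr _)
      have hzx'' : ι • z ≠ x := fun h => hzE' (by rw [h]; exact hEr _)
      rw [hΦm, hΦm, s_2 x z hxO hz hzE]
      constructor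
      · rintro ⟨_, h | ⟨_, h⟩⟩
        · exact absurd h hzx'
        · rintro ⟨_, h' | ⟨_, h'⟩⟩
          · exact hzx'' h'
          · rw [mul_neg, h] at h'
            norm_num at h'
      · intro h
        refine ⟨hz, Or.inr ⟨hzE, ?_⟩⟩
        rcases hval x z with h1 | h1
        · exact h1
        · exfalso
          apply h
          refine ⟨hιO z hz, Or.inr ⟨hzE', ?_⟩⟩
          rw [mul_neg, h1, neg_neg]
  have hclique : ∀ u ∈ Φ, ∀ v ∈ Φ, ¬ E u v → τ * s u v = 1 := by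
    intro u hu v hv huv
    have hu' := (hΦm u).mp hu
    have hv' := (hΦm v).mp hv
    by_cases hux : u = x
    · subst hux
      rcases hv'.2 with h | h
      · exact absurd (h ▸ hEr _) huv
      · exact h.2
    by_cases hvx : v = x
    · subst hvx
      rw [← hsymm u v hu'.1 hv'.1 huv]
      exact (hu'.2.resolve_left hux).2
    · have h1 := hu'.2.resolve_left hux
      have h2 := hv'.2.resolve_left hvx
      have h3 := htconst x u v hxO hu'.1 hv'.1 h1.1 huv (hEn _ _ h2.1)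
      rw [hsymm x v hxO hv'.1 h2.1] at h3
      calc τ * s u v = (τ * τ) * (τ * s u v) * 1 := by rw [hττ]; ring
        _ = (τ * s x u) * (τ * s x v) * (τ * s u v) * (τ * s x u) * (τ * s x v) := by
            rw [h1.2, h2.2, hττ]; ring
        _ = (s x u * s x u) * (s x v * s x v) * (τ * τ) * (τ * τ) * (τ * s u v) := by ring
        _ = τ * s u v := by rw [s_sq, s_sq, hττ]; ring
        _ = τ * s u v * ((τ * s x u) * (τ * s x v)) := by rw [h1.2, h2.2]; ring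
        _ = τ * τ * τ * (s x u * s u v * s x v) := by ring
        _ = 1 := by rw [h3, hττ, one_mul, hττ]
  have hdist : ∀ u ∈ Φ, ∀ v ∈ Φ, u ≠ v → ¬ E u v := by
    intro u hu v hv huv h
    rcases (hE _ _).mp h with h | h
    · exact huv h.symm
    · rw [h] at hv
      exact (hsec u (hΦO u hu)).mp hu hv
  have hblock : ∀ g : G, (∀ z ∈ Φ, g • z ∈ Φ) ∨ ∀ z ∈ Φ, g • z ∉ Φ := by
    intro g
    by_contra hcon
    push Not at hcon
    obtain ⟨⟨z, hz, hgz⟩, w, hw, hgw⟩ := hcon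
    have hzw : z ≠ w := fun h => hgz (h ▸ hgw)
    have h1 := hclique z hz w hw (hdist z hz w hw hzw)
    have hgz' : ι • g • z ∈ Φ := by
      by_contra h
      exact hgz ((hsec _ (hgO g z (hΦO z hz))).mpr h)
    have hne : ι • g • z ≠ g • w := by
      intro h
      rw [← hι, smul_left_cancel_iff] at h
      rw [← h] at hw
      exact (hsec z (hΦO z hz)).mp hz hw
    have h2 := hclique _ hgz' _ hgw (hdist _ hgz' _ hgw hne)
    have h3 : s (ι • g • z) (g • w) = - s (g • z) (g • w) := by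
      apply s_1 _ _ (hgO g z (hΦO z hz)) (hgO g w (hΦO w hw))
      intro h
      have h5 := hEs _ _ (hEι _ _ (hEs _ _ h))
      exact hdist _ hgz' _ hgw hne h5
    rw [h3, s_g, mul_neg, h1] at h2
    norm_num at h2
  obtain ⟨e, he, hinv, h0⟩ := exists_avg hΛ x hd
  apply h0
  apply hΦ Φ hxΦ hΦO hsec hblock e he
  · intro y hy
    obtain ⟨g, hg1, hg2⟩ := hcross y hy
    have h1 := hinv g hg1 y
    rw [hg2, hanti e he] at h1
    omega
  · intro y hy z hz hyx hzx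
    obtain ⟨g, hg1, hg2⟩ := T2 x y x z hxO (hΦO y hy) hxO (hΦO z hz)
      (hdist x hxΦ y hy (Ne.symm hyx)) (hdist x hxΦ z hz (Ne.symm hzx))
    have hgΦ : ∀ z ∈ Φ, g • z ∈ Φ := by
      rcases hblock g with h | h
      · exact h
      · exact absurd (by rw [hg1]; exact hxΦ) (h x hxΦ)
    have h1 : g • y = z := by
      rcases (hE _ _).mp hg2 with h | h
      · exact h
      · exfalso
        have h2 := hgΦ y hy
        rw [h] at h2
        exact (hsec z (hΦO z hz)).mp hz h2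
    rw [← h1, hinv g hg1]

end Pool.Agent.Lib.MP_950c68_ag.Orb
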