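import Mathlib
import Pool.Agent.Lib.MP_950c68_ag.OrbThree

/-!
# The Galois group acting on Weil numbers
-/

namespace Pool.Agent.Lib.MP_950c68_ag.Orb

open Polynomial MulAction

/-- The field generated by the complex roots of `R`. -/
noncomputable abbrev LF (R : ℚ[X]) : IntermediateField ℚ ℂ := IntermediateField.adjoin ℚ (R.rootSet ℂ)

instance isSplittingField_LF (R : ℚ[X]) : IsSplittingField ℚ (LF R) R :=
  IntermediateField.adjoin_rootSet_isSplittingField (IsAlgClosed.splits _)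

instance normal_LF (R : ℚ[X]) : Normal ℚ (LF R) := Normal.of_isSplittingField R

instance finiteDimensional_LF (R : ℚ[X]) : FiniteDimensional ℚ (LF R) :=
  IsSplittingField.finiteDimensional _ R

instance isGalois_LF (R : ℚ[X]) : IsGalois ℚ (LF R) where

theorem exists_restrict (R : ℚ[X]) (σ : ℂ ≃ₐ[ℚ] ℂ) :
    ∃ g : LF R ≃ₐ[ℚ] LF R, ∀ z : LF R, ((g z : LF R) : ℂ) = σ z :=
  ⟨σ.restrictNormal (LF R), fun z => AlgEquiv.restrictNormal_commutes σ (LF R) z⟩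

theorem isConjRoot_iff {R : ℚ[X]} (x y : LF R) :
    IsConjRoot ℚ (x : ℂ) (y : ℂ) ↔ ∃ g : LF R ≃ₐ[ℚ] LF R, g x = y := by
  have h1 : IsConjRoot ℚ (x : ℂ) (y : ℂ) ↔ IsConjRoot ℚ x y := by
    unfold IsConjRoot
    have hx : minpoly ℚ (x : ℂ) = minpoly ℚ x :=
      minpoly.algebraMap_eq (algebraMap (LF R) ℂ).injective x
    have hy : minpoly ℚ (y : ℂ) = minpoly ℚ y :=
      minpoly.algebraMap_eq (algebraMap (LF R) ℂ).injective y
    rw [hx, hy]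
  rw [h1, isConjRoot_iff_exists_algEquiv]
  constructor
  · rintro ⟨σ, rfl⟩
    exact ⟨σ.symm, σ.symm_apply_apply y⟩
  · rintro ⟨σ, rfl⟩
    exact ⟨σ.symm, σ.symm_apply_apply x⟩

open IntermediateField in
theorem exists_of_isConjRoot {R : ℚ[X]} (x y z : LF R)
    (h : IsConjRoot ℚ⟮(x : ℂ)⟯ (y : ℂ) (z : ℂ)) :
    ∃ g : LF R ≃ₐ[ℚ] LF R, g x = x ∧ g y = z := by
  have hle : ℚ⟮(x : ℂ)⟯ ≤ LF R := by
    rw [IntermediateField.adjoin_simple_le_iff]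
    exact x.2
  let _ : Algebra ℚ⟮(x : ℂ)⟯ (LF R) := (IntermediateField.inclusion hle).toAlgebra
  have hT1 : IsScalarTower ℚ ℚ⟮(x : ℂ)⟯ (LF R) := IsScalarTower.of_algebraMap_eq fun _ => rfl
  have hT2 : IsScalarTower ℚ⟮(x : ℂ)⟯ (LF R) ℂ := IsScalarTower.of_algebraMap_eq fun _ => rfl
  have hN : Normal ℚ⟮(x : ℂ)⟯ (LF R) := Normal.tower_top_of_normal ℚ _ _
  have h1 : IsConjRoot ℚ⟮(x : ℂ)⟯ y z := by
    unfold IsConjRoot at h ⊢
    have hy : minpoly ℚ⟮(x : ℂ)⟯ (y : ℂ) = minpoly ℚ⟮(x : ℂ)⟯ y :=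
      minpoly.algebraMap_eq (algebraMap (LF R) ℂ).injective y
    have hz : minpoly ℚ⟮(x : ℂ)⟯ (z : ℂ) = minpoly ℚ⟮(x : ℂ)⟯ z :=
      minpoly.algebraMap_eq (algebraMap (LF R) ℂ).injective z
    rw [← hy, ← hz, h]
  rw [isConjRoot_iff_exists_algEquiv] at h1
  obtain ⟨σ, rfl⟩ := h1
  refine ⟨σ.symm.restrictScalars ℚ, ?_, ?_⟩
  · have h2 : x = algebraMap ℚ⟮(x : ℂ)⟯ (LF R) ⟨x, IntermediateField.mem_adjoin_simple_self ℚ _⟩ :=
      rfl
    exact (congrArg σ.symm h2).trans ((σ.symm.commutes _).trans h2.symm)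
  · exact σ.symm_apply_apply z

/-- Complex conjugation. -/
noncomputable def iota (R : ℚ[X]) : LF R ≃ₐ[ℚ] LF R :=
  (Complex.conjAe.restrictScalars ℚ).restrictNormal (LF R)

theorem coe_iota {R : ℚ[X]} (z : LF R) : ((iota R z : LF R) : ℂ) = (starRingEnd ℂ) z :=
  AlgEquiv.restrictNormal_commutes (Complex.conjAe.restrictScalars ℚ) (LF R) z

theorem conj_eq_div {q : ℕ} {z : ℂ} (hz : ‖z‖ ^ 2 = q) (hq : q ≠ 0) :
    (starRingEnd ℂ) z = q / z := by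
  have hz0 : z ≠ 0 := by
    rintro rfl
    apply hq
    have : (q : ℝ) = 0 := by rw [← hz]; simp
    exact_mod_cast this
  rw [eq_div_iff hz0, Complex.conj_mul', ← Complex.ofReal_pow, hz]
  simp

theorem coe_smul_root {R : ℚ[X]} (g : LF R ≃ₐ[ℚ] LF R) (y : R.rootSet (LF R)) :
    ((g • y : R.rootSet (LF R)) : LF R) = g y := rfl

theorem aeval_root {R : ℚ[X]} (y : R.rootSet (LF R)) : aeval ((y : LF R) : ℂ) R = 0 := by
  have h1 : aeval (y : LF R) R = 0 := (mem_rootSet.mp y.2).2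
  have h2 : aeval (algebraMap (LF R) ℂ (y : LF R)) R = algebraMap (LF R) ℂ (aeval (y : LF R) R) :=
    aeval_algebraMap_apply ℂ (y : LF R) R
  rw [h1, map_zero] at h2
  exact h2

theorem exists_root {R : ℚ[X]} (hR0 : R ≠ 0) {z : ℂ} (hz : aeval z R = 0) :
    ∃ y : R.rootSet (LF R), ((y : LF R) : ℂ) = z := by
  have hmem : z ∈ R.rootSet ℂ := mem_rootSet.mpr ⟨hR0, hz⟩
  refine ⟨⟨⟨z, IntermediateField.subset_adjoin ℚ _ hmem⟩, ?_⟩, rfl⟩
  rw [mem_rootSet]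
  refine ⟨hR0, ?_⟩
  apply (algebraMap (LF R) ℂ).injective
  rw [← aeval_algebraMap_apply, map_zero]
  exact hz

section

variable {R : ℚ[X]} {q : ℕ}

theorem coe_iota_smul (hW : ∀ z : ℂ, aeval z R = 0 → ‖z‖ ^ 2 = q) (hq : q ≠ 0)
    (y : R.rootSet (LF R)) :
    ((iota R • y : R.rootSet (LF R)) : LF R) = q / y := by
  apply Subtype.ext
  rw [coe_smul_root, coe_iota, conj_eq_div (hW _ (aeval_root y)) hq]
  push_cast
  rfl

theorem root_ne_zero (hW : ∀ z : ℂ, aeval z R = 0 → ‖z‖ ^ 2 = q) (hq : q ≠ 0)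
    (y : R.rootSet (LF R)) : (y : LF R) ≠ 0 := by
  intro h
  have h1 := hW _ (aeval_root y)
  rw [h] at h1
  simp only [ZeroMemClass.coe_zero, norm_zero, ne_eq, OfNat.ofNat_ne_zero, not_false_eq_true,
    zero_pow] at h1
  exact hq (by exact_mod_cast h1.symm)

theorem smul_iota (hW : ∀ z : ℂ, aeval z R = 0 → ‖z‖ ^ 2 = q) (hq : q ≠ 0)
    (g : LF R ≃ₐ[ℚ] LF R) (y : R.rootSet (LF R)) : g • iota R • y = iota R • g • y := by
  apply Subtype.ext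
  rw [coe_smul_root, coe_iota_smul hW hq, coe_iota_smul hW hq, coe_smul_root, map_div₀,
    map_natCast]

theorem iota_iota (hW : ∀ z : ℂ, aeval z R = 0 → ‖z‖ ^ 2 = q) (hq : q ≠ 0)
    (y : R.rootSet (LF R)) : iota R • iota R • y = y := by
  apply Subtype.ext
  rw [coe_iota_smul hW hq, coe_iota_smul hW hq, div_div_cancel₀]
  exact_mod_cast hq

theorem iota_ne (hW : ∀ z : ℂ, aeval z R = 0 → ‖z‖ ^ 2 = q) (hq : q ≠ 0)
    (hns : ∀ z : ℂ, aeval z R = 0 → ∀ n : ℕ, n ≠ 0 → z ^ (2 * n) ≠ (q : ℂ) ^ n)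
    (y : R.rootSet (LF R)) : iota R • y ≠ y := by
  intro h
  have h1 := congrArg (fun w : R.rootSet (LF R) => ((w : LF R) : ℂ)) h
  rw [coe_iota_smul hW hq] at h1
  apply hns _ (aeval_root y) 1 one_ne_zero
  have h0 : ((y : LF R) : ℂ) ≠ 0 := by
    have := root_ne_zero hW hq y
    simpa using this
  have h2 : (q : ℂ) / ((y : LF R) : ℂ) = ((y : LF R) : ℂ) := by
    push_cast at h1
    exact h1
  rw [div_eq_iff h0] at h2
  rw [mul_one, pow_one, sq, h2]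

/-- Two roots with the same trace. -/
theorem eq_of_trace_eq {F : Type*} [Field F] {u v a : F} (hu : u ≠ 0) (hv : v ≠ 0)
    (h : u + a / u = v + a / v) : v = u ∨ v = a / u := by
  have h1 : (v - u) * (v - a / u) = 0 := by
    field_simp at h ⊢
    linear_combination (-1 : F) * h
  rcases mul_eq_zero.mp h1 with h2 | h2
  · left; exact sub_eq_zero.mp h2
  · right; exact sub_eq_zero.mp h2

/-- The lattice of antisymmetric relations. -/
noncomputable def Lam (R : ℚ[X]) (q : ℕ) (hq : (q : ℂ) ≠ 0)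
    (h0 : ∀ x : R.rootSet (LF R), ((x : LF R) : ℂ) ≠ 0) :
    AddSubgroup (R.rootSet (LF R) → ℤ) where
  carrier := {d | (∀ x, d (iota R • x) = - d x) ∧
    ∃ M : ℤ, ∏ x : R.rootSet (LF R), ((x : LF R) : ℂ) ^ d x = (q : ℂ) ^ M}
  zero_mem' := by
    refine ⟨by simp, 0, by simp⟩
  add_mem' := by
    rintro a b ⟨ha, M, hM⟩ ⟨hb, N, hN⟩
    refine ⟨fun x => by simp only [Pi.add_apply, ha, hb]; ring, M + N, ?_⟩
    rw [zpow_add₀ hq, ← hM, ← hN, ← Finset.prod_mul_distrib]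
    refine Finset.prod_congr rfl fun x _ => ?_
    rw [Pi.add_apply, zpow_add₀ (h0 x)]
  neg_mem' := by
    rintro a ⟨ha, M, hM⟩
    refine ⟨fun x => by simp [ha], -M, ?_⟩
    simp only [Pi.neg_apply, zpow_neg, Finset.prod_inv_distrib, hM]

theorem Lam_smul {hq' : (q : ℂ) ≠ 0} {h0 : ∀ x : R.rootSet (LF R), ((x : LF R) : ℂ) ≠ 0}
    (hW : ∀ z : ℂ, aeval z R = 0 → ‖z‖ ^ 2 = q) (hq : q ≠ 0) :
    ∀ d ∈ Lam R q hq' h0, ∀ g : LF R ≃ₐ[ℚ] LF R, (fun y => d (g • y)) ∈ Lam R q hq' h0 := by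
  rintro d ⟨hd, M, hM⟩ g
  refine ⟨fun x => by simp only; rw [smul_iota hW hq, hd], M, ?_⟩
  have h1 : ∏ x : R.rootSet (LF R), (x : LF R) ^ d x = (q : LF R) ^ M := by
    apply (algebraMap (LF R) ℂ).injective
    rw [map_prod, map_zpow₀, map_natCast, ← hM]
    refine Finset.prod_congr rfl fun x _ => ?_
    rw [map_zpow₀]
    rfl
  have h2 := congrArg (fun z : LF R => ((g⁻¹ z : LF R) : ℂ)) h1
  simp only [map_prod, map_zpow₀, map_natCast] at h2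
  have h3 : ∏ x : R.rootSet (LF R), ((x : LF R) : ℂ) ^ d (g • x) =
      ∏ x : R.rootSet (LF R), ((g⁻¹ (x : LF R) : LF R) : ℂ) ^ d x := by
    rw [← Equiv.prod_comp (MulAction.toPerm g)
      (fun x : R.rootSet (LF R) => ((g⁻¹ (x : LF R) : LF R) : ℂ) ^ d x)]
    refine Finset.prod_congr rfl fun x _ => ?_
    rw [MulAction.toPerm_apply, coe_smul_root]
    congr 2
    exact (g.symm_apply_apply (x : LF R)).symm
  rw [h3]
  have h4 : (((q : LF R) ^ M : LF R) : ℂ) = (q : ℂ) ^ M := by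
    push_cast
    rfl
  rw [← h4, ← h2]
  change _ = algebraMap (LF R) ℂ _
  rw [map_prod]
  refine Finset.prod_congr rfl fun x _ => ?_
  rw [map_zpow₀]
  rfl

/-- Integral exponents. -/
theorem zpow_of_zpow {x : ℂ} (hx : ‖x‖ ^ 2 = q) {a b : ℤ} (h : x ^ a = (q : ℂ) ^ b) :
    x ^ (2 * a) = (q : ℂ) ^ a := by
  have h1 : ‖x‖ ^ a = (q : ℝ) ^ b := by
    rw [← norm_zpow, h, norm_zpow, Complex.norm_natCast]
  have h2 : (q : ℝ) ^ a = (q : ℝ) ^ (2 * b) := by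
    calc (q : ℝ) ^ a = (‖x‖ ^ 2) ^ a := by rw [hx]
      _ = (‖x‖ ^ a) ^ 2 := by
        rw [← zpow_natCast, ← zpow_natCast, ← zpow_mul, ← zpow_mul, mul_comm]
      _ = ((q : ℝ) ^ b) ^ 2 := by rw [h1]
      _ = (q : ℝ) ^ (2 * b) := by
        rw [← zpow_natCast, ← zpow_mul, mul_comm]
        rfl
  have h3 : (q : ℂ) ^ a = (q : ℂ) ^ (2 * b) := by
    have := congrArg (fun r : ℝ => (r : ℂ)) h2
    push_cast at this
    exact this
  rw [h3, mul_comm, zpow_mul, h, ← zpow_mul, mul_comm]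

theorem eq_zero_of_zpow {x : ℂ} (hns : ∀ n : ℕ, n ≠ 0 → x ^ (2 * n) ≠ (q : ℂ) ^ n) {a : ℤ}
    (h : x ^ (2 * a) = (q : ℂ) ^ a) : a = 0 := by
  obtain ⟨n, rfl | rfl⟩ := a.eq_nat_or_neg
  · by_contra hn
    apply hns n (by simpa using hn)
    have h1 : (2 * (n : ℤ)) = ((2 * n : ℕ) : ℤ) := by push_cast; rfl
    rw [h1, zpow_natCast, zpow_natCast] at h
    exact h
  · by_contra hn
    apply hns n (by simpa using hn)
    have h1 : (2 * (-(n : ℤ))) = -((2 * n : ℕ) : ℤ) := by push_cast; ring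
    rw [h1, zpow_neg, zpow_neg, zpow_natCast, zpow_natCast] at h
    exact inv_injective h

/-- Relations supported on a pair. -/
theorem Lam_pair {hq' : (q : ℂ) ≠ 0} {h0 : ∀ x : R.rootSet (LF R), ((x : LF R) : ℂ) ≠ 0}
    (hW : ∀ z : ℂ, aeval z R = 0 → ‖z‖ ^ 2 = q) (hq : q ≠ 0)
    (hns : ∀ z : ℂ, aeval z R = 0 → ∀ n : ℕ, n ≠ 0 → z ^ (2 * n) ≠ (q : ℂ) ^ n)
    (x : R.rootSet (LF R)) :
    ∀ d ∈ Lam R q hq' h0, (∀ y, y ≠ x → y ≠ iota R • x → d y = 0) → d x = 0 := by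
  rintro d ⟨hd, M, hM⟩ hsupp
  have h1 : ∏ y : R.rootSet (LF R), ((y : LF R) : ℂ) ^ d y =
      ((x : LF R) : ℂ) ^ d x * (((iota R • x : R.rootSet (LF R)) : LF R) : ℂ) ^ d (iota R • x) := by
    apply Fintype.prod_eq_mul x (iota R • x) (iota_ne hW hq hns x).symm
    rintro y ⟨hy1, hy2⟩
    rw [hsupp y hy1 hy2, zpow_zero]
  have h2 : (((iota R • x : R.rootSet (LF R)) : LF R) : ℂ) = q / ((x : LF R) : ℂ) := by
    rw [coe_iota_smul hW hq]
    push_cast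
    rfl
  rw [h1, h2, hd, zpow_neg, div_zpow, inv_div] at hM
  have h3 : ((x : LF R) : ℂ) ^ (2 * d x) = (q : ℂ) ^ (M + d x) := by
    rw [two_mul, zpow_add₀ (h0 x), zpow_add₀ hq', ← hM]
    field_simp
  have h4 := zpow_of_zpow (hW _ (aeval_root x)) h3
  have h5 := eq_zero_of_zpow (hns _ (aeval_root x)) h4
  omega

end

end Pool.Agent.Lib.MP_950c68_ag.Orb
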