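import Mathlib
import Pool.Agent.Lib.MP_950c68_ag.OrbField

/-!
# Local conditions on Weil numbers excluding nontrivial relations
-/

namespace Pool.Agent.Lib.MP_950c68_ag.Orb

open Polynomial MulAction
open scoped IntermediateField

/-- Every conjugate `y` of `x` other than `x, q / x` is conjugate to `q / y` over `ℚ(x)`. -/
def SelfDual (q : ℕ) (x : ℂ) : Prop :=
  ∀ y : ℂ, IsConjRoot ℚ x y → y ≠ x → y ≠ q / x → IsConjRoot ℚ⟮x⟯ y (q / y)

/-- The field `ℚ(x + q / x)` has no proper nontrivial subfield, and some conjugate of `x` is not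
in the field generated by `x` and all conjugates of `x + q / x`. -/
def PrimitiveReal (q : ℕ) (x : ℂ) : Prop :=
  (∀ F : IntermediateField ℚ ℂ, F ≤ ℚ⟮x + q / x⟯ → F = ⊥ ∨ F = ℚ⟮x + q / x⟯) ∧
  ∃ y : ℂ, IsConjRoot ℚ x y ∧
    y ∉ IntermediateField.adjoin ℚ ({x} ∪ (fun z : ℂ => z + q / z) '' {z | IsConjRoot ℚ x z})

/-- The Galois group is 3-transitive on the conjugates of `x + q / x`, the degree of `x` is at
least `6`, and for each half system `Φ` of conjugates of `x` which contains `x` and is mapped by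
each automorphism to itself or its complement, `x` and the product of `Φ` are multiplicatively
independent modulo powers of `q`. -/
def ThreeTransitive (q : ℕ) (x : ℂ) : Prop :=
  6 ≤ (minpoly ℚ x).natDegree ∧
  (∀ u v : Fin 3 → ℂ, (∀ k, IsConjRoot ℚ x (u k)) → (∀ k, IsConjRoot ℚ x (v k)) →
    (Function.Injective fun k => u k + q / u k) → (Function.Injective fun k => v k + q / v k) →
    ∃ σ : ℂ ≃ₐ[ℚ] ℂ, ∀ k, σ (u k + q / u k) = v k + q / v k) ∧
  ∀ Φ : Finset ℂ, x ∈ Φ → (∀ z ∈ Φ, IsConjRoot ℚ x z) →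
    (∀ z, IsConjRoot ℚ x z → (z ∈ Φ ↔ q / z ∉ Φ)) →
    (∀ σ : ℂ ≃ₐ[ℚ] ℂ, (∀ z ∈ Φ, σ z ∈ Φ) ∨ ∀ z ∈ Φ, σ z ∉ Φ) →
    ∀ a b m : ℤ, x ^ a * (∏ z ∈ Φ, z) ^ b = (q : ℂ) ^ m → a = 0 ∧ b = 0

variable {R : ℚ[X]} {q : ℕ}

theorem mem_orbit_iff_isConjRoot (x y : R.rootSet (LF R)) :
    y ∈ orbit (LF R ≃ₐ[ℚ] LF R) x ↔ IsConjRoot ℚ ((x : LF R) : ℂ) ((y : LF R) : ℂ) := by
  rw [isConjRoot_iff]
  constructor
  · rintro ⟨g, rfl⟩
    exact ⟨g, rfl⟩
  · rintro ⟨g, hg⟩
    exact ⟨g, Subtype.ext hg⟩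

theorem aeval_of_isConjRoot {z w : ℂ} (h : IsConjRoot ℚ z w) (hz : aeval z R = 0) :
    aeval w R = 0 := by
  have h1 : minpoly ℚ z ∣ R := minpoly.dvd ℚ z hz
  obtain ⟨S, hS⟩ := h1
  rw [hS, map_mul]
  have h2 : aeval w (minpoly ℚ z) = 0 := by
    unfold IsConjRoot at h
    rw [h]
    exact minpoly.aeval ℚ w
  rw [h2, zero_mul]

theorem coe_div (x : LF R) : (((q : LF R) / x : LF R) : ℂ) = (q : ℂ) / (x : ℂ) := by
  push_cast
  rfl

theorem exists_smul_iota (hW : ∀ z : ℂ, aeval z R = 0 → ‖z‖ ^ 2 = q) (hq : q ≠ 0)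
    (x y : R.rootSet (LF R))
    (h : IsConjRoot ℚ⟮((x : LF R) : ℂ)⟯ ((y : LF R) : ℂ) (q / ((y : LF R) : ℂ))) :
    ∃ g : LF R ≃ₐ[ℚ] LF R, g • x = x ∧ g • y = iota R • y := by
  rw [← coe_div] at h
  obtain ⟨g, hg1, hg2⟩ := exists_of_isConjRoot _ _ _ h
  refine ⟨g, Subtype.ext hg1, Subtype.ext ?_⟩
  rw [coe_iota_smul hW hq]
  exact hg2

/-- Elements of the Galois group fixing traces. -/
theorem smul_eq_of_trace (hW : ∀ z : ℂ, aeval z R = 0 → ‖z‖ ^ 2 = q) (hq : q ≠ 0)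
    (g : LF R ≃ₐ[ℚ] LF R) (x y : R.rootSet (LF R))
    (h : g ((x : LF R) + q / (x : LF R)) = (y : LF R) + q / (y : LF R)) :
    g • x = y ∨ g • x = iota R • y := by
  rw [map_add, map_div₀, map_natCast] at h
  rcases eq_of_trace_eq (root_ne_zero hW hq y) ((_root_.map_ne_zero g).mpr (root_ne_zero hW hq x))
    h.symm with h1 | h1
  · left
    exact Subtype.ext h1
  · right
    apply Subtype.ext
    rw [coe_iota_smul hW hq]
    exact h1

open IntermediateField in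
/-- The primitive case. -/
theorem selfDual_of_primitiveReal (hR0 : R ≠ 0) (hW : ∀ z : ℂ, aeval z R = 0 → ‖z‖ ^ 2 = q)
    (hq : q ≠ 0) (x : R.rootSet (LF R)) (hx : PrimitiveReal q ((x : LF R) : ℂ)) :
    ∀ y ∈ orbit (LF R ≃ₐ[ℚ] LF R) x, y ≠ x → y ≠ iota R • x →
      ∃ g : LF R ≃ₐ[ℚ] LF R, g • x = x ∧ g • y = iota R • y := by
  obtain ⟨hprim, y₀', hy₀', hy₀''⟩ := hx
  obtain ⟨y₀, rfl⟩ := exists_root hR0 (aeval_of_isConjRoot hy₀' (aeval_root x))
  -- the element `g₀`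
  let S : Set (LF R) := {(x : LF R)} ∪ (fun z : LF R => z + q / z) ''
    {z : LF R | IsConjRoot ℚ ((x : LF R) : ℂ) (z : ℂ)}
  have hlift : lift (adjoin ℚ S) ≤
      adjoin ℚ ({((x : LF R) : ℂ)} ∪ (fun z : ℂ => z + q / z) ''
        {z | IsConjRoot ℚ ((x : LF R) : ℂ) z}) := by
    rw [lift_adjoin, adjoin_le_iff]
    rintro _ ⟨z, hz, rfl⟩
    rcases hz with hz | ⟨w, hw, rfl⟩
    · apply subset_adjoin
      left
      rw [Set.mem_singleton_iff] at hz ⊢
      rw [hz]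
    · apply subset_adjoin
      right
      refine ⟨w, hw, ?_⟩
      simp only
      push_cast
      rfl
  have hy₀S : (y₀ : LF R) ∉ adjoin ℚ S := by
    intro h
    apply hy₀''
    apply hlift
    rwa [mem_lift]
  obtain ⟨g₀, hg₀, hg₀y⟩ : ∃ g₀ ∈ (adjoin ℚ S).fixingSubgroup, g₀ (y₀ : LF R) ≠ y₀ := by
    by_contra hcon
    push Not at hcon
    apply hy₀S
    rw [← IsGalois.fixedField_fixingSubgroup (adjoin ℚ S), mem_fixedField_iff]
    exact hcon
  rw [IntermediateField.mem_fixingSubgroup_iff] at hg₀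
  refine selfDual_of_primitive (smul_iota hW hq) (iota_iota hW hq) x ?_ (g₀ := g₀) ?_ ?_
    (y₀ := y₀) ?_ ?_
  · intro H hH
    let t : LF R := (x : LF R) + q / (x : LF R)
    have hcoet : ((t : LF R) : ℂ) = ((x : LF R) : ℂ) + q / ((x : LF R) : ℂ) := by
      simp only [t]
      push_cast
      rfl
    have hle : fixedField H ≤ ℚ⟮t⟯ := by
      rw [← IsGalois.fixedField_fixingSubgroup ℚ⟮t⟯]
      apply fixedField_antitone
      intro g hg
      apply hH
      rw [IntermediateField.mem_fixingSubgroup_iff] at hg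
      exact smul_eq_of_trace hW hq g x x (hg t (mem_adjoin_simple_self ℚ t))
    have hlt : lift ℚ⟮t⟯ = ℚ⟮((x : LF R) : ℂ) + q / ((x : LF R) : ℂ)⟯ := by
      rw [lift_adjoin, Set.image_singleton, hcoet]
    have hle' : lift (fixedField H) ≤ ℚ⟮((x : LF R) : ℂ) + q / ((x : LF R) : ℂ)⟯ := by
      rw [← hlt]
      rintro _ ⟨z, hz, rfl⟩
      exact ⟨z, hle hz, rfl⟩
    rcases hprim _ hle' with h | h
    · left
      rw [← lift_bot ℚ (LF R)] at h
      have h1 : fixedField H = ⊥ := lift_injective _ h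
      rw [← fixingSubgroup_fixedField H, h1, fixingSubgroup_bot]
    · right
      rw [← hlt] at h
      have h1 : fixedField H = ℚ⟮t⟯ := lift_injective _ h
      intro g hg
      apply smul_eq_of_trace hW hq g x x
      have h2 : t ∈ fixedField H := by
        rw [h1]
        exact mem_adjoin_simple_self ℚ t
      rw [mem_fixedField_iff] at h2
      exact h2 g hg
  · intro z hz
    apply smul_eq_of_trace hW hq g₀ z z
    apply hg₀
    apply subset_adjoin
    right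
    exact ⟨z, (mem_orbit_iff_isConjRoot x z).mp hz, rfl⟩
  · apply Subtype.ext
    apply hg₀
    apply subset_adjoin
    left
    rfl
  · exact (mem_orbit_iff_isConjRoot x y₀).mpr hy₀'
  · intro h
    exact hg₀y (congrArg Subtype.val h)

end Pool.Agent.Lib.MP_950c68_ag.Orb
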