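import Mathlib
import Pool.Agent.Lib.MP_950c68_ag.OrbLocal

/-!
# No nontrivial antisymmetric relations under the local conditions
-/

namespace Pool.Agent.Lib.MP_950c68_ag.Orb

open Polynomial MulAction
open scoped IntermediateField

variable {R : ℚ[X]} {q : ℕ}

theorem coe_iota' (hW : ∀ z : ℂ, aeval z R = 0 → ‖z‖ ^ 2 = q) (hq : q ≠ 0)
    (y : R.rootSet (LF R)) :
    (((iota R • y : R.rootSet (LF R)) : LF R) : ℂ) = (q : ℂ) / ((y : LF R) : ℂ) := by
  rw [coe_iota_smul hW hq]
  exact coe_div _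

theorem coe_injective : Function.Injective fun y : R.rootSet (LF R) => ((y : LF R) : ℂ) :=
  fun _ _ h => Subtype.ext (Subtype.ext h)

theorem inj_three {a b c : ℂ} (h1 : a ≠ b) (h2 : b ≠ c) (h3 : c ≠ a) :
    Function.Injective ![a, b, c] := by
  intro i j h
  fin_cases i <;> fin_cases j <;> simp_all

/-- The product over all roots in terms of a half system. -/
theorem prod_half (hW : ∀ z : ℂ, aeval z R = 0 → ‖z‖ ^ 2 = q) (hq : q ≠ 0)
    (x : R.rootSet (LF R)) (Φ : Finset (R.rootSet (LF R)))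
    (hΦO : ∀ z ∈ Φ, z ∈ orbit (LF R ≃ₐ[ℚ] LF R) x)
    (hsec : ∀ z ∈ orbit (LF R ≃ₐ[ℚ] LF R) x, z ∈ Φ ↔ iota R • z ∉ Φ)
    (d : R.rootSet (LF R) → ℤ) (hd : ∀ y, d (iota R • y) = - d y)
    (hsupp : ∀ y ∉ orbit (LF R ≃ₐ[ℚ] LF R) x, d y = 0) :
    ∏ y : R.rootSet (LF R), ((y : LF R) : ℂ) ^ d y =
      ∏ y ∈ Φ, (((y : LF R) : ℂ) ^ 2 / (q : ℂ)) ^ d y := by
  classical
  have hinj : Function.Injective fun y : R.rootSet (LF R) => iota R • y :=
    MulAction.injective (iota R)
  have h1 : ∏ y ∈ Φ ∪ Φ.image (fun y => iota R • y), ((y : LF R) : ℂ) ^ d y =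
      ∏ y : R.rootSet (LF R), ((y : LF R) : ℂ) ^ d y := by
    apply Finset.prod_subset (Finset.subset_univ _)
    intro y _ hy
    rw [Finset.mem_union, Finset.mem_image] at hy
    push Not at hy
    have hyO : y ∉ orbit (LF R ≃ₐ[ℚ] LF R) x := by
      intro h
      have h2 : iota R • y ∈ Φ := by
        by_contra h3
        exact hy.1 ((hsec y h).mpr h3)
      exact hy.2 _ h2 (iota_iota hW hq y)
    rw [hsupp y hyO, zpow_zero]
  rw [← h1, Finset.prod_union, Finset.prod_image hinj.injOn, ← Finset.prod_mul_distrib]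
  · refine Finset.prod_congr rfl fun y _ => ?_
    have hy0 : ((y : LF R) : ℂ) ≠ 0 := by
      have := root_ne_zero hW hq y
      simpa using this
    rw [hd, coe_iota' hW hq, zpow_neg, ← inv_zpow, inv_div, ← mul_zpow]
    congr 1
    ring
  · rw [Finset.disjoint_left]
    intro y hy hy'
    rw [Finset.mem_image] at hy'
    obtain ⟨z, hz, rfl⟩ := hy'
    exact (hsec z (hΦO z hz)).mp hz hy

theorem zpow_aux {X P Q : ℂ} (hX : X ≠ 0) (hP : P ≠ 0) (hQ : Q ≠ 0) {a b M : ℤ} {c : ℕ}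
    (h : (X ^ 2 / Q) ^ a * (P ^ 2 / Q ^ c) ^ b = Q ^ M) :
    X ^ (2 * a) * P ^ (2 * b) = Q ^ (M + a + c * b) := by
  rw [div_zpow, div_zpow, ← zpow_natCast X, ← zpow_natCast P, ← zpow_natCast Q, ← zpow_mul,
    ← zpow_mul, ← zpow_mul] at h
  rw [zpow_add₀ hQ, zpow_add₀ hQ, ← h]
  have h1 : Q ^ a ≠ 0 := zpow_ne_zero _ hQ
  have h2 : Q ^ ((c : ℤ) * b) ≠ 0 := zpow_ne_zero _ hQ
  push_cast
  field_simp

theorem Lam_eq_zero (hR0 : R ≠ 0) (hW : ∀ z : ℂ, aeval z R = 0 → ‖z‖ ^ 2 = q) (hq : q ≠ 0)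
    (hns : ∀ z : ℂ, aeval z R = 0 → ∀ n : ℕ, n ≠ 0 → z ^ (2 * n) ≠ (q : ℂ) ^ n)
    {hq' : (q : ℂ) ≠ 0} {h0 : ∀ x : R.rootSet (LF R), ((x : LF R) : ℂ) ≠ 0}
    (x : R.rootSet (LF R))
    (hloc : SelfDual q ((x : LF R) : ℂ) ∨ PrimitiveReal q ((x : LF R) : ℂ) ∨
      ThreeTransitive q ((x : LF R) : ℂ))
    (hcross : ∀ y : ℂ, aeval y R = 0 → ¬ IsConjRoot ℚ ((x : LF R) : ℂ) y →
      IsConjRoot ℚ⟮((x : LF R) : ℂ)⟯ y (q / y)) :
    ∀ d ∈ Lam R q hq' h0, d x = 0 := by
  classical
  intro d hd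
  have hcross' : ∀ y ∉ orbit (LF R ≃ₐ[ℚ] LF R) x,
      ∃ g : LF R ≃ₐ[ℚ] LF R, g • x = x ∧ g • y = iota R • y := by
    intro y hy
    rw [mem_orbit_iff_isConjRoot] at hy
    exact exists_smul_iota hW hq x y (hcross _ (aeval_root y) hy)
  rcases hloc with hloc | hloc | hloc
  · refine eq_zero_of_selfDual (Lam_smul hW hq) (fun d hd => hd.1) x ?_ (Lam_pair hW hq hns x) hd
    intro y hy1 hy2
    by_cases hy : y ∈ orbit (LF R ≃ₐ[ℚ] LF R) x
    · apply exists_smul_iota hW hq x y
      apply hloc _ ((mem_orbit_iff_isConjRoot x y).mp hy)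
      · intro h
        exact hy1 (coe_injective h)
      · intro h
        apply hy2
        apply coe_injective
        simp only
        rw [coe_iota' hW hq, h]
    · exact hcross' y hy
  · refine eq_zero_of_selfDual (Lam_smul hW hq) (fun d hd => hd.1) x ?_ (Lam_pair hW hq hns x) hd
    intro y hy1 hy2
    by_cases hy : y ∈ orbit (LF R ≃ₐ[ℚ] LF R) x
    · exact selfDual_of_primitiveReal hR0 hW hq x hloc y hy hy1 hy2
    · exact hcross' y hy
  · obtain ⟨hdeg, htr, hind⟩ := hloc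
    have hE : ∀ u v : R.rootSet (LF R), ¬ (v = u ∨ v = iota R • u) →
        ((u : LF R) : ℂ) + q / ((u : LF R) : ℂ) ≠ ((v : LF R) : ℂ) + q / ((v : LF R) : ℂ) := by
      intro u v huv h
      apply huv
      rcases eq_of_trace_eq (h0 u) (h0 v) h with h1 | h1
      · left
        exact coe_injective h1
      · right
        apply coe_injective
        simp only
        rw [coe_iota' hW hq, h1]
    refine eq_zero_of_threeTransitive (Lam_smul hW hq) (fun d hd => hd.1) (smul_iota hW hq)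
      (iota_iota hW hq) (iota_ne hW hq hns) x (fun u v => v = u ∨ v = iota R • u)
      (fun _ _ => Iff.rfl) ?_ ?_ hcross' (Lam_pair hW hq hns x) ?_ hd
    · intro u v w u' v' w' hu hv hw hu' hv' hw' huv hvw hwu huv' hvw' hwu'
      have hfun : ∀ a b c : ℂ, (fun k => ![a, b, c] k + (q : ℂ) / ![a, b, c] k) =
          ![a + q / a, b + q / b, c + q / c] := by
        intro a b c
        funext k
        fin_cases k <;> rfl
      obtain ⟨σ, hσ⟩ := htr ![((u : LF R) : ℂ), ((v : LF R) : ℂ), ((w : LF R) : ℂ)]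
        ![((u' : LF R) : ℂ), ((v' : LF R) : ℂ), ((w' : LF R) : ℂ)] (by
          intro k
          fin_cases k
          · exact (mem_orbit_iff_isConjRoot _ _).mp hu
          · exact (mem_orbit_iff_isConjRoot _ _).mp hv
          · exact (mem_orbit_iff_isConjRoot _ _).mp hw) (by
          intro k
          fin_cases k
          · exact (mem_orbit_iff_isConjRoot _ _).mp hu'
          · exact (mem_orbit_iff_isConjRoot _ _).mp hv'
          · exact (mem_orbit_iff_isConjRoot _ _).mp hw') (by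
          rw [hfun]
          exact inj_three (hE _ _ huv) (hE _ _ hvw) (hE _ _ hwu)) (by
          rw [hfun]
          exact inj_three (hE _ _ huv') (hE _ _ hvw') (hE _ _ hwu'))
      obtain ⟨g, hg⟩ := exists_restrict R σ
      have key : ∀ a b : R.rootSet (LF R),
          σ (((a : LF R) : ℂ) + q / ((a : LF R) : ℂ)) = ((b : LF R) : ℂ) + q / ((b : LF R) : ℂ) →
          g • a = b ∨ g • a = iota R • b := by
        intro a b hab
        apply smul_eq_of_trace hW hq g a b
        apply Subtype.ext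
        rw [hg]
        push_cast
        exact hab
      exact ⟨g, key _ _ (hσ 0), key _ _ (hσ 1), key _ _ (hσ 2)⟩
    · have hint : IsIntegral ℚ ((x : LF R) : ℂ) :=
        IsAlgebraic.isIntegral ⟨R, hR0, aeval_root x⟩
      let T : Finset ℂ := ((minpoly ℚ ((x : LF R) : ℂ)).rootSet ℂ).toFinset
      have hTcard : 6 ≤ T.card := by
        rw [Set.toFinset_card, card_rootSet_eq_natDegree (minpoly.irreducible hint).separable
          (IsAlgClosed.splits _)]
        exact hdeg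
      have hTm : ∀ z ∈ T, ∃ y : R.rootSet (LF R), ((y : LF R) : ℂ) = z ∧
          y ∈ orbit (LF R ≃ₐ[ℚ] LF R) x := by
        intro z hz
        rw [Set.mem_toFinset, mem_rootSet] at hz
        have h1 : IsConjRoot ℚ ((x : LF R) : ℂ) z := (isConjRoot_iff_aeval_eq_zero hint).mpr hz.2
        obtain ⟨y, rfl⟩ := exists_root hR0 (aeval_of_isConjRoot h1 (aeval_root x))
        exact ⟨y, rfl, (mem_orbit_iff_isConjRoot x y).mpr h1⟩
      obtain ⟨y', hy'T, hy'⟩ := Finset.exists_mem_notMem_of_card_lt_card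
        (s := {((x : LF R) : ℂ), q / ((x : LF R) : ℂ)}) (t := T)
        (lt_of_le_of_lt Finset.card_le_two (by omega))
      obtain ⟨y, rfl, hyO⟩ := hTm y' hy'T
      obtain ⟨z', hz'T, hz'⟩ := Finset.exists_mem_notMem_of_card_lt_card
        (s := {((x : LF R) : ℂ), q / ((x : LF R) : ℂ), ((y : LF R) : ℂ), q / ((y : LF R) : ℂ)})
        (t := T) (lt_of_le_of_lt Finset.card_le_four (by omega))
      obtain ⟨z, rfl, hzO⟩ := hTm z' hz'T
      simp only [Finset.mem_insert, Finset.mem_singleton] at hy' hz'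
      push Not at hy' hz'
      refine ⟨y, hyO, z, hzO, ?_, ?_, ?_⟩
      · rintro (h | h)
        · exact hy'.1 (by rw [h])
        · apply hy'.2
          rw [h, coe_iota' hW hq]
      · rintro (h | h)
        · exact hz'.2.2.1 (by rw [h])
        · apply hz'.2.2.2
          rw [h, coe_iota' hW hq]
      · rintro (h | h)
        · exact hz'.1 (by rw [h])
        · apply hz'.2.1
          rw [h, coe_iota' hW hq, div_div_cancel₀ hq']
    · intro Φ hxΦ hΦO hsec hblock e he hsupp hconst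
      obtain ⟨b, hb⟩ : ∃ b, ∀ y ∈ Φ, y ≠ x → e y = b := by
        by_cases h : ∃ y ∈ Φ, y ≠ x
        · obtain ⟨y, hy, hyx⟩ := h
          exact ⟨e y, fun z hz hzx => hconst z hz y hy hzx hyx⟩
        · push Not at h
          exact ⟨0, fun y hy hyx => absurd (h y hy) hyx⟩
      obtain ⟨hanti, M, hM⟩ := he
      rw [prod_half hW hq x Φ hΦO hsec e hanti hsupp] at hM
      let Φ' : Finset ℂ := Φ.image fun y : R.rootSet (LF R) => ((y : LF R) : ℂ)
      have hΦ'm : ∀ y : R.rootSet (LF R), ((y : LF R) : ℂ) ∈ Φ' ↔ y ∈ Φ := by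
        intro y
        simp only [Φ', Finset.mem_image]
        constructor
        · rintro ⟨z, hz, hzy⟩
          rwa [← coe_injective hzy]
        · intro hy
          exact ⟨y, hy, rfl⟩
      have hprod : ∏ z ∈ Φ', z = ∏ y ∈ Φ, ((y : LF R) : ℂ) :=
        Finset.prod_image coe_injective.injOn
      have hP0 : ∏ y ∈ Φ, ((y : LF R) : ℂ) ≠ 0 := Finset.prod_ne_zero_iff.mpr fun y _ => h0 y
      have h1 : ∏ y ∈ Φ, (((y : LF R) : ℂ) ^ 2 / (q : ℂ)) ^ e y =
          (((x : LF R) : ℂ) ^ 2 / (q : ℂ)) ^ (e x - b) *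
            ((∏ y ∈ Φ, ((y : LF R) : ℂ)) ^ 2 / (q : ℂ) ^ Φ.card) ^ b := by
        have hx2 : ((x : LF R) : ℂ) ^ 2 / (q : ℂ) ≠ 0 := div_ne_zero (pow_ne_zero _ (h0 x)) hq'
        have h2 : (∏ y ∈ Φ, ((y : LF R) : ℂ)) ^ 2 / (q : ℂ) ^ Φ.card =
            ∏ y ∈ Φ, (((y : LF R) : ℂ) ^ 2 / (q : ℂ)) := by
          rw [Finset.prod_div_distrib, Finset.prod_const, Finset.prod_pow]
        rw [h2, ← Finset.prod_zpow, ← Finset.mul_prod_erase _ _ hxΦ,
          ← Finset.mul_prod_erase Φ (fun y => (((y : LF R) : ℂ) ^ 2 / (q : ℂ)) ^ b) hxΦ,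
          ← mul_assoc, ← zpow_add₀ hx2, sub_add_cancel]
        congr 1
        refine Finset.prod_congr rfl fun y hy => ?_
        rw [Finset.mem_erase] at hy
        rw [hb y hy.2 hy.1]
      rw [h1] at hM
      have h2 := zpow_aux (h0 x) hP0 hq' hM
      rw [← hprod] at h2
      have h3 := hind Φ' ((hΦ'm x).mpr hxΦ) ?_ ?_ ?_ _ _ _ h2
      · omega
      · intro z hz
        simp only [Φ', Finset.mem_image] at hz
        obtain ⟨y, hy, rfl⟩ := hz
        exact (mem_orbit_iff_isConjRoot x y).mp (hΦO y hy)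
      · intro z hz
        obtain ⟨y, rfl⟩ := exists_root hR0 (aeval_of_isConjRoot hz (aeval_root x))
        rw [hΦ'm, ← coe_iota' hW hq, hΦ'm]
        exact hsec y ((mem_orbit_iff_isConjRoot x y).mpr hz)
      · intro σ
        obtain ⟨g, hg⟩ := exists_restrict R σ
        have key : ∀ y : R.rootSet (LF R), σ ((y : LF R) : ℂ) ∈ Φ' ↔ g • y ∈ Φ := by
          intro y
          rw [← hg, ← coe_smul_root, hΦ'm]
        rcases hblock g with h | h
        · left
          intro z hz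
          simp only [Φ', Finset.mem_image] at hz
          obtain ⟨y, hy, rfl⟩ := hz
          exact (key y).mpr (h y hy)
        · right
          intro z hz
          simp only [Φ', Finset.mem_image] at hz
          obtain ⟨y, hy, rfl⟩ := hz
          exact fun h' => h y hy ((key y).mp h')

end Pool.Agent.Lib.MP_950c68_ag.Orb
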