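import Mathlib
import Pool.Agent.Lib.MP_950c68_ag.OrbMain
import Pool.Agent.Lib.MP_950c68_ag.Pair

/-!
# From antisymmetric relations in `ℂ` to arbitrary relations in any field
-/

namespace Pool.Agent.Lib.MP_950c68_ag.Orb

open Polynomial MulAction
open scoped IntermediateField

variable {R : ℚ[X]} {q : ℕ}

theorem exists_root_eq {E : Type*} [Field E] [Algebra ℚ E] (hR : R ≠ 0) (τ : LF R →ₐ[ℚ] E)
    {z : E} (hz : aeval z R = 0) : ∃ x : R.rootSet (LF R), τ x = z := by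
  have key := (IsSplittingField.splits (LF R) R).roots_map (τ : LF R →+* E)
  rw [map_map, AlgHom.comp_algebraMap] at key
  have h1 : z ∈ (R.map (algebraMap ℚ E)).roots := by
    rw [mem_roots_map hR]
    exact hz
  rw [key, Multiset.mem_map] at h1
  obtain ⟨x, hx, rfl⟩ := h1
  refine ⟨⟨x, ?_⟩, rfl⟩
  rw [mem_rootSet]
  refine ⟨hR, ?_⟩
  rw [mem_roots_map hR] at hx
  exact hx

theorem prod_roots {E : Type*} [Field E] [Algebra ℚ E] (hR : R ≠ 0)
    (τ : LF R →ₐ[ℚ] E) {A : Type*} [CommMonoid A] (F : E → A) :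
    ∏ z ∈ (R.rootSet_finite E).toFinset, F z = ∏ x : R.rootSet (LF R), F (τ x) := by
  classical
  have hinj : Function.Injective τ := τ.injective
  symm
  refine Finset.prod_bij (fun x _ => τ x) ?_ ?_ ?_ ?_
  · intro x _
    rw [Set.Finite.mem_toFinset, mem_rootSet]
    refine ⟨hR, ?_⟩
    rw [aeval_algHom_apply, (mem_rootSet.mp x.2).2, map_zero]
  · intro x _ y _ h
    exact Subtype.ext (hinj h)
  · intro z hz
    rw [Set.Finite.mem_toFinset, mem_rootSet] at hz
    obtain ⟨x, rfl⟩ := exists_root_eq hR τ hz.2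
    exact ⟨x, Finset.mem_univ _, rfl⟩
  · intro x _
    rfl

theorem noRel_of_local (hR0 : R ≠ 0) (hW : ∀ z : ℂ, aeval z R = 0 → ‖z‖ ^ 2 = q) (hq : q ≠ 0)
    (hns : ∀ z : ℂ, aeval z R = 0 → ∀ n : ℕ, n ≠ 0 → z ^ (2 * n) ≠ (q : ℂ) ^ n)
    (hloc : ∀ x : ℂ, aeval x R = 0 → SelfDual q x ∨ PrimitiveReal q x ∨ ThreeTransitive q x)
    (hcross : ∀ x y : ℂ, aeval x R = 0 → aeval y R = 0 → ¬ IsConjRoot ℚ x y →
      IsConjRoot ℚ⟮x⟯ y (q / y))
    (E : Type*) [Field E] [Algebra ℚ E] [IsAlgClosed E] : NoRel R q E := by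
  classical
  intro c M hrel z hz
  let τ : LF R →ₐ[ℚ] E := IsAlgClosed.lift
  have hq' : (q : ℂ) ≠ 0 := by exact_mod_cast hq
  have h0 : ∀ x : R.rootSet (LF R), ((x : LF R) : ℂ) ≠ 0 := by
    intro x
    have := root_ne_zero hW hq x
    simpa using this
  have hτι : ∀ x : R.rootSet (LF R), τ (iota R • x : R.rootSet (LF R)) = (q : E) / τ x := by
    intro x
    rw [coe_iota_smul hW hq, map_div₀, map_natCast]
  -- the relation in `ℂ`
  have hrelL : ∏ x : R.rootSet (LF R), (x : LF R) ^ c (τ x) = (q : LF R) ^ M := by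
    have h1 := hrel
    rw [prod_roots hR0 τ] at h1
    apply τ.injective
    rw [map_prod, map_pow, map_natCast, ← h1]
    refine Finset.prod_congr rfl fun x _ => ?_
    rw [map_pow]
    rfl
  have hrelC : ∏ x : R.rootSet (LF R), ((x : LF R) : ℂ) ^ c (τ x) = (q : ℂ) ^ M := by
    have h1 := congrArg (algebraMap (LF R) ℂ) hrelL
    rw [map_prod, map_pow, map_natCast] at h1
    rw [← h1]
    refine Finset.prod_congr rfl fun x _ => ?_
    rw [map_pow]
    rfl
  let e : R.rootSet (LF R) → ℕ := fun x => c (τ x)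
  have hd : (fun x => (e x : ℤ) - e (iota R • x)) ∈ Lam R q hq' h0 := by
    refine ⟨fun x => ?_, ?_⟩
    · simp only
      rw [iota_iota hW hq]
      ring
    · refine ⟨2 * M - ∑ x : R.rootSet (LF R), (e x : ℤ), ?_⟩
      have h1 : ∏ x : R.rootSet (LF R), ((x : LF R) : ℂ) ^ (e (iota R • x)) =
          (q : ℂ) ^ (∑ x : R.rootSet (LF R), e x) / (q : ℂ) ^ M := by
        rw [← Equiv.prod_comp (MulAction.toPerm (iota R))
          (fun x : R.rootSet (LF R) => ((x : LF R) : ℂ) ^ (e (iota R • x)))]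
        simp only [MulAction.toPerm_apply]
        rw [← hrelC, ← Finset.prod_pow_eq_pow_sum, ← Finset.prod_div_distrib]
        refine Finset.prod_congr rfl fun x _ => ?_
        rw [iota_iota hW hq, coe_iota' hW hq, div_pow]
      have h2 : ∏ x : R.rootSet (LF R), ((x : LF R) : ℂ) ^ ((e x : ℤ) - e (iota R • x)) =
          (∏ x : R.rootSet (LF R), ((x : LF R) : ℂ) ^ (e x)) /
            ∏ x : R.rootSet (LF R), ((x : LF R) : ℂ) ^ (e (iota R • x)) := by
        rw [← Finset.prod_div_distrib]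
        refine Finset.prod_congr rfl fun x _ => ?_
        rw [zpow_sub₀ (h0 x), zpow_natCast, zpow_natCast]
      rw [h2, h1]
      have h3 : ∏ x : R.rootSet (LF R), ((x : LF R) : ℂ) ^ (e x) = (q : ℂ) ^ M := hrelC
      rw [h3, zpow_sub₀ hq', ← Nat.cast_sum, zpow_natCast, mul_comm 2, zpow_mul, zpow_natCast]
      have h4 : (q : ℂ) ^ M ≠ 0 := pow_ne_zero _ hq'
      have h5 : (q : ℂ) ^ (∑ x : R.rootSet (LF R), e x) ≠ 0 := pow_ne_zero _ hq'
      rw [div_div_eq_mul_div, ← sq]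
      rfl
  obtain ⟨x, rfl⟩ := exists_root_eq hR0 τ hz
  have hx := Lam_eq_zero hR0 hW hq hns x (hloc _ (aeval_root x))
    (fun y hy hxy => hcross _ y (aeval_root x) hy hxy) _ hd
  rw [← hτι]
  refine ⟨fun h => iota_ne hW hq hns x (Subtype.ext (τ.injective h)), ?_⟩
  simp only [e] at hx
  omega

end Pool.Agent.Lib.MP_950c68_ag.Orb
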