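import Mathlib
import Pool.Agent.Lib.MP_950c68_ag.OrbGroup

/-!
# One orbit with `2 l` elements, `l` a prime
-/

namespace Pool.Agent.Lib.MP_950c68_ag.Orb

open MulAction Polynomial

variable {G Ω : Type*} [Group G] [MulAction G Ω]

theorem exists_cycle [Finite G] {ι : G} (hι : ∀ (g : G) (y : Ω), g • ι • y = ι • g • y)
    (hιι : ∀ y : Ω, ι • ι • y = y) (hιne : ∀ y : Ω, ι • y ≠ y) (x : Ω) (l : ℕ) (hl : l.Prime)
    (hl2 : l ≠ 2) (hcard : Nat.card (orbit G x) = 2 * l) :
    ∃ t : G, (∀ z ∈ orbit G x, t ^ l • z = z) ∧ ∀ z ∈ orbit G x, t • z ≠ z := by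
  classical
  have hfin : Finite (orbit G x) := Set.finite_range _
  have := Fintype.ofFinite (orbit G x)
  let f := MulAction.toPermHom G (orbit G x)
  let x' : orbit G x := ⟨x, mem_orbit_self x⟩
  have hdvd : l ∣ Nat.card f.range := by
    have h1 := Nat.card_congr (MulAction.orbitProdStabilizerEquivGroup f.range x')
    rw [Nat.card_prod] at h1
    have h2 : orbit f.range x' = Set.univ := by
      apply Set.eq_univ_of_forall
      rintro ⟨_, g, rfl⟩
      exact ⟨⟨f g, g, rfl⟩, rfl⟩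
    rw [h2, Nat.card_coe_set_eq, Set.ncard_univ, hcard] at h1
    rw [← h1]
    exact Dvd.dvd.mul_right (Dvd.intro_left 2 rfl) _
  have hlF : Fact l.Prime := ⟨hl⟩
  obtain ⟨p, hp⟩ := exists_prime_orderOf_dvd_card' l hdvd
  obtain ⟨t, ht⟩ := p.2
  have hord : orderOf (f t) = l := by
    rw [ht, Subgroup.orderOf_coe, hp]
  have happ : ∀ z : orbit G x, f t z = t • z := fun z => rfl
  have hιinv : ∀ z : orbit G x, ι • ι • z = z := fun z => Subtype.ext (hιι z)
  have hιne' : ∀ z : orbit G x, ι • z ≠ z := fun z h => hιne z (congrArg Subtype.val h)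
  have hcomm : ∀ z : orbit G x, t • ι • z = ι • t • z := fun z => Subtype.ext (hι t z)
  have heven : Even (f t).support.card := by
    have h1 : ∑ z ∈ (f t).support, (1 : ZMod 2) = 0 := by
      apply Finset.sum_involution (fun z _ => ι • z)
      · intro z _
        rfl
      · intro z _ _
        exact hιne' z
      · intro z _
        exact hιinv z
      · intro z hz
        rw [Equiv.Perm.mem_support, happ] at hz ⊢
        intro h
        apply hz
        rw [hcomm] at h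
        exact smul_left_cancel ι h
    rw [Finset.sum_const, nsmul_eq_mul, mul_one] at h1
    exact (ZMod.natCast_eq_zero_iff_even).mp h1
  obtain ⟨n, hn⟩ := Equiv.Perm.cycleType_prime_order (σ := f t) (by rw [hord]; exact hl)
  have hsum : (f t).support.card = (n + 1) * l := by
    rw [← Equiv.Perm.sum_cycleType, hn, Multiset.sum_replicate, hord, smul_eq_mul]
  have hle : (f t).support.card ≤ 2 * l := by
    rw [← hcard, Nat.card_eq_fintype_card]
    exact Finset.card_le_univ _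
  have hn1 : n = 1 := by
    have h1 : n + 1 ≤ 2 := by
      by_contra h
      push Not at h
      have h2 : 3 * l ≤ (n + 1) * l := Nat.mul_le_mul_right l h
      have := hl.pos
      omega
    rcases Nat.eq_zero_or_pos n with h | h
    · exfalso
      rw [hsum, h] at heven
      simp only [zero_add, one_mul] at heven
      exact hl2 ((Nat.Prime.even_iff hl).mp heven)
    · omega
  have huniv : (f t).support = Finset.univ := by
    apply Finset.eq_univ_of_card
    rw [hsum, hn1, ← Nat.card_eq_fintype_card, hcard]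
  refine ⟨t, ?_, ?_⟩
  · intro z hz
    have h1 : f t ^ l = 1 := by rw [← hord]; exact pow_orderOf_eq_one _
    have h2 : f (t ^ l) = 1 := by rw [map_pow, h1]
    have h3 : f (t ^ l) ⟨z, hz⟩ = ⟨z, hz⟩ := by rw [h2]; rfl
    exact congrArg Subtype.val h3
  · intro z hz h
    have h1 : (⟨z, hz⟩ : orbit G x) ∈ (f t).support := by rw [huniv]; exact Finset.mem_univ _
    rw [Equiv.Perm.mem_support, happ] at h1
    exact h1 (Subtype.ext h)

theorem dvd_of_pow_smul {x : Ω} {t : G} {l : ℕ} (hl : l.Prime)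
    (h1 : ∀ z ∈ orbit G x, t ^ l • z = z) (h2 : ∀ z ∈ orbit G x, t • z ≠ z) {z : Ω}
    (hz : z ∈ orbit G x) {k : ℕ} (hk : t ^ k • z = z) : l ∣ k := by
  have h3 : MulAction.period t z ∣ l := MulAction.pow_smul_eq_iff_period_dvd.mp (h1 z hz)
  have h4 : MulAction.period t z ∣ k := MulAction.pow_smul_eq_iff_period_dvd.mp hk
  rcases (Nat.dvd_prime hl).mp h3 with h | h
  · exfalso
    apply h2 z hz
    have h5 : t ^ 1 • z = z := MulAction.pow_smul_eq_iff_period_dvd.mpr (by rw [h])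
    rwa [pow_one] at h5
  · rwa [h] at h4

theorem pow_mul_smul {x : Ω} {t : G} {l : ℕ}
    (h1 : ∀ z ∈ orbit G x, t ^ l • z = z) {z : Ω} (hz : z ∈ orbit G x) (m : ℕ) :
    t ^ (l * m) • z = z := by
  induction m with
  | zero => simp
  | succ m ih => rw [mul_add, mul_one, pow_add, mul_smul, h1 z hz, ih]

theorem iota_ne_pow {ι : G} (hι : ∀ (g : G) (y : Ω), g • ι • y = ι • g • y)
    (hιι : ∀ y : Ω, ι • ι • y = y) (hιne : ∀ y : Ω, ι • y ≠ y) {x : Ω} {t : G} {l : ℕ}
    (hl : l.Prime) (hl2 : l ≠ 2) (h1 : ∀ z ∈ orbit G x, t ^ l • z = z)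
    (h2 : ∀ z ∈ orbit G x, t • z ≠ z) {z : Ω} (hz : z ∈ orbit G x) (k : ℕ) :
    ι • z ≠ t ^ k • z := by
  intro h
  have h3 : t ^ (2 * k) • z = z := by
    rw [two_mul, pow_add, mul_smul, ← h, hι, ← h, hιι]
  have h4 := dvd_of_pow_smul hl h1 h2 hz h3
  rcases (Nat.Prime.dvd_mul hl).mp h4 with h5 | h5
  · exact hl2 ((Nat.prime_dvd_prime_iff_eq hl Nat.prime_two).mp h5)
  · obtain ⟨m, rfl⟩ := h5
    rw [pow_mul_smul h1 hz] at h
    exact hιne z h

theorem pow_smul_inj {x : Ω} {t : G} {l : ℕ} (hl : l.Prime)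
    (h1 : ∀ z ∈ orbit G x, t ^ l • z = z) (h2 : ∀ z ∈ orbit G x, t • z ≠ z) {i j : ℕ}
    (hi : i < l) (hj : j < l) (hij : t ^ i • x = t ^ j • x) : i = j := by
  wlog hle : i ≤ j generalizing i j
  · exact (this hj hi hij.symm (by omega)).symm
  obtain ⟨k, rfl⟩ := Nat.exists_eq_add_of_le hle
  rw [pow_add, mul_smul] at hij
  have h3 : t ^ k • x = x := (smul_left_cancel _ hij).symm
  obtain ⟨m, hm⟩ := dvd_of_pow_smul hl h1 h2 (mem_orbit_self x) h3
  rcases Nat.eq_zero_or_pos m with h | h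
  · rw [h] at hm; omega
  · have : l * 1 ≤ l * m := Nat.mul_le_mul_left l h
    omega

theorem iota_pow_ne_pow {ι : G} (hι : ∀ (g : G) (y : Ω), g • ι • y = ι • g • y)
    (hιι : ∀ y : Ω, ι • ι • y = y) (hιne : ∀ y : Ω, ι • y ≠ y) {x : Ω} {t : G} {l : ℕ}
    (hl : l.Prime) (hl2 : l ≠ 2) (h1 : ∀ z ∈ orbit G x, t ^ l • z = z)
    (h2 : ∀ z ∈ orbit G x, t • z ≠ z) {i j : ℕ} (hj : j < l) :
    ι • t ^ j • x ≠ t ^ i • x := by
  intro hij
  have h3 : t ^ i • x = t ^ (i + (l * l - j)) • t ^ j • x := by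
    have hjl : j ≤ l * l := le_trans hj.le (Nat.le_mul_self l)
    rw [← mul_smul, ← pow_add, show i + (l * l - j) + j = i + l * l by omega, pow_add, mul_smul,
      pow_mul_smul h1 (mem_orbit_self x)]
  rw [h3] at hij
  exact iota_ne_pow hι hιι hιne hl hl2 h1 h2 (mem_orbit x (t ^ j)) _ hij

/-- The orbit consists of a cycle of `t` and its image under `ι`. -/
theorem mem_orbit_cases [Finite G] {ι : G} (hι : ∀ (g : G) (y : Ω), g • ι • y = ι • g • y)
    (hιι : ∀ y : Ω, ι • ι • y = y) (hιne : ∀ y : Ω, ι • y ≠ y) {x : Ω} {t : G} {l : ℕ}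
    (hl : l.Prime) (hl2 : l ≠ 2) (hcard : Nat.card (orbit G x) = 2 * l)
    (h1 : ∀ z ∈ orbit G x, t ^ l • z = z) (h2 : ∀ z ∈ orbit G x, t • z ≠ z) {z : Ω}
    (hz : z ∈ orbit G x) : ∃ i < l, z = t ^ i • x ∨ z = ι • t ^ i • x := by
  classical
  have hfin : (orbit G x).Finite := Set.finite_range _
  have hmem : ∀ g : G, g • x ∈ orbit G x := fun g => mem_orbit x g
  let C : Finset Ω := (Finset.range l).image fun i => t ^ i • x
  let D : Finset Ω := (Finset.range l).image fun i => ι • t ^ i • x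
  have hC : C.card = l := by
    rw [Finset.card_image_of_injOn, Finset.card_range]
    intro i hi j hj hij
    exact pow_smul_inj hl h1 h2 (by simpa using hi) (by simpa using hj) hij
  have hD : D.card = l := by
    rw [Finset.card_image_of_injOn, Finset.card_range]
    intro i hi j hj hij
    exact pow_smul_inj hl h1 h2 (by simpa using hi) (by simpa using hj) (smul_left_cancel ι hij)
  have hdisj : Disjoint C D := by
    rw [Finset.disjoint_left]
    intro y hy hy'
    simp only [C, D, Finset.mem_image, Finset.mem_range] at hy hy'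
    obtain ⟨i, hi, rfl⟩ := hy
    obtain ⟨j, hj, hij⟩ := hy'
    exact iota_pow_ne_pow hι hιι hιne hl hl2 h1 h2 hj hij
  have hsub : C ∪ D ⊆ hfin.toFinset := by
    intro y hy
    rw [Set.Finite.mem_toFinset]
    simp only [C, D, Finset.mem_union, Finset.mem_image, Finset.mem_range] at hy
    rcases hy with ⟨i, _, rfl⟩ | ⟨i, _, rfl⟩
    · exact hmem _
    · rw [← mul_smul]; exact hmem _
  have hcard' : hfin.toFinset.card = 2 * l := by
    rw [← Set.ncard_eq_toFinset_card _ hfin, ← Nat.card_coe_set_eq, hcard]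
  have heq : C ∪ D = hfin.toFinset := by
    apply Finset.eq_of_subset_of_card_le hsub
    rw [Finset.card_union_of_disjoint hdisj, hC, hD, hcard']
    omega
  have hz' : z ∈ C ∪ D := by rw [heq, Set.Finite.mem_toFinset]; exact hz
  simp only [C, D, Finset.mem_union, Finset.mem_image, Finset.mem_range] at hz'
  rcases hz' with ⟨i, hi, rfl⟩ | ⟨i, hi, rfl⟩
  · exact ⟨i, hi, Or.inl rfl⟩
  · exact ⟨i, hi, Or.inr rfl⟩

/-- The shift operator. -/
noncomputable def shiftOp (t : G) : (Ω → ℚ) →ₗ[ℚ] (Ω → ℚ) :=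
  LinearMap.funLeft ℚ ℚ fun z => t⁻¹ • z

theorem shiftOp_apply (t : G) (f : Ω → ℚ) (z : Ω) : shiftOp t f z = f (t⁻¹ • z) := rfl

theorem shiftOp_pow_apply (t : G) (f : Ω → ℚ) (i : ℕ) (z : Ω) :
    (shiftOp t ^ i) f z = f ((t ^ i)⁻¹ • z) := by
  induction i generalizing z with
  | zero => simp
  | succ i ih =>
    rw [pow_succ', Module.End.mul_apply, shiftOp_apply, ih, ← mul_smul]
    congr 2
    rw [pow_succ', mul_inv_rev]

/-- The antisymmetric delta function. -/
noncomputable def delta (ι : G) (x : Ω) : Ω → ℚ := by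
  classical
  exact fun z => if z = x then 1 else if z = ι • x then -1 else 0

theorem delta_self (ι : G) (x : Ω) : delta ι x x = 1 := by simp [delta]

theorem delta_iota (ι : G) (x : Ω) (h : ι • x ≠ x) : delta ι x (ι • x) = -1 := by
  simp [delta, h]

theorem delta_ne (ι : G) (x z : Ω) (h : z ≠ x) (h' : z ≠ ι • x) : delta ι x z = 0 := by
  simp [delta, h, h']

theorem delta_anti {ι : G} (hιι : ∀ y : Ω, ι • ι • y = y) (hιne : ∀ y : Ω, ι • y ≠ y) (x z : Ω) :
    delta ι x (ι • z) = - delta ι x z := by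
  by_cases h1 : z = x
  · rw [h1, delta_iota ι x (hιne x), delta_self]
  · by_cases h2 : z = ι • x
    · rw [h2, hιι, delta_iota ι x (hιne x), delta_self, neg_neg]
    · rw [delta_ne ι x z h1 h2, delta_ne ι x (ι • z), neg_zero]
      · intro h
        apply h2
        rw [← h, hιι]
      · intro h
        exact h1 (smul_left_cancel ι h)

/-- The polynomial of a function on the cycle. -/
noncomputable def cyclePoly (t : G) (x : Ω) (l : ℕ) (d : Ω → ℤ) : ℚ[X] :=
  ∑ i ∈ Finset.range l, C (d (t ^ i • x) : ℚ) * X ^ i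

theorem cyclePoly_natDegree (t : G) (x : Ω) {l : ℕ} (hl : 0 < l) (d : Ω → ℤ) :
    (cyclePoly t x l d).natDegree < l := by
  apply lt_of_le_of_lt (natDegree_sum_le_of_forall_le (n := l - 1) _ _ ?_) (by omega)
  intro i hi
  rw [Finset.mem_range] at hi
  exact (natDegree_C_mul_X_pow_le _ _).trans (by omega)

theorem cyclePoly_coeff (t : G) (x : Ω) {l : ℕ} (d : Ω → ℤ) {i : ℕ} (hi : i < l) :
    (cyclePoly t x l d).coeff i = d (t ^ i • x) := by
  rw [cyclePoly, finsetSum_coeff]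
  simp only [coeff_C_mul, coeff_X_pow]
  rw [Finset.sum_eq_single i]
  · simp
  · intro j _ hj
    rw [if_neg hj.symm, mul_zero]
  · intro h
    exact absurd (Finset.mem_range.mpr hi) h

theorem cyclePoly_eval (t : G) (x : Ω) (l : ℕ) (d : Ω → ℤ) :
    (cyclePoly t x l d).eval 1 = ∑ i ∈ Finset.range l, (d (t ^ i • x) : ℚ) := by
  rw [cyclePoly, eval_finsetSum]
  simp

/-- A function on the orbit in terms of the shift operator. -/
theorem aeval_cyclePoly [Finite G] {ι : G} (hι : ∀ (g : G) (y : Ω), g • ι • y = ι • g • y)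
    (hιι : ∀ y : Ω, ι • ι • y = y) (hιne : ∀ y : Ω, ι • y ≠ y) {x : Ω} {t : G} {l : ℕ}
    (hl : l.Prime) (hl2 : l ≠ 2) (hcard : Nat.card (orbit G x) = 2 * l)
    (h1 : ∀ z ∈ orbit G x, t ^ l • z = z) (h2 : ∀ z ∈ orbit G x, t • z ≠ z) {d : Ω → ℤ}
    (hanti : ∀ y, d (ι • y) = - d y) (hsupp : ∀ y ∉ orbit G x, d y = 0) :
    aeval (shiftOp t : (Ω → ℚ) →ₗ[ℚ] (Ω → ℚ)) (cyclePoly t x l d) (delta ι x) =
      fun z => (d z : ℚ) := by
  have hexp : ∀ z, aeval (shiftOp t : (Ω → ℚ) →ₗ[ℚ] (Ω → ℚ)) (cyclePoly t x l d) (delta ι x) z =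
      ∑ i ∈ Finset.range l, (d (t ^ i • x) : ℚ) * delta ι x ((t ^ i)⁻¹ • z) := by
    intro z
    rw [cyclePoly, map_sum, LinearMap.sum_apply, Finset.sum_apply]
    refine Finset.sum_congr rfl fun i _ => ?_
    rw [map_mul, aeval_C, map_pow, aeval_X, Module.End.mul_apply, Module.algebraMap_end_apply,
      Pi.smul_apply, shiftOp_pow_apply, smul_eq_mul]
  have hcyc : ∀ j < l, ∑ i ∈ Finset.range l,
      (d (t ^ i • x) : ℚ) * delta ι x ((t ^ i)⁻¹ • t ^ j • x) = d (t ^ j • x) := by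
    intro j hj
    rw [Finset.sum_eq_single j]
    · rw [inv_smul_smul, delta_self, mul_one]
    · intro i hi hij
      rw [Finset.mem_range] at hi
      rw [delta_ne, mul_zero]
      · rw [ne_eq, inv_smul_eq_iff]
        intro h
        exact hij (pow_smul_inj hl h1 h2 hi hj h.symm)
      · rw [ne_eq, inv_smul_eq_iff, hι]
        exact (iota_pow_ne_pow hι hιι hιne hl hl2 h1 h2 hi).symm
    · intro h
      exact absurd (Finset.mem_range.mpr hj) h
  funext z
  rw [hexp]
  by_cases hz : z ∈ orbit G x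
  · obtain ⟨j, hj, rfl | rfl⟩ := mem_orbit_cases hι hιι hιne hl hl2 hcard h1 h2 hz
    · exact hcyc j hj
    · rw [hanti, Int.cast_neg, ← hcyc j hj, ← Finset.sum_neg_distrib]
      refine Finset.sum_congr rfl fun i _ => ?_
      rw [hι, delta_anti hιι hιne, mul_neg]
  · rw [hsupp z hz, Int.cast_zero]
    apply Finset.sum_eq_zero
    intro i _
    rw [delta_ne, mul_zero]
    · rw [ne_eq, inv_smul_eq_iff]
      rintro rfl
      exact hz (mem_orbit _ _)
    · rw [ne_eq, inv_smul_eq_iff, ← mul_smul]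
      rintro rfl
      exact hz (mem_orbit _ _)

/-- The rational span of the relations supported on the orbit of `x`. -/
def spanQ (Λ : AddSubgroup (Ω → ℤ)) (x : Ω) : Submodule ℚ (Ω → ℚ) where
  carrier := {f | ∃ N : ℤ, N ≠ 0 ∧ ∃ e ∈ Λ, (∀ y ∉ orbit G x, e y = 0) ∧
    ∀ z, (e z : ℚ) = N * f z}
  zero_mem' := ⟨1, one_ne_zero, 0, Λ.zero_mem, fun _ _ => rfl, fun _ => by simp⟩
  add_mem' := by
    rintro f g ⟨N, hN, e, he, hes, hef⟩ ⟨M, hM, e', he', hes', hef'⟩
    refine ⟨N * M, mul_ne_zero hN hM, M • e + N • e', Λ.add_mem (Λ.zsmul_mem he M)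
      (Λ.zsmul_mem he' N), ?_, ?_⟩
    · intro y hy
      simp [hes y hy, hes' y hy]
    · intro z
      simp only [Pi.add_apply, Pi.smul_apply, smul_eq_mul, Int.cast_add, Int.cast_mul, hef, hef']
      ring
  smul_mem' := by
    rintro c f ⟨N, hN, e, he, hes, hef⟩
    refine ⟨c.den * N, mul_ne_zero (by exact_mod_cast c.den_nz) hN, c.num • e,
      Λ.zsmul_mem he _, ?_, ?_⟩
    · intro y hy
      simp [hes y hy]
    · intro z
      simp only [Pi.smul_apply, smul_eq_mul, Int.cast_mul, hef]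
      have h : (c.num : ℚ) = c * c.den := by
        rw [mul_comm]; exact (Rat.den_mul_eq_num c).symm
      rw [h]
      push_cast
      ring

theorem aeval_mem_spanQ {Λ : AddSubgroup (Ω → ℤ)}
    (hΛ : ∀ d ∈ Λ, ∀ g : G, (fun y => d (g • y)) ∈ Λ) (x : Ω) (t : G) (P : ℚ[X]) (f : Ω → ℚ)
    (hf : f ∈ spanQ (G := G) Λ x) :
    aeval (shiftOp t : (Ω → ℚ) →ₗ[ℚ] (Ω → ℚ)) P f ∈ spanQ (G := G) Λ x := by
  have hshift : ∀ f ∈ spanQ (G := G) Λ x, shiftOp t f ∈ spanQ (G := G) Λ x := by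
    rintro f ⟨N, hN, e, he, hes, hef⟩
    refine ⟨N, hN, fun z => e (t⁻¹ • z), hΛ e he t⁻¹, ?_, fun z => hef _⟩
    intro y hy
    apply hes
    intro h
    apply hy
    have h2 : t • t⁻¹ • y ∈ orbit G x := by
      rw [← orbit_eq_iff.mpr h]
      exact mem_orbit _ _
    rwa [smul_inv_smul] at h2
  induction P using Polynomial.induction_on with
  | C a =>
    rw [aeval_C, Module.algebraMap_end_apply]
    exact Submodule.smul_mem _ _ hf
  | add p r hp hr =>
    rw [map_add, LinearMap.add_apply]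
    exact Submodule.add_mem _ hp hr
  | monomial n a h =>
    have h3 : aeval (shiftOp t : (Ω → ℚ) →ₗ[ℚ] (Ω → ℚ)) (C a * X ^ (n + 1)) f =
        shiftOp t (aeval (shiftOp t : (Ω → ℚ) →ₗ[ℚ] (Ω → ℚ)) (C a * X ^ n) f) := by
      rw [show (C a * X ^ (n + 1) : ℚ[X]) = X * (C a * X ^ n) by ring, map_mul, aeval_X,
        Module.End.mul_apply]
    rw [h3]
    exact hshift _ h

/-- Relations with sum zero over the cycle vanish. -/
theorem eq_zero_of_sum_zero [Finite G] {ι : G} {Λ : AddSubgroup (Ω → ℤ)}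
    (hΛ : ∀ d ∈ Λ, ∀ g : G, (fun y => d (g • y)) ∈ Λ)
    (hanti : ∀ d ∈ Λ, ∀ y, d (ι • y) = - d y)
    (hι : ∀ (g : G) (y : Ω), g • ι • y = ι • g • y)
    (hιι : ∀ y : Ω, ι • ι • y = y) (hιne : ∀ y : Ω, ι • y ≠ y) {x : Ω} {t : G} {l : ℕ}
    (hl : l.Prime) (hl2 : l ≠ 2) (hcard : Nat.card (orbit G x) = 2 * l)
    (h1 : ∀ z ∈ orbit G x, t ^ l • z = z) (h2 : ∀ z ∈ orbit G x, t • z ≠ z)
    (hstab : ∀ d ∈ Λ, ∀ y ∈ orbit G x, y ≠ x → y ≠ ι • x →
      (∀ z, z ≠ x → z ≠ ι • x → z ≠ y → z ≠ ι • y → d z = 0) → d y = - d x → d x = 0)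
    {d : Ω → ℤ} (hd : d ∈ Λ) (hsupp : ∀ y ∉ orbit G x, d y = 0)
    (hsum : ∑ i ∈ Finset.range l, d (t ^ i • x) = 0) : ∀ z, d z = 0 := by
  classical
  by_contra hcon
  push Not at hcon
  obtain ⟨z₀, hz₀⟩ := hcon
  have hlF : Fact l.Prime := ⟨hl⟩
  set P := cyclePoly t x l d with hP
  set B : (Ω → ℚ) →ₗ[ℚ] (Ω → ℚ) := shiftOp t with hB
  have hPd : aeval B P (delta ι x) = fun z => (d z : ℚ) :=
    aeval_cyclePoly hι hιι hιne hl hl2 hcard h1 h2 (hanti d hd) hsupp
  have hP0 : P ≠ 0 := by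
    intro h
    rw [h, map_zero] at hPd
    have h3 := congrFun hPd z₀
    simp only [LinearMap.zero_apply, Pi.zero_apply] at h3
    exact hz₀ (by exact_mod_cast h3.symm)
  have hP1 : P.eval 1 = 0 := by
    rw [hP, cyclePoly_eval]
    exact_mod_cast hsum
  have hcop : IsCoprime (cyclotomic l ℚ) P := by
    rw [(cyclotomic.irreducible_rat hl.pos).coprime_iff_not_dvd]
    rintro ⟨Q, hQ⟩
    have hQ0 : Q ≠ 0 := by rintro rfl; rw [mul_zero] at hQ; exact hP0 hQ
    have hdeg := congrArg natDegree hQ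
    rw [natDegree_mul (cyclotomic_ne_zero l ℚ) hQ0, natDegree_cyclotomic, Nat.totient_prime hl]
      at hdeg
    have hlt := cyclePoly_natDegree t x hl.pos d
    rw [← hP, hdeg] at hlt
    have hQd : Q.natDegree = 0 := by have := hl.pos; omega
    obtain ⟨c, hc⟩ := natDegree_eq_zero.mp hQd
    rw [hQ, ← hc, eval_mul, eval_C, eval_one_cyclotomic_prime] at hP1
    rcases mul_eq_zero.mp hP1 with h | h
    · exact hl.ne_zero (by exact_mod_cast h)
    · rw [h, map_zero] at hc
      exact hQ0 hc.symm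
  obtain ⟨a, b, hab⟩ := hcop
  have hkey : b * (X - 1) * P = (X - 1) - a * (X ^ l - 1) := by
    have h3 := cyclotomic_prime_mul_X_sub_one ℚ l
    rw [← h3]
    linear_combination (X - 1) * hab
  have hBl : (aeval B) (X ^ l - 1 : ℚ[X]) (delta ι x) = 0 := by
    rw [map_sub, map_pow, aeval_X, map_one, LinearMap.sub_apply, Module.End.one_apply]
    funext z
    rw [Pi.sub_apply, Pi.zero_apply, hB, shiftOp_pow_apply, sub_eq_zero]
    by_cases hz : z ∈ orbit G x
    · have h3 : (t ^ l)⁻¹ • z = z := by rw [inv_smul_eq_iff, h1 z hz]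
      rw [h3]
    · rw [delta_ne, delta_ne]
      · rintro rfl; exact hz (mem_orbit_self _)
      · rintro rfl; exact hz (mem_orbit _ _)
      · rw [ne_eq, inv_smul_eq_iff]
        rintro rfl
        exact hz (mem_orbit _ _)
      · rw [ne_eq, inv_smul_eq_iff, ← mul_smul]
        rintro rfl
        exact hz (mem_orbit _ _)
  have hdQ : (fun z => (d z : ℚ)) ∈ spanQ (G := G) Λ x :=
    ⟨1, one_ne_zero, d, hd, hsupp, fun z => by simp⟩
  have hmem : B (delta ι x) - delta ι x ∈ spanQ (G := G) Λ x := by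
    have h3 := aeval_mem_spanQ hΛ x t (b * (X - 1)) _ hdQ
    rw [← hB, ← hPd, ← Module.End.mul_apply, ← map_mul, hkey, map_sub, map_mul,
      LinearMap.sub_apply, Module.End.mul_apply, hBl, map_zero, sub_zero, map_sub, aeval_X,
      map_one, LinearMap.sub_apply, Module.End.one_apply] at h3
    exact h3
  obtain ⟨N, hN, e, he, hes, hef⟩ := hmem
  have hval : ∀ z, (e z : ℚ) = N * (delta ι x (t⁻¹ • z) - delta ι x z) := hef
  have hx := mem_orbit_self (M := G) x
  have htx : t • x ≠ x := h2 x hx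
  have htιx : t • x ≠ ι • x := by
    have h3 := iota_ne_pow hι hιι hιne hl hl2 h1 h2 hx 1
    rw [pow_one] at h3
    exact h3.symm
  have hex : (e x : ℚ) = - N := by
    rw [hval, delta_self, delta_ne]
    · ring
    · rw [ne_eq, inv_smul_eq_iff]
      exact fun h => htx h.symm
    · rw [ne_eq, inv_smul_eq_iff, hι]
      intro h
      apply htιx
      have h4 : ι • x = ι • ι • t • x := congrArg (fun w => ι • w) h
      rw [h4, hιι]
  have hetx : (e (t • x) : ℚ) = N := by
    rw [hval, inv_smul_smul, delta_self, delta_ne _ _ _ htx htιx]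
    ring
  have h3 := hstab e he (t • x) (mem_orbit x t) htx htιx ?_ ?_
  · rw [h3] at hex
    apply hN
    have : (N : ℚ) = 0 := by
      rw [Int.cast_zero] at hex
      linarith
    exact_mod_cast this
  · intro z hz1 hz2 hz3 hz4
    have h4 : (e z : ℚ) = 0 := by
      rw [hval, delta_ne _ _ z hz1 hz2, delta_ne]
      · ring
      · rw [ne_eq, inv_smul_eq_iff]
        exact hz3
      · rw [ne_eq, inv_smul_eq_iff, hι]
        exact hz4
    exact_mod_cast h4
  · have h4 : (e (t • x) : ℚ) = ((- e x : ℤ) : ℚ) := by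
      rw [hetx, Int.cast_neg, hex, neg_neg]
    exact_mod_cast h4

end Pool.Agent.Lib.MP_950c68_ag.Orb
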