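import Mathlib
import Pool.Agent.Lib.MP_950c68_ag.OrbPrime

/-!
# One orbit with `2 l` elements, `l` a prime: no relations
-/

namespace Pool.Agent.Lib.MP_950c68_ag.Orb

open MulAction Polynomial

variable {G Ω : Type*} [Group G] [MulAction G Ω]

theorem mem_orbit_smul {x z : Ω} (g : G) (hz : z ∈ orbit G x) : g • z ∈ orbit G x := by
  rw [← orbit_eq_iff.mpr hz]
  exact mem_orbit _ _

theorem notMem_orbit_smul {x z : Ω} (g : G) (hz : z ∉ orbit G x) : g • z ∉ orbit G x := by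
  intro h
  apply hz
  have h2 := mem_orbit_smul g⁻¹ h
  rwa [inv_smul_smul] at h2

/-- The odd case. -/
theorem eq_zero_of_odd_prime [Finite G] {ι : G} {Λ : AddSubgroup (Ω → ℤ)}
    (hΛ : ∀ d ∈ Λ, ∀ g : G, (fun y => d (g • y)) ∈ Λ)
    (hanti : ∀ d ∈ Λ, ∀ y, d (ι • y) = - d y)
    (hι : ∀ (g : G) (y : Ω), g • ι • y = ι • g • y)
    (hιι : ∀ y : Ω, ι • ι • y = y) (hιne : ∀ y : Ω, ι • y ≠ y) (x : Ω) (l : ℕ)
    (hl : l.Prime) (hl2 : l ≠ 2) (hcard : Nat.card (orbit G x) = 2 * l)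
    (hstab : ∀ d ∈ Λ, ∀ y ∈ orbit G x, y ≠ x → y ≠ ι • x →
      (∀ z, z ≠ x → z ≠ ι • x → z ≠ y → z ≠ ι • y → d z = 0) → d y = - d x → d x = 0)
    (hhalf : ∀ Φ : Finset Ω, (∀ z ∈ Φ, z ∈ orbit G x) →
      (∀ z ∈ orbit G x, z ∈ Φ ↔ ι • z ∉ Φ) →
      (∀ g : G, (∀ z ∈ Φ, g • z ∈ Φ) ∨ ∀ z ∈ Φ, g • z ∉ Φ) →
      ∀ d ∈ Λ, ∀ c : ℤ, (∀ z ∈ Φ, d z = c) → (∀ y ∉ orbit G x, d y = 0) → c = 0)
    {d : Ω → ℤ} (hd : d ∈ Λ) (hsupp : ∀ y ∉ orbit G x, d y = 0) : ∀ z, d z = 0 := by
  classical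
  obtain ⟨t, h1, h2⟩ := exists_cycle hι hιι hιne x l hl hl2 hcard
  have hmem : ∀ g : G, g • x ∈ orbit G x := fun g => mem_orbit x g
  have hzero : ∀ e ∈ Λ, (∀ y ∉ orbit G x, e y = 0) →
      ∑ i ∈ Finset.range l, e (t ^ i • x) = 0 → ∀ z, e z = 0 := fun e he hes hsum =>
    eq_zero_of_sum_zero hΛ hanti hι hιι hιne hl hl2 hcard h1 h2 hstab he hes hsum
  set c : ℤ := ∑ i ∈ Finset.range l, d (t ^ i • x) with hc
  by_cases hc0 : c = 0
  · exact hzero d hd hsupp hc0
  exfalso
  let S : Ω → ℤ := ∑ i ∈ Finset.range l, fun y => d (t ^ i • y)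
  have hSΛ : S ∈ Λ := Λ.sum_mem fun i _ => hΛ d hd _
  have hSapp : ∀ z, S z = ∑ i ∈ Finset.range l, d (t ^ i • z) := fun z => by
    simp only [S, Finset.sum_apply]
  have hSsupp : ∀ y ∉ orbit G x, S y = 0 := by
    intro y hy
    rw [hSapp]
    exact Finset.sum_eq_zero fun i _ => hsupp _ (notMem_orbit_smul _ hy)
  have hSt : ∀ z ∈ orbit G x, S (t • z) = S z := by
    intro z hz
    rw [hSapp, hSapp]
    have h3 : ∀ i, t ^ i • t • z = t ^ (i + 1) • z := fun i => by rw [pow_succ, mul_smul]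
    simp only [h3]
    have h4 := Finset.sum_range_succ (fun i => d (t ^ i • z)) l
    have h5 := Finset.sum_range_succ' (fun i => d (t ^ i • z)) l
    rw [h4] at h5
    have h6 : t ^ l • z = z := h1 z hz
    have h7 : t ^ 0 • z = z := by rw [pow_zero, one_smul]
    rw [h6, h7] at h5
    linarith
  have hSx : S x = c := by rw [hSapp]
  have hScyc : ∀ i : ℕ, S (t ^ i • x) = c := by
    intro i
    induction i with
    | zero => rw [pow_zero, one_smul, hSx]
    | succ i ih => rw [pow_succ', mul_smul, hSt _ (hmem _), ih]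
  have hSval : ∀ z ∈ orbit G x, S z = c ∨ S z = - c := by
    intro z hz
    obtain ⟨i, _, rfl | rfl⟩ := mem_orbit_cases hι hιι hιne hl hl2 hcard h1 h2 hz
    · left; exact hScyc i
    · right; rw [hanti S hSΛ, hScyc i]
  have hl0 : (l : ℤ) ≠ 0 := by exact_mod_cast hl.ne_zero
  have hsemi : ∀ g : G, (∀ z, S (g • z) = S z) ∨ ∀ z, S (g • z) = - S z := by
    intro g
    set cg : ℤ := ∑ i ∈ Finset.range l, S (g • t ^ i • x) with hcg
    have hw := hzero ((l * c) • (fun y => S (g • y)) - cg • S)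
      (Λ.sub_mem (Λ.zsmul_mem (hΛ S hSΛ g) _) (Λ.zsmul_mem hSΛ _)) ?_ ?_
    · have hw' : ∀ z, l * c * S (g • z) = cg * S z := by
        intro z
        have := hw z
        simp only [Pi.sub_apply, Pi.smul_apply, smul_eq_mul] at this
        linarith
      have hx := hw' x
      rw [hSx] at hx
      have hcg' : cg = l * S (g • x) := by
        have h3 : c * cg = c * (l * S (g • x)) := by linarith
        exact mul_left_cancel₀ hc0 h3
      rcases hSval (g • x) (hmem g) with h3 | h3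
      · left
        intro z
        have h4 := hw' z
        rw [hcg', h3] at h4
        exact mul_left_cancel₀ (mul_ne_zero hl0 hc0) h4
      · right
        intro z
        have h4 := hw' z
        rw [hcg', h3] at h4
        apply mul_left_cancel₀ (mul_ne_zero hl0 hc0)
        rw [h4]
        ring
    · intro y hy
      simp only [Pi.sub_apply, Pi.smul_apply, smul_eq_mul, hSsupp y hy,
        hSsupp _ (notMem_orbit_smul g hy), mul_zero, sub_zero]
    · simp only [Pi.sub_apply, Pi.smul_apply, smul_eq_mul, Finset.sum_sub_distrib,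
        ← Finset.mul_sum, hScyc, Finset.sum_const, Finset.card_range, nsmul_eq_mul]
      rw [← hcg]
      ring
  have hcne : - c ≠ c := by omega
  let Φ : Finset Ω := (Finset.range l).image fun i => t ^ i • x
  have hΦ : ∀ z, z ∈ Φ ↔ z ∈ orbit G x ∧ S z = c := by
    intro z
    simp only [Φ, Finset.mem_image, Finset.mem_range]
    constructor
    · rintro ⟨i, _, rfl⟩
      exact ⟨hmem _, hScyc i⟩
    · rintro ⟨hz, hSz⟩
      obtain ⟨i, hi, rfl | rfl⟩ := mem_orbit_cases hι hιι hιne hl hl2 hcard h1 h2 hz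
      · exact ⟨i, hi, rfl⟩
      · rw [hanti S hSΛ, hScyc i] at hSz
        exact absurd hSz hcne
  apply hc0
  refine hhalf Φ (fun z hz => ((hΦ z).mp hz).1) ?_ ?_ S hSΛ c (fun z hz => ((hΦ z).mp hz).2) hSsupp
  · intro z hz
    have hιz : ι • z ∈ orbit G x := mem_orbit_smul ι hz
    rw [hΦ, hΦ, hanti S hSΛ]
    rcases hSval z hz with h3 | h3
    · rw [h3]
      exact ⟨fun _ h => hcne h.2, fun _ => ⟨hz, rfl⟩⟩
    · rw [h3, neg_neg]
      exact ⟨fun h => absurd h.2 hcne, fun h => absurd ⟨hιz, rfl⟩ h⟩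
  · intro g
    rcases hsemi g with h3 | h3
    · left
      intro z hz
      rw [hΦ] at hz ⊢
      exact ⟨mem_orbit_smul g hz.1, by rw [h3, hz.2]⟩
    · right
      intro z hz hz'
      rw [hΦ] at hz hz'
      rw [h3, hz.2] at hz'
      exact hcne hz'.2

/-- The case of an orbit with four elements. -/
theorem eq_zero_of_card_four [Finite G] {ι : G} {Λ : AddSubgroup (Ω → ℤ)}
    (hΛ : ∀ d ∈ Λ, ∀ g : G, (fun y => d (g • y)) ∈ Λ)
    (hanti : ∀ d ∈ Λ, ∀ y, d (ι • y) = - d y)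
    (hι : ∀ (g : G) (y : Ω), g • ι • y = ι • g • y)
    (hιι : ∀ y : Ω, ι • ι • y = y) (hιne : ∀ y : Ω, ι • y ≠ y) (x : Ω)
    (hcard : Nat.card (orbit G x) = 4)
    (hpair : ∀ d ∈ Λ, (∀ y, y ≠ x → y ≠ ι • x → d y = 0) → d x = 0)
    (hstab : ∀ d ∈ Λ, ∀ y ∈ orbit G x, y ≠ x → y ≠ ι • x →
      (∀ z, z ≠ x → z ≠ ι • x → z ≠ y → z ≠ ι • y → d z = 0) → d y = - d x → d x = 0)
    {d : Ω → ℤ} (hd : d ∈ Λ) (hsupp : ∀ y ∉ orbit G x, d y = 0) : ∀ z, d z = 0 := by
  classical
  have hfin : (orbit G x).Finite := Set.finite_range _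
  have hcard' : hfin.toFinset.card = 4 := by
    rw [← Set.ncard_eq_toFinset_card _ hfin, ← Nat.card_coe_set_eq, hcard]
  have hx : x ∈ orbit G x := mem_orbit_self x
  obtain ⟨y, hyO, hy⟩ := Finset.exists_mem_notMem_of_card_lt_card
    (s := {x, ι • x}) (t := hfin.toFinset) (lt_of_le_of_lt Finset.card_le_two (by omega))
  rw [Set.Finite.mem_toFinset] at hyO
  simp only [Finset.mem_insert, Finset.mem_singleton, not_or] at hy
  obtain ⟨hyx, hyιx⟩ := hy
  have hιyx : ι • y ≠ x := by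
    intro h
    apply hyιx
    rw [← h, hιι]
  have hιyιx : ι • y ≠ ι • x := fun h => hyx (smul_left_cancel ι h)
  have hset : ({x, ι • x, y, ι • y} : Finset Ω) = hfin.toFinset := by
    apply Finset.eq_of_subset_of_card_le
    · intro z hz
      rw [Set.Finite.mem_toFinset]
      simp only [Finset.mem_insert, Finset.mem_singleton] at hz
      rcases hz with rfl | rfl | rfl | rfl
      · exact hx
      · exact mem_orbit_smul ι hx
      · exact hyO
      · exact mem_orbit_smul ι hyO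
    · rw [hcard', Finset.card_insert_of_notMem, Finset.card_insert_of_notMem,
        Finset.card_insert_of_notMem, Finset.card_singleton]
      · rw [Finset.mem_singleton]
        exact (hιne y).symm
      · simp only [Finset.mem_insert, Finset.mem_singleton, not_or]
        exact ⟨fun h => hyιx h.symm, fun h => hιyιx h.symm⟩
      · simp only [Finset.mem_insert, Finset.mem_singleton, not_or]
        exact ⟨(hιne x).symm, fun h => hyx h.symm, fun h => hιyx h.symm⟩
  have hcases : ∀ z ∈ orbit G x, z = x ∨ z = ι • x ∨ z = y ∨ z = ι • y := by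
    intro z hz
    rw [← Set.Finite.mem_toFinset hfin, ← hset] at hz
    simpa only [Finset.mem_insert, Finset.mem_singleton] using hz
  have hyO' := hyO
  obtain ⟨g, hg⟩ : ∃ g : G, g • x = y := hyO'
  have hgy : g • y = x ∨ g • y = ι • x := by
    rcases hcases _ (mem_orbit_smul g hyO) with h | h | h | h
    · left; exact h
    · right; exact h
    · exfalso
      rw [← hg] at h
      have := smul_left_cancel g h
      rw [hg] at this
      exact hyx this
    · exfalso
      rw [← hg, ← hι] at h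
      have := smul_left_cancel g h
      rw [hg] at this
      exact hyιx this
  -- enough: `d x = d y = 0`
  suffices hxy : d x = 0 ∧ d y = 0 by
    intro z
    by_cases hz : z ∈ orbit G x
    · rcases hcases z hz with rfl | rfl | rfl | rfl
      · exact hxy.1
      · rw [hanti d hd, hxy.1, neg_zero]
      · exact hxy.2
      · rw [hanti d hd, hxy.2, neg_zero]
    · exact hsupp z hz
  have hd1 : (fun z => d (g • z)) ∈ Λ := hΛ d hd g
  have hout : ∀ z, z ≠ x → z ≠ ι • x → z ≠ y → z ≠ ι • y → z ∉ orbit G x := by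
    intro z h1 h2 h3 h4 hz
    rcases hcases z hz with h | h | h | h
    · exact h1 h
    · exact h2 h
    · exact h3 h
    · exact h4 h
  rcases hgy with hgy | hgy
  · have hplus := hstab (d + fun z => d (g • z)) (Λ.add_mem hd hd1) (ι • y)
      (mem_orbit_smul ι hyO) hιyx hιyιx ?_ ?_
    · have hminus := hstab (d - fun z => d (g • z)) (Λ.sub_mem hd hd1) y hyO hyx hyιx ?_ ?_
      · simp only [Pi.add_apply, Pi.sub_apply, hg] at hplus hminus
        omega
      · intro z h1 h2 h3 h4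
        have hz := hout z h1 h2 h3 h4
        simp only [Pi.sub_apply, hsupp z hz, hsupp _ (notMem_orbit_smul g hz), sub_zero]
      · simp only [Pi.sub_apply, hg, hgy]
        ring
    · intro z h1 h2 h3 h4
      rw [hιι] at h4
      have hz := hout z h1 h2 h4 h3
      simp only [Pi.add_apply, hsupp z hz, hsupp _ (notMem_orbit_smul g hz), add_zero]
    · simp only [Pi.add_apply, hι, hg, hgy, hanti d hd]
      ring
  · have hpr := hpair (d x • d + d y • fun z => d (g • z))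
      (Λ.add_mem (Λ.zsmul_mem hd _) (Λ.zsmul_mem hd1 _)) ?_
    · simp only [Pi.add_apply, Pi.smul_apply, smul_eq_mul, hg] at hpr
      have h1 : d x * d x = 0 := by nlinarith [mul_self_nonneg (d x), mul_self_nonneg (d y)]
      have h2 : d y * d y = 0 := by nlinarith [mul_self_nonneg (d x), mul_self_nonneg (d y)]
      exact ⟨mul_self_eq_zero.mp h1, mul_self_eq_zero.mp h2⟩
    · intro z h1 h2
      simp only [Pi.add_apply, Pi.smul_apply, smul_eq_mul]
      by_cases h3 : z = y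
      · rw [h3, hgy, hanti d hd]
        ring
      · by_cases h4 : z = ι • y
        · rw [h4, hι, hgy, hιι, hanti d hd]
          ring
        · have hz := hout z h1 h2 h3 h4
          rw [hsupp z hz, hsupp _ (notMem_orbit_smul g hz)]
          ring

/-- No relations on an orbit with `2 l` elements, `l` prime. -/
theorem eq_zero_of_prime [Finite G] {ι : G} {Λ : AddSubgroup (Ω → ℤ)}
    (hΛ : ∀ d ∈ Λ, ∀ g : G, (fun y => d (g • y)) ∈ Λ)
    (hanti : ∀ d ∈ Λ, ∀ y, d (ι • y) = - d y)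
    (hι : ∀ (g : G) (y : Ω), g • ι • y = ι • g • y)
    (hιι : ∀ y : Ω, ι • ι • y = y) (hιne : ∀ y : Ω, ι • y ≠ y) (x : Ω) (l : ℕ)
    (hl : l.Prime) (hcard : Nat.card (orbit G x) = 2 * l)
    (hpair : ∀ d ∈ Λ, (∀ y, y ≠ x → y ≠ ι • x → d y = 0) → d x = 0)
    (hstab : ∀ d ∈ Λ, ∀ y ∈ orbit G x, y ≠ x → y ≠ ι • x →
      (∀ z, z ≠ x → z ≠ ι • x → z ≠ y → z ≠ ι • y → d z = 0) → d y = - d x → d x = 0)
    (hhalf : ∀ Φ : Finset Ω, (∀ z ∈ Φ, z ∈ orbit G x) →
      (∀ z ∈ orbit G x, z ∈ Φ ↔ ι • z ∉ Φ) →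
      (∀ g : G, (∀ z ∈ Φ, g • z ∈ Φ) ∨ ∀ z ∈ Φ, g • z ∉ Φ) →
      ∀ d ∈ Λ, ∀ c : ℤ, (∀ z ∈ Φ, d z = c) → (∀ y ∉ orbit G x, d y = 0) → c = 0)
    {d : Ω → ℤ} (hd : d ∈ Λ) (hsupp : ∀ y ∉ orbit G x, d y = 0) : d x = 0 := by
  by_cases hl2 : l = 2
  · rw [hl2] at hcard
    exact eq_zero_of_card_four hΛ hanti hι hιι hιne x hcard hpair hstab hd hsupp x
  · exact eq_zero_of_odd_prime hΛ hanti hι hιι hιne x l hl hl2 hcard hstab hhalf hd hsupp x

end Pool.Agent.Lib.MP_950c68_ag.Orb
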