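import Mathlib
import Pool.Agent.Lib.MP_950c68_ag.OrbMain
import Pool.Agent.Lib.MP_950c68_ag.OrbNoRel
import Pool.Agent.Lib.MP_950c68_ag.OrbCross
import Pool.Agent.Lib.MP_950c68_ag.OrbPrimeTwo

/-!
# No nontrivial relations: prime degree and one-sided cross conditions
-/

namespace Pool.Agent.Lib.MP_950c68_ag.Orb

open Polynomial MulAction
open scoped IntermediateField

/-- The degree of `x` is `2 l` with `l` a prime, no power of `x` equals the same power of another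
conjugate, and for each half system `Φ` of conjugates of `x` which is mapped by each automorphism
to itself or its complement, no power of the product of `Φ` is a power of `√q`. -/
def PrimeDegree (q : ℕ) (x : ℂ) : Prop :=
  ∃ l : ℕ, l.Prime ∧ (minpoly ℚ x).natDegree = 2 * l ∧
  (∀ y : ℂ, IsConjRoot ℚ x y → y ≠ x → ∀ n : ℕ, n ≠ 0 → y ^ n ≠ x ^ n) ∧
  ∀ Φ : Finset ℂ, (∀ z ∈ Φ, IsConjRoot ℚ x z) →
    (∀ z, IsConjRoot ℚ x z → (z ∈ Φ ↔ q / z ∉ Φ)) →
    (∀ σ : ℂ ≃ₐ[ℚ] ℂ, (∀ z ∈ Φ, σ z ∈ Φ) ∨ ∀ z ∈ Φ, σ z ∉ Φ) →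
    ∀ n : ℕ, n ≠ 0 → (∏ z ∈ Φ, z) ^ (2 * n) ≠ (q : ℂ) ^ (l * n)

variable {R : ℚ[X]} {q : ℕ}

theorem norm_zpow_eq {x : ℂ} (hx : ‖x‖ ^ 2 = q) (a : ℤ) : ‖x‖ ^ (2 * a) = (q : ℝ) ^ a := by
  rw [zpow_mul, ← hx]
  norm_cast

/-- From a relation between two conjugates to equality of powers. -/
theorem pow_eq_of_rel {x y : ℂ} (hx : ‖x‖ ^ 2 = q) (hy : ‖y‖ ^ 2 = q) (hq : (q : ℂ) ≠ 0)
    {a M : ℤ} (h : (x ^ 2 / (q : ℂ)) ^ a * (y ^ 2 / (q : ℂ)) ^ (-a) = (q : ℂ) ^ M) (ha : a ≠ 0) :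
    ∃ n : ℕ, n ≠ 0 ∧ y ^ n = x ^ n := by
  have hq0 : (0 : ℝ) < q := by
    have : q ≠ 0 := by exact_mod_cast hq
    positivity
  have hx0 : x ≠ 0 := by
    rintro rfl
    rw [norm_zero] at hx
    have : (q : ℝ) = 0 := by rw [← hx]; norm_num
    linarith
  have hy0 : y ≠ 0 := by
    rintro rfl
    rw [norm_zero] at hy
    have : (q : ℝ) = 0 := by rw [← hy]; norm_num
    linarith
  have hnx : ‖x ^ 2 / (q : ℂ)‖ = 1 := by
    rw [norm_div, norm_pow, hx, Complex.norm_natCast, div_self hq0.ne']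
  have hny : ‖y ^ 2 / (q : ℂ)‖ = 1 := by
    rw [norm_div, norm_pow, hy, Complex.norm_natCast, div_self hq0.ne']
  have h1 : (q : ℝ) ^ M = 1 := by
    have h2 := congrArg (fun z : ℂ => ‖z‖) h
    simp only [norm_mul, norm_zpow, hnx, hny, one_zpow, mul_one, Complex.norm_natCast] at h2
    exact h2.symm
  have h2 : (q : ℂ) ^ M = 1 := by
    have := congrArg (fun r : ℝ => (r : ℂ)) h1
    push_cast at this
    exact this
  rw [h2, zpow_neg, mul_inv_eq_one₀ (zpow_ne_zero _ (div_ne_zero (pow_ne_zero _ hy0) hq)),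
    div_zpow, div_zpow, div_left_inj' (zpow_ne_zero _ hq)] at h
  obtain ⟨n, rfl | rfl⟩ := a.eq_nat_or_neg
  · refine ⟨2 * n, by omega, ?_⟩
    rw [zpow_natCast, zpow_natCast, ← pow_mul, ← pow_mul] at h
    exact h.symm
  · refine ⟨2 * n, by omega, ?_⟩
    rw [zpow_neg, zpow_neg, zpow_natCast, zpow_natCast, ← pow_mul, ← pow_mul, inv_inj] at h
    exact h.symm

theorem card_orbit (hR0 : R ≠ 0) (x : R.rootSet (LF R)) :
    Nat.card (orbit (LF R ≃ₐ[ℚ] LF R) x) = (minpoly ℚ ((x : LF R) : ℂ)).natDegree := by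
  have hint : IsIntegral ℚ ((x : LF R) : ℂ) := IsAlgebraic.isIntegral ⟨R, hR0, aeval_root x⟩
  have hc : Fintype.card ((minpoly ℚ ((x : LF R) : ℂ)).rootSet ℂ) =
      (minpoly ℚ ((x : LF R) : ℂ)).natDegree :=
    card_rootSet_eq_natDegree (minpoly.irreducible hint).separable (IsAlgClosed.splits _)
  rw [← hc, ← Nat.card_eq_fintype_card]
  apply Nat.card_congr
  refine Equiv.ofBijective (fun y => ⟨(((y : R.rootSet (LF R)) : LF R) : ℂ), ?_⟩) ⟨?_, ?_⟩
  · rw [mem_rootSet]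
    refine ⟨minpoly.ne_zero hint, ?_⟩
    exact (isConjRoot_iff_aeval_eq_zero hint).mp ((mem_orbit_iff_isConjRoot x _).mp y.2)
  · intro y z h
    have h' := Subtype.ext_iff.mp h
    exact Subtype.ext (coe_injective h')
  · rintro ⟨z, hz⟩
    rw [mem_rootSet] at hz
    have h1 : IsConjRoot ℚ ((x : LF R) : ℂ) z := (isConjRoot_iff_aeval_eq_zero hint).mpr hz.2
    obtain ⟨y, rfl⟩ := exists_root hR0 (aeval_of_isConjRoot h1 (aeval_root x))
    exact ⟨⟨y, (mem_orbit_iff_isConjRoot x y).mpr h1⟩, rfl⟩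

/-- The product over all roots for a relation supported on two pairs. -/
theorem prod_two_pairs (hW : ∀ z : ℂ, aeval z R = 0 → ‖z‖ ^ 2 = q) (hq : q ≠ 0)
    (hns : ∀ z : ℂ, aeval z R = 0 → ∀ n : ℕ, n ≠ 0 → z ^ (2 * n) ≠ (q : ℂ) ^ n)
    (x y : R.rootSet (LF R)) (hyx : y ≠ x) (hyx' : y ≠ iota R • x)
    (d : R.rootSet (LF R) → ℤ) (hd : ∀ y, d (iota R • y) = - d y)
    (hsupp : ∀ z, z ≠ x → z ≠ iota R • x → z ≠ y → z ≠ iota R • y → d z = 0) :
    ∏ z : R.rootSet (LF R), ((z : LF R) : ℂ) ^ d z =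
      (((x : LF R) : ℂ) ^ 2 / (q : ℂ)) ^ d x * (((y : LF R) : ℂ) ^ 2 / (q : ℂ)) ^ d y := by
  classical
  have hιyx : iota R • y ≠ x := by
    intro h
    apply hyx'
    rw [← h, iota_iota hW hq]
  have hιyιx : iota R • y ≠ iota R • x := fun h => hyx (smul_left_cancel _ h)
  have h0 : ∀ z : R.rootSet (LF R), ((z : LF R) : ℂ) ≠ 0 := by
    intro z
    have := root_ne_zero hW hq z
    simpa using this
  have hpair : ∀ z : R.rootSet (LF R), ((z : LF R) : ℂ) ^ d z *
      (((iota R • z : R.rootSet (LF R)) : LF R) : ℂ) ^ d (iota R • z) =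
        (((z : LF R) : ℂ) ^ 2 / (q : ℂ)) ^ d z := by
    intro z
    rw [hd, coe_iota' hW hq, zpow_neg, ← inv_zpow, inv_div, ← mul_zpow]
    congr 1
    ring
  have h1 : ∏ z ∈ ({x, iota R • x, y, iota R • y} : Finset (R.rootSet (LF R))),
      ((z : LF R) : ℂ) ^ d z = ∏ z : R.rootSet (LF R), ((z : LF R) : ℂ) ^ d z := by
    apply Finset.prod_subset (Finset.subset_univ _)
    intro z _ hz
    simp only [Finset.mem_insert, Finset.mem_singleton, not_or] at hz
    rw [hsupp z hz.1 hz.2.1 hz.2.2.1 hz.2.2.2, zpow_zero]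
  rw [← h1, Finset.prod_insert, Finset.prod_insert, Finset.prod_insert, Finset.prod_singleton,
    ← mul_assoc, hpair, hpair]
  · rw [Finset.mem_singleton]
    exact (iota_ne hW hq hns y).symm
  · simp only [Finset.mem_insert, Finset.mem_singleton, not_or]
    exact ⟨fun h => hyx' h.symm, fun h => hιyιx h.symm⟩
  · simp only [Finset.mem_insert, Finset.mem_singleton, not_or]
    exact ⟨(iota_ne hW hq hns x).symm, fun h => hyx h.symm, fun h => hιyx h.symm⟩

/-- No relations on the conjugates of a Weil number of prime degree. -/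
theorem eq_zero_of_primeDegree (hR0 : R ≠ 0) (hW : ∀ z : ℂ, aeval z R = 0 → ‖z‖ ^ 2 = q)
    (hq : q ≠ 0)
    (hns : ∀ z : ℂ, aeval z R = 0 → ∀ n : ℕ, n ≠ 0 → z ^ (2 * n) ≠ (q : ℂ) ^ n)
    {hq' : (q : ℂ) ≠ 0} {h0 : ∀ x : R.rootSet (LF R), ((x : LF R) : ℂ) ≠ 0}
    (x : R.rootSet (LF R)) (hx : PrimeDegree q ((x : LF R) : ℂ)) :
    ∀ d ∈ Lam R q hq' h0, (∀ y ∉ orbit (LF R ≃ₐ[ℚ] LF R) x, d y = 0) → d x = 0 := by
  classical
  obtain ⟨l, hl, hdeg, hstab, hhalf⟩ := hx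
  intro d hd hsupp
  refine eq_zero_of_prime (ι := iota R) (Lam_smul hW hq) (fun d hd => hd.1) (smul_iota hW hq)
    (iota_iota hW hq) (iota_ne hW hq hns) x l hl (by rw [card_orbit hR0, hdeg])
    (Lam_pair hW hq hns x) ?_ ?_ hd hsupp
  · rintro e ⟨hanti, M, hM⟩ y hyO hyx hyx' hsupp' hye
    by_contra hex
    rw [prod_two_pairs hW hq hns x y hyx hyx' e hanti hsupp', hye] at hM
    obtain ⟨n, hn, hpow⟩ := pow_eq_of_rel (hW _ (aeval_root x)) (hW _ (aeval_root y)) hq' hM hex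
    exact hstab _ ((mem_orbit_iff_isConjRoot x y).mp hyO) (fun h => hyx (coe_injective h)) n hn hpow
  · rintro Φ hΦO hsec hblock e ⟨hanti, M, hM⟩ c hc hes
    by_contra hc0
    rw [prod_half hW hq x Φ hΦO hsec e hanti hes] at hM
    let Φ' : Finset ℂ := Φ.image fun y : R.rootSet (LF R) => ((y : LF R) : ℂ)
    have hΦ'm : ∀ y : R.rootSet (LF R), ((y : LF R) : ℂ) ∈ Φ' ↔ y ∈ Φ := by
      intro y
      simp only [Φ', Finset.mem_image]
      constructor
      · rintro ⟨z, hz, hzy⟩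
        rwa [← coe_injective hzy]
      · intro hy
        exact ⟨y, hy, rfl⟩
    have hprod : ∏ z ∈ Φ', z = ∏ y ∈ Φ, ((y : LF R) : ℂ) :=
      Finset.prod_image coe_injective.injOn
    have hP0 : ∏ y ∈ Φ, ((y : LF R) : ℂ) ≠ 0 := Finset.prod_ne_zero_iff.mpr fun y _ => h0 y
    -- the number of elements of `Φ`
    have hcardΦ : Φ.card = l := by
      have hfin : (orbit (LF R ≃ₐ[ℚ] LF R) x).Finite := Set.toFinite _
      have h1 : Φ ∪ Φ.image (fun y => iota R • y) = hfin.toFinset := by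
        ext z
        rw [Set.Finite.mem_toFinset, Finset.mem_union, Finset.mem_image]
        constructor
        · rintro (h | ⟨w, hw, rfl⟩)
          · exact hΦO z h
          · exact mem_orbit_smul _ (hΦO w hw)
        · intro hz
          by_cases h : z ∈ Φ
          · left; exact h
          · right
            refine ⟨iota R • z, ?_, iota_iota hW hq z⟩
            by_contra h3
            exact h ((hsec z hz).mpr h3)
      have h2 : Disjoint Φ (Φ.image (fun y => iota R • y)) := by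
        rw [Finset.disjoint_left]
        intro z hz hz'
        rw [Finset.mem_image] at hz'
        obtain ⟨w, hw, rfl⟩ := hz'
        exact (hsec w (hΦO w hw)).mp hw hz
      have h3 : (Φ.image (fun y => iota R • y)).card = Φ.card :=
        Finset.card_image_of_injective _ (MulAction.injective (iota R))
      have h4 := congrArg Finset.card h1
      rw [Finset.card_union_of_disjoint h2, h3, ← Set.ncard_eq_toFinset_card _ hfin,
        ← Nat.card_coe_set_eq, card_orbit hR0, hdeg] at h4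
      omega
    -- the relation
    have h1 : ∏ y ∈ Φ, (((y : LF R) : ℂ) ^ 2 / (q : ℂ)) ^ e y =
        ((∏ y ∈ Φ, ((y : LF R) : ℂ)) ^ 2 / (q : ℂ) ^ l) ^ c := by
      have h2 : (∏ y ∈ Φ, ((y : LF R) : ℂ)) ^ 2 / (q : ℂ) ^ l =
          ∏ y ∈ Φ, (((y : LF R) : ℂ) ^ 2 / (q : ℂ)) := by
        rw [Finset.prod_div_distrib, Finset.prod_const, Finset.prod_pow, hcardΦ]
      rw [h2, ← Finset.prod_zpow]
      exact Finset.prod_congr rfl fun y hy => by rw [hc y hy]
    rw [h1, ← hprod] at hM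
    set P : ℂ := ∏ z ∈ Φ', z with hP
    have hP0' : P ≠ 0 := by rw [hprod]; exact hP0
    have hnormP : ‖P‖ ^ 2 = (q : ℝ) ^ l := by
      rw [hprod, norm_prod, ← Finset.prod_pow, Finset.prod_congr rfl fun y _ =>
        hW _ (aeval_root y), Finset.prod_const, hcardΦ]
    have hq0 : (0 : ℝ) < q := by positivity
    have hn1 : ‖P ^ 2 / (q : ℂ) ^ l‖ = 1 := by
      rw [norm_div, norm_pow, norm_pow, Complex.norm_natCast, hnormP, div_self (by positivity)]
    have hqM : (q : ℝ) ^ M = 1 := by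
      have h2 := congrArg (fun z : ℂ => ‖z‖) hM
      simp only [norm_zpow, hn1, one_zpow, Complex.norm_natCast] at h2
      exact h2.symm
    have hqM' : (q : ℂ) ^ M = 1 := by
      have := congrArg (fun r : ℝ => (r : ℂ)) hqM
      push_cast at this
      exact this
    rw [hqM'] at hM
    obtain ⟨n, hn0, hn⟩ : ∃ n : ℕ, n ≠ 0 ∧ P ^ (2 * n) = (q : ℂ) ^ (l * n) := by
      have key : ∀ n : ℕ, (P ^ 2 / (q : ℂ) ^ l) ^ n = 1 → P ^ (2 * n) = (q : ℂ) ^ (l * n) := by
        intro n hn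
        rw [div_pow, div_eq_one_iff_eq (pow_ne_zero _ (pow_ne_zero _ hq')), ← pow_mul,
          ← pow_mul] at hn
        exact hn
      obtain ⟨n, rfl | rfl⟩ := c.eq_nat_or_neg
      · exact ⟨n, by omega, key n (by rwa [zpow_natCast] at hM)⟩
      · refine ⟨n, by omega, key n ?_⟩
        rw [zpow_neg, zpow_natCast, inv_eq_one] at hM
        exact hM
    refine hhalf Φ' ?_ ?_ ?_ n hn0 hn
    · intro z hz
      simp only [Φ', Finset.mem_image] at hz
      obtain ⟨y, hy, rfl⟩ := hz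
      exact (mem_orbit_iff_isConjRoot x y).mp (hΦO y hy)
    · intro z hz
      obtain ⟨y, rfl⟩ := exists_root hR0 (aeval_of_isConjRoot hz (aeval_root x))
      rw [hΦ'm, ← coe_iota' hW hq, hΦ'm]
      exact hsec y ((mem_orbit_iff_isConjRoot x y).mpr hz)
    · intro σ
      obtain ⟨g, hg⟩ := exists_restrict R σ
      have key : ∀ y : R.rootSet (LF R), σ ((y : LF R) : ℂ) ∈ Φ' ↔ g • y ∈ Φ := by
        intro y
        rw [← hg, ← coe_smul_root, hΦ'm]
      rcases hblock g with h | h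
      · left
        intro z hz
        simp only [Φ', Finset.mem_image] at hz
        obtain ⟨y, hy, rfl⟩ := hz
        exact (key y).mpr (h y hy)
      · right
        intro z hz
        simp only [Φ', Finset.mem_image] at hz
        obtain ⟨y, hy, rfl⟩ := hz
        exact fun h' => h y hy ((key y).mp h')

/-- The root of `R` with the same complex value as a given root of a factor of `R`. -/
theorem exists_transfer {S : ℚ[X]} (hR0 : R ≠ 0) (hdvd : S ∣ R) :
    ∃ j : S.rootSet (LF S) → R.rootSet (LF R), ∀ y, ((j y : LF R) : ℂ) = ((y : LF S) : ℂ) := by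
  have h : ∀ y : S.rootSet (LF S), ∃ z : R.rootSet (LF R), ((z : LF R) : ℂ) = ((y : LF S) : ℂ) := by
    intro y
    apply exists_root hR0
    obtain ⟨T, rfl⟩ := hdvd
    rw [map_mul, aeval_root y, zero_mul]
  exact ⟨fun y => (h y).choose, fun y => (h y).choose_spec⟩

/-- The local conditions exclude relations supported on one orbit. -/
theorem eq_zero_of_local (hR0 : R ≠ 0) (hW : ∀ z : ℂ, aeval z R = 0 → ‖z‖ ^ 2 = q)
    (hq : q ≠ 0)
    (hns : ∀ z : ℂ, aeval z R = 0 → ∀ n : ℕ, n ≠ 0 → z ^ (2 * n) ≠ (q : ℂ) ^ n)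
    {hq' : (q : ℂ) ≠ 0} {h0 : ∀ x : R.rootSet (LF R), ((x : LF R) : ℂ) ≠ 0}
    (x : R.rootSet (LF R))
    (hloc : SelfDual q ((x : LF R) : ℂ) ∨ PrimitiveReal q ((x : LF R) : ℂ) ∨
      ThreeTransitive q ((x : LF R) : ℂ)) :
    ∀ d ∈ Lam R q hq' h0, (∀ y ∉ orbit (LF R ≃ₐ[ℚ] LF R) x, d y = 0) → d x = 0 := by
  classical
  rintro d ⟨hanti, M, hM⟩ hsupp
  have hint : IsIntegral ℚ ((x : LF R) : ℂ) := IsAlgebraic.isIntegral ⟨R, hR0, aeval_root x⟩
  set S : ℚ[X] := minpoly ℚ ((x : LF R) : ℂ) with hS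
  have hS0 : S ≠ 0 := minpoly.ne_zero hint
  have hdvd : S ∣ R := minpoly.dvd ℚ _ (aeval_root x)
  have hSR : ∀ z : ℂ, aeval z S = 0 → aeval z R = 0 := by
    intro z hz
    obtain ⟨T, hT⟩ := hdvd
    rw [hT, map_mul, hz, zero_mul]
  have hWS : ∀ z : ℂ, aeval z S = 0 → ‖z‖ ^ 2 = q := fun z hz => hW z (hSR z hz)
  have hnsS : ∀ z : ℂ, aeval z S = 0 → ∀ n : ℕ, n ≠ 0 → z ^ (2 * n) ≠ (q : ℂ) ^ n :=
    fun z hz => hns z (hSR z hz)
  obtain ⟨j, hj⟩ := exists_transfer (S := S) hR0 hdvd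
  have hjinj : Function.Injective j := by
    intro y z h
    apply coe_injective
    simp only
    rw [← hj, ← hj, h]
  have h0S : ∀ y : S.rootSet (LF S), ((y : LF S) : ℂ) ≠ 0 := fun y => by
    rw [← hj]
    exact h0 _
  obtain ⟨x', hx'⟩ := exists_root hS0 (minpoly.aeval ℚ ((x : LF R) : ℂ))
  have hjx : j x' = x := coe_injective (by simp only; rw [hj, hx'])
  have himage : ∀ z : R.rootSet (LF R), z ∈ orbit (LF R ≃ₐ[ℚ] LF R) x → ∃ y, j y = z := by
    intro z hz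
    have h1 := (isConjRoot_iff_aeval_eq_zero hint).mp ((mem_orbit_iff_isConjRoot x z).mp hz)
    obtain ⟨y, hy⟩ := exists_root hS0 h1
    exact ⟨y, coe_injective (by simp only; rw [hj, hy])⟩
  have hd' : (fun y => d (j y)) ∈ Lam S q hq' h0S := by
    refine ⟨?_, M, ?_⟩
    · intro y
      have h1 : j (iota S • y) = iota R • j y := by
        apply coe_injective
        simp only
        rw [hj, coe_iota' hWS hq, coe_iota' hW hq, hj]
      simp only
      rw [h1, hanti]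
    · rw [← hM, ← Finset.prod_subset (Finset.subset_univ (Finset.univ.image j)),
        Finset.prod_image hjinj.injOn]
      · refine Finset.prod_congr rfl fun y _ => ?_
        simp only
        rw [hj]
      · intro z _ hz
        have h1 : z ∉ orbit (LF R ≃ₐ[ℚ] LF R) x := by
          intro h
          obtain ⟨y, rfl⟩ := himage z h
          exact hz (Finset.mem_image_of_mem j (Finset.mem_univ y))
        rw [hsupp z h1, zpow_zero]
  have key := Lam_eq_zero hS0 hWS hq hnsS (hq' := hq') (h0 := h0S) x' (by rw [hx']; exact hloc) (by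
    intro y hy hxy
    exfalso
    apply hxy
    rw [hx']
    exact (isConjRoot_iff_aeval_eq_zero hint).mpr hy) _ hd'
  rwa [hjx] at key

/-- No relations, several orbits. -/
theorem Lam_eq_zero' (hR0 : R ≠ 0) (hW : ∀ z : ℂ, aeval z R = 0 → ‖z‖ ^ 2 = q) (hq : q ≠ 0)
    (hns : ∀ z : ℂ, aeval z R = 0 → ∀ n : ℕ, n ≠ 0 → z ^ (2 * n) ≠ (q : ℂ) ^ n)
    {hq' : (q : ℂ) ≠ 0} {h0 : ∀ x : R.rootSet (LF R), ((x : LF R) : ℂ) ≠ 0}
    (hloc : ∀ x : ℂ, aeval x R = 0 → PrimeDegree q x ∨ SelfDual q x ∨ PrimitiveReal q x ∨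
      ThreeTransitive q x)
    (hcross : ∀ x y : ℂ, aeval x R = 0 → aeval y R = 0 → ¬ IsConjRoot ℚ x y →
      (∀ z : ℂ, IsConjRoot ℚ y z → IsConjRoot ℚ⟮x⟯ z (q / z)) ∨
      (∀ z : ℂ, IsConjRoot ℚ x z → IsConjRoot ℚ⟮y⟯ z (q / z))) :
    ∀ d ∈ Lam R q hq' h0, ∀ x, d x = 0 := by
  apply eq_zero_of_cross (ι := iota R) (Lam_smul hW hq) (fun d hd => hd.1)
  · intro x
    rcases hloc _ (aeval_root x) with h | h
    · exact eq_zero_of_primeDegree hR0 hW hq hns x h
    · exact eq_zero_of_local hR0 hW hq hns x h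
  · intro x y hxy
    rw [mem_orbit_iff_isConjRoot] at hxy
    rcases hcross _ _ (aeval_root x) (aeval_root y) hxy with h | h
    · left
      intro z hz
      exact exists_smul_iota hW hq x z (h _ ((mem_orbit_iff_isConjRoot y z).mp hz))
    · right
      intro z hz
      exact exists_smul_iota hW hq y z (h _ ((mem_orbit_iff_isConjRoot x z).mp hz))

theorem noRel_of_local' (hR0 : R ≠ 0) (hW : ∀ z : ℂ, aeval z R = 0 → ‖z‖ ^ 2 = q) (hq : q ≠ 0)
    (hns : ∀ z : ℂ, aeval z R = 0 → ∀ n : ℕ, n ≠ 0 → z ^ (2 * n) ≠ (q : ℂ) ^ n)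
    (hloc : ∀ x : ℂ, aeval x R = 0 → PrimeDegree q x ∨ SelfDual q x ∨ PrimitiveReal q x ∨
      ThreeTransitive q x)
    (hcross : ∀ x y : ℂ, aeval x R = 0 → aeval y R = 0 → ¬ IsConjRoot ℚ x y →
      (∀ z : ℂ, IsConjRoot ℚ y z → IsConjRoot ℚ⟮x⟯ z (q / z)) ∨
      (∀ z : ℂ, IsConjRoot ℚ x z → IsConjRoot ℚ⟮y⟯ z (q / z)))
    (E : Type*) [Field E] [Algebra ℚ E] [IsAlgClosed E] : NoRel R q E := by
  classical
  intro c M hrel z hz
  let τ : LF R →ₐ[ℚ] E := IsAlgClosed.lift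
  have hq' : (q : ℂ) ≠ 0 := by exact_mod_cast hq
  have h0 : ∀ x : R.rootSet (LF R), ((x : LF R) : ℂ) ≠ 0 := by
    intro x
    have := root_ne_zero hW hq x
    simpa using this
  have hτι : ∀ x : R.rootSet (LF R), τ (iota R • x : R.rootSet (LF R)) = (q : E) / τ x := by
    intro x
    rw [coe_iota_smul hW hq, map_div₀, map_natCast]
  -- the relation in `ℂ`
  have hrelL : ∏ x : R.rootSet (LF R), (x : LF R) ^ c (τ x) = (q : LF R) ^ M := by
    have h1 := hrel
    rw [prod_roots hR0 τ] at h1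
    apply τ.injective
    rw [map_prod, map_pow, map_natCast, ← h1]
    refine Finset.prod_congr rfl fun x _ => ?_
    rw [map_pow]
    rfl
  have hrelC : ∏ x : R.rootSet (LF R), ((x : LF R) : ℂ) ^ c (τ x) = (q : ℂ) ^ M := by
    have h1 := congrArg (algebraMap (LF R) ℂ) hrelL
    rw [map_prod, map_pow, map_natCast] at h1
    rw [← h1]
    refine Finset.prod_congr rfl fun x _ => ?_
    rw [map_pow]
    rfl
  let e : R.rootSet (LF R) → ℕ := fun x => c (τ x)
  have hd : (fun x => (e x : ℤ) - e (iota R • x)) ∈ Lam R q hq' h0 := by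
    refine ⟨fun x => ?_, ?_⟩
    · simp only
      rw [iota_iota hW hq]
      ring
    · refine ⟨2 * M - ∑ x : R.rootSet (LF R), (e x : ℤ), ?_⟩
      have h1 : ∏ x : R.rootSet (LF R), ((x : LF R) : ℂ) ^ (e (iota R • x)) =
          (q : ℂ) ^ (∑ x : R.rootSet (LF R), e x) / (q : ℂ) ^ M := by
        rw [← Equiv.prod_comp (MulAction.toPerm (iota R))
          (fun x : R.rootSet (LF R) => ((x : LF R) : ℂ) ^ (e (iota R • x)))]
        simp only [MulAction.toPerm_apply]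
        rw [← hrelC, ← Finset.prod_pow_eq_pow_sum, ← Finset.prod_div_distrib]
        refine Finset.prod_congr rfl fun x _ => ?_
        rw [iota_iota hW hq, coe_iota' hW hq, div_pow]
      have h2 : ∏ x : R.rootSet (LF R), ((x : LF R) : ℂ) ^ ((e x : ℤ) - e (iota R • x)) =
          (∏ x : R.rootSet (LF R), ((x : LF R) : ℂ) ^ (e x)) /
            ∏ x : R.rootSet (LF R), ((x : LF R) : ℂ) ^ (e (iota R • x)) := by
        rw [← Finset.prod_div_distrib]
        refine Finset.prod_congr rfl fun x _ => ?_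
        rw [zpow_sub₀ (h0 x), zpow_natCast, zpow_natCast]
      rw [h2, h1]
      have h3 : ∏ x : R.rootSet (LF R), ((x : LF R) : ℂ) ^ (e x) = (q : ℂ) ^ M := hrelC
      rw [h3, zpow_sub₀ hq', ← Nat.cast_sum, zpow_natCast, mul_comm 2, zpow_mul, zpow_natCast]
      have h4 : (q : ℂ) ^ M ≠ 0 := pow_ne_zero _ hq'
      have h5 : (q : ℂ) ^ (∑ x : R.rootSet (LF R), e x) ≠ 0 := pow_ne_zero _ hq'
      rw [div_div_eq_mul_div, ← sq]
      rfl
  obtain ⟨x, rfl⟩ := exists_root_eq hR0 τ hz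
  have hx := Lam_eq_zero' hR0 hW hq hns hloc hcross _ hd x
  rw [← hτι]
  refine ⟨fun h => iota_ne hW hq hns x (Subtype.ext (τ.injective h)), ?_⟩
  simp only [e] at hx
  omega

end Pool.Agent.Lib.MP_950c68_ag.Orb
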