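import Mathlib
import Pool.Agent.Lib.MP_950c68_ag.OrbFinal
import Pool.Agent.Lib.MP_950c68_ag.HTArith

/-!
# Half systems and slopes
-/

namespace Pool.Agent.Lib.MP_950c68_ag.Orb

open Polynomial MulAction
open scoped IntermediateField

/-- A half system of conjugates of `x`, mapped by each automorphism to itself or its complement. -/
structure Half (R : ℚ[X]) (x : R.rootSet (LF R)) (Φ : Finset (R.rootSet (LF R))) : Prop where
  sub : ∀ z ∈ Φ, z ∈ orbit (LF R ≃ₐ[ℚ] LF R) x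
  sec : ∀ z ∈ orbit (LF R ≃ₐ[ℚ] LF R) x, (z ∈ Φ ↔ iota R • z ∉ Φ)
  block : ∀ g : LF R ≃ₐ[ℚ] LF R, (∀ z ∈ Φ, g • z ∈ Φ) ∨ ∀ z ∈ Φ, g • z ∉ Φ

theorem prod_smul_of_stable {G Ω M : Type*} [Group G] [MulAction G Ω] [CommMonoid M]
    {Φ : Finset Ω} {g : G} (hg : ∀ z ∈ Φ, g • z ∈ Φ) (F : Ω → M) :
    ∏ y ∈ Φ, F (g • y) = ∏ y ∈ Φ, F y := by
  classical
  have h1 : Φ.image (fun y => g • y) = Φ := by
    apply Finset.eq_of_subset_of_card_le
    · intro y hy
      rw [Finset.mem_image] at hy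
      obtain ⟨z, hz, rfl⟩ := hy
      exact hg z hz
    · rw [Finset.card_image_of_injective _ (MulAction.injective g)]
  calc ∏ y ∈ Φ, F (g • y) = ∏ y ∈ Φ.image (fun y => g • y), F y := by
        rw [Finset.prod_image (MulAction.injective g).injOn]
    _ = ∏ y ∈ Φ, F y := by rw [h1]

variable {R : ℚ[X]} {q : ℕ}

theorem iota_apply_iota (z : LF R) : iota R (iota R z) = z := by
  apply Subtype.ext
  rw [coe_iota, coe_iota, Complex.conj_conj]

/-- The product of a half system. -/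
noncomputable def hprod (Φ : Finset (R.rootSet (LF R))) : LF R := ∏ y ∈ Φ, (y : LF R)

theorem map_hprod (Φ : Finset (R.rootSet (LF R))) (g : LF R ≃ₐ[ℚ] LF R) :
    g (hprod Φ) = ∏ y ∈ Φ, ((g • y : R.rootSet (LF R)) : LF R) := by
  rw [hprod, map_prod]
  rfl

section

variable {x : R.rootSet (LF R)} {Φ : Finset (R.rootSet (LF R))}

theorem Half.stable_or (hW : ∀ z : ℂ, aeval z R = 0 → ‖z‖ ^ 2 = q) (hq : q ≠ 0)
    (h : Half R x Φ) (g : LF R ≃ₐ[ℚ] LF R) :
    (∀ z ∈ Φ, g • z ∈ Φ) ∨ ∀ z ∈ Φ, (iota R * g) • z ∈ Φ := by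
  rcases h.block g with h1 | h1
  · left; exact h1
  · right
    intro z hz
    have h2 := mem_orbit_smul g (h.sub z hz)
    have h3 := mem_orbit_smul (iota R) h2
    rw [mul_smul, h.sec _ h3, iota_iota hW hq]
    exact h1 z hz

theorem Half.map_prod (hW : ∀ z : ℂ, aeval z R = 0 → ‖z‖ ^ 2 = q) (hq : q ≠ 0)
    (h : Half R x Φ) (g : LF R ≃ₐ[ℚ] LF R) :
    ((∀ z ∈ Φ, g • z ∈ Φ) ∧ g (hprod Φ) = hprod Φ) ∨ g (hprod Φ) = iota R (hprod Φ) := by
  rcases h.stable_or hW hq g with h1 | h1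
  · left
    refine ⟨h1, ?_⟩
    rw [map_hprod, prod_smul_of_stable h1 (fun y => (y : LF R)), hprod]
  · right
    have h2 := map_hprod Φ (iota R * g)
    rw [prod_smul_of_stable h1 (fun y => (y : LF R))] at h2
    have h3 : iota R (g (hprod Φ)) = hprod Φ := h2
    have h4 := congrArg (iota R) h3
    rw [iota_apply_iota] at h4
    exact h4

theorem map_iota_hprod (hW : ∀ z : ℂ, aeval z R = 0 → ‖z‖ ^ 2 = q) (hq : q ≠ 0)
    (Φ : Finset (R.rootSet (LF R))) (g : LF R ≃ₐ[ℚ] LF R) :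
    g (iota R (hprod Φ)) = iota R (g (hprod Φ)) := by
  rw [map_hprod, map_hprod, _root_.map_prod, _root_.map_prod]
  refine Finset.prod_congr rfl fun y _ => ?_
  have h1 := congrArg (fun w : R.rootSet (LF R) => (w : LF R)) (smul_iota hW hq g y)
  exact h1

theorem hprod_mul_iota (hW : ∀ z : ℂ, aeval z R = 0 → ‖z‖ ^ 2 = q) (hq : q ≠ 0)
    (Φ : Finset (R.rootSet (LF R))) :
    hprod Φ * iota R (hprod Φ) = (q : LF R) ^ Φ.card := by
  rw [map_hprod, hprod, ← Finset.prod_mul_distrib, ← Finset.prod_const]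
  refine Finset.prod_congr rfl fun y _ => ?_
  rw [coe_iota_smul hW hq, mul_div_cancel₀ _ (root_ne_zero hW hq y)]

theorem Half.card (hR0 : R ≠ 0) (hW : ∀ z : ℂ, aeval z R = 0 → ‖z‖ ^ 2 = q) (hq : q ≠ 0)
    (h : Half R x Φ) {g : ℕ} (hdeg : (minpoly ℚ ((x : LF R) : ℂ)).natDegree = 2 * g) :
    Φ.card = g := by
  classical
  have hfin : (orbit (LF R ≃ₐ[ℚ] LF R) x).Finite := Set.toFinite _
  have h1 : Φ ∪ Φ.image (fun y => iota R • y) = hfin.toFinset := by
    ext z
    rw [Set.Finite.mem_toFinset, Finset.mem_union, Finset.mem_image]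
    constructor
    · rintro (h2 | ⟨w, hw, rfl⟩)
      · exact h.sub z h2
      · exact mem_orbit_smul _ (h.sub w hw)
    · intro hz
      by_cases h2 : z ∈ Φ
      · left; exact h2
      · right
        refine ⟨iota R • z, ?_, iota_iota hW hq z⟩
        by_contra h3
        exact h2 ((h.sec z hz).mpr h3)
  have h2 : Disjoint Φ (Φ.image (fun y => iota R • y)) := by
    rw [Finset.disjoint_left]
    intro z hz hz'
    rw [Finset.mem_image] at hz'
    obtain ⟨w, hw, rfl⟩ := hz'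
    exact (h.sec w (h.sub w hw)).mp hw hz
  have h3 : (Φ.image (fun y => iota R • y)).card = Φ.card :=
    Finset.card_image_of_injective _ (MulAction.injective (iota R))
  have h4 := congrArg Finset.card h1
  rw [Finset.card_union_of_disjoint h2, h3, ← Set.ncard_eq_toFinset_card _ hfin,
    ← Nat.card_coe_set_eq, card_orbit hR0, hdeg] at h4
  omega

theorem isIntegral_root (hint : ∀ z : ℂ, aeval z R = 0 → IsIntegral ℤ z)
    (y : R.rootSet (LF R)) : IsIntegral ℤ (y : LF R) := by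
  have h1 : IsIntegral ℤ (algebraMap (LF R) ℂ (y : LF R)) := hint _ (aeval_root y)
  exact (isIntegral_algebraMap_iff (algebraMap (LF R) ℂ).injective).mp h1

theorem isIntegral_hprod (hint : ∀ z : ℂ, aeval z R = 0 → IsIntegral ℤ z)
    (Φ : Finset (R.rootSet (LF R))) : IsIntegral ℤ (hprod Φ) :=
  IsIntegral.prod _ fun y _ => isIntegral_root hint y

theorem isIntegral_iota_hprod (hint : ∀ z : ℂ, aeval z R = 0 → IsIntegral ℤ z)
    (Φ : Finset (R.rootSet (LF R))) : IsIntegral ℤ (iota R (hprod Φ)) := by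
  rw [map_hprod]
  exact IsIntegral.prod _ fun y _ => isIntegral_root hint _

/-- An algebraic integer fixed by the Galois group is an integer. -/
theorem exists_int_of_fixed {z : LF R} (hz : IsIntegral ℤ z)
    (hfix : ∀ g : LF R ≃ₐ[ℚ] LF R, g z = z) : ∃ b : ℤ, z = b := by
  have h1 : z ∈ (⊥ : IntermediateField ℚ (LF R)) := by
    rw [IsGalois.mem_bot_iff_fixed]
    exact hfix
  rw [IntermediateField.mem_bot] at h1
  obtain ⟨r, rfl⟩ := h1
  have h2 : IsIntegral ℤ r := (isIntegral_algebraMap_iff (algebraMap ℚ (LF R)).injective).mp hz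
  obtain ⟨b, rfl⟩ := IsIntegrallyClosed.isIntegral_iff.mp h2
  exact ⟨b, by simp⟩

theorem Half.exists_trace (hW : ∀ z : ℂ, aeval z R = 0 → ‖z‖ ^ 2 = q) (hq : q ≠ 0)
    (hint : ∀ z : ℂ, aeval z R = 0 → IsIntegral ℤ z) (h : Half R x Φ) :
    ∃ b : ℤ, hprod Φ + iota R (hprod Φ) = b := by
  apply exists_int_of_fixed ((isIntegral_hprod hint Φ).add (isIntegral_iota_hprod hint Φ))
  intro g
  rw [map_add, map_iota_hprod hW hq]
  rcases h.map_prod hW hq g with ⟨_, h1⟩ | h1
  · rw [h1]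
  · rw [h1, iota_apply_iota, add_comm]

/-- The roots of the quadratic polynomial of the half system in `ℚ_p` are constant terms of
factors of the minimal polynomial of `x`. -/
theorem Half.norm_eq (hR0 : R ≠ 0) (hW : ∀ z : ℂ, aeval z R = 0 → ‖z‖ ^ 2 = q) (hq : q ≠ 0)
    (h : Half R x Φ) {b : ℤ} (hb : hprod Φ + iota R (hprod Φ) = b)
    (hne : iota R (hprod Φ) ≠ hprod Φ) (p : ℕ) [Fact p.Prime] {β : ℚ_[p]}
    (hβ : β ^ 2 - b * β + (q : ℚ_[p]) ^ Φ.card = 0) :
    ∃ H : ℚ_[p][X], H.Monic ∧ H ∣ (minpoly ℚ ((x : LF R) : ℂ)).map (algebraMap ℚ ℚ_[p]) ∧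
      ‖H.eval 0‖ = ‖β‖ := by
  classical
  set P : LF R := hprod Φ with hP
  have hPQ : P * iota R P = (q : LF R) ^ Φ.card := hprod_mul_iota hW hq Φ
  have hPint : IsIntegral ℚ P := Algebra.IsIntegral.isIntegral P
  have hPnot : P ∉ (algebraMap ℚ (LF R)).range := by
    rintro ⟨r, hr⟩
    apply hne
    rw [← hr, AlgEquiv.commutes]
  -- the minimal polynomial of `P`
  let Q : ℚ[X] := X ^ 2 - C (b : ℚ) * X + C ((q : ℚ) ^ Φ.card)
  have hQdeg : Q.natDegree = 2 := by
    simp only [Q]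
    compute_degree!
  have hQmonic : Q.Monic := by
    simp only [Q]
    monicity!
  have hQP : aeval P Q = 0 := by
    simp only [Q, map_add, map_sub, map_mul, aeval_X_pow, aeval_X, aeval_C]
    rw [map_intCast, map_pow, map_natCast, ← hPQ, ← hb]
    ring
  have hmin : minpoly ℚ P = Q := by
    have h1 : minpoly ℚ P ∣ Q := minpoly.dvd ℚ P hQP
    have h2 : 2 ≤ (minpoly ℚ P).natDegree := by
      have h3 := minpoly.natDegree_pos hPint
      have h4 : (minpoly ℚ P).natDegree ≠ 1 := fun h => hPnot (minpoly.natDegree_eq_one_iff.mp h)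
      omega
    exact (eq_of_monic_of_dvd_of_natDegree_le (minpoly.monic hPint) hQmonic h1
      (by rw [hQdeg]; exact h2)).symm
  -- the embedding of `ℚ(P)`
  have hβroot : β ∈ (minpoly ℚ P).aroots ℚ_[p] := by
    rw [mem_aroots]
    refine ⟨minpoly.ne_zero hPint, ?_⟩
    rw [hmin]
    simp only [Q, map_add, map_sub, map_mul, aeval_X_pow, aeval_X, aeval_C]
    rw [map_intCast, map_pow, map_natCast]
    exact hβ
  let φ : ℚ⟮P⟯ →ₐ[ℚ] ℚ_[p] :=
    (IntermediateField.algHomAdjoinIntegralEquiv ℚ hPint).symm ⟨β, hβroot⟩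
  have hφ : φ (IntermediateField.AdjoinSimple.gen ℚ P) = β :=
    IntermediateField.algHomAdjoinIntegralEquiv_symm_apply_gen ℚ hPint ⟨β, hβroot⟩
  -- the factor
  let H₀ : (LF R)[X] := ∏ y ∈ Φ, (X - C (y : LF R))
  have hH₀ : H₀.Monic := monic_prod_of_monic _ _ fun y _ => monic_X_sub_C _
  have hlift : H₀ ∈ lifts (algebraMap ℚ⟮P⟯ (LF R)) := by
    rw [lifts_iff_coeff_lifts]
    intro i
    have h1 : H₀.coeff i ∈ ℚ⟮P⟯ := by
      rw [← IsGalois.fixedField_fixingSubgroup ℚ⟮P⟯, IntermediateField.mem_fixedField_iff]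
      intro g hg
      rw [IntermediateField.mem_fixingSubgroup_iff] at hg
      have hgP : g P = P := hg P (IntermediateField.mem_adjoin_simple_self ℚ P)
      have hst : ∀ z ∈ Φ, g • z ∈ Φ := by
        rcases h.map_prod hW hq g with ⟨h2, _⟩ | h2
        · exact h2
        · exfalso
          apply hne
          rw [← h2, hgP]
      have h3 : H₀.map (g : LF R →+* LF R) = H₀ := by
        simp only [H₀, Polynomial.map_prod, Polynomial.map_sub, map_X, map_C]
        exact prod_smul_of_stable hst (fun y => X - C (y : LF R))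
      have h4 := congrArg (fun r : (LF R)[X] => r.coeff i) h3
      simp only [coeff_map] at h4
      exact h4
    exact ⟨⟨_, h1⟩, rfl⟩
  obtain ⟨H₁, hH₁, _, hH₁m⟩ := lifts_and_natDegree_eq_and_monic hlift hH₀
  have hdvd : H₀ ∣ (minpoly ℚ ((x : LF R) : ℂ)).map (algebraMap ℚ (LF R)) := by
    apply Finset.prod_dvd_of_coprime
    · intro y _ z _ hyz
      exact pairwise_coprime_X_sub_C (s := fun y : R.rootSet (LF R) => (y : LF R))
        Subtype.val_injective hyz
    · intro y hy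
      rw [dvd_iff_isRoot, IsRoot.def, eval_map_algebraMap]
      have hint : IsIntegral ℚ ((x : LF R) : ℂ) := IsAlgebraic.isIntegral ⟨R, hR0, aeval_root x⟩
      have h1 := (isConjRoot_iff_aeval_eq_zero hint).mp
        ((mem_orbit_iff_isConjRoot x y).mp (h.sub y hy))
      apply (algebraMap (LF R) ℂ).injective
      rw [← aeval_algebraMap_apply, map_zero]
      exact h1
  have hdvd1 : H₁ ∣ (minpoly ℚ ((x : LF R) : ℂ)).map (algebraMap ℚ ℚ⟮P⟯) := by
    rw [← map_dvd_map' (algebraMap ℚ⟮P⟯ (LF R)), hH₁, Polynomial.map_map,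
      ← IsScalarTower.algebraMap_eq]
    exact hdvd
  refine ⟨H₁.map (φ : ℚ⟮P⟯ →+* ℚ_[p]), hH₁m.map _, ?_, ?_⟩
  · have h1 := Polynomial.map_dvd (φ : ℚ⟮P⟯ →+* ℚ_[p]) hdvd1
    rw [Polynomial.map_map] at h1
    have h2 : (φ : ℚ⟮P⟯ →+* ℚ_[p]).comp (algebraMap ℚ ℚ⟮P⟯) = algebraMap ℚ ℚ_[p] :=
      φ.comp_algebraMap
    rwa [h2] at h1
  · have h1 : H₁.eval 0 = (-1) ^ Φ.card * IntermediateField.AdjoinSimple.gen ℚ P := by
      apply (algebraMap ℚ⟮P⟯ (LF R)).injective
      have h2 : algebraMap ℚ⟮P⟯ (LF R) (H₁.eval 0) = H₀.eval 0 := by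
        rw [← hH₁, ← coeff_zero_eq_eval_zero, ← coeff_zero_eq_eval_zero, coeff_map]
      rw [h2, map_mul, IntermediateField.AdjoinSimple.algebraMap_gen]
      simp only [H₀, eval_prod, eval_sub, eval_X, eval_C, zero_sub]
      rw [Finset.prod_neg]
      simp [hP, hprod]
    have h2 : (H₁.map (φ : ℚ⟮P⟯ →+* ℚ_[p])).eval 0 = (-1) ^ Φ.card * β := by
      rw [← coeff_zero_eq_eval_zero, coeff_map, coeff_zero_eq_eval_zero, h1]
      have h3 : (φ : ℚ⟮P⟯ →+* ℚ_[p]) ((-1) ^ Φ.card * IntermediateField.AdjoinSimple.gen ℚ P) =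
          (-1) ^ Φ.card * φ (IntermediateField.AdjoinSimple.gen ℚ P) := by
        simp
      rw [h3, hφ]
    rw [h2, norm_mul, norm_pow, norm_neg, norm_one, one_pow, one_mul]

/-- The alternative for the product of a half system. -/
theorem Half.alternative (hR0 : R ≠ 0) (hq : q ≠ 0)
    (hW : ∀ z : ℂ, aeval z R = 0 → ‖z‖ ^ 2 = q)
    (hint : ∀ z : ℂ, aeval z R = 0 → IsIntegral ℤ z) (h : Half R x Φ)
    {p f : ℕ} [Fact p.Prime] (hqp : q = p ^ f)
    (hHT : ∀ H : ℚ_[p][X], H.Monic →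
      H ∣ (minpoly ℚ ((x : LF R) : ℂ)).map (algebraMap ℚ ℚ_[p]) →
      ∃ m : ℤ, ‖H.eval 0‖ = (q : ℝ) ^ m) :
    ((hprod Φ : LF R) : ℂ) ^ 24 = (q : ℂ) ^ (12 * Φ.card) ∨
      ∃ (a : ℕ) (c : ℤ), 2 * a < Φ.card ∧ ¬ (p : ℤ) ∣ c ∧
        hprod Φ + iota R (hprod Φ) = (q : LF R) ^ a * c := by
  obtain ⟨b, hb⟩ := h.exists_trace hW hq hint
  have hPQ := hprod_mul_iota hW hq Φ
  have hq' : (q : ℂ) ≠ 0 := by exact_mod_cast hq
  have hPQ' : ((hprod Φ : LF R) : ℂ) * ((iota R (hprod Φ) : LF R) : ℂ) = (q : ℂ) ^ Φ.card := by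
    have := congrArg (fun z : LF R => (z : ℂ)) hPQ
    simpa using this
  have hnorm : ‖((hprod Φ : LF R) : ℂ)‖ ^ 2 = (q : ℝ) ^ Φ.card := by
    rw [coe_iota, Complex.mul_conj, Complex.normSq_eq_norm_sq] at hPQ'
    exact_mod_cast hPQ'
  by_cases hne : iota R (hprod Φ) = hprod Φ
  · left
    rw [hne, ← sq] at hPQ'
    calc ((hprod Φ : LF R) : ℂ) ^ 24 = (((hprod Φ : LF R) : ℂ) ^ 2) ^ 12 := by ring
      _ = (q : ℂ) ^ (12 * Φ.card) := by rw [hPQ', ← pow_mul, mul_comm]
  · rcases padic_alternative p f Φ.card b (fun β hβ => by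
      rw [← hqp] at hβ ⊢
      obtain ⟨H, hHm, hHd, hH⟩ := h.norm_eq hR0 hW hq hb hne p hβ
      rw [← hH]
      exact hHT H hHm hHd) with ⟨m, hm⟩ | ⟨a, c, ha, hc, hbc⟩
    · left
      rw [← hqp] at hm
      -- the root of unity
      set P : ℂ := ((hprod Φ : LF R) : ℂ) with hP
      set P' : ℂ := ((iota R (hprod Φ) : LF R) : ℂ) with hP'
      have hP0 : P ≠ 0 := left_ne_zero_of_mul (by rw [hPQ']; exact pow_ne_zero _ hq')
      have hbC : P + P' = b := by
        have := congrArg (fun z : LF R => (z : ℂ)) hb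
        simpa using this
      have hmC : (b : ℂ) ^ 2 = (q : ℂ) ^ Φ.card * m := by exact_mod_cast hm
      have hu1 : ‖P ^ 2 / (q : ℂ) ^ Φ.card‖ = 1 := by
        rw [norm_div, norm_pow, norm_pow, hnorm, Complex.norm_natCast, div_self]
        have : (q : ℝ) ≠ 0 := by exact_mod_cast hq
        exact pow_ne_zero _ this
      have hu2 : P ^ 2 / (q : ℂ) ^ Φ.card + (P ^ 2 / (q : ℂ) ^ Φ.card)⁻¹ = ((m - 2 : ℤ) : ℂ) := by
        have hQ0 : (q : ℂ) ^ Φ.card ≠ 0 := pow_ne_zero _ hq'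
        have h1 : (P ^ 2 / (q : ℂ) ^ Φ.card)⁻¹ = P' ^ 2 / (q : ℂ) ^ Φ.card := by
          rw [inv_div, div_eq_div_iff (pow_ne_zero _ hP0) hQ0, ← hPQ']
          ring
        rw [h1, ← add_div, div_eq_iff hQ0]
        push_cast
        have h2 : P ^ 2 + P' ^ 2 = (b : ℂ) ^ 2 - 2 * (P * P') := by rw [← hbC]; ring
        rw [h2, hmC, hPQ']
        ring
      have h12 := pow_twelve hu1 hu2
      rw [div_pow, div_eq_one_iff_eq (pow_ne_zero _ (pow_ne_zero _ hq')), ← pow_mul, ← pow_mul,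
        mul_comm Φ.card 12] at h12
      exact h12
    · right
      refine ⟨a, c, ha, hc, ?_⟩
      rw [hb, hbc, ← hqp]
      push_cast
      rfl

/-- If the trace of the product is prime to `p`, then all members of the half system have the
same powers. -/
theorem Half.pow_eq (hR0 : R ≠ 0) (hq : q ≠ 0)
    (hW : ∀ z : ℂ, aeval z R = 0 → ‖z‖ ^ 2 = q)
    (hint : ∀ z : ℂ, aeval z R = 0 → IsIntegral ℤ z)
    {p f : ℕ} (hp : p.Prime) (hqp : q = p ^ f) {c : ℤ} (hc : ¬ (p : ℤ) ∣ c)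
    (hb : hprod Φ + iota R (hprod Φ) = c) {y z : R.rootSet (LF R)} (hy : y ∈ Φ) (hz : z ∈ Φ) :
    ∃ n : ℕ, n ≠ 0 ∧ ((z : LF R) : ℂ) ^ n = ((y : LF R) : ℂ) ^ n := by
  classical
  have hq' : (q : LF R) ≠ 0 := by exact_mod_cast hq
  have hy0 := root_ne_zero hW hq y
  have hz0 := root_ne_zero hW hq z
  have hcard : Φ.card ≠ 0 := (Finset.card_pos.mpr ⟨y, hy⟩).ne'
  -- Bezout
  have hcop : IsCoprime c ((q : ℤ) ^ Φ.card) := by
    have h1 : IsCoprime (p : ℤ) c := by
      rw [(Nat.prime_iff_prime_int.mp hp).coprime_iff_not_dvd]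
      exact hc
    rw [hqp]
    push_cast
    exact (h1.symm.pow_right).pow_right
  obtain ⟨u, v, huv⟩ := hcop
  have huv' : (u : LF R) * c + v * (q : LF R) ^ Φ.card = 1 := by exact_mod_cast huv
  -- the quotient is integral
  have hquot : IsIntegral ℤ ((z : LF R) / y) := by
    have h1 : hprod Φ = (y : LF R) * hprod (Φ.erase y) := by
      rw [hprod, hprod, Finset.mul_prod_erase _ _ hy]
    have h2 : iota R (hprod Φ) = (q / (z : LF R)) * iota R (hprod (Φ.erase z)) := by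
      rw [map_hprod, map_hprod, ← coe_iota_smul hW hq,
        Finset.mul_prod_erase Φ (fun w => ((iota R • w : R.rootSet (LF R)) : LF R)) hz]
    obtain ⟨k, hk⟩ := Nat.exists_eq_succ_of_ne_zero hcard
    have h3 : (z : LF R) / y = u * (z * hprod (Φ.erase y)) +
        u * (iota R (hprod (Φ.erase z)) * (iota R • y : R.rootSet (LF R))) +
        v * ((q : LF R) ^ k * (z * (iota R • y : R.rootSet (LF R)))) := by
      rw [coe_iota_smul hW hq]
      calc (z : LF R) / y = (u * c + v * (q : LF R) ^ Φ.card) * (z / y) := by rw [huv', one_mul]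
        _ = (u * ((y : LF R) * hprod (Φ.erase y) + (q / (z : LF R)) * iota R (hprod (Φ.erase z))) +
            v * ((q : LF R) ^ k * q)) * (z / y) := by
            rw [← hb, ← h1, ← h2, hk, pow_succ]
        _ = _ := by
            field_simp
    rw [h3]
    have hI : ∀ m : ℤ, IsIntegral ℤ (m : LF R) := fun m => by
      simpa using (isIntegral_algebraMap (R := ℤ) (A := LF R) (x := m))
    have hIn : IsIntegral ℤ (q : LF R) := by
      have := hI q
      exact_mod_cast this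
    refine (((hI u).mul ((isIntegral_root hint z).mul (isIntegral_hprod hint _))).add
      ((hI u).mul ((isIntegral_iota_hprod hint _).mul (isIntegral_root hint _)))).add
      ((hI v).mul ((hIn.pow k).mul ((isIntegral_root hint z).mul (isIntegral_root hint _))))
  -- Kronecker
  have hnf : NumberField (LF R) := { to_charZero := inferInstance, to_finiteDimensional := inferInstance }
  have hemb : ∀ (w : R.rootSet (LF R)) (φ : LF R →+* ℂ), ‖φ (w : LF R)‖ ^ 2 = q := by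
    intro w φ
    apply hW
    have h1 : aeval (w : LF R) R = 0 := (mem_rootSet.mp w.2).2
    have h2 := congrArg φ h1
    rw [map_zero] at h2
    have h3 : φ (aeval (w : LF R) R) = aeval (φ w) R := by
      have := Polynomial.hom_eval₂ R (algebraMap ℚ (LF R)) φ (w : LF R)
      rw [aeval_def, this, aeval_def]
      congr 1
      exact Subsingleton.elim _ _
    rw [← h3, h2]
  obtain ⟨n, hn, hpow⟩ := NumberField.Embeddings.pow_eq_one_of_norm_eq_one (LF R) ℂ hquot (by
    intro φ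
    have h1 := hemb z φ
    have h2 := hemb y φ
    rw [map_div₀, norm_div, div_eq_one_iff_eq]
    · have h3 : ‖φ (z : LF R)‖ ^ 2 = ‖φ (y : LF R)‖ ^ 2 := by rw [h1, h2]
      exact (pow_left_inj₀ (norm_nonneg _) (norm_nonneg _) two_ne_zero).mp h3
    · intro h0
      rw [h0] at h2
      have : (q : ℝ) = 0 := by rw [← h2]; norm_num
      exact hq (by exact_mod_cast this))
  refine ⟨n, hn.ne', ?_⟩
  rw [div_pow, div_eq_one_iff_eq (pow_ne_zero _ hy0)] at hpow
  have := congrArg (fun w : LF R => (w : ℂ)) hpow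
  simpa using this

end

end Pool.Agent.Lib.MP_950c68_ag.Orb
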