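import Mathlib
import Pool.Agent.Lib.MP_950c68_ag.OrbHT

/-!
# Weil numbers in the same imaginary quadratic field
-/

namespace Pool.Agent.Lib.MP_950c68_ag.Orb

open Polynomial MulAction

variable {R : ℚ[X]} {q : ℕ}

/-- Two Weil numbers of ordinary elliptic curves in the same field. -/
theorem compare_ordinary (hq : q ≠ 0) {p f : ℕ} (hp : p.Prime) (hqp : q = p ^ f)
    {A A' B B' : LF R} (hA : IsIntegral ℤ A) (hA' : IsIntegral ℤ A') (hB : IsIntegral ℤ B)
    (hB' : IsIntegral ℤ B') (hιA : iota R A = A') (hιB : iota R B = B')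
    (hAA : A * A' = q) (hBB : B * B' = q) {a b : ℤ} (ha : A + A' = a) (hb : B + B' = b)
    (hpa : ¬ (p : ℤ) ∣ a) (hpb : ¬ (p : ℤ) ∣ b)
    (hfix : ∀ g : LF R ≃ₐ[ℚ] LF R, (g A = A ∧ g A' = A' ∧ g B = B ∧ g B' = B') ∨
      (g A = A' ∧ g A' = A ∧ g B = B' ∧ g B' = B)) :
    (A : ℂ) ^ 12 = (B : ℂ) ^ 12 ∨ ((A : ℂ) * (B : ℂ)) ^ 12 = (q : ℂ) ^ 12 := by
  have hq' : (q : ℂ) ≠ 0 := by exact_mod_cast hq
  obtain ⟨m, hm⟩ := exists_int_of_fixed ((hA.mul hB').add (hA'.mul hB)) (by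
    intro g
    rw [map_add, map_mul, map_mul]
    rcases hfix g with ⟨h1, h2, h3, h4⟩ | ⟨h1, h2, h3, h4⟩
    · rw [h1, h2, h3, h4]
    · rw [h1, h2, h3, h4]
      ring)
  obtain ⟨n, hn⟩ := exists_int_of_fixed ((hA.mul hB).add (hA'.mul hB')) (by
    intro g
    rw [map_add, map_mul, map_mul]
    rcases hfix g with ⟨h1, h2, h3, h4⟩ | ⟨h1, h2, h3, h4⟩
    · rw [h1, h2, h3, h4]
    · rw [h1, h2, h3, h4]
      ring)
  have hsum : m + n = a * b := by
    have h1 : ((m + n : ℤ) : LF R) = ((a * b : ℤ) : LF R) := by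
      push_cast
      rw [← hm, ← hn, ← ha, ← hb]
      ring
    exact_mod_cast h1
  have hprod : (q : ℤ) ∣ m * n := by
    refine ⟨a ^ 2 - 2 * q + (b ^ 2 - 2 * q), ?_⟩
    have h1 : ((m * n : ℤ) : LF R) = ((q * (a ^ 2 - 2 * q + (b ^ 2 - 2 * q)) : ℤ) : LF R) := by
      push_cast
      rw [← hm, ← hn, ← ha, ← hb]
      linear_combination (A ^ 2 + A' ^ 2) * hBB + (B ^ 2 + B' ^ 2) * hAA -
        (2 * (q : LF R)) * hAA - (2 * (q : LF R)) * hBB
    exact_mod_cast h1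
  have hpZ : Prime (p : ℤ) := Nat.prime_iff_prime_int.mp hp
  have hpab : ¬ (p : ℤ) ∣ m + n := by
    rw [hsum]
    intro h
    rcases hpZ.dvd_or_dvd h with h | h
    · exact hpa h
    · exact hpb h
  have hcase : (q : ℤ) ∣ m ∨ (q : ℤ) ∣ n := by
    have hcop : ∀ k : ℤ, ¬ (p : ℤ) ∣ k → IsCoprime (q : ℤ) k := by
      intro k hk
      rw [hqp]
      push_cast
      exact (hpZ.coprime_iff_not_dvd.mpr hk).pow_left
    by_cases hpn : (p : ℤ) ∣ n
    · right
      have hpm : ¬ (p : ℤ) ∣ m := fun h => hpab (dvd_add h hpn)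
      exact (hcop m hpm).dvd_of_dvd_mul_left hprod
    · left
      exact (hcop n hpn).dvd_of_dvd_mul_right hprod
  -- complex values
  have hAAC : (A : ℂ) * (A' : ℂ) = q := by
    have := congrArg (fun z : LF R => (z : ℂ)) hAA
    simpa using this
  have hBBC : (B : ℂ) * (B' : ℂ) = q := by
    have := congrArg (fun z : LF R => (z : ℂ)) hBB
    simpa using this
  have hA0 : (A : ℂ) ≠ 0 := left_ne_zero_of_mul (by rw [hAAC]; exact hq')
  have hB0 : (B : ℂ) ≠ 0 := left_ne_zero_of_mul (by rw [hBBC]; exact hq')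
  have hnA : ‖(A : ℂ)‖ ^ 2 = q := by
    have h1 := hAAC
    rw [← hιA, coe_iota, Complex.mul_conj, Complex.normSq_eq_norm_sq] at h1
    exact_mod_cast h1
  have hnB : ‖(B : ℂ)‖ ^ 2 = q := by
    have h1 := hBBC
    rw [← hιB, coe_iota, Complex.mul_conj, Complex.normSq_eq_norm_sq] at h1
    exact_mod_cast h1
  have hqR : (q : ℝ) ≠ 0 := by exact_mod_cast hq
  have hmC : (A : ℂ) * B' + A' * B = m := by
    have := congrArg (fun z : LF R => (z : ℂ)) hm
    simpa using this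
  have hnC : (A : ℂ) * B + A' * B' = n := by
    have := congrArg (fun z : LF R => (z : ℂ)) hn
    simpa using this
  rcases hcase with ⟨k, hk⟩ | ⟨k, hk⟩
  · left
    have h1 : ((A : ℂ) / B) ^ 12 = 1 := by
      apply pow_twelve (m := k)
      · have h2 : ‖(A : ℂ) / B‖ ^ 2 = 1 ^ 2 := by
          rw [norm_div, div_pow, hnA, hnB, div_self hqR, one_pow]
        exact (pow_left_inj₀ (norm_nonneg _) zero_le_one two_ne_zero).mp h2
      · rw [inv_div]
        rw [hk] at hmC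
        push_cast at hmC
        have h3 : (A : ℂ) / B = A * B' / q := by
          rw [← hBBC]
          have hB'0 : (B' : ℂ) ≠ 0 := right_ne_zero_of_mul (by rw [hBBC]; exact hq')
          field_simp
        have h4 : (B : ℂ) / A = A' * B / q := by
          rw [← hAAC]
          have hA'0 : (A' : ℂ) ≠ 0 := right_ne_zero_of_mul (by rw [hAAC]; exact hq')
          field_simp
        rw [h3, h4, ← add_div, hmC, mul_div_cancel_left₀ _ hq']
    rw [div_pow, div_eq_one_iff_eq (pow_ne_zero _ hB0)] at h1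
    exact h1
  · right
    have h1 : ((A : ℂ) * B / q) ^ 12 = 1 := by
      apply pow_twelve (m := k)
      · have h2 : ‖(A : ℂ) * B / q‖ ^ 2 = 1 ^ 2 := by
          rw [norm_div, norm_mul, div_pow, mul_pow, hnA, hnB, Complex.norm_natCast]
          field_simp
        exact (pow_left_inj₀ (norm_nonneg _) zero_le_one two_ne_zero).mp h2
      · rw [inv_div]
        rw [hk] at hnC
        push_cast at hnC
        have h4 : (q : ℂ) / (A * B) = A' * B' / q := by
          rw [div_eq_div_iff (mul_ne_zero hA0 hB0) hq']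
          calc (q : ℂ) * q = (A * A') * (B * B') := by rw [hAAC, hBBC]
            _ = _ := by ring
        rw [h4, ← add_div, hnC, mul_div_cancel_left₀ _ hq']
    rw [div_pow, div_eq_one_iff_eq (pow_ne_zero _ hq')] at h1
    exact h1

/-- Relations between the numbers `y ^ 2 / q`. -/
theorem prod_hat (hW : ∀ z : ℂ, aeval z R = 0 → ‖z‖ ^ 2 = q) (hq : q ≠ 0)
    {hq' : (q : ℂ) ≠ 0} {h0 : ∀ x : R.rootSet (LF R), ((x : LF R) : ℂ) ≠ 0}
    {a : R.rootSet (LF R) → ℤ} (ha : a ∈ Lam R q hq' h0) :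
    ∏ y : R.rootSet (LF R), (((y : LF R) : ℂ) ^ 2 / (q : ℂ)) ^ a y = 1 := by
  obtain ⟨hanti, M, hM⟩ := ha
  have h1 : ∏ y : R.rootSet (LF R), (((y : LF R) : ℂ) / (q : ℂ)) ^ a y = (q : ℂ) ^ M := by
    rw [← hM, ← Equiv.prod_comp (MulAction.toPerm (iota R))
      (fun y : R.rootSet (LF R) => ((y : LF R) : ℂ) ^ a y)]
    refine Finset.prod_congr rfl fun y _ => ?_
    rw [MulAction.toPerm_apply, hanti, coe_iota' hW hq, zpow_neg, ← inv_zpow, inv_div]
  have h2 : ∏ y : R.rootSet (LF R), (((y : LF R) : ℂ) ^ 2 / (q : ℂ)) ^ a y =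
      (q : ℂ) ^ M * (q : ℂ) ^ M := by
    nth_rewrite 1 [← hM]
    rw [← h1, ← Finset.prod_mul_distrib]
    refine Finset.prod_congr rfl fun y _ => ?_
    rw [← mul_zpow]
    congr 1
    ring
  have hqR : (q : ℝ) ≠ 0 := by exact_mod_cast hq
  have h3 : (q : ℝ) ^ M * (q : ℝ) ^ M = 1 := by
    have h4 := congrArg (fun z : ℂ => ‖z‖) h2
    simp only [norm_prod, norm_zpow, norm_mul, Complex.norm_natCast] at h4
    rw [← h4]
    apply Finset.prod_eq_one
    intro y _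
    have h5 : ‖((y : LF R) : ℂ) ^ 2 / (q : ℂ)‖ = 1 := by
      rw [norm_div, norm_pow, hW _ (aeval_root y), Complex.norm_natCast, div_self hqR]
    rw [h5, one_zpow]
  rw [h2]
  have h6 := congrArg (fun r : ℝ => (r : ℂ)) h3
  push_cast at h6
  exact h6

theorem prod_zpow_sum {ι : Type*} {V : ℂ} (hV : V ≠ 0) (s : Finset ι) (f : ι → ℤ) :
    ∏ i ∈ s, V ^ f i = V ^ ∑ i ∈ s, f i := by
  classical
  induction s using Finset.induction_on with
  | empty => simp
  | insert a s ha ih => rw [Finset.prod_insert ha, Finset.sum_insert ha, ih, zpow_add₀ hV]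

/-- The relation between the weights of the roots with the same stabilizer. -/
theorem sum_weights (hW : ∀ z : ℂ, aeval z R = 0 → ‖z‖ ^ 2 = q) (hq : q ≠ 0)
    {hq' : (q : ℂ) ≠ 0} {h0 : ∀ x : R.rootSet (LF R), ((x : LF R) : ℂ) ≠ 0}
    {r : R.rootSet (LF R) → ℤ} (hr : r ∈ Lam R q hq' h0) (x₀ : R.rootSet (LF R)) {V : ℂ}
    (hV : ∀ j : ℤ, V ^ j = 1 → j = 0) (hV0 : V ≠ 0) (κ : R.rootSet (LF R) → ℤ)
    (hκ : ∀ y : R.rootSet (LF R), (∀ h : LF R ≃ₐ[ℚ] LF R, h • x₀ = x₀ → h • y = y) →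
      (((y : LF R) : ℂ) ^ 2 / (q : ℂ)) ^ 36 = V ^ (12 * κ y))
    (hκ0 : ∀ y : R.rootSet (LF R), ¬ (∀ h : LF R ≃ₐ[ℚ] LF R, h • x₀ = x₀ → h • y = y) → κ y = 0)
    (htwo : ∀ y : R.rootSet (LF R), ∀ h : LF R ≃ₐ[ℚ] LF R, h • y = y ∨ h • y = iota R • y) :
    ∑ y, κ y * r y = 0 := by
  classical
  have := Fintype.ofFinite (LF R ≃ₐ[ℚ] LF R)
  let H : Finset (LF R ≃ₐ[ℚ] LF R) := Finset.univ.filter fun h => h • x₀ = x₀
  have hH : ∀ h, h ∈ H ↔ h • x₀ = x₀ := fun h => by simp [H]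
  have hHne : (H.card : ℤ) ≠ 0 := by
    have : H.Nonempty := ⟨1, (hH 1).mpr (one_smul _ _)⟩
    exact_mod_cast this.card_pos.ne'
  let a : R.rootSet (LF R) → ℤ := ∑ h ∈ H, fun y => r (h • y)
  have haΛ : a ∈ Lam R q hq' h0 := AddSubgroup.sum_mem _ fun h _ => Lam_smul hW hq r hr h
  have haval : ∀ y, a y = ∑ h ∈ H, r (h • y) := fun y => by simp only [a, Finset.sum_apply]
  have ha1 : ∀ y, (∀ h : LF R ≃ₐ[ℚ] LF R, h • x₀ = x₀ → h • y = y) → a y = H.card * r y := by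
    intro y hy
    rw [haval, Finset.sum_congr rfl fun h hh => by rw [hy h ((hH h).mp hh)], Finset.sum_const,
      nsmul_eq_mul]
  have ha0 : ∀ y, ¬ (∀ h : LF R ≃ₐ[ℚ] LF R, h • x₀ = x₀ → h • y = y) → a y = 0 := by
    intro y hy
    push Not at hy
    obtain ⟨k, hk, hky⟩ := hy
    have hky' : k • y = iota R • y := (htwo y k).resolve_left hky
    have h1 : ∑ h ∈ H, r (h • y) = ∑ h ∈ H, r (h • k • y) := by
      refine Finset.sum_bij' (fun h _ => h * k⁻¹) (fun h _ => h * k) ?_ ?_ ?_ ?_ ?_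
      · intro h hh
        rw [hH] at hh ⊢
        rw [mul_smul, inv_smul_eq_iff.mpr hk.symm, hh]
      · intro h hh
        rw [hH] at hh ⊢
        rw [mul_smul, hk, hh]
      · intro h _
        simp
      · intro h _
        simp
      · intro h _
        rw [mul_smul, inv_smul_smul]
    have h2 : ∑ h ∈ H, r (h • k • y) = - ∑ h ∈ H, r (h • y) := by
      rw [← Finset.sum_neg_distrib]
      refine Finset.sum_congr rfl fun h _ => ?_
      rw [hky', smul_iota hW hq, hr.1]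
    rw [haval]
    linarith
  have hprod := prod_hat hW hq haΛ
  have h36 : V ^ (12 * ∑ y, κ y * a y) = 1 := by
    rw [Finset.mul_sum, ← prod_zpow_sum hV0]
    have h1 := congrArg (fun z : ℂ => z ^ 36) hprod
    simp only [one_pow, ← Finset.prod_pow] at h1
    rw [← h1]
    refine Finset.prod_congr rfl fun y _ => ?_
    by_cases hy : ∀ h : LF R ≃ₐ[ℚ] LF R, h • x₀ = x₀ → h • y = y
    · have h7 : ∀ (Y : ℂ) (n : ℤ), (Y ^ n) ^ 36 = (Y ^ 36) ^ n := by
        intro Y n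
        rw [← zpow_natCast, ← zpow_mul, ← zpow_natCast, ← zpow_mul, mul_comm]
      rw [h7, hκ y hy, ← zpow_mul, mul_assoc]
    · rw [ha0 y hy, mul_zero, mul_zero, zpow_zero, zpow_zero, one_pow]
  have h4 := hV _ h36
  have h5 : ∑ y, κ y * a y = H.card * ∑ y, κ y * r y := by
    rw [Finset.mul_sum]
    refine Finset.sum_congr rfl fun y _ => ?_
    by_cases hy : ∀ h : LF R ≃ₐ[ℚ] LF R, h • x₀ = x₀ → h • y = y
    · rw [ha1 y hy]
      ring
    · rw [hκ0 y hy]
      ring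
  rw [h5] at h4
  have h6 : (H.card : ℤ) * ∑ y, κ y * r y = 0 := by omega
  exact (mul_eq_zero.mp h6).resolve_left hHne

end Pool.Agent.Lib.MP_950c68_ag.Orb
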