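import Mathlib
import Pool.Agent.Lib.MP_950c68_ag.OrbPrimeTwo
import Pool.Agent.Lib.MP_950c68_ag.OrbCross

/-!
# Semi-invariance of relations on orbits of sizes two, four and twice an odd prime
-/

namespace Pool.Agent.Lib.MP_950c68_ag.Orb

open MulAction Polynomial

variable {G Ω : Type*} [Group G] [MulAction G Ω]

/-- `r` is mapped to itself or its negative on the orbit of `x` by each element of the group. -/
def SemiInv (G : Type*) {Ω : Type*} [Group G] [MulAction G Ω] (r : Ω → ℤ) (x : Ω) : Prop :=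
  ∀ g : G, (∀ z ∈ orbit G x, r (g • z) = r z) ∨ ∀ z ∈ orbit G x, r (g • z) = - r z

theorem SemiInv.congr {r : Ω → ℤ} {x y : Ω} (h : SemiInv G r x) (hy : y ∈ orbit G x) :
    SemiInv G r y := by
  intro g
  rw [orbit_eq_iff.mpr hy]
  exact h g

theorem SemiInv.sq {r : Ω → ℤ} {x : Ω} (h : SemiInv G r x) (g : G) {z : Ω}
    (hz : z ∈ orbit G x) : r (g • g • z) = r z := by
  have hgz := mem_orbit_smul g hz
  rcases h g with h | h
  · rw [h _ hgz, h _ hz]
  · rw [h _ hgz, h _ hz, neg_neg]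

theorem semiInv_of_zero {r : Ω → ℤ} {x : Ω} (h : ∀ z ∈ orbit G x, r z = 0) : SemiInv G r x := by
  intro g
  left
  intro z hz
  rw [h _ (mem_orbit_smul g hz), h _ hz]

/-- Orbits with two elements. -/
theorem semiInv_of_two {ι : G} (hι : ∀ (g : G) (y : Ω), g • ι • y = ι • g • y)
    {r : Ω → ℤ} (hanti : ∀ y, r (ι • y) = - r y) {x : Ω}
    (hx : ∀ z ∈ orbit G x, z = x ∨ z = ι • x) : SemiInv G r x := by
  intro g
  rcases hx (g • x) (mem_orbit x g) with h | h
  · left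
    intro z hz
    rcases hx z hz with rfl | rfl
    · rw [h]
    · rw [hι, h]
  · right
    intro z hz
    rcases hx z hz with rfl | rfl
    · rw [h, hanti]
    · rw [hι, h, hanti]

/-- Orbits with four elements and an element of order four. -/
def FourType (ι : G) (x : Ω) : Prop :=
  ∃ g : G, g • g • x = ι • x ∧
    ∀ z ∈ orbit G x, z = x ∨ z = ι • x ∨ z = g • x ∨ z = ι • g • x

theorem SemiInv.eq_zero_of_four {ι : G} {r : Ω → ℤ} (hanti : ∀ y, r (ι • y) = - r y) {x : Ω}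
    (h : SemiInv G r x) (hx : FourType ι x) : ∀ z ∈ orbit G x, r z = 0 := by
  obtain ⟨g, hg, _⟩ := hx
  have h1 := h.sq g (mem_orbit_self x)
  rw [hg, hanti] at h1
  have h2 : r x = 0 := by omega
  rintro _ ⟨k, rfl⟩
  rcases h k with h3 | h3
  · exact (h3 x (mem_orbit_self x)).trans h2
  · exact (h3 x (mem_orbit_self x)).trans (by rw [h2, neg_zero])

theorem FourType.sq {ι : G} (hι : ∀ (g : G) (y : Ω), g • ι • y = ι • g • y) {x : Ω} {g : G}
    (hg : g • g • x = ι • x)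
    (h : ∀ z ∈ orbit G x, z = x ∨ z = ι • x ∨ z = g • x ∨ z = ι • g • x) :
    ∀ z ∈ orbit G x, g • g • z = ι • z := by
  intro z hz
  rcases h z hz with rfl | rfl | rfl | rfl
  · exact hg
  · rw [hι, hι, hg]
  · rw [hg, hι]
  · rw [hι, hι, hg, hι]

/-- The relations which are multiples of `r` on the orbits where `r` is semi-invariant. -/
def Sub (Λ : AddSubgroup (Ω → ℤ)) (r : Ω → ℤ) (G : Type*) [Group G] [MulAction G Ω] :
    AddSubgroup (Ω → ℤ) where
  carrier := {s | s ∈ Λ ∧ ∀ y, SemiInv G r y → ∃ k : ℤ, ∀ z ∈ orbit G y, s z = k * r z}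
  zero_mem' := ⟨Λ.zero_mem, fun _ _ => ⟨0, fun _ _ => by simp⟩⟩
  add_mem' := by
    rintro a b ⟨ha, ha'⟩ ⟨hb, hb'⟩
    refine ⟨Λ.add_mem ha hb, fun y hy => ?_⟩
    obtain ⟨k, hk⟩ := ha' y hy
    obtain ⟨m, hm⟩ := hb' y hy
    exact ⟨k + m, fun z hz => by rw [Pi.add_apply, hk z hz, hm z hz]; ring⟩
  neg_mem' := by
    rintro a ⟨ha, ha'⟩
    refine ⟨Λ.neg_mem ha, fun y hy => ?_⟩
    obtain ⟨k, hk⟩ := ha' y hy
    exact ⟨-k, fun z hz => by rw [Pi.neg_apply, hk z hz]; ring⟩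

theorem self_mem_Sub {Λ : AddSubgroup (Ω → ℤ)} {r : Ω → ℤ} (hr : r ∈ Λ) : r ∈ Sub Λ r G :=
  ⟨hr, fun _ _ => ⟨1, fun _ _ => by rw [one_mul]⟩⟩

theorem Sub_smul {Λ : AddSubgroup (Ω → ℤ)}
    (hΛ : ∀ d ∈ Λ, ∀ g : G, (fun y => d (g • y)) ∈ Λ) {r : Ω → ℤ} :
    ∀ d ∈ Sub Λ r G, ∀ g : G, (fun y => d (g • y)) ∈ Sub Λ r G := by
  rintro d ⟨hd, hd'⟩ g
  refine ⟨hΛ d hd g, fun y hy => ?_⟩
  obtain ⟨k, hk⟩ := hd' y hy
  rcases hy g with h | h
  · exact ⟨k, fun z hz => by simp only; rw [hk _ (mem_orbit_smul g hz), h z hz]⟩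
  · exact ⟨-k, fun z hz => by simp only; rw [hk _ (mem_orbit_smul g hz), h z hz]; ring⟩

theorem semiInv_of_mem_Sub {Λ : AddSubgroup (Ω → ℤ)} {r s : Ω → ℤ} (hs : s ∈ Sub Λ r G) {y : Ω}
    (hy : SemiInv G r y) : SemiInv G s y := by
  obtain ⟨k, hk⟩ := hs.2 y hy
  intro g
  rcases hy g with h | h
  · left
    intro z hz
    rw [hk _ (mem_orbit_smul g hz), hk _ hz, h z hz]
  · right
    intro z hz
    rw [hk _ (mem_orbit_smul g hz), hk _ hz, h z hz]
    ring

/-- Telescoping over a cycle. -/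
theorem sum_telescope {x : Ω} {t : G} {l : ℕ} (h1 : ∀ z ∈ orbit G x, t ^ l • z = z)
    (f : Ω → ℤ) {z : Ω} (hz : z ∈ orbit G x) :
    ∑ i ∈ Finset.range l, (f (t • t ^ i • z) - f (t ^ i • z)) = 0 := by
  have h3 : ∀ i, t • t ^ i • z = t ^ (i + 1) • z := fun i => by rw [pow_succ', mul_smul]
  simp only [h3]
  rw [Finset.sum_range_sub (fun i => f (t ^ i • z)), h1 z hz, pow_zero, one_smul, sub_self]

theorem pow_invariant {x : Ω} {t : G} {l : ℕ} (hl : l.Prime) (hl2 : l ≠ 2)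
    (h1 : ∀ z ∈ orbit G x, t ^ l • z = z) {f : Ω → ℤ}
    (hf : ∀ z ∈ orbit G x, f (t • t • z) = f z) : ∀ z ∈ orbit G x, f (t • z) = f z := by
  have h3 : ∀ k : ℕ, ∀ z ∈ orbit G x, f (t ^ (2 * k) • z) = f z := by
    intro k
    induction k with
    | zero => intro z _; simp
    | succ k ih =>
      intro z hz
      rw [mul_add, mul_one, add_comm, pow_add, mul_smul, sq, mul_smul,
        hf _ (mem_orbit_smul _ hz), ih z hz]
  intro z hz
  obtain ⟨k, hk⟩ := hl.odd_of_ne_two hl2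
  have h4 := h3 (k + 1) z hz
  have h5 : t ^ (2 * (k + 1)) • z = t • z := by
    rw [show 2 * (k + 1) = 1 + l by omega, pow_add, mul_smul, h1 z hz, pow_one]
  rwa [h5] at h4

/-- A relation all of whose translates are invariant under the cycle is semi-invariant. -/
theorem semiInv_of_cycle [Finite G] {ι : G}
    (hι : ∀ (g : G) (y : Ω), g • ι • y = ι • g • y)
    (hιι : ∀ y : Ω, ι • ι • y = y) (hιne : ∀ y : Ω, ι • y ≠ y) {x : Ω} {t : G} {l : ℕ}
    (hl : l.Prime) (hl2 : l ≠ 2) (hcard : Nat.card (orbit G x) = 2 * l)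
    (h1 : ∀ z ∈ orbit G x, t ^ l • z = z) (h2 : ∀ z ∈ orbit G x, t • z ≠ z)
    {r : Ω → ℤ} (hanti : ∀ y, r (ι • y) = - r y)
    (hinv : ∀ g : G, ∀ z ∈ orbit G x, r (g • t • z) = r (g • z)) : SemiInv G r x := by
  have h3 : ∀ (g : G) (i : ℕ), r (g • t ^ i • x) = r (g • x) := by
    intro g i
    induction i with
    | zero => simp
    | succ i ih => rw [pow_succ', mul_smul, hinv g _ (mem_orbit x (t ^ i)), ih]
  have h4 : ∀ i : ℕ, r (t ^ i • x) = r x := by
    intro i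
    have := h3 1 i
    rwa [one_smul, one_smul] at this
  intro g
  have h5 : r (g • x) = r x ∨ r (g • x) = - r x := by
    obtain ⟨i, _, h | h⟩ := mem_orbit_cases hι hιι hιne hl hl2 hcard h1 h2 (mem_orbit x g)
    · left; rw [h, h4]
    · right; rw [h, hanti, h4]
  rcases h5 with h5 | h5
  · left
    intro z hz
    obtain ⟨i, _, rfl | rfl⟩ := mem_orbit_cases hι hιι hιne hl hl2 hcard h1 h2 hz
    · rw [h3, h5, h4]
    · rw [hι, hanti, hanti, h3, h5, h4]
  · right
    intro z hz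
    obtain ⟨i, _, rfl | rfl⟩ := mem_orbit_cases hι hιι hιne hl hl2 hcard h1 h2 hz
    · rw [h3, h5, h4]
    · rw [hι, hanti, hanti, h3, h5, h4]

/-- Semi-invariant functions are invariant under the cycle. -/
theorem SemiInv.cycle {x : Ω} {t : G} {l : ℕ} (hl : l.Prime) (hl2 : l ≠ 2)
    (h1 : ∀ z ∈ orbit G x, t ^ l • z = z) {u : Ω → ℤ} (hu : SemiInv G u x) :
    ∀ z ∈ orbit G x, u (t • z) = u z :=
  pow_invariant hl hl2 h1 fun z hz => hu.sq t hz

/-- A permutation moving a function of mean zero by a function invariant under the cycle. -/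
theorem eq_zero_of_norm [Finite Ω] {x : Ω} {t : G} {l : ℕ} (hl : 0 < l)
    (σ : G) {f u : Ω → ℤ} (hσ : ∀ z ∈ orbit G x, f (σ • z) = f z + u z)
    (hu : ∀ z ∈ orbit G x, u (t • z) = u z)
    (hf : ∀ z ∈ orbit G x, ∑ i ∈ Finset.range l, f (t ^ i • z) = 0) :
    ∀ z ∈ orbit G x, u z = 0 := by
  classical
  have := Fintype.ofFinite (orbit G x)
  have hut : ∀ (i : ℕ) (z : orbit G x), u ((t ^ i • z : orbit G x) : Ω) = u z := by
    intro i
    induction i with
    | zero => intro z; rw [pow_zero, one_smul]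
    | succ i ih =>
      intro z
      rw [pow_succ', mul_smul, orbit.coe_smul, hu _ (t ^ i • z).2, ih]
  have hA : ∑ z : orbit G x, f z * u z = 0 := by
    have h3 : ∀ i : ℕ, ∑ z : orbit G x, f ((t ^ i • z : orbit G x) : Ω) * u z =
        ∑ z : orbit G x, f z * u z := by
      intro i
      rw [← Equiv.sum_comp (MulAction.toPerm (t ^ i)) (fun z : orbit G x => f z * u z)]
      refine Finset.sum_congr rfl fun z _ => ?_
      rw [MulAction.toPerm_apply, hut]
    have h4 : ∑ i ∈ Finset.range l, ∑ z : orbit G x, f ((t ^ i • z : orbit G x) : Ω) * u z =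
        l * ∑ z : orbit G x, f z * u z := by
      rw [Finset.sum_congr rfl fun i _ => h3 i, Finset.sum_const, Finset.card_range,
        nsmul_eq_mul]
    rw [Finset.sum_comm] at h4
    have h5 : ∑ z : orbit G x, ∑ i ∈ Finset.range l, f ((t ^ i • z : orbit G x) : Ω) * u z = 0 := by
      apply Finset.sum_eq_zero
      intro z _
      rw [← Finset.sum_mul]
      have := hf z z.2
      simp only [orbit.coe_smul]
      rw [this, zero_mul]
    rw [h5] at h4
    have hl0 : (l : ℤ) ≠ 0 := by exact_mod_cast hl.ne'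
    exact (mul_eq_zero.mp h4.symm).resolve_left hl0
  have hB : ∑ z : orbit G x, (u z) ^ 2 = 0 := by
    have h3 : ∑ z : orbit G x, (f ((σ • z : orbit G x) : Ω)) ^ 2 = ∑ z : orbit G x, (f z) ^ 2 :=
      Equiv.sum_comp (MulAction.toPerm σ) (fun z : orbit G x => (f z) ^ 2)
    have h4 : ∑ z : orbit G x, (f ((σ • z : orbit G x) : Ω)) ^ 2 =
        ∑ z : orbit G x, (f z) ^ 2 + 2 * ∑ z : orbit G x, f z * u z +
          ∑ z : orbit G x, (u z) ^ 2 := by
      rw [Finset.mul_sum, ← Finset.sum_add_distrib, ← Finset.sum_add_distrib]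
      refine Finset.sum_congr rfl fun z _ => ?_
      rw [orbit.coe_smul, hσ z z.2]
      ring
    rw [h3, hA] at h4
    linarith
  intro z hz
  have h3 := (Finset.sum_eq_zero_iff_of_nonneg fun (z : orbit G x) _ => sq_nonneg (u z)).mp hB
    ⟨z, hz⟩ (Finset.mem_univ _)
  simpa using h3

end Pool.Agent.Lib.MP_950c68_ag.Orb
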