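import Mathlib
import Pool.Agent.Lib.MP_950c68_ag.OrbSemi

/-!
# Semi-invariance of relations: the main theorem on groups
-/

namespace Pool.Agent.Lib.MP_950c68_ag.Orb

open MulAction Polynomial

variable {G Ω : Type*} [Group G] [MulAction G Ω]

/-- A nonzero relation with sum zero over the cycle generates one with support in two pairs. -/
theorem exists_two_point [Finite G] {ι : G} {Λ : AddSubgroup (Ω → ℤ)}
    (hΛ : ∀ d ∈ Λ, ∀ g : G, (fun y => d (g • y)) ∈ Λ)
    (hanti : ∀ d ∈ Λ, ∀ y, d (ι • y) = - d y)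
    (hι : ∀ (g : G) (y : Ω), g • ι • y = ι • g • y)
    (hιι : ∀ y : Ω, ι • ι • y = y) (hιne : ∀ y : Ω, ι • y ≠ y) {x : Ω} {t : G} {l : ℕ}
    (hl : l.Prime) (hl2 : l ≠ 2) (hcard : Nat.card (orbit G x) = 2 * l)
    (h1 : ∀ z ∈ orbit G x, t ^ l • z = z) (h2 : ∀ z ∈ orbit G x, t • z ≠ z)
    {d : Ω → ℤ} (hd : d ∈ Λ) (hsupp : ∀ y ∉ orbit G x, d y = 0)
    (hsum : ∑ i ∈ Finset.range l, d (t ^ i • x) = 0) {z₀ : Ω} (hz₀ : d z₀ ≠ 0) :
    ∃ e ∈ Λ, ∃ N : ℤ, N ≠ 0 ∧
      ∀ z, (e z : ℚ) = N * (delta ι x (t⁻¹ • z) - delta ι x z) := by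
  classical
  have hlF : Fact l.Prime := ⟨hl⟩
  set P := cyclePoly t x l d with hP
  set B : (Ω → ℚ) →ₗ[ℚ] (Ω → ℚ) := shiftOp t with hB
  have hPd : aeval B P (delta ι x) = fun z => (d z : ℚ) :=
    aeval_cyclePoly hι hιι hιne hl hl2 hcard h1 h2 (hanti d hd) hsupp
  have hP0 : P ≠ 0 := by
    intro h
    rw [h, map_zero] at hPd
    have h3 := congrFun hPd z₀
    simp only [LinearMap.zero_apply, Pi.zero_apply] at h3
    exact hz₀ (by exact_mod_cast h3.symm)
  have hP1 : P.eval 1 = 0 := by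
    rw [hP, cyclePoly_eval]
    exact_mod_cast hsum
  have hcop : IsCoprime (cyclotomic l ℚ) P := by
    rw [(cyclotomic.irreducible_rat hl.pos).coprime_iff_not_dvd]
    rintro ⟨Q, hQ⟩
    have hQ0 : Q ≠ 0 := by rintro rfl; rw [mul_zero] at hQ; exact hP0 hQ
    have hdeg := congrArg natDegree hQ
    rw [natDegree_mul (cyclotomic_ne_zero l ℚ) hQ0, natDegree_cyclotomic, Nat.totient_prime hl]
      at hdeg
    have hlt := cyclePoly_natDegree t x hl.pos d
    rw [← hP, hdeg] at hlt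
    have hQd : Q.natDegree = 0 := by have := hl.pos; omega
    obtain ⟨c, hc⟩ := natDegree_eq_zero.mp hQd
    rw [hQ, ← hc, eval_mul, eval_C, eval_one_cyclotomic_prime] at hP1
    rcases mul_eq_zero.mp hP1 with h | h
    · exact hl.ne_zero (by exact_mod_cast h)
    · rw [h, map_zero] at hc
      exact hQ0 hc.symm
  obtain ⟨a, b, hab⟩ := hcop
  have hkey : b * (X - 1) * P = (X - 1) - a * (X ^ l - 1) := by
    have h3 := cyclotomic_prime_mul_X_sub_one ℚ l
    rw [← h3]
    linear_combination (X - 1) * hab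
  have hBl : (aeval B) (X ^ l - 1 : ℚ[X]) (delta ι x) = 0 := by
    rw [map_sub, map_pow, aeval_X, map_one, LinearMap.sub_apply, Module.End.one_apply]
    funext z
    rw [Pi.sub_apply, Pi.zero_apply, hB, shiftOp_pow_apply, sub_eq_zero]
    by_cases hz : z ∈ orbit G x
    · have h3 : (t ^ l)⁻¹ • z = z := by rw [inv_smul_eq_iff, h1 z hz]
      rw [h3]
    · rw [delta_ne, delta_ne]
      · rintro rfl; exact hz (mem_orbit_self _)
      · rintro rfl; exact hz (mem_orbit _ _)
      · rw [ne_eq, inv_smul_eq_iff]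
        rintro rfl
        exact hz (mem_orbit _ _)
      · rw [ne_eq, inv_smul_eq_iff, ← mul_smul]
        rintro rfl
        exact hz (mem_orbit _ _)
  have hdQ : (fun z => (d z : ℚ)) ∈ spanQ (G := G) Λ x :=
    ⟨1, one_ne_zero, d, hd, hsupp, fun z => by simp⟩
  have hmem : B (delta ι x) - delta ι x ∈ spanQ (G := G) Λ x := by
    have h3 := aeval_mem_spanQ hΛ x t (b * (X - 1)) _ hdQ
    rw [← hB, ← hPd, ← Module.End.mul_apply, ← map_mul, hkey, map_sub, map_mul,
      LinearMap.sub_apply, Module.End.mul_apply, hBl, map_zero, sub_zero, map_sub, aeval_X,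
      map_one, LinearMap.sub_apply, Module.End.one_apply] at h3
    exact h3
  obtain ⟨N, hN, e, he, _, hef⟩ := hmem
  exact ⟨e, he, N, hN, hef⟩

/-- The restrictions of relations to an orbit. -/
def Res (M : AddSubgroup (Ω → ℤ)) (x : Ω) (G : Type*) [Group G] [MulAction G Ω] :
    AddSubgroup (Ω → ℤ) where
  carrier := {e | (∀ y ∉ orbit G x, e y = 0) ∧ ∃ r ∈ M, ∀ z ∈ orbit G x, e z = r z}
  zero_mem' := ⟨fun _ _ => rfl, 0, M.zero_mem, fun _ _ => rfl⟩
  add_mem' := by
    rintro a b ⟨ha, r, hr, har⟩ ⟨hb, s, hs, hbs⟩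
    exact ⟨fun y hy => by rw [Pi.add_apply, ha y hy, hb y hy, add_zero], r + s, M.add_mem hr hs,
      fun z hz => by rw [Pi.add_apply, Pi.add_apply, har z hz, hbs z hz]⟩
  neg_mem' := by
    rintro a ⟨ha, r, hr, har⟩
    exact ⟨fun y hy => by rw [Pi.neg_apply, ha y hy, neg_zero], -r, M.neg_mem hr,
      fun z hz => by rw [Pi.neg_apply, Pi.neg_apply, har z hz]⟩

/-- Elements of a normal set moving each relation by a semi-invariant one act trivially:
orbits with `2 l` elements. -/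
theorem trivial_of_odd [Finite G] [Finite Ω] {ι : G} {Λ : AddSubgroup (Ω → ℤ)}
    (hΛ : ∀ d ∈ Λ, ∀ g : G, (fun y => d (g • y)) ∈ Λ)
    (hanti : ∀ d ∈ Λ, ∀ y, d (ι • y) = - d y)
    (hι : ∀ (g : G) (y : Ω), g • ι • y = ι • g • y)
    (hιι : ∀ y : Ω, ι • ι • y = y) (hιne : ∀ y : Ω, ι • y ≠ y) {x : Ω} {l : ℕ}
    (hl : l.Prime) (hl2 : l ≠ 2) (hcard : Nat.card (orbit G x) = 2 * l)
    {r : Ω → ℤ} (hr : r ∈ Λ) (hbad : ¬ SemiInv G r x) {N : Set G}
    (hN : ∀ σ ∈ N, ∀ s ∈ Sub Λ r G, SemiInv G (fun z => s (σ • z) - s z) x) :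
    ∀ σ ∈ N, σ • x = x := by
  classical
  obtain ⟨t, h1, h2⟩ := exists_cycle hι hιι hιne x l hl hl2 hcard
  have hx := mem_orbit_self (M := G) x
  have hl3 : 3 ≤ l := by
    have := hl.two_le
    omega
  -- a relation with sum zero
  obtain ⟨g, z₀, hz₀, hgz⟩ : ∃ g : G, ∃ z ∈ orbit G x, r (g • t • z) ≠ r (g • z) := by
    by_contra hcon
    push Not at hcon
    exact hbad (semiInv_of_cycle hι hιι hιne hl hl2 hcard h1 h2 (hanti r hr) hcon)
  have hSG := Sub_smul (G := G) hΛ (r := r)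
  have hrS : r ∈ Sub Λ r G := self_mem_Sub hr
  have hgS : (fun z => r (g • z)) ∈ Sub Λ r G := hSG r hrS g
  have hfS : (fun z => r (g • t • z) - r (g • z)) ∈ Sub Λ r G :=
    (Sub Λ r G).sub_mem (hSG _ hgS t) hgS
  let d : Ω → ℤ := fun z => if z ∈ orbit G x then r (g • t • z) - r (g • z) else 0
  have hdR : d ∈ Res (Sub Λ r G) x G :=
    ⟨fun y hy => if_neg hy, _, hfS, fun z hz => if_pos hz⟩
  have hRanti : ∀ e ∈ Res (Sub Λ r G) x G, ∀ y, e (ι • y) = - e y := by
    rintro e ⟨he, s, hs, hes⟩ y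
    by_cases hy : y ∈ orbit G x
    · rw [hes _ (mem_orbit_smul ι hy), hes _ hy, hanti s hs.1]
    · rw [he _ (notMem_orbit_smul ι hy), he _ hy, neg_zero]
  have hRG : ∀ e ∈ Res (Sub Λ r G) x G, ∀ g : G, (fun y => e (g • y)) ∈ Res (Sub Λ r G) x G := by
    rintro e ⟨he, s, hs, hes⟩ k
    exact ⟨fun y hy => he _ (notMem_orbit_smul k hy), _, hSG s hs k,
      fun z hz => hes _ (mem_orbit_smul k hz)⟩
  obtain ⟨e, ⟨_, w, hw, hew⟩, m, hm, hval⟩ := exists_two_point hRG hRanti hι hιι hιne hl hl2 hcard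
    h1 h2 hdR (fun y hy => if_neg hy) (by
      have h3 := sum_telescope h1 (fun z => r (g • z)) hx
      rw [← h3]
      refine Finset.sum_congr rfl fun i _ => ?_
      exact if_pos (mem_orbit x (t ^ i))) (z₀ := z₀) (by
      have h3 : d z₀ = r (g • t • z₀) - r (g • z₀) := if_pos hz₀
      rw [h3]
      exact sub_ne_zero.mpr hgz)
  have hwval : ∀ z ∈ orbit G x, (w z : ℚ) = m * (delta ι x (t⁻¹ • z) - delta ι x z) := by
    intro z hz
    rw [← hew z hz, hval]
  -- relations with sum zero are invariant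
  have hkey : ∀ σ ∈ N, ∀ f ∈ Sub Λ r G,
      (∀ z ∈ orbit G x, ∑ i ∈ Finset.range l, f (t ^ i • z) = 0) →
      ∀ z ∈ orbit G x, f (σ • z) = f z := by
    intro σ hσ f hf hsum z hz
    have h3 := eq_zero_of_norm hl.pos σ (f := f) (u := fun z => f (σ • z) - f z)
      (fun z _ => by ring) ((hN σ hσ f hf).cycle hl hl2 h1) hsum z hz
    linarith
  have hinv : ∀ z ∈ orbit G x, t⁻¹ • z ∈ orbit G x := fun z hz => mem_orbit_smul _ hz
  have hwsum : ∀ z ∈ orbit G x, ∑ i ∈ Finset.range l, w (t ^ i • z) = 0 := by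
    intro z hz
    have h3 : ∀ i : ℕ, (w (t ^ i • z) : ℚ) =
        - (m * delta ι x (t ^ (i + 1) • t⁻¹ • z) - m * delta ι x (t ^ i • t⁻¹ • z)) := by
      intro i
      rw [hwval _ (mem_orbit_smul _ hz)]
      have h4 : t⁻¹ • t ^ i • z = t ^ i • t⁻¹ • z := by
        rw [← mul_smul, ← mul_smul]
        congr 1
        exact ((Commute.refl t).inv_left.pow_right i).eq
      have h5 : t ^ (i + 1) • t⁻¹ • z = t ^ i • z := by
        rw [← mul_smul, pow_succ, mul_inv_cancel_right]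
      rw [h4, h5]
      ring
    have h6 : ((∑ i ∈ Finset.range l, w (t ^ i • z) : ℤ) : ℚ) = 0 := by
      push_cast
      rw [Finset.sum_congr rfl fun i _ => h3 i, Finset.sum_neg_distrib,
        Finset.sum_range_sub (fun i => (m : ℚ) * delta ι x (t ^ i • t⁻¹ • z)),
        h1 _ (hinv z hz), pow_zero, one_smul, sub_self, neg_zero]
    exact_mod_cast h6
  have hw'S : (fun z => w (t⁻¹ • z)) ∈ Sub Λ r G := hSG w hw t⁻¹
  have hw'sum : ∀ z ∈ orbit G x, ∑ i ∈ Finset.range l, w (t⁻¹ • t ^ i • z) = 0 := by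
    intro z hz
    rw [← hwsum _ (hinv z hz)]
    refine Finset.sum_congr rfl fun i _ => ?_
    congr 1
    rw [← mul_smul, ← mul_smul]
    congr 1
    exact ((Commute.refl t).inv_left.pow_right i).eq
  -- values of the delta function
  have hm' : (m : ℚ) ≠ 0 := by exact_mod_cast hm
  have hdeltax : ∀ k : ℕ, 0 < k → k < l → delta ι x ((t ^ k)⁻¹ • x) = 0 := by
    intro k hk0 hkl
    apply delta_ne
    · rw [ne_eq, inv_smul_eq_iff]
      intro h
      have h3 := pow_smul_inj hl h1 h2 (i := 0) (j := k) hl.pos hkl (by rw [pow_zero, one_smul, ← h])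
      omega
    · rw [ne_eq, inv_smul_eq_iff]
      intro h
      rw [hι] at h
      exact iota_pow_ne_pow hι hιι hιne hl hl2 h1 h2 (i := 0) (j := k) hkl
        (by rw [pow_zero, one_smul, ← h])
  have hd1 := hdeltax 1 one_pos (by omega)
  have hd2 := hdeltax 2 two_pos (by omega)
  rw [pow_one] at hd1
  have h22 : ∀ z : Ω, t⁻¹ • t⁻¹ • z = (t ^ 2)⁻¹ • z := by
    intro z
    rw [← mul_smul, sq, mul_inv_rev]
  intro σ hσ
  have hσx : σ • x ∈ orbit G x := mem_orbit x σ
  have ha := hkey σ hσ w hw hwsum x hx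
  have hb := hkey σ hσ _ hw'S hw'sum x hx
  have ha' : delta ι x (t⁻¹ • σ • x) - delta ι x (σ • x) =
      delta ι x (t⁻¹ • x) - delta ι x x := by
    apply mul_left_cancel₀ hm'
    rw [← hwval _ hσx, ← hwval _ hx]
    exact_mod_cast ha
  have hb' : delta ι x (t⁻¹ • t⁻¹ • σ • x) - delta ι x (t⁻¹ • σ • x) =
      delta ι x (t⁻¹ • t⁻¹ • x) - delta ι x (t⁻¹ • x) := by
    apply mul_left_cancel₀ hm'
    rw [← hwval _ (hinv _ hσx), ← hwval _ (hinv _ hx)]
    exact_mod_cast hb
  rw [hd1, delta_self] at ha'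
  rw [h22 x, hd2, hd1] at hb'
  -- the support of the delta function
  have hmemδ : ∀ z, delta ι x z ≠ 0 → z = x ∨ z = ι • x := by
    intro z hz
    by_contra hcon
    push Not at hcon
    exact hz (delta_ne ι x z hcon.1 hcon.2)
  have hzero : delta ι x (t⁻¹ • σ • x) = 0 := by
    by_contra hne
    have hne2 : delta ι x (t⁻¹ • t⁻¹ • σ • x) ≠ 0 := by
      intro h
      apply hne
      linarith
    have h3 := hmemδ _ hne
    have h4 := hmemδ _ hne2
    set y := t⁻¹ • t⁻¹ • σ • x with hy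
    have h5 : t⁻¹ • σ • x = t • y := by rw [hy, smul_inv_smul]
    rw [h5] at h3
    have htx : t • x ≠ x := h2 x hx
    have htιx : ι • x ≠ t • x := by
      have := iota_ne_pow hι hιι hιne hl hl2 h1 h2 hx 1
      rwa [pow_one] at this
    rcases h4 with h4 | h4 <;> rcases h3 with h3 | h3 <;> rw [h4] at h3
    · exact htx h3
    · exact htιx h3.symm
    · rw [hι] at h3
      have h6 : ι • ι • t • x = ι • x := congrArg (fun w => ι • w) h3
      rw [hιι] at h6
      exact htιx h6.symm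
    · rw [hι] at h3
      exact htx (smul_left_cancel ι h3)
  have hone : delta ι x (σ • x) = 1 := by
    rw [hzero] at ha'
    linarith
  rcases hmemδ _ (by rw [hone]; exact one_ne_zero) with h3 | h3
  · exact h3
  · rw [h3, delta_iota ι x (hιne x)] at hone
    norm_num at hone

/-- The same for orbits with four elements. -/
theorem trivial_of_four {ι : G} {Λ : AddSubgroup (Ω → ℤ)}
    (hΛ : ∀ d ∈ Λ, ∀ g : G, (fun y => d (g • y)) ∈ Λ)
    (hanti : ∀ d ∈ Λ, ∀ y, d (ι • y) = - d y) {x : Ω} (hx4 : FourType ι x)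
    {r : Ω → ℤ} (hr : r ∈ Λ) (hbad : ¬ SemiInv G r x) {N : Set G}
    (hN : ∀ σ ∈ N, ∀ s ∈ Sub Λ r G, SemiInv G (fun z => s (σ • z) - s z) x) :
    ∀ σ ∈ N, σ • x = x := by
  have hx4' := hx4
  obtain ⟨g, hg, hO⟩ := hx4
  have hSG := Sub_smul (G := G) hΛ (r := r)
  have hrS : r ∈ Sub Λ r G := self_mem_Sub hr
  let e : Ω → ℤ := r x • r + r (g • x) • fun z => r (g • z)
  have heS : e ∈ Sub Λ r G :=
    (Sub Λ r G).add_mem ((Sub Λ r G).zsmul_mem hrS _) ((Sub Λ r G).zsmul_mem (hSG r hrS g) _)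
  have he : ∀ z, e z = r x * r z + r (g • x) * r (g • z) := fun z => rfl
  have hex : e x = r x ^ 2 + r (g • x) ^ 2 := by rw [he]; ring
  have hegx : e (g • x) = 0 := by rw [he, hg, hanti r hr]; ring
  have hne : e x ≠ 0 := by
    intro h
    rw [hex] at h
    have h3 : r x = 0 := by nlinarith [sq_nonneg (r x), sq_nonneg (r (g • x))]
    have h4 : r (g • x) = 0 := by nlinarith [sq_nonneg (r x), sq_nonneg (r (g • x))]
    apply hbad
    apply semiInv_of_zero
    intro z hz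
    rcases hO z hz with rfl | rfl | rfl | rfl
    · exact h3
    · rw [hanti r hr, h3, neg_zero]
    · exact h4
    · rw [hanti r hr, h4, neg_zero]
  intro σ hσ
  have h3 := (hN σ hσ e heS).eq_zero_of_four (ι := ι) (by
    intro y
    have hσe : (fun z => e (σ • z) - e z) ∈ Λ := Λ.sub_mem (hΛ e heS.1 σ) heS.1
    exact hanti _ hσe y) hx4' x (mem_orbit_self x)
  have h4 : e (σ • x) = e x := by
    have h3' : e (σ • x) - e x = 0 := h3
    omega
  have heΛ := heS.1
  rcases hO (σ • x) (mem_orbit x σ) with h5 | h5 | h5 | h5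
  · exact h5
  · rw [h5, hanti e heΛ] at h4
    omega
  · rw [h5, hegx] at h4
    exact absurd h4.symm hne
  · rw [h5, hanti e heΛ, hegx] at h4
    exact absurd h4.symm (by simpa using hne)

/-- One orbit where the relation is not semi-invariant: four elements. -/
theorem semiInv_single_four {ι : G} {Λ : AddSubgroup (Ω → ℤ)}
    (hΛ : ∀ d ∈ Λ, ∀ g : G, (fun y => d (g • y)) ∈ Λ)
    (hanti : ∀ d ∈ Λ, ∀ y, d (ι • y) = - d y)
    (hι : ∀ (g : G) (y : Ω), g • ι • y = ι • g • y)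
    {x : Ω} (hx4 : FourType ι x)
    (hpair : ∀ d ∈ Λ, (∀ y, y ≠ x → y ≠ ι • x → d y = 0) → d x = 0)
    {r : Ω → ℤ} (hr : r ∈ Λ) (hother : ∀ y ∉ orbit G x, SemiInv G r y) : SemiInv G r x := by
  obtain ⟨g, hg, hO⟩ := hx4
  have hsq := FourType.sq hι hg hO
  let s : Ω → ℤ := fun z => r (g • g • z) - r z
  have hs : s ∈ Λ := Λ.sub_mem (hΛ _ (hΛ r hr g) g) hr
  have hs0 : ∀ y ∉ orbit G x, s y = 0 := by
    intro y hy
    have := (hother y hy).sq g (mem_orbit_self y)
    simp only [s]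
    omega
  have hs1 : ∀ z ∈ orbit G x, s z = -2 * r z := by
    intro z hz
    simp only [s]
    rw [hsq z hz, hanti r hr]
    ring
  let e : Ω → ℤ := s x • s + s (g • x) • fun z => s (g • z)
  have heΛ : e ∈ Λ := Λ.add_mem (Λ.zsmul_mem hs _) (Λ.zsmul_mem (hΛ s hs g) _)
  have he : ∀ z, e z = s x * s z + s (g • x) * s (g • z) := fun z => rfl
  have hegx : e (g • x) = 0 := by rw [he, hg, hanti s hs]; ring
  have hsupp : ∀ y, y ≠ x → y ≠ ι • x → e y = 0 := by
    intro y hy1 hy2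
    by_cases hy : y ∈ orbit G x
    · rcases hO y hy with h | h | h | h
      · exact absurd h hy1
      · exact absurd h hy2
      · rw [h, hegx]
      · rw [h, hanti e heΛ, hegx, neg_zero]
    · rw [he, hs0 y hy, hs0 _ (notMem_orbit_smul g hy)]
      ring
  have hex := hpair e heΛ hsupp
  rw [he] at hex
  have h3 : s x = 0 := by nlinarith [sq_nonneg (s x), sq_nonneg (s (g • x))]
  have h4 : s (g • x) = 0 := by nlinarith [sq_nonneg (s x), sq_nonneg (s (g • x))]
  have hx := mem_orbit_self (M := G) x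
  rw [hs1 x hx] at h3
  rw [hs1 _ (mem_orbit x g)] at h4
  apply semiInv_of_zero
  intro z hz
  rcases hO z hz with rfl | rfl | rfl | rfl
  · omega
  · rw [hanti r hr]; omega
  · omega
  · rw [hanti r hr]; omega

/-- One orbit where the relation is not semi-invariant: `2 l` elements. -/
theorem semiInv_single_odd [Finite G] {ι : G} {Λ : AddSubgroup (Ω → ℤ)}
    (hΛ : ∀ d ∈ Λ, ∀ g : G, (fun y => d (g • y)) ∈ Λ)
    (hanti : ∀ d ∈ Λ, ∀ y, d (ι • y) = - d y)
    (hι : ∀ (g : G) (y : Ω), g • ι • y = ι • g • y)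
    (hιι : ∀ y : Ω, ι • ι • y = y) (hιne : ∀ y : Ω, ι • y ≠ y) {x : Ω} {l : ℕ}
    (hl : l.Prime) (hl2 : l ≠ 2) (hcard : Nat.card (orbit G x) = 2 * l)
    (hstab : ∀ d ∈ Λ, ∀ y ∈ orbit G x, y ≠ x → y ≠ ι • x →
      (∀ z, z ≠ x → z ≠ ι • x → z ≠ y → z ≠ ι • y → d z = 0) → d y = - d x → d x = 0)
    {r : Ω → ℤ} (hr : r ∈ Λ) (hother : ∀ y ∉ orbit G x, SemiInv G r y) : SemiInv G r x := by
  obtain ⟨t, h1, h2⟩ := exists_cycle hι hιι hιne x l hl hl2 hcard
  refine semiInv_of_cycle hι hιι hιne hl hl2 hcard h1 h2 (hanti r hr) ?_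
  intro g
  let s : Ω → ℤ := fun z => r (g • z)
  have hs : s ∈ Λ := hΛ r hr g
  let v : Ω → ℤ := fun z => s (t • t • z) - s z
  have hv : v ∈ Λ := Λ.sub_mem (hΛ _ (hΛ s hs t) t) hs
  have hv0 : ∀ y ∉ orbit G x, v y = 0 := by
    intro y hy
    have h3 := (hother y hy).sq (g * t * g⁻¹) (mem_orbit y g)
    have h4 : (g * t * g⁻¹) • (g * t * g⁻¹) • g • y = g • t • t • y := by
      simp only [← mul_smul]
      congr 1
      group
    rw [h4] at h3
    simp only [v, s]
    omega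
  have hvsum : ∑ i ∈ Finset.range l, v (t ^ i • x) = 0 := by
    have h3 := sum_telescope h1 (fun z => s (t • z)) (mem_orbit_self x)
    have h4 := sum_telescope h1 s (mem_orbit_self x)
    have h5 := congrArg₂ (· + ·) h3 h4
    simp only [add_zero] at h5
    rw [← Finset.sum_add_distrib] at h5
    rw [← h5]
    refine Finset.sum_congr rfl fun i _ => ?_
    simp only [v]
    ring
  have hvz := eq_zero_of_sum_zero hΛ hanti hι hιι hιne hl hl2 hcard h1 h2 hstab hv hv0 hvsum
  apply pow_invariant hl hl2 h1 (f := s)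
  intro z _
  have := hvz z
  simp only [v] at this
  omega

/-- Orbits with twice an odd prime number of elements without relations between two pairs. -/
def OddType (Λ : AddSubgroup (Ω → ℤ)) (G : Type*) [Group G] [MulAction G Ω] (ι : G) (x : Ω) :
    Prop :=
  ∃ l : ℕ, l.Prime ∧ l ≠ 2 ∧ Nat.card (orbit G x) = 2 * l ∧
    ∀ d ∈ Λ, ∀ y ∈ orbit G x, y ≠ x → y ≠ ι • x →
      (∀ z, z ≠ x → z ≠ ι • x → z ≠ y → z ≠ ι • y → d z = 0) → d y = - d x → d x = 0

/-- All relations are semi-invariant, if different orbits with more than two elements have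
different kernels. -/
theorem semiInv_all [Finite G] [Finite Ω] {ι : G} {Λ : AddSubgroup (Ω → ℤ)}
    (hΛ : ∀ d ∈ Λ, ∀ g : G, (fun y => d (g • y)) ∈ Λ)
    (hanti : ∀ d ∈ Λ, ∀ y, d (ι • y) = - d y)
    (hι : ∀ (g : G) (y : Ω), g • ι • y = ι • g • y)
    (hιι : ∀ y : Ω, ι • ι • y = y) (hιne : ∀ y : Ω, ι • y ≠ y)
    (hpair : ∀ x, ∀ d ∈ Λ, (∀ y, y ≠ x → y ≠ ι • x → d y = 0) → d x = 0)
    (htype : ∀ x : Ω, (∀ z ∈ orbit G x, z = x ∨ z = ι • x) ∨ FourType ι x ∨ OddType Λ G ι x)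
    (hker : ∀ x y : Ω, y ∉ orbit G x → ¬ (∀ z ∈ orbit G x, z = x ∨ z = ι • x) →
      ¬ (∀ z ∈ orbit G y, z = y ∨ z = ι • y) →
      ¬ ∀ σ : G, (∀ z ∈ orbit G x, σ • z = z) ↔ ∀ z ∈ orbit G y, σ • z = z) :
    ∀ r ∈ Λ, ∀ x, SemiInv G r x := by
  classical
  have := Fintype.ofFinite Ω
  let bad : (Ω → ℤ) → Finset Ω := fun r => Finset.univ.filter fun z => ¬ SemiInv G r z
  have hbad : ∀ r z, z ∈ bad r ↔ ¬ SemiInv G r z := fun r z => by simp [bad]
  suffices H : ∀ n : ℕ, ∀ r ∈ Λ, (bad r).card ≤ n → ∀ x, SemiInv G r x from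
    fun r hr => H _ r hr le_rfl
  intro n
  induction n with
  | zero =>
    intro r _ hcnt x
    by_contra hx
    have h1 := Finset.card_pos.mpr ⟨x, (hbad r x).mpr hx⟩
    omega
  | succ n ih =>
    intro r hr hcnt x
    by_contra hx
    -- the types
    have htwo : ∀ y, ¬ SemiInv G r y → ¬ (∀ z ∈ orbit G y, z = y ∨ z = ι • y) :=
      fun y hy h => hy (semiInv_of_two hι (hanti r hr) h)
    by_cases hone : ∀ y ∉ orbit G x, SemiInv G r y
    · rcases htype x with h | h | ⟨l, hl, hl2, hcard, hstab⟩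
      · exact htwo x hx h
      · exact hx (semiInv_single_four hΛ hanti hι h (hpair x) hr hone)
      · exact hx (semiInv_single_odd hΛ hanti hι hιι hιne hl hl2 hcard hstab hr hone)
    · push Not at hone
      obtain ⟨y, hy, hry⟩ := hone
      -- the kernel of one orbit acts trivially on the other
      have key : ∀ a b : Ω, ¬ SemiInv G r a → ¬ SemiInv G r b →
          ∀ σ : G, (∀ z ∈ orbit G b, σ • z = z) → ∀ z ∈ orbit G a, σ • z = z := by
        intro a b ha hb
        let N : Set G := {σ | ∀ z ∈ orbit G b, σ • z = z}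
        have hN : ∀ σ ∈ N, ∀ s ∈ Sub Λ r G, SemiInv G (fun z => s (σ • z) - s z) a := by
          intro σ hσ s hs
          have hs' : (fun z => s (σ • z) - s z) ∈ Sub Λ r G :=
            (Sub Λ r G).sub_mem (Sub_smul hΛ s hs σ) hs
          apply ih _ hs'.1
          have h1 : bad (fun z => s (σ • z) - s z) ⊂ bad r := by
            rw [Finset.ssubset_iff_of_subset]
            · refine ⟨b, (hbad r b).mpr hb, ?_⟩
              rw [hbad, not_not]
              apply semiInv_of_zero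
              intro z hz
              rw [hσ z hz, sub_self]
            · intro z hz
              rw [hbad] at hz ⊢
              exact fun h => hz (semiInv_of_mem_Sub hs' h)
          have h2 := Finset.card_lt_card h1
          omega
        have hfix : ∀ σ ∈ N, σ • a = a := by
          rcases htype a with h | h | ⟨l, hl, hl2, hcard, _⟩
          · exact absurd h (htwo a ha)
          · exact trivial_of_four hΛ hanti h hr ha hN
          · exact trivial_of_odd hΛ hanti hι hιι hιne hl hl2 hcard hr ha hN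
        rintro σ hσ _ ⟨k, rfl⟩
        have h3 : k⁻¹ * σ * k ∈ N := by
          intro z hz
          rw [mul_smul, mul_smul, hσ _ (mem_orbit_smul k hz), inv_smul_smul]
        have h4 := hfix _ h3
        rw [mul_smul, mul_smul, inv_smul_eq_iff] at h4
        exact h4
      exact hker x y hy (htwo x hx) (htwo y hry) fun σ => ⟨key y x hry hx σ, key x y hx hry σ⟩

end Pool.Agent.Lib.MP_950c68_ag.Orb
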