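import Mathlib
import Pool.Agent.Lib.MP_950c68_ag.OrbFinal
import Pool.Agent.Lib.MP_950c68_ag.OrbHT
import Pool.Agent.Lib.MP_950c68_ag.OrbSemiTwo

/-!
# Types of orbits of Weil numbers
-/

namespace Pool.Agent.Lib.MP_950c68_ag.Orb

open Polynomial MulAction
open scoped IntermediateField

/-- Orbits with four elements. -/
theorem four_cases {G Ω : Type*} [Group G] [MulAction G Ω] [Finite G] {ι : G}
    (hι : ∀ (g : G) (y : Ω), g • ι • y = ι • g • y)
    (hιι : ∀ y : Ω, ι • ι • y = y) (hιne : ∀ y : Ω, ι • y ≠ y) (x : Ω)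
    (hcard : Nat.card (orbit G x) = 4) :
    FourType ι x ∨ ∃ y ∈ orbit G x, y ≠ x ∧ y ≠ ι • x ∧
      (∀ z ∈ orbit G x, z = x ∨ z = ι • x ∨ z = y ∨ z = ι • y) ∧
      ∀ g : G, (g • x = x ∧ g • y = y) ∨ (g • x = y ∧ g • y = x) ∨
        (g • x = ι • x ∧ g • y = ι • y) ∨ (g • x = ι • y ∧ g • y = ι • x) := by
  classical
  have hfin : (orbit G x).Finite := Set.finite_range _
  have hx := mem_orbit_self (M := G) x
  have hcard' : hfin.toFinset.card = 4 := by
    rw [← Set.ncard_eq_toFinset_card _ hfin, ← Nat.card_coe_set_eq, hcard]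
  -- another element
  obtain ⟨y, hy, hyx, hyιx⟩ : ∃ y ∈ orbit G x, y ≠ x ∧ y ≠ ι • x := by
    by_contra hcon
    push Not at hcon
    have h1 : hfin.toFinset ⊆ {x, ι • x} := by
      intro z hz
      rw [Set.Finite.mem_toFinset] at hz
      rw [Finset.mem_insert, Finset.mem_singleton]
      by_cases h : z = x
      · left; exact h
      · right; exact hcon z hz h
    have h2 := (Finset.card_le_card h1).trans Finset.card_le_two
    omega
  have hιyx : ι • y ≠ x := by
    intro h
    apply hyιx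
    rw [← h, hιι]
  have hιyιx : ι • y ≠ ι • x := fun h => hyx (smul_left_cancel _ h)
  have hall : ∀ z ∈ orbit G x, z = x ∨ z = ι • x ∨ z = y ∨ z = ι • y := by
    have h1 : ({x, ι • x, y, ι • y} : Finset Ω) = hfin.toFinset := by
      apply Finset.eq_of_subset_of_card_le
      · intro z hz
        rw [Set.Finite.mem_toFinset]
        simp only [Finset.mem_insert, Finset.mem_singleton] at hz
        rcases hz with rfl | rfl | rfl | rfl
        · exact hx
        · exact mem_orbit_smul ι hx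
        · exact hy
        · exact mem_orbit_smul ι hy
      · rw [hcard', Finset.card_insert_of_notMem, Finset.card_insert_of_notMem,
          Finset.card_insert_of_notMem, Finset.card_singleton]
        · rw [Finset.mem_singleton]
          exact (hιne y).symm
        · simp only [Finset.mem_insert, Finset.mem_singleton, not_or]
          exact ⟨fun h => hyιx h.symm, fun h => hιyιx h.symm⟩
        · simp only [Finset.mem_insert, Finset.mem_singleton, not_or]
          exact ⟨(hιne x).symm, fun h => hyx h.symm, fun h => hιyx h.symm⟩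
    intro z hz
    have h2 : z ∈ hfin.toFinset := by rwa [Set.Finite.mem_toFinset]
    rw [← h1] at h2
    simpa only [Finset.mem_insert, Finset.mem_singleton] using h2
  by_cases h4 : ∃ g : G, g • g • x = ι • x
  · left
    obtain ⟨g, hg⟩ := h4
    refine ⟨g, hg, ?_⟩
    have hgx : g • x = y ∨ g • x = ι • y := by
      rcases hall (g • x) (mem_orbit x g) with h | h | h | h
      · rw [h, h] at hg
        exact absurd hg.symm (hιne x)
      · rw [h, hι, h, hιι] at hg
        exact absurd hg.symm (hιne x)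
      · left; exact h
      · right; exact h
    intro z hz
    rcases hgx with h | h
    · rw [h]
      exact hall z hz
    · rw [h, hιι]
      rcases hall z hz with h1 | h1 | h1 | h1
      · exact Or.inl h1
      · exact Or.inr (Or.inl h1)
      · exact Or.inr (Or.inr (Or.inr h1))
      · exact Or.inr (Or.inr (Or.inl h1))
  · right
    push Not at h4
    refine ⟨y, hy, hyx, hyιx, hall, ?_⟩
    have hgy : ∀ g : G, g • y ∈ orbit G x := fun g => mem_orbit_smul g hy
    have case1 : ∀ g : G, g • x = y → g • y = x := by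
      intro g hg
      rcases hall (g • y) (hgy g) with h | h | h | h
      · exact h
      · exfalso
        apply h4 g
        rw [hg, h]
      · exfalso
        apply hyx
        apply smul_left_cancel g
        rw [hg, h]
      · exfalso
        apply hyιx
        apply smul_left_cancel g
        rw [hι, hg, h]
    have case2 : ∀ g : G, g • x = ι • y → g • y = ι • x := by
      intro g hg
      have h1 : (ι * g) • x = y := by rw [mul_smul, hg, hιι]
      have h2 := case1 _ h1
      rw [mul_smul] at h2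
      rw [← h2, hιι]
    obtain ⟨σ, hσ⟩ := hy
    have hσ' : σ • x = y := hσ
    have case3 : ∀ g : G, g • x = x → g • y = y := by
      intro g hg
      rcases hall (g • y) (hgy g) with h | h | h | h
      · exfalso
        apply hyx
        apply smul_left_cancel g
        rw [h, hg]
      · exfalso
        apply hyιx
        apply smul_left_cancel g
        rw [h, hι, hg]
      · exact h
      · exfalso
        have h1 : (g * σ) • x = ι • y := by rw [mul_smul, hσ', h]
        have h2 := case2 _ h1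
        rw [mul_smul, case1 σ hσ', hg] at h2
        exact hιne x h2.symm
    have case4 : ∀ g : G, g • x = ι • x → g • y = ι • y := by
      intro g hg
      have h1 : (ι * g) • x = x := by rw [mul_smul, hg, hιι]
      have h2 := case3 _ h1
      rw [mul_smul] at h2
      rw [← h2, hιι, h2]
    intro g
    rcases hall (g • x) (mem_orbit x g) with h | h | h | h
    · exact Or.inl ⟨h, case3 g h⟩
    · exact Or.inr (Or.inr (Or.inl ⟨h, case4 g h⟩))
    · exact Or.inr (Or.inl ⟨h, case1 g h⟩)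
    · exact Or.inr (Or.inr (Or.inr ⟨h, case2 g h⟩))

variable {R : ℚ[X]} {q : ℕ}

/-- Orbits with two elements. -/
theorem orbit_two (hR0 : R ≠ 0) (hW : ∀ z : ℂ, aeval z R = 0 → ‖z‖ ^ 2 = q) (hq : q ≠ 0)
    (hns : ∀ z : ℂ, aeval z R = 0 → ∀ n : ℕ, n ≠ 0 → z ^ (2 * n) ≠ (q : ℂ) ^ n)
    (x : R.rootSet (LF R)) (hdeg : (minpoly ℚ ((x : LF R) : ℂ)).natDegree = 2) :
    ∀ z ∈ orbit (LF R ≃ₐ[ℚ] LF R) x, z = x ∨ z = iota R • x := by
  classical
  have hfin : (orbit (LF R ≃ₐ[ℚ] LF R) x).Finite := Set.toFinite _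
  have hcard' : hfin.toFinset.card = 2 := by
    rw [← Set.ncard_eq_toFinset_card _ hfin, ← Nat.card_coe_set_eq, card_orbit hR0, hdeg]
  have h1 : ({x, iota R • x} : Finset (R.rootSet (LF R))) = hfin.toFinset := by
    apply Finset.eq_of_subset_of_card_le
    · intro z hz
      rw [Set.Finite.mem_toFinset]
      simp only [Finset.mem_insert, Finset.mem_singleton] at hz
      rcases hz with rfl | rfl
      · exact mem_orbit_self _
      · exact mem_orbit x (iota R)
    · rw [hcard', Finset.card_pair (iota_ne hW hq hns x).symm]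
  intro z hz
  have h2 : z ∈ hfin.toFinset := by rwa [Set.Finite.mem_toFinset]
  rw [← h1] at h2
  simpa only [Finset.mem_insert, Finset.mem_singleton] using h2

/-- Orbits with more than two elements. -/
theorem not_orbit_two (hR0 : R ≠ 0) (x : R.rootSet (LF R))
    (hdeg : 2 < (minpoly ℚ ((x : LF R) : ℂ)).natDegree) :
    ¬ ∀ z ∈ orbit (LF R ≃ₐ[ℚ] LF R) x, z = x ∨ z = iota R • x := by
  classical
  intro h
  have hfin : (orbit (LF R ≃ₐ[ℚ] LF R) x).Finite := Set.toFinite _
  have hcard' : hfin.toFinset.card = (minpoly ℚ ((x : LF R) : ℂ)).natDegree := by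
    rw [← Set.ncard_eq_toFinset_card _ hfin, ← Nat.card_coe_set_eq, card_orbit hR0]
  have h1 : hfin.toFinset ⊆ {x, iota R • x} := by
    intro z hz
    rw [Set.Finite.mem_toFinset] at hz
    rw [Finset.mem_insert, Finset.mem_singleton]
    exact h z hz
  have h2 := (Finset.card_le_card h1).trans Finset.card_le_two
  omega

/-- Orbits with four elements: an element of order four, or a half system. -/
theorem fourType_of_degree (hR0 : R ≠ 0) (hW : ∀ z : ℂ, aeval z R = 0 → ‖z‖ ^ 2 = q)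
    (hint : ∀ z : ℂ, aeval z R = 0 → IsIntegral ℤ z) (hq : q ≠ 0)
    (hns : ∀ z : ℂ, aeval z R = 0 → ∀ n : ℕ, n ≠ 0 → z ^ (2 * n) ≠ (q : ℂ) ^ n)
    {p f : ℕ} [Fact p.Prime] (hqp : q = p ^ f)
    (x : R.rootSet (LF R)) (hdeg : (minpoly ℚ ((x : LF R) : ℂ)).natDegree = 4)
    (hpow : ∀ y : ℂ, IsConjRoot ℚ ((x : LF R) : ℂ) y → y ≠ ((x : LF R) : ℂ) →
      ∀ n : ℕ, n ≠ 0 → y ^ n ≠ ((x : LF R) : ℂ) ^ n)
    (hHT : ∀ Φ, Half R x Φ → ∀ H : ℚ_[p][X], H.Monic →
      H ∣ (minpoly ℚ ((x : LF R) : ℂ)).map (algebraMap ℚ ℚ_[p]) →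
      ∃ m : ℤ, ‖H.eval 0‖ = (q : ℝ) ^ m) :
    FourType (iota R) x := by
  classical
  rcases four_cases (smul_iota hW hq) (iota_iota hW hq) (iota_ne hW hq hns) x
    (by rw [card_orbit hR0, hdeg]) with h | ⟨y, hy, hyx, hyιx, hall, hg⟩
  · exact h
  exfalso
  have hx := mem_orbit_self (M := LF R ≃ₐ[ℚ] LF R) x
  have hιyx : iota R • y ≠ x := by
    intro h
    apply hyιx
    rw [← h, iota_iota hW hq]
  have hιyιx : iota R • y ≠ iota R • x := fun h => hyx (smul_left_cancel _ h)
  have hιx := iota_ne hW hq hns x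
  have hιy := iota_ne hW hq hns y
  let Φ : Finset (R.rootSet (LF R)) := {x, y}
  have hΦ : ∀ z, z ∈ Φ ↔ z = x ∨ z = y := fun z => by simp [Φ]
  have hHalf : Half R x Φ := by
    refine ⟨?_, ?_, ?_⟩
    · intro z hz
      rcases (hΦ z).mp hz with rfl | rfl
      · exact hx
      · exact hy
    · intro z hz
      rw [hΦ, hΦ]
      rcases hall z hz with rfl | rfl | rfl | rfl
      · exact ⟨fun _ h => h.elim hιx fun h => hyιx h.symm, fun _ => Or.inl rfl⟩
      · rw [iota_iota hW hq]
        exact ⟨fun h => (h.elim hιx fun h => hyιx h.symm).elim, fun h => (h (Or.inl rfl)).elim⟩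
      · exact ⟨fun _ h => h.elim hιyx hιy, fun _ => Or.inr rfl⟩
      · rw [iota_iota hW hq]
        exact ⟨fun h => (h.elim hιyx hιy).elim, fun h => (h (Or.inr rfl)).elim⟩
    · intro g
      rcases hg g with ⟨h1, h2⟩ | ⟨h1, h2⟩ | ⟨h1, h2⟩ | ⟨h1, h2⟩
      · left
        intro z hz
        rcases (hΦ z).mp hz with rfl | rfl
        · rw [h1]; exact hz
        · rw [h2]; exact hz
      · left
        intro z hz
        rcases (hΦ z).mp hz with rfl | rfl
        · rw [h1, hΦ]; exact Or.inr rfl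
        · rw [h2, hΦ]; exact Or.inl rfl
      · right
        intro z hz
        rcases (hΦ z).mp hz with rfl | rfl
        · rw [h1, hΦ]; exact fun h => h.elim hιx fun h => hyιx h.symm
        · rw [h2, hΦ]; exact fun h => h.elim hιyx hιy
      · right
        intro z hz
        rcases (hΦ z).mp hz with rfl | rfl
        · rw [h1, hΦ]; exact fun h => h.elim hιyx hιy
        · rw [h2, hΦ]; exact fun h => h.elim hιx fun h => hyιx h.symm
  have hcardΦ : Φ.card = 2 := Finset.card_pair hyx.symm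
  have hcx : Function.Injective fun y : R.rootSet (LF R) => ((y : LF R) : ℂ) := coe_injective
  rcases hHalf.alternative hR0 hq hW hint hqp (hHT Φ hHalf) with h | ⟨a, c, ha, hc, hb⟩
  · -- `x ^ 24 = (q / y) ^ 24`
    have h1 : ((hprod Φ : LF R) : ℂ) = ((x : LF R) : ℂ) * ((y : LF R) : ℂ) := by
      have h2 : hprod Φ = (x : LF R) * (y : LF R) := by
        rw [hprod]
        exact Finset.prod_pair hyx.symm
      rw [h2]
      rfl
    rw [h1, hcardΦ] at h
    have hy0 : ((y : LF R) : ℂ) ≠ 0 := by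
      have := root_ne_zero hW hq y
      simpa using this
    refine hpow (((iota R • y : R.rootSet (LF R)) : LF R) : ℂ)
      ((mem_orbit_iff_isConjRoot x _).mp (mem_orbit_smul (iota R) hy)) (fun h => hιyx (hcx h))
      24 (by norm_num) ?_
    rw [coe_iota' hW hq, div_pow, div_eq_iff (pow_ne_zero _ hy0), ← mul_pow, h]
  · have ha0 : a = 0 := by omega
    rw [ha0, pow_zero, one_mul] at hb
    obtain ⟨n, hn, h⟩ := Half.pow_eq hR0 hq hW hint (Fact.out : p.Prime) hqp hc hb
      ((hΦ x).mpr (Or.inl rfl)) ((hΦ y).mpr (Or.inr rfl))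
    exact hpow _ ((mem_orbit_iff_isConjRoot x y).mp hy) (fun h => hyx (hcx h)) n hn h

/-- Orbits of twice an odd prime degree. -/
theorem oddType_of_degree (hR0 : R ≠ 0) (hW : ∀ z : ℂ, aeval z R = 0 → ‖z‖ ^ 2 = q)
    (hq : q ≠ 0)
    (hns : ∀ z : ℂ, aeval z R = 0 → ∀ n : ℕ, n ≠ 0 → z ^ (2 * n) ≠ (q : ℂ) ^ n)
    {hq' : (q : ℂ) ≠ 0} {h0 : ∀ x : R.rootSet (LF R), ((x : LF R) : ℂ) ≠ 0}
    (x : R.rootSet (LF R)) {l : ℕ} (hl : l.Prime) (hl2 : l ≠ 2)
    (hdeg : (minpoly ℚ ((x : LF R) : ℂ)).natDegree = 2 * l)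
    (hpow : ∀ y : ℂ, IsConjRoot ℚ ((x : LF R) : ℂ) y → y ≠ ((x : LF R) : ℂ) →
      ∀ n : ℕ, n ≠ 0 → y ^ n ≠ ((x : LF R) : ℂ) ^ n) :
    OddType (Lam R q hq' h0) (LF R ≃ₐ[ℚ] LF R) (iota R) x := by
  refine ⟨l, hl, hl2, by rw [card_orbit hR0, hdeg], ?_⟩
  rintro e ⟨hanti, M, hM⟩ y hyO hyx hyx' hsupp' hye
  by_contra hex
  rw [prod_two_pairs hW hq hns x y hyx hyx' e hanti hsupp', hye] at hM
  obtain ⟨n, hn, h⟩ := pow_eq_of_rel (hW _ (aeval_root x)) (hW _ (aeval_root y)) hq' hM hex
  exact hpow _ ((mem_orbit_iff_isConjRoot x y).mp hyO) (fun h => hyx (coe_injective h)) n hn h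

/-- Orbits with the same kernel generate the same field. -/
theorem adjoin_eq_of_kernel (hR0 : R ≠ 0) (x y : R.rootSet (LF R))
    (h : ∀ σ : LF R ≃ₐ[ℚ] LF R, (∀ z ∈ orbit (LF R ≃ₐ[ℚ] LF R) x, σ • z = z) ↔
      ∀ z ∈ orbit (LF R ≃ₐ[ℚ] LF R) y, σ • z = z) :
    IntermediateField.adjoin ℚ {z : ℂ | IsConjRoot ℚ ((x : LF R) : ℂ) z} =
      IntermediateField.adjoin ℚ {z : ℂ | IsConjRoot ℚ ((y : LF R) : ℂ) z} := by
  let F : R.rootSet (LF R) → IntermediateField ℚ (LF R) := fun x =>
    IntermediateField.adjoin ℚ ((fun w : R.rootSet (LF R) => (w : LF R)) ''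
      orbit (LF R ≃ₐ[ℚ] LF R) x)
  have hfix : ∀ (x : R.rootSet (LF R)) (σ : LF R ≃ₐ[ℚ] LF R), σ ∈ (F x).fixingSubgroup ↔
      ∀ z ∈ orbit (LF R ≃ₐ[ℚ] LF R) x, σ • z = z := by
    intro x σ
    rw [IntermediateField.mem_fixingSubgroup_iff]
    constructor
    · intro h1 z hz
      exact Subtype.ext (h1 _ (IntermediateField.subset_adjoin ℚ _ ⟨z, hz, rfl⟩))
    · intro h1 w hw
      have h2 : F x ≤ IntermediateField.fixedField (Subgroup.zpowers σ) := by
        apply IntermediateField.adjoin_le_iff.mpr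
        rintro _ ⟨z, hz, rfl⟩
        rw [SetLike.mem_coe, IntermediateField.mem_fixedField_iff]
        intro g hg
        have h3 : Subgroup.zpowers σ ≤ MulAction.stabilizer (LF R ≃ₐ[ℚ] LF R) z := by
          rw [Subgroup.zpowers_le]
          exact h1 z hz
        have h4 : g • z = z := h3 hg
        exact congrArg Subtype.val h4
      have h3 := h2 hw
      rw [IntermediateField.mem_fixedField_iff] at h3
      exact h3 σ (Subgroup.mem_zpowers σ)
  have hF : F x = F y := by
    have h1 : (F x).fixingSubgroup = (F y).fixingSubgroup := by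
      ext σ
      rw [hfix, hfix]
      exact h σ
    rw [← IsGalois.fixedField_fixingSubgroup (F x), h1, IsGalois.fixedField_fixingSubgroup]
  have hle : ∀ x y : R.rootSet (LF R), F x = F y →
      IntermediateField.adjoin ℚ {z : ℂ | IsConjRoot ℚ ((x : LF R) : ℂ) z} ≤
        IntermediateField.adjoin ℚ {z : ℂ | IsConjRoot ℚ ((y : LF R) : ℂ) z} := by
    intro x y hxy
    have key : ∀ u ∈ F y, (u : ℂ) ∈
        IntermediateField.adjoin ℚ {z : ℂ | IsConjRoot ℚ ((y : LF R) : ℂ) z} := by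
      intro u hu
      induction hu using IntermediateField.adjoin_induction with
      | mem u hu =>
        obtain ⟨w, hw, rfl⟩ := hu
        exact IntermediateField.subset_adjoin ℚ _ ((mem_orbit_iff_isConjRoot y w).mp hw)
      | algebraMap r =>
        have h1 : ((algebraMap ℚ (LF R) r : LF R) : ℂ) = algebraMap ℚ ℂ r := by simp
        rw [h1]
        exact IntermediateField.algebraMap_mem _ r
      | add a b _ _ ha hb =>
        have h1 : ((a + b : LF R) : ℂ) = (a : ℂ) + b := rfl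
        rw [h1]
        exact add_mem ha hb
      | inv a _ ha =>
        have h1 : ((a⁻¹ : LF R) : ℂ) = (a : ℂ)⁻¹ := rfl
        rw [h1]
        exact inv_mem ha
      | mul a b _ _ ha hb =>
        have h1 : ((a * b : LF R) : ℂ) = (a : ℂ) * b := rfl
        rw [h1]
        exact mul_mem ha hb
    rw [IntermediateField.adjoin_le_iff]
    intro z hz
    obtain ⟨w, rfl⟩ := exists_root hR0 (aeval_of_isConjRoot hz (aeval_root x))
    apply key
    rw [← hxy]
    exact IntermediateField.subset_adjoin ℚ _ ⟨w, (mem_orbit_iff_isConjRoot x w).mpr hz, rfl⟩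
  exact le_antisymm (hle x y hF) (hle y x hF.symm)

/-- The half system of a semi-invariant relation. -/
theorem half_of_semiInv {r : R.rootSet (LF R) → ℤ} (hanti : ∀ y, r (iota R • y) = - r y) {x : R.rootSet (LF R)}
    (hr : SemiInv (LF R ≃ₐ[ℚ] LF R) r x) (hrx : r x ≠ 0) :
    ∃ Φ : Finset (R.rootSet (LF R)), Half R x Φ ∧
      ∀ z, z ∈ Φ ↔ z ∈ orbit (LF R ≃ₐ[ℚ] LF R) x ∧ 0 < r z := by
  classical
  have hfin : (orbit (LF R ≃ₐ[ℚ] LF R) x).Finite := Set.toFinite _
  let Φ := hfin.toFinset.filter fun z => 0 < r z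
  have hΦ : ∀ z, z ∈ Φ ↔ z ∈ orbit (LF R ≃ₐ[ℚ] LF R) x ∧ 0 < r z := by
    intro z
    simp only [Φ, Finset.mem_filter, Set.Finite.mem_toFinset]
  have hne : ∀ z ∈ orbit (LF R ≃ₐ[ℚ] LF R) x, r z ≠ 0 := by
    rintro _ ⟨g, rfl⟩
    rcases hr g with h | h
    · have := h x (mem_orbit_self x)
      simp only
      omega
    · have := h x (mem_orbit_self x)
      simp only
      omega
  refine ⟨Φ, ⟨fun z hz => ((hΦ z).mp hz).1, ?_, ?_⟩, hΦ⟩
  · intro z hz
    rw [hΦ, hΦ, hanti]
    have h1 := hne z hz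
    constructor
    · rintro ⟨_, h2⟩ ⟨_, h3⟩
      omega
    · intro h2
      refine ⟨hz, ?_⟩
      by_contra h3
      exact h2 ⟨mem_orbit_smul _ hz, by omega⟩
  · intro g
    rcases hr g with h | h
    · left
      intro z hz
      rw [hΦ] at hz ⊢
      exact ⟨mem_orbit_smul g hz.1, by rw [h z hz.1]; exact hz.2⟩
    · right
      intro z hz hz'
      rw [hΦ] at hz hz'
      rw [h z hz.1] at hz'
      omega

/-- Relations from products with nonnegative exponents. -/
theorem mem_Lam_of_prod (hW : ∀ z : ℂ, aeval z R = 0 → ‖z‖ ^ 2 = q) (hq : q ≠ 0)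
    {hq' : (q : ℂ) ≠ 0} {h0 : ∀ x : R.rootSet (LF R), ((x : LF R) : ℂ) ≠ 0}
    (e : R.rootSet (LF R) → ℕ) (M : ℤ)
    (hM : ∏ x : R.rootSet (LF R), ((x : LF R) : ℂ) ^ e x = (q : ℂ) ^ M) :
    (fun x => (e x : ℤ) - e (iota R • x)) ∈ Lam R q hq' h0 := by
  refine ⟨fun x => ?_, ?_⟩
  · simp only
    rw [iota_iota hW hq]
    ring
  · refine ⟨2 * M - ∑ x : R.rootSet (LF R), (e x : ℤ), ?_⟩
    have h1 : ∏ x : R.rootSet (LF R), ((x : LF R) : ℂ) ^ (e (iota R • x)) =
        (q : ℂ) ^ (∑ x : R.rootSet (LF R), e x) / (q : ℂ) ^ M := by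
      rw [← Equiv.prod_comp (MulAction.toPerm (iota R))
        (fun x : R.rootSet (LF R) => ((x : LF R) : ℂ) ^ (e (iota R • x)))]
      simp only [MulAction.toPerm_apply]
      rw [← hM, ← Finset.prod_pow_eq_pow_sum, ← Finset.prod_div_distrib]
      refine Finset.prod_congr rfl fun x _ => ?_
      rw [iota_iota hW hq, coe_iota' hW hq, div_pow]
    have h2 : ∏ x : R.rootSet (LF R), ((x : LF R) : ℂ) ^ ((e x : ℤ) - e (iota R • x)) =
        (∏ x : R.rootSet (LF R), ((x : LF R) : ℂ) ^ (e x)) /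
          ∏ x : R.rootSet (LF R), ((x : LF R) : ℂ) ^ (e (iota R • x)) := by
      rw [← Finset.prod_div_distrib]
      refine Finset.prod_congr rfl fun x _ => ?_
      rw [zpow_sub₀ (h0 x), zpow_natCast, zpow_natCast]
    rw [h2, h1, hM, zpow_sub₀ hq', ← Nat.cast_sum, zpow_natCast, mul_comm 2, zpow_mul]
    have h4 : (q : ℂ) ^ M ≠ 0 := zpow_ne_zero _ hq'
    have h5 : (q : ℂ) ^ (∑ x : R.rootSet (LF R), e x) ≠ 0 := pow_ne_zero _ hq'
    rw [div_div_eq_mul_div]
    congr 1
    rw [← sq]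
    rfl

end Pool.Agent.Lib.MP_950c68_ag.Orb
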