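import Mathlib
import Pool.Agent.Lib.MP_950c68_ag.Dim3Defs
import Pool.Agent.Lib.MP_950c68_ag.OrbTypes
import Pool.Agent.Lib.MP_950c68_ag.OrbEll

/-!
# Tate classes on products of abelian varieties of dimension at most three: proofs
-/

namespace Pool.Agent.Lib.MP_950c68_ag.Dim3

open Polynomial

variable {p : ℕ} [Fact p.Prime] {q : ℕ}

theorem isConjRoot_conj (α : ℂ) : IsConjRoot ℚ α ((starRingEnd ℂ) α) := by
  have h := minpoly.algEquiv_eq (Complex.conjAe.restrictScalars ℚ) α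
  exact h.symm

theorem IsWeil.norm_sq {α : ℂ} (h : IsWeil q α) : ‖α‖ ^ 2 = q := h.2 α rfl

theorem IsWeil.ne_zero (hq : q ≠ 0) {α : ℂ} (h : IsWeil q α) : α ≠ 0 := by
  rintro rfl
  have h1 := h.norm_sq
  rw [norm_zero, zero_pow two_ne_zero] at h1
  exact hq (by exact_mod_cast h1.symm)

theorem IsWeil.conj_eq (hq : q ≠ 0) {α : ℂ} (h : IsWeil q α) :
    (starRingEnd ℂ) α = q / α := by
  have h0 := h.ne_zero hq
  rw [eq_div_iff h0, Complex.conj_mul', ← Complex.ofReal_pow, h.norm_sq]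
  simp

theorem IsWeil.isConjRoot (hq : q ≠ 0) {α : ℂ} (h : IsWeil q α) : IsConjRoot ℚ α (q / α) := by
  rw [← h.conj_eq hq]
  exact isConjRoot_conj α

theorem IsWeil.of_isConjRoot {α β : ℂ} (h : IsWeil q α) (hαβ : IsConjRoot ℚ α β) :
    IsWeil q β := by
  refine ⟨?_, fun γ hγ => h.2 γ (hαβ.trans hγ)⟩
  have hα : IsIntegral ℚ α := h.1.tower_top
  have h1 : aeval β (minpoly ℤ α) = 0 := by
    have h2 : minpoly ℚ α = (minpoly ℤ α).map (algebraMap ℤ ℚ) :=
      minpoly.isIntegrallyClosed_eq_field_fractions' ℚ h.1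
    have h3 : aeval β (minpoly ℚ α) = 0 := by
      rw [hαβ]
      exact minpoly.aeval ℚ β
    rw [h2, aeval_map_algebraMap] at h3
    exact h3
  exact ⟨minpoly ℤ α, minpoly.monic h.1, h1⟩

theorem IsWeil.div (hq : q ≠ 0) {α : ℂ} (h : IsWeil q α) : IsWeil q (q / α) :=
  h.of_isConjRoot (h.isConjRoot hq)

theorem isTate_pair (hq : q ≠ 0) {α : ℂ} (h : IsWeil q α) : IsTate q {α, (q : ℂ) / α} := by
  refine ⟨?_, 1, 1, rfl, one_pos, ?_⟩
  · intro β hβ
    simp only [Multiset.insert_eq_cons, Multiset.mem_cons, Multiset.mem_singleton] at hβ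
    rcases hβ with rfl | rfl
    · exact h
    · exact h.div hq
  · have h0 := h.ne_zero hq
    simp only [Multiset.insert_eq_cons, Multiset.prod_cons, Multiset.prod_singleton]
    rw [mul_div_cancel₀ _ h0]

theorem isTate_two {α β : ℂ} (hα : IsWeil q α) (hβ : IsWeil q β) {n : ℕ}
    (hn : n ≠ 0) (h : (α * β) ^ n = (q : ℂ) ^ n) : IsTate q {α, β} := by
  refine ⟨?_, 1, n, rfl, Nat.pos_of_ne_zero hn, ?_⟩
  · intro γ hγ
    simp only [Multiset.insert_eq_cons, Multiset.mem_cons, Multiset.mem_singleton] at hγ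
    rcases hγ with rfl | rfl
    · exact hα
    · exact hβ
  · simp only [Multiset.insert_eq_cons, Multiset.prod_cons, Multiset.prod_singleton]
    rw [h, mul_one]

/-- Empty or generated. -/
def G0 (p : ℕ) [Fact p.Prime] (q : ℕ) (s : Multiset ℂ) : Prop := s = 0 ∨ Gen p q s

theorem G0.add {s t : Multiset ℂ} (hs : G0 p q s) (ht : G0 p q t) : G0 p q (s + t) := by
  rcases hs with rfl | hs
  · rwa [zero_add]
  · rcases ht with rfl | ht
    · rw [add_zero]; exact Or.inr hs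
    · exact Or.inr (hs.add _ _ ht)

theorem G0.cancel {α : ℂ} {s : Multiset ℂ} (hα : IsWeil q α)
    (h : G0 p q ({α, (q : ℂ) / α} + s)) : G0 p q s := by
  by_cases hs : s = 0
  · exact Or.inl hs
  · rcases h with h | h
    · exfalso
      have := congrArg Multiset.card h
      simp at this
    · exact Or.inr (Gen.cancel α s hα hs h)

/-- The complement of a Tate multiset in a Tate multiset. -/
theorem IsTate.of_add (hq : q ≠ 0) {s t : Multiset ℂ} (hst : IsTate q (s + t))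
    (ht : IsTate q t) : IsTate q s := by
  obtain ⟨hW, j, n, hc, hn, hp⟩ := hst
  obtain ⟨-, i, m, hc', hm, hp'⟩ := ht
  have hq' : (q : ℂ) ≠ 0 := by exact_mod_cast hq
  rw [Multiset.card_add, hc'] at hc
  refine ⟨fun α hα => hW α (Multiset.mem_add.mpr (Or.inl hα)), j - i, n * m, by omega,
    Nat.mul_pos hn hm, ?_⟩
  rw [Multiset.prod_add, mul_pow] at hp
  have h1 : (s.prod ^ n) ^ m * (t.prod ^ m) ^ n = ((q : ℂ) ^ (n * j)) ^ m := by
    rw [← hp, mul_pow, ← pow_mul t.prod m n, ← pow_mul t.prod n m, mul_comm m n]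
  rw [hp', ← pow_mul, ← pow_mul, ← pow_mul] at h1
  have h2 : (q : ℂ) ^ (n * j * m) = (q : ℂ) ^ (n * m * (j - i)) * (q : ℂ) ^ (m * i * n) := by
    rw [← pow_add]
    congr 1
    have : i ≤ j := by omega
    obtain ⟨k, rfl⟩ := Nat.exists_eq_add_of_le this
    rw [Nat.add_sub_cancel_left]
    ring
  rw [h2] at h1
  exact mul_right_cancel₀ (pow_ne_zero _ hq') h1

/-- The union of Tate multisets. -/
theorem IsTate.add {s t : Multiset ℂ} (hs : IsTate q s) (ht : IsTate q t) : IsTate q (s + t) := by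
  obtain ⟨hW, j, n, hc, hn, hp⟩ := hs
  obtain ⟨hW', i, m, hc', hm, hp'⟩ := ht
  refine ⟨fun α hα => (Multiset.mem_add.mp hα).elim (hW α) (hW' α), j + i, n * m,
    by rw [Multiset.card_add, hc, hc']; ring, Nat.mul_pos hn hm, ?_⟩
  rw [Multiset.prod_add, mul_pow]
  calc s.prod ^ (n * m) * t.prod ^ (n * m) = (s.prod ^ n) ^ m * (t.prod ^ m) ^ n := by
        rw [← pow_mul, ← pow_mul, mul_comm m n]
    _ = (q : ℂ) ^ (n * m * (j + i)) := by
        rw [hp, hp', ← pow_mul, ← pow_mul, ← pow_add]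
        congr 1
        ring

/-! ### Supersingular numbers -/

theorem Supersingular.of_isConjRoot {x z : ℂ} (h : Supersingular q x) (hxz : IsConjRoot ℚ x z) :
    Supersingular q z := by
  obtain ⟨n, hn, hx⟩ := h
  refine ⟨n, hn, ?_⟩
  have h1 : aeval x (X ^ (2 * n) - C ((q : ℚ) ^ n)) = 0 := by
    rw [map_sub, map_pow, aeval_X, aeval_C, map_pow, map_natCast, hx, sub_self]
  have h2 := minpoly.dvd ℚ x h1
  rw [hxz] at h2
  obtain ⟨S, hS⟩ := h2
  have h3 := congrArg (aeval z) hS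
  rw [map_mul, minpoly.aeval, zero_mul, map_sub, map_pow, aeval_X, aeval_C, map_pow,
    map_natCast] at h3
  exact sub_eq_zero.mp h3

theorem exists_pow_supersingular (t : Multiset ℂ) (ht : ∀ x ∈ t, Supersingular q x) :
    ∃ N : ℕ, N ≠ 0 ∧ t.prod ^ (2 * N) = (q : ℂ) ^ (N * Multiset.card t) := by
  induction t using Multiset.induction_on with
  | empty => exact ⟨1, one_ne_zero, by simp⟩
  | cons x t ih =>
    obtain ⟨N, hN, h⟩ := ih fun y hy => ht y (Multiset.mem_cons_of_mem hy)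
    obtain ⟨n, hn, hx⟩ := ht x (Multiset.mem_cons_self _ _)
    refine ⟨N * n, mul_ne_zero hN hn, ?_⟩
    rw [Multiset.prod_cons, Multiset.card_cons, mul_pow]
    calc x ^ (2 * (N * n)) * t.prod ^ (2 * (N * n)) = (x ^ (2 * n)) ^ N * (t.prod ^ (2 * N)) ^ n := by
          rw [← pow_mul, ← pow_mul]
          congr 2 <;> ring
      _ = (q : ℂ) ^ (N * n * (Multiset.card t + 1)) := by
          rw [hx, h, ← pow_mul, ← pow_mul, ← pow_add]
          congr 1
          ring

/-! ### The lattice of a Tate multiset -/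

open Pool.Agent.Lib.MP_950c68_ag.Orb MulAction

/-- The polynomial of the members which are not supersingular, and the relation between its
roots. -/
theorem exists_setup (hq : q ≠ 0) {s : Multiset ℂ} (hT : IsTate q s) :
    ∃ R : ℚ[X], R ≠ 0 ∧
      (∀ z : ℂ, aeval z R = 0 ↔ ∃ x ∈ s, ¬ Supersingular q x ∧ IsConjRoot ℚ x z) ∧
      ∃ m : ℕ, m ≠ 0 ∧ ∀ (hq' : (q : ℂ) ≠ 0) (h0 : ∀ x : R.rootSet (LF R), ((x : LF R) : ℂ) ≠ 0),
        (fun y : R.rootSet (LF R) => ((m * s.count ((y : LF R) : ℂ) : ℕ) : ℤ) -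
          ((m * s.count (((iota R • y : R.rootSet (LF R)) : LF R) : ℂ) : ℕ) : ℤ)) ∈
          Lam R q hq' h0 := by
  classical
  obtain ⟨hW, j, n, hcard, hn, hprod⟩ := hT
  let NS : Finset ℂ := s.toFinset.filter fun x => ¬ Supersingular q x
  have hNS : ∀ x, x ∈ NS ↔ x ∈ s ∧ ¬ Supersingular q x := fun x => by simp [NS]
  let R : ℚ[X] := ∏ x ∈ NS, minpoly ℚ x
  have hint : ∀ x ∈ s, IsIntegral ℚ x := fun x hx => (hW x hx).1.tower_top
  have hR0 : R ≠ 0 := Finset.prod_ne_zero_iff.mpr fun x hx =>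
    minpoly.ne_zero (hint x ((hNS x).mp hx).1)
  have hroot : ∀ z : ℂ, aeval z R = 0 ↔ ∃ x ∈ s, ¬ Supersingular q x ∧ IsConjRoot ℚ x z := by
    intro z
    simp only [R, map_prod, Finset.prod_eq_zero_iff]
    constructor
    · rintro ⟨x, hx, hz⟩
      obtain ⟨hxs, hxn⟩ := (hNS x).mp hx
      exact ⟨x, hxs, hxn, (isConjRoot_iff_aeval_eq_zero (hint x hxs)).mpr hz⟩
    · rintro ⟨x, hxs, hxn, hz⟩
      exact ⟨x, (hNS x).mpr ⟨hxs, hxn⟩, (isConjRoot_iff_aeval_eq_zero (hint x hxs)).mp hz⟩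
  have hWR : ∀ z : ℂ, aeval z R = 0 → ‖z‖ ^ 2 = q := by
    intro z hz
    obtain ⟨x, hxs, _, hxz⟩ := (hroot z).mp hz
    exact (hW x hxs).2 z hxz
  -- the product over the roots
  have hP : ∏ y : R.rootSet (LF R), ((y : LF R) : ℂ) ^ s.count ((y : LF R) : ℂ) =
      (s.filter fun x => ¬ Supersingular q x).prod := by
    rw [Finset.prod_multiset_count]
    have h1 : ∏ y : R.rootSet (LF R), ((y : LF R) : ℂ) ^ s.count ((y : LF R) : ℂ) =
        ∏ z ∈ Finset.univ.image (fun y : R.rootSet (LF R) => ((y : LF R) : ℂ)),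
          z ^ s.count z := by
      rw [Finset.prod_image coe_injective.injOn]
    rw [h1]
    symm
    apply Finset.prod_subset_one_on_sdiff
    · intro z hz
      rw [Multiset.mem_toFinset, Multiset.mem_filter] at hz
      obtain ⟨y, rfl⟩ := exists_root hR0 ((hroot z).mpr ⟨z, hz.1, hz.2, rfl⟩)
      exact Finset.mem_image_of_mem _ (Finset.mem_univ y)
    · intro z hz
      rw [Finset.mem_sdiff, Finset.mem_image, Multiset.mem_toFinset, Multiset.mem_filter] at hz
      obtain ⟨⟨y, _, rfl⟩, hz2⟩ := hz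
      obtain ⟨x, hxs, hxn, hxz⟩ := (hroot _).mp (aeval_root y)
      have h2 : ((y : LF R) : ℂ) ∉ s := by
        intro h
        exact hz2 ⟨h, fun h3 => hxn (h3.of_isConjRoot hxz.symm)⟩
      rw [Multiset.count_eq_zero_of_notMem h2, pow_zero]
    · intro z hz
      rw [Multiset.mem_toFinset, Multiset.mem_filter] at hz
      rw [Multiset.count_filter_of_pos (p := fun x => ¬ Supersingular q x) hz.2]
  obtain ⟨N, hN, hNp⟩ := exists_pow_supersingular (s.filter fun x => Supersingular q x)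
    fun x hx => (Multiset.mem_filter.mp hx).2
  set c := Multiset.card (s.filter fun x => Supersingular q x) with hc
  refine ⟨R, hR0, hroot, 2 * N * n, by positivity, ?_⟩
  intro hq' h0
  have hM : ∏ y : R.rootSet (LF R), ((y : LF R) : ℂ) ^ (2 * N * n * s.count ((y : LF R) : ℂ)) =
      (q : ℂ) ^ ((2 * N * n * j : ℕ) - (N * n * c : ℕ) : ℤ) := by
    have h1 : ∏ y : R.rootSet (LF R), ((y : LF R) : ℂ) ^ (2 * N * n * s.count ((y : LF R) : ℂ)) =
        (∏ y : R.rootSet (LF R), ((y : LF R) : ℂ) ^ s.count ((y : LF R) : ℂ)) ^ (2 * N * n) := by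
      rw [← Finset.prod_pow]
      refine Finset.prod_congr rfl fun y _ => ?_
      rw [← pow_mul, mul_comm (s.count _)]
    rw [h1, hP, zpow_sub₀ hq', zpow_natCast, zpow_natCast, eq_div_iff (pow_ne_zero _ hq')]
    have h2 : s.prod = (s.filter fun x => Supersingular q x).prod *
        (s.filter fun x => ¬ Supersingular q x).prod := by
      rw [← Multiset.prod_add, Multiset.filter_add_not]
    have h3 : ((s.filter fun x => Supersingular q x).prod ^ (2 * N)) ^ n =
        (q : ℂ) ^ (N * n * c) := by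
      rw [hNp, ← pow_mul]
      congr 1
      ring
    calc (s.filter fun x => ¬ Supersingular q x).prod ^ (2 * N * n) * (q : ℂ) ^ (N * n * c) =
          (s.prod ^ n) ^ (2 * N) := by
          rw [← h3, h2, ← pow_mul, ← pow_mul, mul_pow]
          rw [mul_comm n (2 * N), mul_comm]
      _ = (q : ℂ) ^ (2 * N * n * j) := by
          rw [hprod, ← pow_mul]
          congr 1
          ring
  exact mem_Lam_of_prod hWR hq (fun y => 2 * N * n * s.count ((y : LF R) : ℂ)) _ hM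

/-! ### Types -/

omit [Fact p.Prime] in
theorem natDegree_ordinary {x : ℂ} (hq : q ≠ 0) (hW : IsWeil q x) (hns : ¬ Supersingular q x)
    (hx : Ordinary p q x) : (minpoly ℚ x).natDegree = 2 := by
  obtain ⟨a, _, ha⟩ := hx
  have hint : IsIntegral ℚ x := hW.1.tower_top
  have hle : (minpoly ℚ x).natDegree ≤ 2 := by
    have hdeg : (X ^ 2 - C (a : ℚ) * X + C (q : ℚ) : ℚ[X]).natDegree = 2 := by compute_degree!
    have hne : (X ^ 2 - C (a : ℚ) * X + C (q : ℚ) : ℚ[X]) ≠ 0 := by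
      intro h
      rw [h, natDegree_zero] at hdeg
      omega
    have hdvd : minpoly ℚ x ∣ (X ^ 2 - C (a : ℚ) * X + C (q : ℚ) : ℚ[X]) := by
      apply minpoly.dvd
      rw [map_add, map_sub, map_mul, map_pow, aeval_X, aeval_C, aeval_C, map_intCast, map_natCast]
      exact ha
    exact (natDegree_le_of_dvd hdvd hne).trans hdeg.le
  have hpos := minpoly.natDegree_pos hint
  by_contra hcon
  have h1 : (minpoly ℚ x).natDegree = 1 := by omega
  obtain ⟨r, hr⟩ := minpoly.natDegree_eq_one_iff.mp h1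
  apply hns
  refine ⟨1, one_ne_zero, ?_⟩
  have h2 : (starRingEnd ℂ) x = x := by
    rw [← hr]
    simp
  rw [hW.conj_eq hq, div_eq_iff (hW.ne_zero hq)] at h2
  rw [mul_one, pow_one, sq, h2]

theorem Large.distinct {x : ℂ} (hx : Large p q x) : Distinct x := by
  rcases hx with h | h | ⟨l, _, _, h, _⟩
  · exact h.2.1
  · exact h.2.1
  · exact h

theorem Large.two_lt {x : ℂ} (hx : Large p q x) : 2 < (minpoly ℚ x).natDegree := by
  rcases hx with h | h | ⟨l, hl, h, _⟩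
  · rw [h.1]; norm_num
  · rw [h.1]; norm_num
  · have := hl.two_le
    rw [h]
    omega

theorem Large.not_supersingular {x : ℂ} (hq : q ≠ 0) (hW : IsWeil q x) (hx : Large p q x) :
    ¬ Supersingular q x := by
  rintro ⟨n, hn, h⟩
  have h0 := hW.ne_zero hq
  by_cases hx' : (q : ℂ) / x = x
  · rw [div_eq_iff h0] at hx'
    have hdeg : (X ^ 2 - C (q : ℚ) : ℚ[X]).natDegree = 2 := by compute_degree!
    have hne : (X ^ 2 - C (q : ℚ) : ℚ[X]) ≠ 0 := by
      intro h
      rw [h, natDegree_zero] at hdeg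
      omega
    have hdvd : minpoly ℚ x ∣ (X ^ 2 - C (q : ℚ) : ℚ[X]) := by
      apply minpoly.dvd
      rw [map_sub, map_pow, aeval_X, aeval_C, map_natCast, hx']
      ring
    have h1 := (natDegree_le_of_dvd hdvd hne).trans hdeg.le
    have h2 := hx.two_lt
    omega
  · refine hx.distinct (q / x) (hW.isConjRoot hq) hx' (2 * n) (by omega) ?_
    have hq' : (q : ℂ) ≠ 0 := by exact_mod_cast hq
    rw [div_pow, h, pow_mul, sq, mul_pow, mul_div_assoc, div_self (pow_ne_zero _ hq'), mul_one]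

omit [Fact p.Prime] in
theorem natDegree_small {x : ℂ} (hq : q ≠ 0) (hW : IsWeil q x) (hns : ¬ Supersingular q x)
    (hx : Ordinary p q x ∨ Cubic p q x) : (minpoly ℚ x).natDegree = 2 := by
  rcases hx with h | h
  · exact natDegree_ordinary hq hW hns h
  · exact h.1

theorem Distinct.of_isConjRoot {x y : ℂ} (hx : Distinct x) (hint : IsIntegral ℚ x)
    (hxy : IsConjRoot ℚ x y) : Distinct y := by
  intro z hyz hne n hn hpow
  obtain ⟨R, hR0, hxR⟩ : ∃ R : ℚ[X], R ≠ 0 ∧ aeval x R = 0 :=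
    ⟨minpoly ℚ x, minpoly.ne_zero hint, minpoly.aeval ℚ x⟩
  have hyR : aeval y R = 0 := aeval_of_isConjRoot hxy hxR
  have hzR : aeval z R = 0 := aeval_of_isConjRoot hyz hyR
  obtain ⟨x', rfl⟩ := exists_root hR0 hxR
  obtain ⟨y', rfl⟩ := exists_root hR0 hyR
  obtain ⟨z', rfl⟩ := exists_root hR0 hzR
  obtain ⟨g, rfl⟩ := (mem_orbit_iff_isConjRoot x' y').mpr hxy
  have hz'O : z' ∈ orbit (LF R ≃ₐ[ℚ] LF R) x' :=
    (mem_orbit_iff_isConjRoot x' z').mpr (hxy.trans hyz)
  have h1 : g⁻¹ • z' ∈ orbit (LF R ≃ₐ[ℚ] LF R) x' := mem_orbit_smul _ hz'O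
  have hgz : ((z' : LF R)) ^ n = ((g • x' : R.rootSet (LF R)) : LF R) ^ n := by
    apply Subtype.ext
    have : ((((z' : LF R)) ^ n : LF R) : ℂ) = (((z' : LF R)) : ℂ) ^ n := by push_cast; rfl
    rw [this, hpow]
    push_cast
    rfl
  refine hx _ ((mem_orbit_iff_isConjRoot x' _).mp h1) ?_ n hn ?_
  · intro h
    apply hne
    have h2 : g⁻¹ • z' = x' := coe_injective h
    rw [inv_smul_eq_iff] at h2
    rw [h2]
  · have h2 := congrArg (fun w : LF R => (((g⁻¹ : LF R ≃ₐ[ℚ] LF R) w : LF R) : ℂ)) hgz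
    simp only [map_pow] at h2
    have h3 : (g⁻¹ : LF R ≃ₐ[ℚ] LF R) ((g • x' : R.rootSet (LF R)) : LF R) = (x' : LF R) := by
      rw [coe_smul_root]
      exact g.symm_apply_apply _
    rw [h3] at h2
    push_cast at h2
    exact h2

theorem halfSystem_of_half {R : ℚ[X]} (hR0 : R ≠ 0)
    (hWR : ∀ z : ℂ, aeval z R = 0 → ‖z‖ ^ 2 = q) (hq : q ≠ 0) {x : ℂ}
    {y : R.rootSet (LF R)} (hxy : IsConjRoot ℚ x ((y : LF R) : ℂ))
    {Φ : Finset (R.rootSet (LF R))} (h : Half R y Φ) [DecidableEq ℂ] :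
    HalfSystem q x (Φ.image fun y : R.rootSet (LF R) => ((y : LF R) : ℂ)) := by
  have hm : ∀ y : R.rootSet (LF R), ((y : LF R) : ℂ) ∈
      Φ.image (fun y : R.rootSet (LF R) => ((y : LF R) : ℂ)) ↔ y ∈ Φ := by
    intro y
    rw [Finset.mem_image]
    constructor
    · rintro ⟨z, hz, hzy⟩
      rwa [← coe_injective hzy]
    · intro hy
      exact ⟨y, hy, rfl⟩
  refine ⟨?_, ?_, ?_⟩
  · intro z hz
    rw [Finset.mem_image] at hz
    obtain ⟨w, hw, rfl⟩ := hz
    exact hxy.trans ((mem_orbit_iff_isConjRoot y w).mp (h.sub w hw))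
  · intro z hz
    have hyz : IsConjRoot ℚ ((y : LF R) : ℂ) z := hxy.symm.trans hz
    obtain ⟨w, rfl⟩ := exists_root hR0 (aeval_of_isConjRoot hyz (aeval_root y))
    rw [hm, ← coe_iota' hWR hq, hm]
    exact h.sec w ((mem_orbit_iff_isConjRoot y w).mpr hyz)
  · intro σ
    obtain ⟨g, hg⟩ := exists_restrict R σ
    have key : ∀ w : R.rootSet (LF R), σ ((w : LF R) : ℂ) ∈
        Φ.image (fun y : R.rootSet (LF R) => ((y : LF R) : ℂ)) ↔ g • w ∈ Φ := by
      intro w
      rw [← hg, ← coe_smul_root, hm]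
    rcases h.block g with h1 | h1
    · left
      intro z hz
      rw [Finset.mem_image] at hz
      obtain ⟨w, hw, rfl⟩ := hz
      exact (key w).mpr (h1 w hw)
    · right
      intro z hz
      rw [Finset.mem_image] at hz
      obtain ⟨w, hw, rfl⟩ := hz
      exact fun h' => h1 w hw ((key w).mp h')

/-- The hypotheses of the theorem. -/
structure Good (p : ℕ) [Fact p.Prime] (q : ℕ) (s : Multiset ℂ) : Prop where
  tate : IsTate q s
  type : ∀ x ∈ s, Supersingular q x ∨ (Ordinary p q x ∨ Cubic p q x) ∨ Large p q x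
  clos : ∀ x ∈ s, ∀ y ∈ s, Large p q x → Large p q y → ¬ IsConjRoot ℚ x y →
    IntermediateField.adjoin ℚ {z : ℂ | IsConjRoot ℚ x z} ≠
      IntermediateField.adjoin ℚ {z : ℂ | IsConjRoot ℚ y z}

/-- All relations are semi-invariant. -/
theorem Good.semiInv {f : ℕ} (hqp : q = p ^ f) (hq : q ≠ 0) {s : Multiset ℂ} (hs : Good p q s)
    {R : ℚ[X]} (hR0 : R ≠ 0)
    (hroot : ∀ z : ℂ, aeval z R = 0 ↔ ∃ x ∈ s, ¬ Supersingular q x ∧ IsConjRoot ℚ x z)
    (hWR : ∀ z : ℂ, aeval z R = 0 → ‖z‖ ^ 2 = q)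
    (hint : ∀ z : ℂ, aeval z R = 0 → IsIntegral ℤ z)
    (hns : ∀ z : ℂ, aeval z R = 0 → ∀ n : ℕ, n ≠ 0 → z ^ (2 * n) ≠ (q : ℂ) ^ n)
    {hq' : (q : ℂ) ≠ 0} {h0 : ∀ x : R.rootSet (LF R), ((x : LF R) : ℂ) ≠ 0} :
    (∀ r ∈ Lam R q hq' h0, ∀ x, SemiInv (LF R ≃ₐ[ℚ] LF R) r x) ∧
    ∀ y : R.rootSet (LF R), ∀ x ∈ s, IsConjRoot ℚ x ((y : LF R) : ℂ) → Large p q x →
      FourType (iota R) y ∨ (∃ l : ℕ, l ≠ 2 ∧ (minpoly ℚ ((y : LF R) : ℂ)).natDegree = 2 * l ∧
        ((l = 3 ∧ Simple p q 3 x) ∨ ∀ Φ, ¬ HalfSystem q x Φ)) := by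
  classical
  -- the types of the large orbits
  have hlarge : ∀ y : R.rootSet (LF R), ∀ x ∈ s, IsConjRoot ℚ x ((y : LF R) : ℂ) →
      Large p q x → FourType (iota R) y ∨ OddType (Lam R q hq' h0) (LF R ≃ₐ[ℚ] LF R) (iota R) y ∧
        (∃ l : ℕ, l ≠ 2 ∧ (minpoly ℚ ((y : LF R) : ℂ)).natDegree = 2 * l ∧
        ((l = 3 ∧ Simple p q 3 x) ∨ ∀ Φ, ¬ HalfSystem q x Φ)) := by
    intro y x hx hxy hL
    have hWx := hs.tate.1 x hx
    have hxint : IsIntegral ℚ x := hWx.1.tower_top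
    have hmin : minpoly ℚ x = minpoly ℚ ((y : LF R) : ℂ) := hxy
    have hdist : Distinct ((y : LF R) : ℂ) := hL.distinct.of_isConjRoot hxint hxy
    rcases hL with h | h | ⟨l, hl, hdeg, _, hno⟩
    · left
      refine fourType_of_degree hR0 hWR hint hq hns hqp y (by rw [← hmin, h.1]) hdist ?_
      intro Φ _
      rw [← hmin]
      exact h.2.2
    · right
      exact ⟨oddType_of_degree hR0 hWR hq hns y Nat.prime_three (by norm_num)
        (by rw [← hmin, h.1]) hdist, 3, by norm_num, by rw [← hmin, h.1], Or.inl ⟨rfl, h⟩⟩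
    · by_cases hl2 : l = 2
      · left
        refine fourType_of_degree hR0 hWR hint hq hns hqp y (by rw [← hmin, hdeg, hl2]) hdist ?_
        intro Φ hΦ
        exact absurd (halfSystem_of_half hR0 hWR hq hxy hΦ) (hno _)
      · right
        exact ⟨oddType_of_degree hR0 hWR hq hns y hl hl2 (by rw [← hmin, hdeg]) hdist, l, hl2,
          by rw [← hmin, hdeg], Or.inr hno⟩
  refine ⟨?_, ?_⟩
  · -- each root has a type
    have htype : ∀ y : R.rootSet (LF R), (minpoly ℚ ((y : LF R) : ℂ)).natDegree = 2 ∨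
        ∃ x ∈ s, IsConjRoot ℚ x ((y : LF R) : ℂ) ∧ Large p q x := by
      intro y
      obtain ⟨x, hx, hxn, hxy⟩ := (hroot _).mp (aeval_root y)
      rcases hs.type x hx with h | h | h
      · exact absurd h hxn
      · left
        have hmin : minpoly ℚ x = minpoly ℚ ((y : LF R) : ℂ) := hxy
        rw [← hmin]
        exact natDegree_small hq (hs.tate.1 x hx) hxn h
      · right
        exact ⟨x, hx, hxy, h⟩
    refine semiInv_all (Lam_smul hWR hq) (fun d hd => hd.1) (smul_iota hWR hq)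
      (iota_iota hWR hq) (iota_ne hWR hq hns) (Lam_pair hWR hq hns) ?_ ?_
    · intro y
      rcases htype y with h | ⟨x, hx, hxy, hL⟩
      · left
        exact orbit_two hR0 hWR hq hns y h
      · right
        rcases hlarge y x hx hxy hL with h | h
        · exact Or.inl h
        · exact Or.inr h.1
    · intro y z hyz hy hz hker
      rcases htype y with h | ⟨x, hx, hxy, hL⟩
      · exact hy (orbit_two hR0 hWR hq hns y h)
      rcases htype z with h | ⟨w, hw, hwz, hL'⟩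
      · exact hz (orbit_two hR0 hWR hq hns z h)
      have h1 := adjoin_eq_of_kernel hR0 y z hker
      have hset : ∀ a b : ℂ, IsConjRoot ℚ a b →
          {c : ℂ | IsConjRoot ℚ a c} = {c : ℂ | IsConjRoot ℚ b c} := by
        intro a b hab
        ext c
        exact ⟨fun h => hab.symm.trans h, fun h => hab.trans h⟩
      rw [← hset _ _ hxy, ← hset _ _ hwz] at h1
      refine hs.clos x hx w hw hL hL' ?_ h1
      intro hxw
      apply hyz
      rw [mem_orbit_iff_isConjRoot]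
      exact (hxy.symm.trans hxw).trans hwz
  · intro y x hx hxy hL
    rcases hlarge y x hx hxy hL with h | h
    · exact Or.inl h
    · exact Or.inr h.2

omit [Fact p.Prime] in
/-- Ordinary and supersingular numbers are Weil numbers. -/
theorem isWeil_of_small {w : ℂ} (hq : q ≠ 0) (hw : ‖w‖ ^ 2 = q)
    (h : Ordinary p q w ∨ Supersingular q w) : IsWeil q w := by
  have hq' : (q : ℂ) ≠ 0 := by exact_mod_cast hq
  have hw0 : w ≠ 0 := by
    rintro rfl
    rw [norm_zero, zero_pow two_ne_zero] at hw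
    exact hq (by exact_mod_cast hw.symm)
  rcases h with ⟨a, -, ha⟩ | ⟨n, hn, hwn⟩
  · have hmon : (X ^ 2 - C a * X + C (q : ℤ) : ℤ[X]).Monic := by monicity!
    refine ⟨⟨X ^ 2 - C a * X + C (q : ℤ), hmon, ?_⟩, ?_⟩
    · rw [← aeval_def, map_add, map_sub, map_mul, map_pow, aeval_X, aeval_C, aeval_C]
      simpa using ha
    · intro β hβ
      have h1 : aeval w (X ^ 2 - C (a : ℚ) * X + C (q : ℚ) : ℚ[X]) = 0 := by
        rw [map_add, map_sub, map_mul, map_pow, aeval_X, aeval_C, aeval_C, map_intCast,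
          map_natCast]
        exact ha
      have h2 := minpoly.dvd ℚ w h1
      rw [hβ] at h2
      obtain ⟨S, hS⟩ := h2
      have h3 := congrArg (aeval β) hS
      rw [map_mul, minpoly.aeval, zero_mul, map_add, map_sub, map_mul, map_pow, aeval_X, aeval_C,
        aeval_C, map_intCast, map_natCast] at h3
      have h4 : (β - w) * (β - q / w) = 0 := by
        have h5 : (a : ℂ) = w + q / w := by
          field_simp
          linear_combination -ha
        rw [h5] at h3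
        rw [← h3]
        field_simp
        ring
      rcases mul_eq_zero.mp h4 with h5 | h5
      · rw [sub_eq_zero.mp h5, hw]
      · rw [sub_eq_zero.mp h5, norm_div, div_pow, hw, Complex.norm_natCast]
        have : (q : ℝ) ≠ 0 := by exact_mod_cast hq
        field_simp
  · refine ⟨?_, ?_⟩
    · have hI : IsIntegral ℤ ((q : ℂ) ^ n) := by
        have h1 : IsIntegral ℤ (q : ℂ) := by
          simpa using (isIntegral_algebraMap (R := ℤ) (A := ℂ) (x := (q : ℤ)))
        exact h1.pow n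
      rw [← hwn] at hI
      exact hI.of_pow (by omega)
    · intro β hβ
      obtain ⟨m, hm, hβm⟩ := (show Supersingular q w from ⟨n, hn, hwn⟩).of_isConjRoot hβ
      have h1 : (‖β‖ ^ 2) ^ m = (q : ℝ) ^ m := by
        rw [← pow_mul, ← norm_pow, hβm, norm_pow, Complex.norm_natCast]
      exact (pow_left_inj₀ (by positivity) (by positivity) hm).mp h1

/-- No two members form a Tate pair. -/
def NoPair (q : ℕ) (s : Multiset ℂ) : Prop :=
  ∀ (α β : ℂ) (t : Multiset ℂ), s = α ::ₘ β ::ₘ t → ¬ IsTate q {α, β}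

theorem NoPair.not_mem {s : Multiset ℂ} (hq : q ≠ 0) (h : NoPair q s) {x : ℂ} (hx : x ∈ s)
    (hW : IsWeil q x) (hne : (q : ℂ) / x ≠ x) : (q : ℂ) / x ∉ s := by
  intro hx'
  obtain ⟨t, rfl⟩ := Multiset.exists_cons_of_mem hx
  rw [Multiset.mem_cons] at hx'
  rcases hx' with h1 | h1
  · exact hne h1
  · obtain ⟨t', rfl⟩ := Multiset.exists_cons_of_mem h1
    exact h _ _ _ rfl (isTate_pair hq hW)

theorem facts_of_root {s : Multiset ℂ} (hT : ∀ x ∈ s, IsWeil q x) {R : ℚ[X]}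
    (hroot : ∀ z : ℂ, aeval z R = 0 ↔ ∃ x ∈ s, ¬ Supersingular q x ∧ IsConjRoot ℚ x z) :
    (∀ z : ℂ, aeval z R = 0 → ‖z‖ ^ 2 = q) ∧ (∀ z : ℂ, aeval z R = 0 → IsIntegral ℤ z) ∧
    (∀ z : ℂ, aeval z R = 0 → ∀ n : ℕ, n ≠ 0 → z ^ (2 * n) ≠ (q : ℂ) ^ n) := by
  refine ⟨?_, ?_, ?_⟩
  · intro z hz
    obtain ⟨x, hx, _, hxz⟩ := (hroot z).mp hz
    exact (hT x hx).2 z hxz
  · intro z hz
    obtain ⟨x, hx, _, hxz⟩ := (hroot z).mp hz
    exact ((hT x hx).of_isConjRoot hxz).1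
  · intro z hz n hn h
    obtain ⟨x, hx, hxn, hxz⟩ := (hroot z).mp hz
    exact hxn (Supersingular.of_isConjRoot ⟨n, hn, h⟩ hxz.symm)

/-- A member of dimension at least two leads to a Weil class. -/
theorem Good.large {f : ℕ} (hqp : q = p ^ f) (hq : q ≠ 0) {s : Multiset ℂ} (hs : Good p q s)
    (hnp : NoPair q s) {x : ℂ} (hx : x ∈ s) (hL : Large p q x) :
    ∃ (Φ t : Multiset ℂ) (w : ℂ), s = Φ + t ∧ Multiset.card Φ = 3 ∧ Gen p q (w ::ₘ Φ) ∧
      IsWeil q w ∧ (Ordinary p q w ∨ Supersingular q w) ∧ w * Φ.prod = q ^ 2 := by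
  classical
  have hq' : (q : ℂ) ≠ 0 := by exact_mod_cast hq
  have hWx := hs.tate.1 x hx
  have hxn := hL.not_supersingular hq hWx
  obtain ⟨R, hR0, hroot, m, hm, hLam⟩ := exists_setup hq hs.tate
  obtain ⟨hWR, hint, hns⟩ := facts_of_root hs.tate.1 hroot
  have h0 : ∀ x : R.rootSet (LF R), ((x : LF R) : ℂ) ≠ 0 := by
    intro x
    have := root_ne_zero hWR hq x
    simpa using this
  specialize hLam hq' h0
  obtain ⟨hsemi, htypes⟩ := hs.semiInv hqp hq hR0 hroot hWR hint hns (hq' := hq') (h0 := h0)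
  obtain ⟨y, hy⟩ := exists_root hR0 ((hroot x).mpr ⟨x, hx, hxn, rfl⟩)
  have hxy : IsConjRoot ℚ x ((y : LF R) : ℂ) := by rw [hy]
  set r : R.rootSet (LF R) → ℤ := fun y => ((m * s.count ((y : LF R) : ℂ) : ℕ) : ℤ) -
    ((m * s.count (((iota R • y : R.rootSet (LF R)) : LF R) : ℂ) : ℕ) : ℤ) with hr
  have hrval : ∀ y, 0 < r y → ((y : LF R) : ℂ) ∈ s := by
    intro y hy
    by_contra hcon
    have h1 : s.count ((y : LF R) : ℂ) = 0 := Multiset.count_eq_zero_of_notMem hcon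
    simp only [hr, h1, mul_zero, Nat.cast_zero, zero_sub] at hy
    have : (0 : ℤ) ≤ ((m * s.count (((iota R • y : R.rootSet (LF R)) : LF R) : ℂ) : ℕ) : ℤ) :=
      Int.natCast_nonneg _
    omega
  have hxne : (q : ℂ) / x ≠ x := by
    intro h
    apply hxn
    refine ⟨1, one_ne_zero, ?_⟩
    rw [div_eq_iff (hWx.ne_zero hq)] at h
    rw [mul_one, pow_one, h]
    ring
  have hry : 0 < r y := by
    have h1 : s.count (((iota R • y : R.rootSet (LF R)) : LF R) : ℂ) = 0 := by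
      rw [coe_iota' hWR hq, hy]
      exact Multiset.count_eq_zero_of_notMem (hnp.not_mem hq hx hWx hxne)
    have h2 : 0 < s.count ((y : LF R) : ℂ) := by
      rw [hy]
      exact Multiset.count_pos.mpr hx
    simp only [hr, h1, mul_zero, Nat.cast_zero, sub_zero]
    have : 0 < m * s.count ((y : LF R) : ℂ) := Nat.mul_pos (Nat.pos_of_ne_zero hm) h2
    exact_mod_cast this
  have hSI := hsemi r hLam y
  rcases htypes y x hx hxy hL with h4 | ⟨l, hl2, hdeg, hl⟩
  · exfalso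
    have := hSI.eq_zero_of_four (hLam.1) h4 y (mem_orbit_self y)
    omega
  obtain ⟨Φ, hΦ, hΦm⟩ := half_of_semiInv (hLam.1) hSI hry.ne'
  have hHS := halfSystem_of_half hR0 hWR hq hxy hΦ
  rcases hl with ⟨rfl, hS3⟩ | hno
  swap
  · exact absurd hHS (hno _)
  have hmin : minpoly ℚ x = minpoly ℚ ((y : LF R) : ℂ) := hxy
  have hcard : Φ.card = 3 := hΦ.card hR0 hWR hq hdeg
  set Φ' : Finset ℂ := Φ.image fun y : R.rootSet (LF R) => ((y : LF R) : ℂ) with hΦ'
  have hcard' : Φ'.card = 3 := by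
    rw [hΦ', Finset.card_image_of_injective _ coe_injective, hcard]
  have hPΦ : ∏ z ∈ Φ', z = ((hprod Φ : LF R) : ℂ) := by
    rw [hΦ', Finset.prod_image coe_injective.injOn, hprod]
    exact (map_prod (algebraMap (LF R) ℂ) _ _).symm
  set P : ℂ := ((hprod Φ : LF R) : ℂ) with hP
  have hPQ : P * ((iota R (hprod Φ) : LF R) : ℂ) = (q : ℂ) ^ 3 := by
    have h1 := hprod_mul_iota hWR hq Φ
    rw [hcard] at h1
    have := congrArg (fun z : LF R => (z : ℂ)) h1
    simpa using this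
  have hP0 : P ≠ 0 := left_ne_zero_of_mul (by rw [hPQ]; exact pow_ne_zero _ hq')
  have hnormP : ‖P‖ ^ 2 = (q : ℝ) ^ 3 := by
    rw [coe_iota, Complex.mul_conj, Complex.normSq_eq_norm_sq] at hPQ
    exact_mod_cast hPQ
  have hle : Φ'.val ≤ s := by
    rw [Multiset.le_iff_subset Φ'.nodup]
    intro z hz
    have hz' : z ∈ Φ' := hz
    rw [hΦ', Finset.mem_image] at hz'
    obtain ⟨w, hw, rfl⟩ := hz'
    exact hrval w ((hΦm w).mp hw).2
  obtain ⟨t, ht⟩ := Multiset.le_iff_exists_add.mp hle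
  have hwP : (q : ℂ) ^ 2 / P * P = q ^ 2 := div_mul_cancel₀ _ hP0
  have hnw : ‖(q : ℂ) ^ 2 / P‖ ^ 2 = q := by
    rw [norm_div, div_pow, hnormP, norm_pow, Complex.norm_natCast]
    have : (q : ℝ) ≠ 0 := by exact_mod_cast hq
    field_simp
  have hsmall : Ordinary p q ((q : ℂ) ^ 2 / P) ∨ Supersingular q ((q : ℂ) ^ 2 / P) := by
    rcases hΦ.alternative hR0 hq hWR hint hqp (by rw [← hmin]; exact hS3.2.2) with
      h | ⟨a, c, ha, hc, hb⟩
    · right
      rw [hcard] at h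
      refine ⟨12, by norm_num, ?_⟩
      have h1 : P ^ 24 = (q : ℂ) ^ 36 := h
      rw [div_pow, show 2 * 12 = 24 by norm_num, h1, div_eq_iff (pow_ne_zero _ hq')]
      ring
    · left
      rw [hcard] at ha
      have ha2 : a = 0 ∨ a = 1 := by omega
      rcases ha2 with rfl | rfl
      · exfalso
        rw [pow_zero, one_mul] at hb
        obtain ⟨u, hu, v, hv, huv⟩ := Finset.one_lt_card.mp (by rw [hcard]; norm_num : 1 < Φ.card)
        obtain ⟨n, hn, h⟩ := Half.pow_eq hR0 hq hWR hint (Fact.out : p.Prime) hqp hc hb hu hv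
        have hxint : IsIntegral ℚ x := hWx.1.tower_top
        have hxu : IsConjRoot ℚ x ((u : LF R) : ℂ) :=
          hxy.trans ((mem_orbit_iff_isConjRoot y u).mp (hΦ.sub u hu))
        have hxv : IsConjRoot ℚ x ((v : LF R) : ℂ) :=
          hxy.trans ((mem_orbit_iff_isConjRoot y v).mp (hΦ.sub v hv))
        exact (hL.distinct.of_isConjRoot hxint hxu) _ (hxu.symm.trans hxv)
          (fun h => huv (coe_injective h.symm)) n hn h
      · refine ⟨c, hc, ?_⟩
        have h1 : P + ((iota R (hprod Φ) : LF R) : ℂ) = q * c := by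
          have := congrArg (fun z : LF R => (z : ℂ)) hb
          simpa using this
        have h2 : P ^ 2 + (q : ℂ) ^ 3 = q * c * P := by
          rw [← hPQ, ← h1]
          ring
        have h3 : ((q : ℂ) ^ 2 / P) ^ 2 - c * ((q : ℂ) ^ 2 / P) + q =
            (q / P ^ 2) * (P ^ 2 + (q : ℂ) ^ 3 - q * c * P) := by
          field_simp
          ring
        rw [h3, h2, sub_self, mul_zero]
  have hWw : IsWeil q ((q : ℂ) ^ 2 / P) := isWeil_of_small hq hnw hsmall
  refine ⟨Φ'.val, t, (q : ℂ) ^ 2 / P, ht, hcard', ?_, hWw, hsmall, ?_⟩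
  · exact Gen.weil x _ Φ' hWx hS3 hHS hsmall (by rw [hPΦ, hwP])
  · have h1 : Φ'.val.prod = ∏ z ∈ Φ', z := by
      rw [Finset.prod_eq_multiset_prod, Multiset.map_id']
    rw [h1, hPΦ, hwP]

/-! ### Small members -/

theorem sum_le_card (t : Multiset ℂ) (g : ℂ → ℤ) (P : ℂ → Prop) [DecidablePred P]
    (h : ∀ a ∈ t, g a ≤ if P a then 1 else 0) :
    (t.map g).sum ≤ Multiset.card (t.filter P) := by
  induction t using Multiset.induction_on with
  | empty => simp
  | cons a t ih =>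
    have h1 := h a (Multiset.mem_cons_self _ _)
    have h2 := ih fun b hb => h b (Multiset.mem_cons_of_mem hb)
    rw [Multiset.map_cons, Multiset.sum_cons]
    by_cases ha : P a
    · rw [Multiset.filter_cons_of_pos _ ha, Multiset.card_cons]
      rw [if_pos ha] at h1
      push_cast
      omega
    · rw [Multiset.filter_cons_of_neg _ ha]
      rw [if_neg ha] at h1
      omega

theorem sum_nonneg (t : Multiset ℂ) (g : ℂ → ℤ) (h : ∀ a ∈ t, 0 ≤ g a) : 0 ≤ (t.map g).sum := by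
  apply Multiset.sum_nonneg
  intro x hx
  obtain ⟨a, ha, rfl⟩ := Multiset.mem_map.mp hx
  exact h a ha

/-- Weights `±1`, `±3` with sum zero. -/
theorem exists_four (s : Multiset ℂ) (K : ℂ → ℤ) (hsum : (s.map K).sum = 0)
    (hK : ∀ a ∈ s, K a = 0 ∨ K a = 1 ∨ K a = -1 ∨ K a = 3 ∨ K a = -3)
    (hnp : ∀ (a b : ℂ) (t : Multiset ℂ), s = a ::ₘ b ::ₘ t → K a ≠ 0 → K a + K b ≠ 0)
    {x : ℂ} (hx : x ∈ s) (hKx : K x ≠ 0) :
    ∃ (ε : ℤ) (w x₁ x₂ x₃ : ℂ) (t : Multiset ℂ), (ε = 1 ∨ ε = -1) ∧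
      s = {x₁, x₂, x₃, w} + t ∧ K w = -3 * ε ∧ K x₁ = ε ∧ K x₂ = ε ∧ K x₃ = ε := by
  classical
  by_cases h3 : ∃ w ∈ s, K w = 3 ∨ K w = -3
  · obtain ⟨w, hw, hKw⟩ := h3
    obtain ⟨t, rfl⟩ := Multiset.exists_cons_of_mem hw
    obtain ⟨ε, hε, hKw'⟩ : ∃ ε : ℤ, (ε = 1 ∨ ε = -1) ∧ K w = -3 * ε := by
      rcases hKw with h | h
      · exact ⟨-1, Or.inr rfl, by rw [h]; norm_num⟩
      · exact ⟨1, Or.inl rfl, by rw [h]; norm_num⟩
    rw [Multiset.map_cons, Multiset.sum_cons] at hsum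
    have h1 : (t.map fun a => ε * K a).sum ≤ Multiset.card (t.filter fun a => K a = ε) := by
      apply sum_le_card
      intro a ha
      obtain ⟨u, rfl⟩ := Multiset.exists_cons_of_mem ha
      have h4 := hnp w a u rfl (by rcases hε with rfl | rfl <;> rw [hKw'] <;> norm_num)
      have h5 := hK a (Multiset.mem_cons_of_mem (Multiset.mem_cons_self _ _))
      split_ifs with h6
      · rcases hε with rfl | rfl <;> rw [h6] <;> norm_num
      · rcases hε with rfl | rfl <;> omega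
    have h2 : (t.map fun a => ε * K a).sum = 3 := by
      rw [Multiset.sum_map_mul_left]
      rcases hε with rfl | rfl <;> omega
    have h4 : 3 ≤ Multiset.card (t.filter fun a => K a = ε) := by
      rw [h2] at h1
      exact_mod_cast h1
    obtain ⟨v, hv, hvc⟩ : ∃ v ≤ t.filter (fun a => K a = ε), Multiset.card v = 3 := by
      have h5 : 0 < Multiset.card (Multiset.powersetCard 3 (t.filter fun a => K a = ε)) := by
        rw [Multiset.card_powersetCard]
        exact Nat.choose_pos h4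
      obtain ⟨v, hv⟩ := Multiset.card_pos_iff_exists_mem.mp h5
      exact ⟨v, Multiset.mem_powersetCard.mp hv⟩
    obtain ⟨x₁, x₂, x₃, rfl⟩ := Multiset.card_eq_three.mp hvc
    have hmem : ∀ a ∈ ({x₁, x₂, x₃} : Multiset ℂ), K a = ε := fun a ha =>
      (Multiset.mem_filter.mp (Multiset.mem_of_le hv ha)).2
    obtain ⟨t', rfl⟩ := Multiset.le_iff_exists_add.mp (hv.trans (Multiset.filter_le _ _))
    refine ⟨ε, w, x₁, x₂, x₃, t', hε, ?_, hKw', hmem _ (by simp), hmem _ (by simp),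
      hmem _ (by simp)⟩
    simp only [Multiset.insert_eq_cons, ← Multiset.singleton_add]
    abel
  · exfalso
    push Not at h3
    obtain ⟨t, rfl⟩ := Multiset.exists_cons_of_mem hx
    rw [Multiset.map_cons, Multiset.sum_cons] at hsum
    have hKx' : K x = 1 ∨ K x = -1 := by
      have h1 := hK x (Multiset.mem_cons_self _ _)
      have h2 := h3 x (Multiset.mem_cons_self _ _)
      omega
    have h1 : 0 ≤ (t.map fun a => K x * K a).sum := by
      apply sum_nonneg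
      intro a ha
      obtain ⟨u, rfl⟩ := Multiset.exists_cons_of_mem ha
      have h4 := hnp x a u rfl hKx
      have h5 := hK a (Multiset.mem_cons_of_mem (Multiset.mem_cons_self _ _))
      have h6 := h3 a (Multiset.mem_cons_of_mem (Multiset.mem_cons_self _ _))
      rcases hKx' with h | h <;> rw [h] at h4 ⊢ <;> omega
    rw [Multiset.sum_map_mul_left] at h1
    rcases hKx' with h | h <;> rw [h] at h1 hsum <;> omega

omit [Fact p.Prime] in
theorem Ordinary.div {w : ℂ} (hw : w ≠ 0) (h : Ordinary p q w) : Ordinary p q (q / w) := by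
  obtain ⟨a, ha, h⟩ := h
  refine ⟨a, ha, ?_⟩
  have h1 : ((q : ℂ) / w) ^ 2 - a * (q / w) + q = (q / w ^ 2) * (w ^ 2 - a * w + q) := by
    field_simp
    ring
  rw [h1, h, mul_zero]

omit [Fact p.Prime] in
theorem Cubic.div (hq : q ≠ 0) {x : ℂ} (hW : IsWeil q x) (h : Cubic p q x) :
    Cubic p q (q / x) := by
  have hq' : (q : ℂ) ≠ 0 := by exact_mod_cast hq
  have hx0 := hW.ne_zero hq
  obtain ⟨hdeg, w, hw, hx⟩ := h
  have hw0 : w ≠ 0 := by
    rintro rfl
    rw [mul_zero] at hx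
    exact hx0 (pow_eq_zero_iff (three_ne_zero) |>.mp hx)
  refine ⟨?_, q / w, hw.div hw0, ?_⟩
  · have h1 : minpoly ℚ x = minpoly ℚ ((q : ℂ) / x) := hW.isConjRoot hq
    rw [← h1, hdeg]
  · rw [div_pow, hx]
    field_simp

omit [Fact p.Prime] in
theorem Ordinary.add_eq {w : ℂ} (hw : w ≠ 0) {a : ℤ} (h : w ^ 2 - a * w + q = 0) :
    w + q / w = a := by
  field_simp
  linear_combination h

theorem isIntegral_of_quadratic {w : ℂ} {a : ℤ} (h : w ^ 2 - a * w + q = 0) :
    IsIntegral ℤ w := by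
  have hmon : (X ^ 2 - C a * X + C (q : ℤ) : ℤ[X]).Monic := by monicity!
  refine ⟨X ^ 2 - C a * X + C (q : ℤ), hmon, ?_⟩
  rw [← aeval_def, map_add, map_sub, map_mul, map_pow, aeval_X, aeval_C, aeval_C]
  simpa using h

omit [Fact p.Prime] in
/-- The ordinary Weil number in the field of a small root. -/
theorem exists_ordinary (hq : q ≠ 0) {R : ℚ[X]}
    (hWR : ∀ z : ℂ, aeval z R = 0 → ‖z‖ ^ 2 = q)
    (hint : ∀ z : ℂ, aeval z R = 0 → IsIntegral ℤ z) (y : R.rootSet (LF R))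
    (hy : Ordinary p q ((y : LF R) : ℂ) ∨ Cubic p q ((y : LF R) : ℂ)) :
    ∃ (A A' : LF R) (a : ℤ), IsIntegral ℤ A ∧ IsIntegral ℤ A' ∧ iota R A = A' ∧
      A * A' = q ∧ A + A' = a ∧ ¬ (p : ℤ) ∣ a ∧
      (∀ g : LF R ≃ₐ[ℚ] LF R, g • y = y → g A = A ∧ g A' = A') ∧
      (∀ g : LF R ≃ₐ[ℚ] LF R, g • y = iota R • y → g A = A' ∧ g A' = A) ∧
      ((Ordinary p q ((y : LF R) : ℂ) ∧ (A : ℂ) = ((y : LF R) : ℂ)) ∨
        (Cubic p q ((y : LF R) : ℂ) ∧ ((y : LF R) : ℂ) ^ 3 = q * (A : ℂ))) := by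
  have hq' : (q : ℂ) ≠ 0 := by exact_mod_cast hq
  have hqL : (q : LF R) ≠ 0 := by exact_mod_cast hq
  have hy0 := root_ne_zero hWR hq y
  have hy0C : ((y : LF R) : ℂ) ≠ 0 := by simpa using hy0
  set y' : R.rootSet (LF R) := iota R • y with hy'
  have hy'val : (y' : LF R) = q / y := coe_iota_smul hWR hq y
  have hιy : iota R (y : LF R) = (y' : LF R) := rfl
  have hιy' : iota R (y' : LF R) = (y : LF R) := iota_apply_iota _
  have hg1 : ∀ g : LF R ≃ₐ[ℚ] LF R, g • y = y → g (y : LF R) = y ∧ g (y' : LF R) = y' := by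
    intro g hg
    have h1 : g (y : LF R) = y := congrArg Subtype.val hg
    refine ⟨h1, ?_⟩
    rw [hy'val, map_div₀, map_natCast, h1]
  have hg2 : ∀ g : LF R ≃ₐ[ℚ] LF R, g • y = y' → g (y : LF R) = y' ∧ g (y' : LF R) = y := by
    intro g hg
    have h1 : g (y : LF R) = y' := congrArg Subtype.val hg
    refine ⟨h1, ?_⟩
    rw [hy'val, map_div₀, map_natCast, h1, hy'val, div_div_cancel₀ hqL]
  rcases hy with h | h
  · obtain ⟨a, ha, hya⟩ := id h
    refine ⟨y, y', a, isIntegral_root hint y, isIntegral_root hint y', hιy, ?_, ?_, ha, hg1, hg2,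
      Or.inl ⟨h, rfl⟩⟩
    · rw [hy'val, mul_div_cancel₀ _ hy0]
    · apply Subtype.ext
      have h1 := Ordinary.add_eq hy0C hya
      have h2 : (((y : LF R) + (y' : LF R) : LF R) : ℂ) = ((y : LF R) : ℂ) + q / ((y : LF R) : ℂ) := by
        rw [hy'val]
        push_cast
        rfl
      rw [h2, h1]
      push_cast
      rfl
  · obtain ⟨hdeg, w, ⟨a, ha, hwa⟩, hyw⟩ := id h
    have hw0 : w ≠ 0 := by
      rintro rfl
      rw [mul_zero] at hyw
      exact hy0C (pow_eq_zero_iff (three_ne_zero) |>.mp hyw)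
    have hA : (((y : LF R) ^ 3 / q : LF R) : ℂ) = w := by
      push_cast
      rw [hyw, mul_div_cancel_left₀ _ hq']
    have hA' : (((y' : LF R) ^ 3 / q : LF R) : ℂ) = q / w := by
      rw [hy'val]
      push_cast
      rw [div_pow, hyw]
      field_simp
    refine ⟨(y : LF R) ^ 3 / q, (y' : LF R) ^ 3 / q, a, ?_, ?_, ?_, ?_, ?_, ha, ?_, ?_,
      Or.inr ⟨h, ?_⟩⟩
    · apply (isIntegral_algebraMap_iff (algebraMap (LF R) ℂ).injective).mp
      have : algebraMap (LF R) ℂ ((y : LF R) ^ 3 / q) = w := hA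
      rw [this]
      exact isIntegral_of_quadratic hwa
    · apply (isIntegral_algebraMap_iff (algebraMap (LF R) ℂ).injective).mp
      have : algebraMap (LF R) ℂ ((y' : LF R) ^ 3 / q) = q / w := hA'
      rw [this]
      have h1 : ((q : ℂ) / w) ^ 2 - a * (q / w) + q = 0 := by
        have h2 : ((q : ℂ) / w) ^ 2 - a * (q / w) + q = (q / w ^ 2) * (w ^ 2 - a * w + q) := by
          field_simp
          ring
        rw [h2, hwa, mul_zero]
      exact isIntegral_of_quadratic h1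
    · rw [map_div₀, map_pow, map_natCast, hιy]
    · apply Subtype.ext
      have h1 : ((((y : LF R) ^ 3 / q) * ((y' : LF R) ^ 3 / q) : LF R) : ℂ) = w * (q / w) := by
        rw [← hA', ← hA]
        rfl
      rw [h1, mul_div_cancel₀ _ hw0]
      rfl
    · apply Subtype.ext
      have h1 : ((((y : LF R) ^ 3 / q) + ((y' : LF R) ^ 3 / q) : LF R) : ℂ) = w + q / w := by
        rw [← hA', ← hA]
        rfl
      rw [h1, Ordinary.add_eq hw0 hwa]
      push_cast
      rfl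
    · intro g hg
      obtain ⟨h1, h2⟩ := hg1 g hg
      rw [map_div₀, map_pow, map_natCast, h1, map_div₀, map_pow, map_natCast, h2]
      exact ⟨rfl, rfl⟩
    · intro g hg
      obtain ⟨h1, h2⟩ := hg2 g hg
      rw [map_div₀, map_pow, map_natCast, h1, map_div₀, map_pow, map_natCast, h2]
      exact ⟨rfl, rfl⟩
    · rw [hA, hyw]

/-- The weight of a root in the field of `x₀`. -/
theorem exists_weight {f : ℕ} (hqp : q = p ^ f) (hq : q ≠ 0) {R : ℚ[X]}
    {A₀ A₀' : LF R} {a₀ : ℤ} (hA₀ : IsIntegral ℤ A₀) (hA₀' : IsIntegral ℤ A₀')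
    (hι₀ : iota R A₀ = A₀') (hm₀ : A₀ * A₀' = q) (hs₀ : A₀ + A₀' = a₀) (hp₀ : ¬ (p : ℤ) ∣ a₀)
    (y : R.rootSet (LF R)) {A A' : LF R} {a : ℤ} (hA : IsIntegral ℤ A) (hA' : IsIntegral ℤ A')
    (hι : iota R A = A') (hm : A * A' = q) (hs : A + A' = a) (hp : ¬ (p : ℤ) ∣ a)
    (hfix : ∀ g : LF R ≃ₐ[ℚ] LF R, (g A = A ∧ g A' = A' ∧ g A₀ = A₀ ∧ g A₀' = A₀') ∨
      (g A = A' ∧ g A' = A ∧ g A₀ = A₀' ∧ g A₀' = A₀))
    (hkind : (Ordinary p q ((y : LF R) : ℂ) ∧ (A : ℂ) = ((y : LF R) : ℂ)) ∨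
        (Cubic p q ((y : LF R) : ℂ) ∧ ((y : LF R) : ℂ) ^ 3 = q * (A : ℂ))) :
    ∃ k : ℤ, (((y : LF R) : ℂ) ^ 2 / (q : ℂ)) ^ 36 = ((A₀ : ℂ) ^ 2 / (q : ℂ)) ^ (12 * k) ∧
      (((k = 1 ∨ k = -1) ∧ Cubic p q ((y : LF R) : ℂ)) ∨
        ((k = 3 ∨ k = -3) ∧ Ordinary p q ((y : LF R) : ℂ))) := by
  have hq' : (q : ℂ) ≠ 0 := by exact_mod_cast hq
  have hAC : (A₀ : ℂ) * (A₀' : ℂ) = q := by
    have := congrArg (fun z : LF R => (z : ℂ)) hm₀
    simpa using this
  have hA0 : (A₀ : ℂ) ≠ 0 := left_ne_zero_of_mul (by rw [hAC]; exact hq')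
  set V : ℂ := (A₀ : ℂ) ^ 2 / (q : ℂ) with hV
  have hV0 : V ≠ 0 := div_ne_zero (pow_ne_zero _ hA0) hq'
  obtain ⟨ε, hε, hW12⟩ : ∃ ε : ℤ, (ε = 1 ∨ ε = -1) ∧ ((A : ℂ) ^ 2 / (q : ℂ)) ^ 12 = V ^ (12 * ε) := by
    rcases compare_ordinary hq (Fact.out : p.Prime) hqp hA hA' hA₀ hA₀' hι hι₀ hm hm₀ hs hs₀ hp hp₀
      hfix with h | h
    · refine ⟨1, Or.inl rfl, ?_⟩
      have h1 : V ^ (12 * 1 : ℤ) = V ^ 12 := by norm_cast
      rw [h1, hV, div_pow, div_pow, ← pow_mul, ← pow_mul, mul_comm 2 12, pow_mul, h, ← pow_mul]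
    · refine ⟨-1, Or.inr rfl, ?_⟩
      have h1 : V ^ (12 * -1 : ℤ) = (V ^ 12)⁻¹ := by
        rw [show (12 * -1 : ℤ) = -(12 : ℕ) by norm_num, zpow_neg, zpow_natCast]
      rw [h1]
      apply eq_inv_of_mul_eq_one_left
      rw [← mul_pow, hV]
      have h2 : (A : ℂ) ^ 2 / (q : ℂ) * ((A₀ : ℂ) ^ 2 / (q : ℂ)) = ((A : ℂ) * A₀) ^ 2 / (q : ℂ) ^ 2 := by
        field_simp
      rw [h2, div_pow, ← pow_mul, ← pow_mul, mul_comm 2 12, pow_mul, h, ← pow_mul,
        div_self (pow_ne_zero _ hq')]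
  rcases hkind with ⟨ho, hAy⟩ | ⟨hc, hy3⟩
  · refine ⟨3 * ε, ?_, Or.inr ⟨by omega, ho⟩⟩
    rw [← hAy, show 36 = 12 * 3 by norm_num, pow_mul, hW12, ← zpow_natCast, ← zpow_mul]
    congr 1
    push_cast
    ring
  · refine ⟨ε, ?_, Or.inl ⟨hε, hc⟩⟩
    have h1 : (((y : LF R) : ℂ) ^ 2 / (q : ℂ)) ^ 3 = (A : ℂ) ^ 2 / (q : ℂ) := by
      rw [div_pow, ← pow_mul, mul_comm 2 3, pow_mul, hy3]
      field_simp
    rw [show 36 = 3 * 12 by norm_num, pow_mul, h1, hW12]

theorem sum_map_eq {R : ℚ[X]} (s : Multiset ℂ) (K : ℂ → ℤ) (κ : R.rootSet (LF R) → ℤ)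
    (hK : ∀ y : R.rootSet (LF R), K ((y : LF R) : ℂ) = κ y)
    (hK0 : ∀ z : ℂ, (∀ y : R.rootSet (LF R), ((y : LF R) : ℂ) ≠ z) → K z = 0) [DecidableEq ℂ] :
    (s.map K).sum = ∑ y : R.rootSet (LF R), κ y * s.count ((y : LF R) : ℂ) := by
  induction s using Multiset.induction_on with
  | empty => simp
  | cons a s ih =>
    rw [Multiset.map_cons, Multiset.sum_cons, ih]
    simp only [Multiset.count_cons, Nat.cast_add, mul_add, Finset.sum_add_distrib]
    rw [add_comm]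
    congr 1
    by_cases h : ∃ y : R.rootSet (LF R), ((y : LF R) : ℂ) = a
    · obtain ⟨y, rfl⟩ := h
      rw [Finset.sum_eq_single y, if_pos rfl, hK]
      · simp
      · intro z _ hz
        rw [if_neg]
        · simp
        · intro h
          exact hz (coe_injective h)
      · intro h
        exact absurd (Finset.mem_univ y) h
    · push Not at h
      rw [hK0 a h]
      symm
      apply Finset.sum_eq_zero
      intro y _
      rw [if_neg (h y)]
      simp

theorem isTate_four (hq : q ≠ 0) {V : ℂ} (hV0 : V ≠ 0) {ε : ℤ} {a b c d : ℂ}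
    (ha : IsWeil q a) (hb : IsWeil q b) (hc : IsWeil q c) (hd : IsWeil q d)
    (ha' : (a ^ 2 / (q : ℂ)) ^ 36 = V ^ (12 * ε)) (hb' : (b ^ 2 / (q : ℂ)) ^ 36 = V ^ (12 * ε))
    (hc' : (c ^ 2 / (q : ℂ)) ^ 36 = V ^ (12 * ε))
    (hd' : (d ^ 2 / (q : ℂ)) ^ 36 = V ^ (12 * (-3 * ε))) : IsTate q {a, b, c, d} := by
  have hq' : (q : ℂ) ≠ 0 := by exact_mod_cast hq
  refine ⟨?_, 2, 72, rfl, by norm_num, ?_⟩
  · intro z hz
    simp only [Multiset.insert_eq_cons, Multiset.mem_cons, Multiset.mem_singleton] at hz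
    rcases hz with rfl | rfl | rfl | rfl
    · exact ha
    · exact hb
    · exact hc
    · exact hd
  · simp only [Multiset.insert_eq_cons, Multiset.prod_cons, Multiset.prod_singleton]
    have h1 : (a ^ 2 / (q : ℂ)) ^ 36 * (b ^ 2 / (q : ℂ)) ^ 36 * (c ^ 2 / (q : ℂ)) ^ 36 *
        (d ^ 2 / (q : ℂ)) ^ 36 = 1 := by
      rw [ha', hb', hc', hd', ← zpow_add₀ hV0, ← zpow_add₀ hV0, ← zpow_add₀ hV0]
      have h2 : 12 * ε + 12 * ε + 12 * ε + 12 * (-3 * ε) = 0 := by ring
      rw [h2, zpow_zero]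
    have h3 : (a * (b * (c * d))) ^ 72 = ((a ^ 2 / (q : ℂ)) ^ 36 * (b ^ 2 / (q : ℂ)) ^ 36 *
        (c ^ 2 / (q : ℂ)) ^ 36 * (d ^ 2 / (q : ℂ)) ^ 36) * (q : ℂ) ^ 144 := by
      field_simp
    rw [h3, h1, one_mul]

theorem isTate_two_of_weight (hq : q ≠ 0) {V : ℂ} (hV0 : V ≠ 0) {k j : ℤ} (hkj : k + j = 0)
    {a b : ℂ} (ha : IsWeil q a) (hb : IsWeil q b)
    (ha' : (a ^ 2 / (q : ℂ)) ^ 36 = V ^ (12 * k)) (hb' : (b ^ 2 / (q : ℂ)) ^ 36 = V ^ (12 * j)) :
    IsTate q {a, b} := by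
  have hq' : (q : ℂ) ≠ 0 := by exact_mod_cast hq
  apply isTate_two ha hb (n := 72) (by norm_num)
  have h1 : (a ^ 2 / (q : ℂ)) ^ 36 * (b ^ 2 / (q : ℂ)) ^ 36 = 1 := by
    rw [ha', hb', ← zpow_add₀ hV0, ← mul_add, hkj, mul_zero, zpow_zero]
  have h3 : (a * b) ^ 72 = ((a ^ 2 / (q : ℂ)) ^ 36 * (b ^ 2 / (q : ℂ)) ^ 36) * (q : ℂ) ^ 72 := by
    field_simp
  rw [h3, h1, one_mul]

/-- Members of dimension one, or with imaginary quadratic center. -/
theorem Good.small {f : ℕ} (hqp : q = p ^ f) (hq : q ≠ 0) {s : Multiset ℂ} (hs : Good p q s)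
    (hnp : NoPair q s)
    (hsm : ∀ x ∈ s, Supersingular q x ∨ (Ordinary p q x ∨ Cubic p q x)) {x : ℂ} (hx : x ∈ s)
    (hxn : ¬ Supersingular q x) :
    ∃ (x₁ x₂ x₃ w : ℂ) (t : Multiset ℂ), s = {x₁, x₂, x₃, w} + t ∧
      IsTate q {x₁, x₂, x₃, w} ∧ G0 p q {x₁, x₂, x₃, w} := by
  classical
  have hq' : (q : ℂ) ≠ 0 := by exact_mod_cast hq
  have hWx := hs.tate.1 x hx
  obtain ⟨R, hR0, hroot, m, hm, hLam⟩ := exists_setup hq hs.tate
  obtain ⟨hWR, hint, hns⟩ := facts_of_root hs.tate.1 hroot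
  have h0 : ∀ x : R.rootSet (LF R), ((x : LF R) : ℂ) ≠ 0 := by
    intro x
    have := root_ne_zero hWR hq x
    simpa using this
  specialize hLam hq' h0
  -- degrees and kinds
  have hdeg : ∀ y : R.rootSet (LF R), (minpoly ℚ ((y : LF R) : ℂ)).natDegree = 2 := by
    intro y
    obtain ⟨x, hx, hxn, hxy⟩ := (hroot _).mp (aeval_root y)
    have hmin : minpoly ℚ x = minpoly ℚ ((y : LF R) : ℂ) := hxy
    rw [← hmin]
    exact natDegree_small hq (hs.tate.1 x hx) hxn ((hsm x hx).resolve_left hxn)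
  have htwo : ∀ (y : R.rootSet (LF R)) (h : LF R ≃ₐ[ℚ] LF R), h • y = y ∨ h • y = iota R • y :=
    fun y h => orbit_two hR0 hWR hq hns y (hdeg y) _ (mem_orbit y h)
  have hkind : ∀ y : R.rootSet (LF R),
      Ordinary p q ((y : LF R) : ℂ) ∨ Cubic p q ((y : LF R) : ℂ) := by
    intro y
    obtain ⟨x, hx, hxn, hxy⟩ := (hroot _).mp (aeval_root y)
    have hWx := hs.tate.1 x hx
    have hkx := (hsm x hx).resolve_left hxn
    obtain ⟨x', rfl⟩ := exists_root hR0 ((hroot x).mpr ⟨x, hx, hxn, rfl⟩)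
    rcases orbit_two hR0 hWR hq hns x' (hdeg x') y ((mem_orbit_iff_isConjRoot x' y).mpr hxy) with
      rfl | rfl
    · exact hkx
    · rw [coe_iota' hWR hq]
      rcases hkx with h | h
      · exact Or.inl (h.div (h0 x'))
      · exact Or.inr (h.div hq hWx)
  obtain ⟨x', hx'⟩ := exists_root hR0 ((hroot x).mpr ⟨x, hx, hxn, rfl⟩)
  obtain ⟨A₀, A₀', a₀, hA₀, hA₀', hι₀, hm₀, hs₀, hp₀, hf₀, hf₀', hk₀⟩ :=
    exists_ordinary (p := p) hq hWR hint x' (hkind x')
  have hAC : (A₀ : ℂ) * (A₀' : ℂ) = q := by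
    have := congrArg (fun z : LF R => (z : ℂ)) hm₀
    simpa using this
  have hA0 : (A₀ : ℂ) ≠ 0 := left_ne_zero_of_mul (by rw [hAC]; exact hq')
  set V : ℂ := (A₀ : ℂ) ^ 2 / (q : ℂ) with hVdef
  have hV0 : V ≠ 0 := div_ne_zero (pow_ne_zero _ hA0) hq'
  have hVtor : ∀ j : ℤ, V ^ j = 1 → j = 0 := by
    intro j hj
    have hhat : ∀ i : ℤ, (((x' : LF R) : ℂ) ^ 2 / (q : ℂ)) ^ i = 1 → i = 0 := by
      intro i hi
      apply eq_zero_of_zpow (q := q) (hns _ (aeval_root x'))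
      rw [div_zpow, div_eq_one_iff_eq (zpow_ne_zero _ hq'), ← zpow_natCast, ← zpow_mul] at hi
      exact_mod_cast hi
    rcases hk₀ with ⟨_, h⟩ | ⟨_, h⟩
    · apply hhat
      rw [← h]
      exact hj
    · have h1 : V = (((x' : LF R) : ℂ) ^ 2 / (q : ℂ)) ^ 3 := by
        rw [hVdef, div_pow, ← pow_mul, mul_comm 2 3, pow_mul, h]
        field_simp
      rw [h1, ← zpow_natCast, ← zpow_mul] at hj
      have h2 := hhat _ hj
      push_cast at h2
      omega
  -- the weights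
  have hweight : ∀ y : R.rootSet (LF R), (∀ h : LF R ≃ₐ[ℚ] LF R, h • x' = x' → h • y = y) →
      ∃ k : ℤ, (((y : LF R) : ℂ) ^ 2 / (q : ℂ)) ^ 36 = V ^ (12 * k) ∧
      (((k = 1 ∨ k = -1) ∧ Cubic p q ((y : LF R) : ℂ)) ∨
        ((k = 3 ∨ k = -3) ∧ Ordinary p q ((y : LF R) : ℂ))) := by
    intro y hy
    obtain ⟨A, A', a, hA, hA', hι, hmA, hsA, hpA, hf, hf', hk⟩ :=
      exists_ordinary (p := p) hq hWR hint y (hkind y)
    refine exists_weight hqp hq hA₀ hA₀' hι₀ hm₀ hs₀ hp₀ y hA hA' hι hmA hsA hpA ?_ hk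
    intro g
    rcases htwo x' g with h | h
    · left
      obtain ⟨h1, h2⟩ := hf₀ g h
      obtain ⟨h3, h4⟩ := hf g (hy g h)
      exact ⟨h3, h4, h1, h2⟩
    · right
      obtain ⟨h1, h2⟩ := hf₀' g h
      have h5 : (iota R * g) • x' = x' := by rw [mul_smul, h, iota_iota hWR hq]
      have h6 := hy _ h5
      rw [mul_smul] at h6
      have h7 : g • y = iota R • y := by rw [← h6, iota_iota hWR hq, h6]
      obtain ⟨h3, h4⟩ := hf' g h7
      exact ⟨h3, h4, h1, h2⟩
  let κ : R.rootSet (LF R) → ℤ := fun y =>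
    if h : ∀ h : LF R ≃ₐ[ℚ] LF R, h • x' = x' → h • y = y then (hweight y h).choose else 0
  have hκ : ∀ y : R.rootSet (LF R), (∀ h : LF R ≃ₐ[ℚ] LF R, h • x' = x' → h • y = y) →
      (((y : LF R) : ℂ) ^ 2 / (q : ℂ)) ^ 36 = V ^ (12 * κ y) ∧
      (((κ y = 1 ∨ κ y = -1) ∧ Cubic p q ((y : LF R) : ℂ)) ∨
        ((κ y = 3 ∨ κ y = -3) ∧ Ordinary p q ((y : LF R) : ℂ))) := by
    intro y hy
    have h1 : κ y = (hweight y hy).choose := dif_pos hy
    rw [h1]
    exact (hweight y hy).choose_spec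
  have hκ0 : ∀ y : R.rootSet (LF R), ¬ (∀ h : LF R ≃ₐ[ℚ] LF R, h • x' = x' → h • y = y) →
      κ y = 0 := fun y hy => dif_neg hy
  have hκι : ∀ y : R.rootSet (LF R), κ (iota R • y) = - κ y := by
    intro y
    by_cases hy : ∀ h : LF R ≃ₐ[ℚ] LF R, h • x' = x' → h • y = y
    · have hιy : ∀ h : LF R ≃ₐ[ℚ] LF R, h • x' = x' → h • iota R • y = iota R • y := by
        intro h hh
        rw [smul_iota hWR hq, hy h hh]
      have h1 := (hκ y hy).1
      have h2 := (hκ _ hιy).1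
      rw [coe_iota' hWR hq] at h2
      have h3 : (((q : ℂ) / ((y : LF R) : ℂ)) ^ 2 / (q : ℂ)) = (((y : LF R) : ℂ) ^ 2 / (q : ℂ))⁻¹ := by
        have := h0 y
        field_simp
      rw [h3, inv_pow, h1] at h2
      have h4 : V ^ (12 * κ (iota R • y) + 12 * κ y) = 1 := by
        rw [zpow_add₀ hV0, ← h2, inv_mul_cancel₀ (zpow_ne_zero _ hV0)]
      have h5 := hVtor _ h4
      omega
    · have hιy : ¬ ∀ h : LF R ≃ₐ[ℚ] LF R, h • x' = x' → h • iota R • y = iota R • y := by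
        intro h
        apply hy
        intro g hg
        have h1 := h g hg
        rw [smul_iota hWR hq] at h1
        exact smul_left_cancel _ h1
      rw [hκ0 y hy, hκ0 _ hιy, neg_zero]
  have hsum := sum_weights hWR hq hLam x' hVtor hV0 κ (fun y hy => (hκ y hy).1) hκ0 htwo
  have hsum' : ∑ y : R.rootSet (LF R), κ y * (s.count ((y : LF R) : ℂ) : ℤ) = 0 := by
    have h1 : ∑ y : R.rootSet (LF R), κ y *
        (s.count (((iota R • y : R.rootSet (LF R)) : LF R) : ℂ) : ℤ) =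
        - ∑ y : R.rootSet (LF R), κ y * (s.count ((y : LF R) : ℂ) : ℤ) := by
      rw [← Equiv.sum_comp (MulAction.toPerm (iota R)) (fun y : R.rootSet (LF R) =>
        κ y * (s.count (((iota R • y : R.rootSet (LF R)) : LF R) : ℂ) : ℤ)),
        ← Finset.sum_neg_distrib]
      refine Finset.sum_congr rfl fun y _ => ?_
      rw [MulAction.toPerm_apply, iota_iota hWR hq, hκι]
      ring
    have h2 : ∑ y : R.rootSet (LF R), κ y * (((m * s.count ((y : LF R) : ℂ) : ℕ) : ℤ) -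
        ((m * s.count (((iota R • y : R.rootSet (LF R)) : LF R) : ℂ) : ℕ) : ℤ)) =
        2 * m * ∑ y : R.rootSet (LF R), κ y * (s.count ((y : LF R) : ℂ) : ℤ) := by
      have h3 : ∀ y : R.rootSet (LF R), κ y * (((m * s.count ((y : LF R) : ℂ) : ℕ) : ℤ) -
        ((m * s.count (((iota R • y : R.rootSet (LF R)) : LF R) : ℂ) : ℕ) : ℤ)) =
          m * (κ y * (s.count ((y : LF R) : ℂ) : ℤ)) - m * (κ y *
          (s.count (((iota R • y : R.rootSet (LF R)) : LF R) : ℂ) : ℤ)) := by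
        intro y
        push_cast
        ring
      rw [Finset.sum_congr rfl fun y _ => h3 y, Finset.sum_sub_distrib, ← Finset.mul_sum,
        ← Finset.mul_sum, h1]
      ring
    rw [h2] at hsum
    have hm' : (2 * m : ℤ) ≠ 0 := by
      have : (m : ℤ) ≠ 0 := by exact_mod_cast hm
      omega
    exact (mul_eq_zero.mp hsum).resolve_left hm'
  -- the weights of the members of `s`
  let K : ℂ → ℤ := fun z =>
    if h : ∃ y : R.rootSet (LF R), ((y : LF R) : ℂ) = z then κ h.choose else 0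
  have hK : ∀ y : R.rootSet (LF R), K ((y : LF R) : ℂ) = κ y := by
    intro y
    have h1 : ∃ z : R.rootSet (LF R), ((z : LF R) : ℂ) = ((y : LF R) : ℂ) := ⟨y, rfl⟩
    have h2 : K ((y : LF R) : ℂ) = κ h1.choose := dif_pos h1
    rw [h2]
    congr 1
    exact coe_injective h1.choose_spec
  have hK0 : ∀ z : ℂ, (∀ y : R.rootSet (LF R), ((y : LF R) : ℂ) ≠ z) → K z = 0 := by
    intro z hz
    apply dif_neg
    rintro ⟨y, hy⟩
    exact hz y hy
  have hKfact : ∀ z : ℂ, K z ≠ 0 → (z ^ 2 / (q : ℂ)) ^ 36 = V ^ (12 * K z) ∧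
      (((K z = 1 ∨ K z = -1) ∧ Cubic p q z) ∨ ((K z = 3 ∨ K z = -3) ∧ Ordinary p q z)) := by
    intro z hz
    by_cases h : ∃ y : R.rootSet (LF R), ((y : LF R) : ℂ) = z
    · obtain ⟨y, rfl⟩ := h
      rw [hK] at hz ⊢
      by_cases hy : ∀ h : LF R ≃ₐ[ℚ] LF R, h • x' = x' → h • y = y
      · exact hκ y hy
      · exact absurd (hκ0 y hy) hz
    · push Not at h
      exact absurd (hK0 z h) hz
  have hKx : K x ≠ 0 := by
    rw [← hx', hK]
    rcases (hκ x' fun h hh => hh).2 with ⟨h | h, _⟩ | ⟨h | h, _⟩ <;> rw [h] <;> norm_num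
  obtain ⟨ε, w, x₁, x₂, x₃, t, hε, hst, hKw, hK1, hK2, hK3⟩ := exists_four s K
    (by rw [sum_map_eq s K κ hK hK0]; exact hsum') (by
      intro a _
      by_cases h : K a = 0
      · left; exact h
      · rcases (hKfact a h).2 with ⟨h | h, _⟩ | ⟨h | h, _⟩ <;> omega) (by
      intro a b t hab hKa hKab
      have hKb : K b ≠ 0 := by omega
      refine hnp a b t hab (isTate_two_of_weight hq hV0 hKab (hs.tate.1 a ?_) (hs.tate.1 b ?_)
        (hKfact a hKa).1 (hKfact b hKb).1)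
      · rw [hab]; exact Multiset.mem_cons_self _ _
      · rw [hab]; exact Multiset.mem_cons_of_mem (Multiset.mem_cons_self _ _)) hx hKx
  have hmem : ∀ z ∈ ({x₁, x₂, x₃, w} : Multiset ℂ), IsWeil q z := fun z hz =>
    hs.tate.1 z (by rw [hst]; exact Multiset.mem_add.mpr (Or.inl hz))
  have hW1 : IsWeil q x₁ := hmem _ (by simp)
  have hW2 : IsWeil q x₂ := hmem _ (by simp)
  have hW3 : IsWeil q x₃ := hmem _ (by simp)
  have hWw : IsWeil q w := hmem _ (by simp)
  have hf : ∀ z, K z = ε → (z ^ 2 / (q : ℂ)) ^ 36 = V ^ (12 * ε) ∧ Cubic p q z := by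
    intro z hz
    have hz0 : K z ≠ 0 := by rcases hε with h | h <;> rw [hz, h] <;> norm_num
    obtain ⟨h1, h2⟩ := hKfact z hz0
    rw [hz] at h1 h2
    refine ⟨h1, ?_⟩
    rcases h2 with ⟨_, h⟩ | ⟨h | h, _⟩
    · exact h
    · omega
    · omega
  have hfw : (w ^ 2 / (q : ℂ)) ^ 36 = V ^ (12 * (-3 * ε)) ∧ Ordinary p q w := by
    have hz0 : K w ≠ 0 := by rcases hε with h | h <;> rw [hKw, h] <;> norm_num
    obtain ⟨h1, h2⟩ := hKfact w hz0
    rw [hKw] at h1 h2
    refine ⟨h1, ?_⟩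
    rcases h2 with ⟨h | h, _⟩ | ⟨_, h⟩
    · omega
    · omega
    · exact h
  obtain ⟨h1, hc1⟩ := hf x₁ hK1
  obtain ⟨h2, hc2⟩ := hf x₂ hK2
  obtain ⟨h3, hc3⟩ := hf x₃ hK3
  refine ⟨x₁, x₂, x₃, w, t, hst, isTate_four hq hV0 hW1 hW2 hW3 hWw h1 h2 h3 hfw.1, ?_⟩
  -- generation
  have hG1 : G0 p q {x₁, x₁, x₁, w} := Or.inr (Gen.cubic x₁ w hW1 hWw hc1 hfw.2
    (isTate_four hq hV0 hW1 hW1 hW1 hWw h1 h1 h1 hfw.1))
  have hinv : ((((q : ℂ) / x₁) ^ 2 / (q : ℂ)) ^ 36) = V ^ (12 * (-ε)) := by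
    have h4 : (((q : ℂ) / x₁) ^ 2 / (q : ℂ)) = (x₁ ^ 2 / (q : ℂ))⁻¹ := by
      have := hW1.ne_zero hq
      field_simp
    rw [h4, inv_pow, h1, ← zpow_neg]
    congr 1
    ring
  have hG2 : G0 p q {x₂, (q : ℂ) / x₁} := Or.inr (Gen.one _ _
    (isTate_two_of_weight hq hV0 (by ring) hW2 (hW1.div hq) h2 hinv))
  have hG3 : G0 p q {x₃, (q : ℂ) / x₁} := Or.inr (Gen.one _ _
    (isTate_two_of_weight hq hV0 (by ring) hW3 (hW1.div hq) h3 hinv))
  apply G0.cancel hW1
  apply G0.cancel hW1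
  have h5 : ({x₁, (q : ℂ) / x₁} + ({x₁, (q : ℂ) / x₁} + {x₁, x₂, x₃, w}) : Multiset ℂ) =
      {x₁, x₁, x₁, w} + {x₂, (q : ℂ) / x₁} + {x₃, (q : ℂ) / x₁} := by
    simp only [Multiset.insert_eq_cons, ← Multiset.singleton_add]
    abel
  rw [h5]
  exact (hG1.add hG2).add hG3

/-! ### The induction -/

omit [Fact p.Prime] in
theorem isTate_supersingular {α β : ℂ} (hα : IsWeil q α) (hβ : IsWeil q β)
    (hα' : Supersingular q α) (hβ' : Supersingular q β) : IsTate q {α, β} := by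
  obtain ⟨n, hn, h⟩ := hα'
  obtain ⟨m, hm, h'⟩ := hβ'
  apply isTate_two hα hβ (n := 2 * n * m) (by positivity)
  calc (α * β) ^ (2 * n * m) = (α ^ (2 * n)) ^ m * (β ^ (2 * m)) ^ n := by
        rw [mul_pow, ← pow_mul, ← pow_mul]
        congr 2
        ring
    _ = (q : ℂ) ^ (2 * n * m) := by
        rw [h, h', ← pow_mul, ← pow_mul, ← pow_add]
        congr 1
        ring

/-- Tate submultisets inherit the hypotheses. -/
theorem Good.of_le {s t : Multiset ℂ} (hs : Good p q s) (ht : ∀ x ∈ t, x ∈ s)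
    (hT : IsTate q t) : Good p q t :=
  ⟨hT, fun x hx => hs.type x (ht x hx), fun x hx y hy => hs.clos x (ht x hx) y (ht y hy)⟩

theorem not_large_of_small {x : ℂ} (hq : q ≠ 0) (hW : IsWeil q x)
    (h : Ordinary p q x ∨ Supersingular q x) : ¬ Large p q x := by
  intro hL
  have hns := hL.not_supersingular hq hW
  have h1 := natDegree_ordinary hq hW hns (h.resolve_right hns)
  have h2 := hL.two_lt
  omega

theorem Good.g0 {f : ℕ} (hqp : q = p ^ f) (hq : q ≠ 0) (n : ℕ) :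
    ∀ s : Multiset ℂ, Multiset.card s ≤ n → Good p q s → G0 p q s := by
  induction n with
  | zero =>
    intro s hn _
    left
    exact Multiset.card_eq_zero.mp (by omega)
  | succ n ih =>
    intro s hn hs
    -- Tate pairs
    by_cases hpair : ∃ (α β : ℂ) (t : Multiset ℂ), s = α ::ₘ β ::ₘ t ∧ IsTate q {α, β}
    · obtain ⟨α, β, t, rfl, hαβ⟩ := hpair
      have h1 : α ::ₘ β ::ₘ t = t + {α, β} := by
        simp only [Multiset.insert_eq_cons, ← Multiset.singleton_add]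
        abel
      rw [h1] at hs ⊢
      have hT : IsTate q t := hs.tate.of_add hq hαβ
      have h2 : G0 p q t := by
        apply ih t _ (hs.of_le (fun x hx => Multiset.mem_add.mpr (Or.inl hx)) hT)
        simp only [Multiset.card_cons] at hn
        omega
      exact h2.add (Or.inr (Gen.one α β hαβ))
    have hnp : NoPair q s := fun α β t hst hT => hpair ⟨α, β, t, hst, hT⟩
    -- large members
    by_cases hlarge : ∃ x ∈ s, Large p q x
    · obtain ⟨x, hx, hL⟩ := hlarge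
      obtain ⟨Φ, t, w, rfl, hcard, hgen, hWw, hsmall, hprod⟩ := hs.large hqp hq hnp hx hL
      have hw0 := hWw.ne_zero hq
      have hTw : IsTate q (w ::ₘ Φ) := by
        refine ⟨?_, 2, 1, by rw [Multiset.card_cons, hcard], one_pos, ?_⟩
        · intro z hz
          rw [Multiset.mem_cons] at hz
          rcases hz with rfl | hz
          · exact hWw
          · exact hs.tate.1 z (Multiset.mem_add.mpr (Or.inl hz))
        · rw [Multiset.prod_cons, hprod, pow_one, one_mul]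
      have hT' : IsTate q (((q : ℂ) / w) ::ₘ t) := by
        have h1 := hs.tate.add (isTate_pair hq hWw)
        have h2 : Φ + t + {w, (q : ℂ) / w} = ((q : ℂ) / w) ::ₘ t + w ::ₘ Φ := by
          simp only [Multiset.insert_eq_cons, ← Multiset.singleton_add]
          abel
        rw [h2] at h1
        exact h1.of_add hq hTw
      have hsmall' : Ordinary p q ((q : ℂ) / w) ∨ Supersingular q ((q : ℂ) / w) := by
        rcases hsmall with h | h
        · exact Or.inl (h.div hw0)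
        · exact Or.inr (h.of_isConjRoot (hWw.isConjRoot hq))
      have hnl := not_large_of_small hq (hWw.div hq) hsmall'
      have hgood : Good p q (((q : ℂ) / w) ::ₘ t) := by
        refine ⟨hT', ?_, ?_⟩
        · intro z hz
          rw [Multiset.mem_cons] at hz
          rcases hz with rfl | hz
          · rcases hsmall' with h | h
            · exact Or.inr (Or.inl (Or.inl h))
            · exact Or.inl h
          · exact hs.type z (Multiset.mem_add.mpr (Or.inr hz))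
        · intro a ha b hb hLa hLb
          rw [Multiset.mem_cons] at ha hb
          rcases ha with rfl | ha
          · exact absurd hLa hnl
          · rcases hb with rfl | hb
            · exact absurd hLb hnl
            · exact hs.clos a (Multiset.mem_add.mpr (Or.inr ha)) b
                (Multiset.mem_add.mpr (Or.inr hb)) hLa hLb
      have h3 : G0 p q (((q : ℂ) / w) ::ₘ t) := by
        apply ih _ _ hgood
        rw [Multiset.card_add, hcard] at hn
        rw [Multiset.card_cons]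
        omega
      apply G0.cancel hWw
      have h4 : {w, (q : ℂ) / w} + (Φ + t) = ((q : ℂ) / w) ::ₘ t + w ::ₘ Φ := by
        simp only [Multiset.insert_eq_cons, ← Multiset.singleton_add]
        abel
      rw [h4]
      exact h3.add (Or.inr hgen)
    -- small members
    have hsm : ∀ x ∈ s, Supersingular q x ∨ (Ordinary p q x ∨ Cubic p q x) := by
      intro x hx
      rcases hs.type x hx with h | h | h
      · exact Or.inl h
      · exact Or.inr h
      · exact absurd ⟨x, hx, h⟩ hlarge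
    by_cases hord : ∃ x ∈ s, ¬ Supersingular q x
    · obtain ⟨x, hx, hxn⟩ := hord
      obtain ⟨x₁, x₂, x₃, w, t, rfl, hT4, hG4⟩ := hs.small hqp hq hnp hsm hx hxn
      have hT : IsTate q t := by
        have h1 := hs.tate
        rw [add_comm] at h1
        exact h1.of_add hq hT4
      have h2 : G0 p q t := by
        apply ih t _ (hs.of_le (fun x hx => Multiset.mem_add.mpr (Or.inr hx)) hT)
        rw [Multiset.card_add] at hn
        simp only [Multiset.insert_eq_cons, Multiset.card_cons, Multiset.card_singleton] at hn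
        omega
      exact hG4.add h2
    · push Not at hord
      left
      by_contra hs0
      obtain ⟨α, hα⟩ := Multiset.exists_mem_of_ne_zero hs0
      obtain ⟨t, rfl⟩ := Multiset.exists_cons_of_mem hα
      have ht0 : t ≠ 0 := by
        rintro rfl
        obtain ⟨-, j, _, hc, -⟩ := hs.tate
        simp only [Multiset.card_cons, Multiset.card_zero] at hc
        omega
      obtain ⟨β, hβ⟩ := Multiset.exists_mem_of_ne_zero ht0
      obtain ⟨u, rfl⟩ := Multiset.exists_cons_of_mem hβ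
      have hβs : β ∈ α ::ₘ β ::ₘ u := Multiset.mem_cons_of_mem (Multiset.mem_cons_self _ _)
      exact hnp α β u rfl (isTate_supersingular (hs.tate.1 α hα) (hs.tate.1 β hβs) (hord α hα)
        (hord β hβs))

end Pool.Agent.Lib.MP_950c68_ag.Dim3
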