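import Mathlib
import Pool.Agent.Lib.MP_950c68_ag.Descent

/-!
# Relations between Frobenius eigenvalues: a dominant slope
-/

namespace Pool.Agent.Lib.MP_950c68_ag

open MulAction Polynomial

/-- Group theoretic key lemma for a dominant slope. -/
theorem dom_key {G Ω : Type*} [Group G] [MulAction G Ω] [Fintype Ω] [Finite G]
    [IsPretransitive G Ω] {i : Ω → Ω} {s : Ω → ℝ}
    (hi : ∀ (g : G) x, i (g • x) = g • i x) (hii : ∀ x, i (i x) = x)
    (hs : ∀ x, s (i x) = - s x) {x1 : Ω} (ha : 0 < s x1)
    (hdom : ∑ x, |s x| ≤ 4 * s x1) {d : Ω → ℤ} (hd : ∀ x, d (i x) = - d x)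
    (hrel : ∀ g : G, ∑ x, (d x : ℝ) * s (g • x) = 0) (hd0 : d ≠ 0) :
    4 * s x1 ≤ ∑ x, |s x| ∧ ∃ H : Subgroup G, stabilizer G x1 ≤ H ∧ (∃ h ∈ H, h • x1 ≠ x1) ∧
      ∀ u ∈ H, u • x1 ≠ i x1 := by
  classical
  have hinj : Function.Injective i := fun x y h => by rw [← hii x, h, hii]
  have hix1 : i x1 ≠ x1 := by
    intro h
    have := hs x1
    rw [h] at this
    linarith
  obtain ⟨y0, hy0⟩ : ∃ y0, ∀ y, d y ≤ d y0 := by
    have : Nonempty Ω := ⟨x1⟩
    exact Finite.exists_max d
  have hM : 0 < d y0 := by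
    obtain ⟨x, hx⟩ : ∃ x, d x ≠ 0 := by
      by_contra hcon
      push Not at hcon
      exact hd0 (funext hcon)
    have h1 := hy0 x
    have h2 := hy0 (i x)
    rw [hd] at h2
    omega
  have habs : ∀ y, |(d y : ℝ)| ≤ d y0 := by
    intro y
    have h1 := hy0 y
    have h2 := hy0 (i y)
    rw [hd] at h2
    rw [abs_le]
    constructor
    · have : (-(d y : ℤ) : ℝ) ≤ d y0 := by exact_mod_cast h2
      linarith
    · exact_mod_cast h1
  have hMR : (0 : ℝ) < d y0 := by exact_mod_cast hM
  -- the main inequality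
  have key : ∀ g : G, d (g • x1) = d y0 →
      4 * s x1 ≤ ∑ x, |s x| ∧ ∀ x', x' ≠ i x1 → s x' < 0 → d (g • x') = d y0 := by
    intro g hg
    have h1 : ∑ x', (d (g • x') : ℝ) * s x' = 0 := by
      have h2 := hrel g⁻¹
      rw [← Equiv.sum_comp (MulAction.toPerm g)] at h2
      simpa using h2
    have hnonneg : ∀ x', 0 ≤ (d y0 : ℝ) * |s x'| + (d (g • x') : ℝ) * s x' := by
      intro x'
      have h3 : |(d (g • x') : ℝ) * s x'| ≤ d y0 * |s x'| := by
        rw [abs_mul]
        exact mul_le_mul_of_nonneg_right (habs _) (abs_nonneg _)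
      have h4 := neg_abs_le ((d (g • x') : ℝ) * s x')
      linarith
    have htot : ∑ x', ((d y0 : ℝ) * |s x'| + (d (g • x') : ℝ) * s x') =
        d y0 * ∑ x, |s x| := by
      rw [Finset.sum_add_distrib, h1, add_zero, Finset.mul_sum]
    have hval1 : (d y0 : ℝ) * |s x1| + (d (g • x1) : ℝ) * s x1 = 2 * (d y0 * s x1) := by
      rw [hg, abs_of_pos ha]
      ring
    have hval2 : (d y0 : ℝ) * |s (i x1)| + (d (g • i x1) : ℝ) * s (i x1) = 2 * (d y0 * s x1) := by
      rw [← hi, hd, hs, abs_neg, abs_of_pos ha, hg]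
      push_cast
      ring
    have hpair : ∑ x' ∈ ({x1, i x1} : Finset Ω),
        ((d y0 : ℝ) * |s x'| + (d (g • x') : ℝ) * s x') = 4 * (d y0 * s x1) := by
      rw [Finset.sum_pair (Ne.symm hix1), hval1, hval2]
      ring
    have hge : 4 * (d y0 * s x1) ≤ d y0 * ∑ x, |s x| := by
      rw [← htot, ← hpair]
      exact Finset.sum_le_sum_of_subset_of_nonneg (Finset.subset_univ _) fun x _ _ => hnonneg x
    have hge' : 4 * s x1 ≤ ∑ x, |s x| := by
      have : d y0 * (4 * s x1) ≤ d y0 * ∑ x, |s x| := by linarith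
      exact le_of_mul_le_mul_left this hMR
    refine ⟨hge', fun x' hx' hsx' => ?_⟩
    have heq : ∑ x, |s x| = 4 * s x1 := le_antisymm hdom hge'
    have hx'1 : x' ≠ x1 := by
      rintro rfl
      linarith
    have hzero : (d y0 : ℝ) * |s x'| + (d (g • x') : ℝ) * s x' = 0 := by
      have h5 := Finset.sum_le_sum_of_subset_of_nonneg
        (s := ({x', x1, i x1} : Finset Ω)) (t := Finset.univ)
        (f := fun x' => (d y0 : ℝ) * |s x'| + (d (g • x') : ℝ) * s x')
        (Finset.subset_univ _) fun x _ _ => hnonneg x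
      rw [htot, heq, Finset.sum_insert (by simp [hx', hx'1]), hpair] at h5
      have h6 := hnonneg x'
      nlinarith
    rw [abs_of_neg hsx'] at hzero
    have h7 : ((d (g • x') : ℝ) - d y0) * s x' = 0 := by linarith
    rcases mul_eq_zero.mp h7 with h8 | h8
    · have : (d (g • x') : ℝ) = d y0 := by linarith
      exact_mod_cast this
    · linarith
  obtain ⟨g0, hg0⟩ := exists_smul_eq G x1 y0
  have hg0' : d (g0 • x1) = d y0 := by rw [hg0]
  obtain ⟨hge, _⟩ := key g0 hg0'
  refine ⟨hge, ?_⟩
  -- another root with nonzero slope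
  obtain ⟨x', hx', hsx'⟩ : ∃ x', x' ≠ i x1 ∧ s x' < 0 := by
    by_contra hcon
    push Not at hcon
    have hz : ∀ x, x ≠ x1 → x ≠ i x1 → s x = 0 := by
      intro x hx hx2
      have h1 := hcon x hx2
      have h2 := hcon (i x) (fun h => hx (hinj h))
      rw [hs] at h2
      linarith
    have h3 : ∑ x, |s x| = ∑ x ∈ ({x1, i x1} : Finset Ω), |s x| := by
      symm
      apply Finset.sum_subset (Finset.subset_univ _)
      intro x _ hx
      simp only [Finset.mem_insert, Finset.mem_singleton, not_or] at hx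
      rw [hz x hx.1 hx.2, abs_zero]
    rw [Finset.sum_pair (Ne.symm hix1), hs, abs_neg, abs_of_pos ha] at h3
    linarith
  have hx'1 : x' ≠ x1 := by
    rintro rfl
    linarith
  obtain ⟨h, hh⟩ := exists_smul_eq G x1 x'
  have hstep : ∀ g : G, d (g • x1) = d y0 → d ((g * h) • x1) = d y0 := by
    intro g hg
    rw [mul_smul, hh]
    exact (key g hg).2 x' hx' hsx'
  have hstepn : ∀ (n : ℕ) (g : G), d (g • x1) = d y0 → d ((g * h ^ n) • x1) = d y0 := by
    intro n
    induction n with
    | zero => intro g hg; simpa using hg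
    | succ n ih =>
      intro g hg
      rw [pow_succ, ← mul_assoc]
      exact hstep _ (ih g hg)
  let H : Subgroup G :=
    { carrier := {u | ∀ g : G, d (g • x1) = d y0 ↔ d ((g * u) • x1) = d y0}
      one_mem' := by intro g; rw [mul_one]
      mul_mem' := by
        intro u w hu hw g
        rw [hu g, hw (g * u), mul_assoc]
      inv_mem' := by
        intro u hu g
        have := hu (g * u⁻¹)
        rw [inv_mul_cancel_right] at this
        exact this.symm }
  refine ⟨H, ?_, ⟨h, ?_, ?_⟩, ?_⟩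
  · intro u hu g
    rw [mem_stabilizer_iff] at hu
    rw [mul_smul, hu]
  · intro g
    refine ⟨hstep g, fun hgh => ?_⟩
    have h1 := hstepn (orderOf h - 1) (g * h) hgh
    have h2 : g * h * h ^ (orderOf h - 1) = g := by
      rw [mul_assoc, ← pow_succ', Nat.sub_add_cancel (orderOf_pos h), pow_orderOf_eq_one, mul_one]
    rwa [h2] at h1
  · rw [hh]
    exact hx'1
  · intro u hu hux
    have h1 := (hu g0).mp hg0'
    rw [mul_smul, hux, ← hi, hd, hg0'] at h1
    omega

/-- The constant value of a relation against an antisymmetric function is zero. -/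
theorem const_zero {G Ω : Type*} [Group G] [MulAction G Ω] [Fintype Ω] [Finite G]
    [IsPretransitive G Ω] {i : Ω → Ω} {s : Ω → ℝ}
    (hi : ∀ (g : G) x, i (g • x) = g • i x) (hs : ∀ x, s (i x) = - s x)
    {c : Ω → ℝ} {C : ℝ} (hc : ∀ g : G, ∑ x, c x * s (g • x) = C) : C = 0 := by
  classical
  have := Fintype.ofFinite G
  have hsum : ∀ y, ∑ g : G, s (g • y) = 0 := by
    intro y
    have hconst : ∀ h : G, ∑ g : G, s (g • (h • y)) = ∑ g : G, s (g • y) := by
      intro h
      rw [← Equiv.sum_comp (Equiv.mulRight h) (fun g => s (g • y))]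
      refine Finset.sum_congr rfl fun g _ => ?_
      simp [mul_smul]
    obtain ⟨h, hh⟩ := exists_smul_eq G y (i y)
    have h1 := hconst h
    rw [hh] at h1
    have h2 : ∑ g : G, s (g • i y) = - ∑ g : G, s (g • y) := by
      rw [← Finset.sum_neg_distrib]
      refine Finset.sum_congr rfl fun g _ => ?_
      rw [← hi, hs]
    rw [h2] at h1
    linarith
  have h1 : ∑ g : G, ∑ x, c x * s (g • x) = Fintype.card G * C := by
    rw [Finset.sum_congr rfl fun g _ => hc g, Finset.sum_const, Finset.card_univ, nsmul_eq_mul]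
  rw [Finset.sum_comm] at h1
  simp only [← Finset.mul_sum, hsum, mul_zero, Finset.sum_const_zero] at h1
  have h2 : (Fintype.card G : ℝ) ≠ 0 := by
    exact_mod_cast Fintype.card_ne_zero
  rcases mul_eq_zero.mp h1.symm with h | h
  · exact absurd h h2
  · exact h

section

variable {k : Type*} [Field k] {R : k[X]} {q : ℕ}

/-- The Galois correspondence argument. -/
theorem galois_part {L A : Type*} [Field L] [Algebra k L] [FiniteDimensional k L] [IsGalois k L]
    [Field A] [Algebra k A] (ρ : L →ₐ[k] A) (x y : L)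
    (hH : ∀ F : IntermediateField k A, F < IntermediateField.adjoin k {ρ x} →
      F ≤ IntermediateField.adjoin k {ρ x + ρ y})
    (H : Subgroup (L ≃ₐ[k] L)) (hstab : ∀ u : L ≃ₐ[k] L, u x = x → u ∈ H)
    {h : L ≃ₐ[k] L} (hhH : h ∈ H) (hh : h x ≠ x) {u : L ≃ₐ[k] L} (hux : u x = y) (huy : u y = x) :
    u ∈ H := by
  let F : IntermediateField k L := IntermediateField.fixedField H
  have hfixF : F.fixingSubgroup = H := IntermediateField.fixingSubgroup_fixedField H
  have hFle : F ≤ IntermediateField.adjoin k {x} := by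
    have h1 : IntermediateField.fixedField (IntermediateField.adjoin k {x}).fixingSubgroup =
        IntermediateField.adjoin k {x} := IsGalois.fixedField_fixingSubgroup _
    rw [← h1]
    apply IntermediateField.fixedField_antitone
    intro u hu
    apply hstab
    exact (IntermediateField.mem_fixingSubgroup_iff _ u).mp hu _
      (IntermediateField.mem_adjoin_simple_self k x)
  have hFne : F ≠ IntermediateField.adjoin k {x} := by
    intro h1
    apply hh
    have h2 : h ∈ F.fixingSubgroup := by rw [hfixF]; exact hhH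
    refine (IntermediateField.mem_fixingSubgroup_iff _ h).mp h2 _ ?_
    rw [h1]
    exact IntermediateField.mem_adjoin_simple_self k x
  have h3 := hH (F.map ρ) (by
    have h4 : IntermediateField.adjoin k {ρ x} = (IntermediateField.adjoin k {x}).map ρ := by
      rw [IntermediateField.adjoin_map, Set.image_singleton]
    rw [h4]
    refine lt_of_le_of_ne (IntermediateField.map_mono ρ hFle) ?_
    intro h5
    exact hFne (IntermediateField.map_injective ρ h5))
  have h6 : IntermediateField.adjoin k {ρ x + ρ y} =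
      (IntermediateField.adjoin k {x + y}).map ρ := by
    rw [IntermediateField.adjoin_map, Set.image_singleton, map_add]
  rw [h6] at h3
  have h7 : F ≤ IntermediateField.adjoin k {x + y} := by
    intro w hw
    obtain ⟨w', hw', hww'⟩ := h3 ⟨w, hw, rfl⟩
    have : w' = w := ρ.injective hww'
    rwa [← this]
  have h9 : u ∈ (IntermediateField.adjoin k {x + y}).fixingSubgroup := by
    have h10 : IntermediateField.adjoin k {x + y} ≤
        IntermediateField.fixedField (Subgroup.zpowers u) := by
      rw [IntermediateField.adjoin_simple_le_iff, IntermediateField.mem_fixedField_iff]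
      intro w hw
      have hu : u (x + y) = x + y := by rw [map_add, hux, huy, add_comm]
      obtain ⟨n, rfl⟩ := Subgroup.mem_zpowers_iff.mp hw
      have hst : u ^ n ∈ MulAction.stabilizer (L ≃ₐ[k] L) (x + y) :=
        Subgroup.zpow_mem _ (MulAction.mem_stabilizer_iff.mpr hu) n
      exact MulAction.mem_stabilizer_iff.mp hst
    have h11 := (IntermediateField.le_iff_le _ _).mp h10
    exact h11 (Subgroup.mem_zpowers u)
  have h8 : u ∈ F.fixingSubgroup := by
    rw [IntermediateField.mem_fixingSubgroup_iff]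
    intro w hw
    exact (IntermediateField.mem_fixingSubgroup_iff _ u).mp h9 w (h7 hw)
  rw [hfixF] at h8
  exact h8

/-- **No nontrivial relations**, dominant slope. -/
theorem no_relations_dom [CharZero k] (hR : Irreducible R) (hdeg1 : R.natDegree ≠ 1)
    (hq0 : (q : k) ≠ 0)
    {B : Type*} [Field B] [Algebra k B] [IsAlgClosed B]
    (hsym : ∀ z : B, aeval z R = 0 → aeval ((q : B) / z) R = 0)
    (v : B → ℝ) (hv : ∀ x y : B, x ≠ 0 → y ≠ 0 → v (x * y) = v x + v y) (hvq : v (q : B) = 1)
    {z1 : B} (hz1 : z1 ∈ R.rootSet B) (hpos : 2 * v z1 - 1 ≠ 0)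
    (hdom : ∑ z ∈ (R.rootSet_finite B).toFinset, |2 * v z - 1| ≤ 4 * |2 * v z1 - 1|)
    {A : Type*} [Field A] [Algebra k A] [IsAlgClosed A]
    (hH : (∑ z ∈ (R.rootSet_finite B).toFinset, |2 * v z - 1| < 4 * |2 * v z1 - 1|) ∨
      ∀ z : A, aeval z R = 0 → ∀ F : IntermediateField k A, F < IntermediateField.adjoin k {z} →
        F ≤ IntermediateField.adjoin k {z + (q : A) / z})
    {E : Type*} [Field E] [Algebra k E] (hsplit : (R.map (algebraMap k E)).Splits)
    (c : E → ℕ) (M : ℕ)
    (hrel : ∏ z ∈ (R.rootSet_finite E).toFinset, z ^ c z = (q : E) ^ M) :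
    ∀ z, aeval z R = 0 → (q : E) / z ≠ z ∧ c ((q : E) / z) = c z := by
  classical
  have hR0 := hR.ne_zero
  let L := R.SplittingField
  let σ : L →ₐ[k] B := IsAlgClosed.lift
  let τ : L →ₐ[k] E := SplittingField.lift R hsplit
  have hmem : ∀ x : L, x ∈ R.rootSet L ↔ aeval x R = 0 := fun x => by
    rw [mem_rootSet]; exact ⟨fun h => h.2, fun h => ⟨hR0, h⟩⟩
  -- the involution
  let i : R.rootSet L → R.rootSet L := fun x => ⟨(q : L) / x, (hmem _).mpr
    (closed_transfer hR hsym ((hmem _).mp x.2))⟩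
  have hne : ∀ x : R.rootSet L, (x : L) ≠ 0 := fun x => ne_zero_of_root hR hdeg1 ((hmem _).mp x.2)
  have hqL : (q : L) ≠ 0 := by
    have : algebraMap k L (q : k) ≠ 0 := (_root_.map_ne_zero _).mpr hq0
    rwa [map_natCast] at this
  have hqB : (q : B) ≠ 0 := by
    have : algebraMap k B (q : k) ≠ 0 := (_root_.map_ne_zero _).mpr hq0
    rwa [map_natCast] at this
  have hii : ∀ x, i (i x) = x := by
    intro x
    apply Subtype.ext
    change (q : L) / ((q : L) / x) = x
    rw [div_div_cancel₀ hqL]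
  have hinj : Function.Injective i := fun x y h => by rw [← hii x, h, hii]
  -- the Galois action
  have htrans : IsPretransitive R.Gal (R.rootSet L) := by
    refine ⟨fun x y => ?_⟩
    have hx := minpoly.eq_of_irreducible hR ((hmem _).mp x.2)
    have hy := minpoly.eq_of_irreducible hR ((hmem _).mp y.2)
    obtain ⟨g, hg⟩ := (Normal.minpoly_eq_iff_mem_orbit R.SplittingField).mp (hy.symm.trans hx)
    exact ⟨g, Subtype.ext hg⟩
  have hi : ∀ (g : R.Gal) x, i (g • x) = g • i x := by
    intro g x
    apply Subtype.ext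
    change (q : L) / (g x) = g ((q : L) / x)
    rw [map_div₀, map_natCast]
  -- slopes
  let s : R.rootSet L → ℝ := fun x => 2 * v (σ x) - 1
  have hσne : ∀ x : L, x ≠ 0 → σ x ≠ 0 := fun x hx => (_root_.map_ne_zero σ).mpr hx
  have hslope : ∀ x : L, x ≠ 0 → v (σ ((q : L) / x)) = 1 - v (σ x) := by
    intro x hx
    have h1 : σ ((q : L) / x) * σ x = (q : B) := by
      rw [← map_mul, div_mul_cancel₀ _ hx, map_natCast]
    have h2 := hv (σ ((q : L) / x)) (σ x) (hσne _ (div_ne_zero hqL hx)) (hσne _ hx)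
    rw [h1, hvq] at h2
    linarith
  have hs : ∀ x, s (i x) = - s x := by
    intro x
    have h3 : v (σ (i x : L)) = 1 - v (σ x) := hslope x (hne x)
    change 2 * v (σ (i x : L)) - 1 = - (2 * v (σ x) - 1)
    rw [h3]
    ring
  have hsumeq : ∑ z ∈ (R.rootSet_finite B).toFinset, |2 * v z - 1| = ∑ x, |s x| :=
    prod_roots_eq (A := Multiplicative ℝ) hR0 σ (fun z => Multiplicative.ofAdd |2 * v z - 1|)
  obtain ⟨x0, hx0⟩ : ∃ x : R.rootSet L, z1 = σ x := by
    have key := (SplittingField.splits R).roots_map (σ : R.SplittingField →+* B)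
    rw [map_map, AlgHom.comp_algebraMap] at key
    have h1 : z1 ∈ (R.map (algebraMap k B)).roots := by
      rw [mem_roots_map hR0]
      exact (mem_rootSet.mp hz1).2
    rw [key, Multiset.mem_map] at h1
    obtain ⟨x, hx, rfl⟩ := h1
    refine ⟨⟨x, ?_⟩, rfl⟩
    rw [mem_rootSet]
    refine ⟨hR0, ?_⟩
    rw [mem_roots_map hR0] at hx
    exact hx
  obtain ⟨x1, hx1pos, hx1eq⟩ : ∃ x1, 0 < s x1 ∧ s x1 = |2 * v z1 - 1| := by
    have h1 : s x0 = 2 * v z1 - 1 := by rw [hx0]
    rcases lt_or_gt_of_ne hpos with h | h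
    · refine ⟨i x0, ?_, ?_⟩
      · rw [hs, h1]; linarith
      · rw [hs, h1, abs_of_neg h]
    · exact ⟨x0, by rw [h1]; exact h, by rw [h1, abs_of_pos h]⟩
  have hfix : ∀ x, i x ≠ x := by
    intro x hx
    obtain ⟨g, hg⟩ := exists_smul_eq R.Gal x x1
    have h1 := hs x1
    rw [← hg, hi, hx, hg] at h1
    linarith
  -- the relation in the splitting field
  have hv1 : v 1 = 0 := by
    have := hv 1 1 one_ne_zero one_ne_zero
    rw [mul_one] at this
    linarith
  have hvpow : ∀ (x : B) (n : ℕ), x ≠ 0 → v (x ^ n) = n * v x := by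
    intro x n hx
    induction n with
    | zero => simp [hv1]
    | succ n ih =>
      rw [pow_succ, hv _ _ (pow_ne_zero _ hx) hx, ih]
      push_cast
      ring
  have hvprod : ∀ (S : Finset (R.rootSet L)) (F : R.rootSet L → B) (e : R.rootSet L → ℕ),
      (∀ x, F x ≠ 0) → v (∏ x ∈ S, F x ^ e x) = ∑ x ∈ S, e x * v (F x) := by
    intro S F e hF
    induction S using Finset.induction_on with
    | empty => simp [hv1]
    | insert a S ha ih =>
      rw [Finset.prod_insert ha, Finset.sum_insert ha, hv, ih, hvpow _ _ (hF a)]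
      · exact pow_ne_zero _ (hF a)
      · exact Finset.prod_ne_zero_iff.mpr fun x _ => pow_ne_zero _ (hF x)
  have hrelL : ∏ x : R.rootSet L, (x : L) ^ c (τ x) = (q : L) ^ M := by
    have h1 := hrel
    rw [prod_roots_eq hR0 τ] at h1
    apply τ.injective
    rw [map_prod, map_pow, map_natCast, ← h1]
    refine Finset.prod_congr rfl fun x _ => ?_
    rw [map_pow]
    rfl
  have hvrel : ∀ g : R.Gal, ∑ x : R.rootSet L, (c (τ x) : ℝ) * v (σ (g • x : R.rootSet L)) = M := by
    intro g
    have h1 := congrArg (fun y => v (σ (g y))) hrelL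
    simp only [map_prod, map_pow, map_natCast] at h1
    rw [hvprod _ _ _ (fun x => hσne _ ((_root_.map_ne_zero g).mpr (hne x))), hvpow _ _ hqB, hvq,
      mul_one] at h1
    exact h1
  have hconst : ∀ g : R.Gal, ∑ x : R.rootSet L, (c (τ x) : ℝ) * s (g • x) =
      2 * M - ∑ x : R.rootSet L, (c (τ x) : ℝ) := by
    intro g
    rw [← hvrel g, Finset.mul_sum, ← Finset.sum_sub_distrib]
    refine Finset.sum_congr rfl fun x _ => ?_
    change (c (τ x) : ℝ) * (2 * v (σ (g • x : R.rootSet L)) - 1) = _
    ring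
  have hC := const_zero hi hs hconst
  have hconst0 : ∀ g : R.Gal, ∑ x : R.rootSet L, (c (τ x) : ℝ) * s (g • x) = 0 := fun g => by
    rw [hconst g, hC]
  let d : R.rootSet L → ℤ := fun x => (c (τ x) : ℤ) - c (τ (i x))
  have hd : ∀ x, d (i x) = - d x := by
    intro x
    simp only [d, hii]
    ring
  have hdrel : ∀ g : R.Gal, ∑ x, (d x : ℝ) * s (g • x) = 0 := by
    intro g
    have h1 := hconst0 g
    have h2 : ∑ x, (c (τ (i x)) : ℝ) * s (g • x) = - ∑ x : R.rootSet L, (c (τ x) : ℝ) * s (g • x) := by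
      rw [← Finset.sum_neg_distrib]
      refine Finset.sum_bij (fun x _ => i x) (fun _ _ => Finset.mem_univ _)
        (fun x _ y _ h => hinj h) (fun y _ => ⟨i y, Finset.mem_univ _, hii y⟩) ?_
      intro x _
      rw [← hi, hs]
      ring
    have h3 : ∀ x, (d x : ℝ) * s (g • x) =
        (c (τ x) : ℝ) * s (g • x) - (c (τ (i x)) : ℝ) * s (g • x) := by
      intro x
      simp only [d]
      push_cast
      ring
    simp only [h3, Finset.sum_sub_distrib]
    rw [h2, h1]
    simp
  have hd0 : d = 0 := by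
    by_contra hne0
    have hdom' : ∑ x, |s x| ≤ 4 * s x1 := by rw [← hsumeq, hx1eq]; exact hdom
    obtain ⟨hge, H, hstab, ⟨h, hhH, hh⟩, hno⟩ :=
      dom_key hi hii hs hx1pos hdom' hd hdrel hne0
    rcases hH with hlt | hH
    · rw [hsumeq, ← hx1eq] at hlt
      linarith
    · -- Galois correspondence
      let ρ : L →ₐ[k] A := IsAlgClosed.lift
      have hGal : IsGalois k L := IsGalois.of_separable_splitting_field hR.separable
      obtain ⟨u, hu⟩ := exists_smul_eq R.Gal x1 (i x1)
      have hroot : aeval (ρ x1) R = 0 := by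
        rw [aeval_algHom_apply, (hmem _).mp x1.2, map_zero]
      have hu1 : u (x1 : L) = ((i x1 : R.rootSet L) : L) := congrArg Subtype.val hu
      have hu2 : u ((i x1 : R.rootSet L) : L) = (x1 : L) := by
        have h1 : u • i x1 = x1 := by rw [← hi, hu, hii]
        exact congrArg Subtype.val h1
      refine hno u ?_ hu
      refine galois_part ρ (x1 : L) ((i x1 : R.rootSet L) : L) ?_ H (fun w hw => hstab ?_) hhH
        (fun hw => hh (Subtype.ext hw)) hu1 hu2
      · intro F hF
        have h2 := hH (ρ x1) hroot F hF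
        have h3 : (q : A) / ρ (x1 : L) = ρ ((i x1 : R.rootSet L) : L) := by
          change _ = ρ ((q : L) / (x1 : L))
          rw [map_div₀, map_natCast]
        rwa [h3] at h2
      · exact Subtype.ext hw
  intro z hz
  obtain ⟨x, rfl⟩ : ∃ x : R.rootSet L, z = τ x := by
    have key := (SplittingField.splits R).roots_map (τ : R.SplittingField →+* E)
    rw [map_map, AlgHom.comp_algebraMap] at key
    have h1 : z ∈ (R.map (algebraMap k E)).roots := by
      rw [mem_roots_map hR0]
      exact hz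
    rw [key, Multiset.mem_map] at h1
    obtain ⟨x, hx, rfl⟩ := h1
    refine ⟨⟨x, ?_⟩, rfl⟩
    rw [mem_rootSet]
    refine ⟨hR0, ?_⟩
    rw [mem_roots_map hR0] at hx
    exact hx
  have h1 : (q : E) / τ x = τ (i x) := by
    change _ = τ ((q : L) / x)
    rw [map_div₀, map_natCast]
  rw [h1]
  refine ⟨fun h => hfix x (Subtype.ext (τ.injective h)), ?_⟩
  have h2 := congrFun hd0 x
  simp only [d, Pi.zero_apply] at h2
  omega

end

end Pool.Agent.Lib.MP_950c68_ag
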