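import Mathlib
import Pool.Agent.Lib.MP_950c68_ag.Dom

/-!
# A general frame: from relations between eigenvalues to antisymmetric integer vectors
-/

namespace Pool.Agent.Lib.MP_950c68_ag

open MulAction Polynomial

section

variable {k : Type*} [Field k] {R : k[X]} {q : ℕ}

/-- The involution `x ↦ q / x` on the roots in the splitting field. -/
noncomputable def invRoot (R : k[X]) (q : ℕ)
    (hclosed : ∀ z : R.SplittingField, aeval z R = 0 →
      aeval ((q : R.SplittingField) / z) R = 0)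
    (x : R.rootSet R.SplittingField) : R.rootSet R.SplittingField :=
  ⟨(q : R.SplittingField) / x, by
    have hx := mem_rootSet.mp x.2
    exact mem_rootSet.mpr ⟨hx.1, hclosed _ hx.2⟩⟩

theorem invRoot_coe (hclosed : ∀ z : R.SplittingField, aeval z R = 0 →
      aeval ((q : R.SplittingField) / z) R = 0) (x : R.rootSet R.SplittingField) :
    ((invRoot R q hclosed x : R.rootSet R.SplittingField) : R.SplittingField) =
      (q : R.SplittingField) / x := rfl

theorem invRoot_invRoot (hq : (q : R.SplittingField) ≠ 0)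
    (hclosed : ∀ z : R.SplittingField, aeval z R = 0 →
      aeval ((q : R.SplittingField) / z) R = 0) (x : R.rootSet R.SplittingField) :
    invRoot R q hclosed (invRoot R q hclosed x) = x := by
  apply Subtype.ext
  rw [invRoot_coe, invRoot_coe, div_div_cancel₀ hq]

theorem invRoot_smul (hclosed : ∀ z : R.SplittingField, aeval z R = 0 →
      aeval ((q : R.SplittingField) / z) R = 0) (g : R.Gal) (x : R.rootSet R.SplittingField) :
    invRoot R q hclosed (g • x) = g • invRoot R q hclosed x := by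
  apply Subtype.ext
  change (q : R.SplittingField) / (g x) = g ((q : R.SplittingField) / x)
  rw [map_div₀, map_natCast]

theorem gal_transitive (hR : Irreducible R) :
    IsPretransitive R.Gal (R.rootSet R.SplittingField) := by
  refine ⟨fun x y => ?_⟩
  have hx := minpoly.eq_of_irreducible hR (mem_rootSet.mp x.2).2
  have hy := minpoly.eq_of_irreducible hR (mem_rootSet.mp y.2).2
  obtain ⟨g, hg⟩ := (Normal.minpoly_eq_iff_mem_orbit R.SplittingField).mp (hy.symm.trans hx)
  exact ⟨g, Subtype.ext hg⟩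

theorem exists_root_eq (hR0 : R ≠ 0) {E : Type*} [Field E] [Algebra k E]
    (τ : R.SplittingField →ₐ[k] E) {z : E} (hz : aeval z R = 0) :
    ∃ x : R.rootSet R.SplittingField, z = τ x := by
  have key := (SplittingField.splits R).roots_map (τ : R.SplittingField →+* E)
  rw [map_map, AlgHom.comp_algebraMap] at key
  have h1 : z ∈ (R.map (algebraMap k E)).roots := by
    rw [mem_roots_map hR0]
    exact hz
  rw [key, Multiset.mem_map] at h1
  obtain ⟨x, hx, rfl⟩ := h1
  refine ⟨⟨x, ?_⟩, rfl⟩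
  rw [mem_rootSet]
  refine ⟨hR0, ?_⟩
  rw [mem_roots_map hR0] at hx
  exact hx

/-- **General frame.** -/
theorem norel_of_key [CharZero k] (hR : Irreducible R) (hdeg1 : R.natDegree ≠ 1)
    (hq0 : (q : k) ≠ 0)
    (hclosed : ∀ z : R.SplittingField, aeval z R = 0 →
      aeval ((q : R.SplittingField) / z) R = 0)
    {B : Type*} [Field B] [Algebra k B] (σ : R.SplittingField →ₐ[k] B)
    (v : B → ℝ) (hv : ∀ x y : B, x ≠ 0 → y ≠ 0 → v (x * y) = v x + v y) (hvq : v (q : B) = 1)
    (hfix : ∀ x, invRoot R q hclosed x ≠ x)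
    (hkey : ∀ d : R.rootSet R.SplittingField → ℤ, (∀ x, d (invRoot R q hclosed x) = - d x) →
      (∀ g : R.Gal, ∑ x, (d x : ℝ) *
        (2 * v (σ (g • x : R.rootSet R.SplittingField)) - 1) = 0) → d = 0)
    {E : Type*} [Field E] [Algebra k E] (hsplit : (R.map (algebraMap k E)).Splits)
    (c : E → ℕ) (M : ℕ)
    (hrel : ∏ z ∈ (R.rootSet_finite E).toFinset, z ^ c z = (q : E) ^ M) :
    ∀ z, aeval z R = 0 → (q : E) / z ≠ z ∧ c ((q : E) / z) = c z := by
  classical
  have hR0 := hR.ne_zero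
  let L := R.SplittingField
  let τ : L →ₐ[k] E := SplittingField.lift R hsplit
  have hmem : ∀ x : L, x ∈ R.rootSet L ↔ aeval x R = 0 := fun x => by
    rw [mem_rootSet]; exact ⟨fun h => h.2, fun h => ⟨hR0, h⟩⟩
  let i : R.rootSet L → R.rootSet L := invRoot R q hclosed
  have hne : ∀ x : R.rootSet L, (x : L) ≠ 0 := fun x => ne_zero_of_root hR hdeg1 ((hmem _).mp x.2)
  have hqL : (q : L) ≠ 0 := by
    have : algebraMap k L (q : k) ≠ 0 := (_root_.map_ne_zero _).mpr hq0
    rwa [map_natCast] at this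
  have hqB : (q : B) ≠ 0 := by
    have : algebraMap k B (q : k) ≠ 0 := (_root_.map_ne_zero _).mpr hq0
    rwa [map_natCast] at this
  have hii : ∀ x, i (i x) = x := invRoot_invRoot hqL hclosed
  have hinj : Function.Injective i := fun x y h => by rw [← hii x, h, hii]
  have htrans : IsPretransitive R.Gal (R.rootSet L) := gal_transitive hR
  have hi : ∀ (g : R.Gal) x, i (g • x) = g • i x := invRoot_smul hclosed
  let s : R.rootSet L → ℝ := fun x => 2 * v (σ x) - 1
  have hσne : ∀ x : L, x ≠ 0 → σ x ≠ 0 := fun x hx => (_root_.map_ne_zero σ).mpr hx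
  have hs : ∀ x, s (i x) = - s x := by
    intro x
    have h1 : σ ((q : L) / x) * σ x = (q : B) := by
      rw [← map_mul, div_mul_cancel₀ _ (hne x), map_natCast]
    have h2 := hv (σ ((q : L) / x)) (σ x) (hσne _ (div_ne_zero hqL (hne x))) (hσne _ (hne x))
    rw [h1, hvq] at h2
    change 2 * v (σ ((q : L) / x)) - 1 = - (2 * v (σ x) - 1)
    linarith
  have hv1 : v 1 = 0 := by
    have := hv 1 1 one_ne_zero one_ne_zero
    rw [mul_one] at this
    linarith
  have hvpow : ∀ (x : B) (n : ℕ), x ≠ 0 → v (x ^ n) = n * v x := by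
    intro x n hx
    induction n with
    | zero => simp [hv1]
    | succ n ih =>
      rw [pow_succ, hv _ _ (pow_ne_zero _ hx) hx, ih]
      push_cast
      ring
  have hvprod : ∀ (S : Finset (R.rootSet L)) (F : R.rootSet L → B) (e : R.rootSet L → ℕ),
      (∀ x, F x ≠ 0) → v (∏ x ∈ S, F x ^ e x) = ∑ x ∈ S, e x * v (F x) := by
    intro S F e hF
    induction S using Finset.induction_on with
    | empty => simp [hv1]
    | insert a S ha ih =>
      rw [Finset.prod_insert ha, Finset.sum_insert ha, hv, ih, hvpow _ _ (hF a)]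
      · exact pow_ne_zero _ (hF a)
      · exact Finset.prod_ne_zero_iff.mpr fun x _ => pow_ne_zero _ (hF x)
  have hrelL : ∏ x : R.rootSet L, (x : L) ^ c (τ x) = (q : L) ^ M := by
    have h1 := hrel
    rw [prod_roots_eq hR0 τ] at h1
    apply τ.injective
    rw [map_prod, map_pow, map_natCast, ← h1]
    refine Finset.prod_congr rfl fun x _ => ?_
    rw [map_pow]
    rfl
  have hvrel : ∀ g : R.Gal, ∑ x : R.rootSet L, (c (τ x) : ℝ) * v (σ (g • x : R.rootSet L)) = M := by
    intro g
    have h1 := congrArg (fun y => v (σ (g y))) hrelL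
    simp only [map_prod, map_pow, map_natCast] at h1
    rw [hvprod _ _ _ (fun x => hσne _ ((_root_.map_ne_zero g).mpr (hne x))), hvpow _ _ hqB, hvq,
      mul_one] at h1
    exact h1
  have hconst : ∀ g : R.Gal, ∑ x : R.rootSet L, (c (τ x) : ℝ) * s (g • x) =
      2 * M - ∑ x : R.rootSet L, (c (τ x) : ℝ) := by
    intro g
    rw [← hvrel g, Finset.mul_sum, ← Finset.sum_sub_distrib]
    refine Finset.sum_congr rfl fun x _ => ?_
    change (c (τ x) : ℝ) * (2 * v (σ (g • x : R.rootSet L)) - 1) = _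
    ring
  have hC := const_zero hi hs hconst
  have hconst0 : ∀ g : R.Gal, ∑ x : R.rootSet L, (c (τ x) : ℝ) * s (g • x) = 0 := fun g => by
    rw [hconst g, hC]
  let d : R.rootSet L → ℤ := fun x => (c (τ x) : ℤ) - c (τ (i x))
  have hd : ∀ x, d (i x) = - d x := by
    intro x
    simp only [d, hii]
    ring
  have hdrel : ∀ g : R.Gal, ∑ x, (d x : ℝ) * s (g • x) = 0 := by
    intro g
    have h1 := hconst0 g
    have h2 : ∑ x, (c (τ (i x)) : ℝ) * s (g • x) = - ∑ x : R.rootSet L, (c (τ x) : ℝ) * s (g • x) := by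
      rw [← Finset.sum_neg_distrib]
      refine Finset.sum_bij (fun x _ => i x) (fun _ _ => Finset.mem_univ _)
        (fun x _ y _ h => hinj h) (fun y _ => ⟨i y, Finset.mem_univ _, hii y⟩) ?_
      intro x _
      rw [← hi, hs]
      ring
    have h3 : ∀ x, (d x : ℝ) * s (g • x) =
        (c (τ x) : ℝ) * s (g • x) - (c (τ (i x)) : ℝ) * s (g • x) := by
      intro x
      simp only [d]
      push_cast
      ring
    simp only [h3, Finset.sum_sub_distrib]
    rw [h2, h1]
    simp
  have hd0 : d = 0 := hkey d hd hdrel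
  intro z hz
  obtain ⟨x, rfl⟩ := exists_root_eq hR0 τ hz
  have h1 : (q : E) / τ x = τ (i x) := by
    change _ = τ ((q : L) / x)
    rw [map_div₀, map_natCast]
  rw [h1]
  refine ⟨fun h => hfix x (Subtype.ext (τ.injective h)), ?_⟩
  have h2 := congrFun hd0 x
  simp only [d, Pi.zero_apply] at h2
  omega

/-- Half system version of the main group theoretic lemma. -/
theorem relLattice_trivial_half {G Ω : Type*} [Group G] [MulAction G Ω] [Fintype Ω] [Finite G]
    [IsPretransitive G Ω] {i : Ω → Ω} {s : Ω → ℤ}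
    (hi : ∀ (g : G) x, i (g • x) = g • i x) (hii : ∀ x, i (i x) = x)
    (hs : ∀ x, s (i x) = - s x) {ℓ a : ℕ} [hℓ : Fact ℓ.Prime]
    (hcard : Nat.card Ω = 2 * ℓ ^ a) (H : Finset Ω) (hH : ∀ x, x ∈ H ↔ i x ∉ H)
    (hstable : ∀ (P : Sylow ℓ G), ∀ g ∈ P, ∀ x ∈ H, g • x ∈ H)
    (hT : ¬ (ℓ : ℤ) ∣ ∑ x ∈ H, s x) {d : Ω → ℤ} (hd : d ∈ relLattice G i s) : d = 0 := by
  classical
  by_contra hd0
  obtain ⟨P⟩ : Nonempty (Sylow ℓ G) := inferInstance
  obtain ⟨e, he, ⟨x0', hx0'⟩, hfixed⟩ := exists_fixed hi P hd hd0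
  -- a point of `H` where `e` is nonzero modulo `ℓ`
  obtain ⟨x0, hx0H, hx0⟩ : ∃ x0 ∈ H, (e x0 : ZMod ℓ) ≠ 0 := by
    by_cases h : x0' ∈ H
    · exact ⟨x0', h, hx0'⟩
    · refine ⟨i x0', ?_, ?_⟩
      · rw [hH, hii]; exact h
      · rw [he.1]; push_cast; simpa using hx0'
  have hHcard : H.card = ℓ ^ a := by
    have h1 := sum_half hii hH (f := fun _ => 1) (fun _ => rfl)
    simp only [Finset.sum_const, nsmul_eq_mul, mul_one, Finset.card_univ] at h1
    rw [Nat.card_eq_fintype_card] at hcard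
    rw [hcard] at h1
    push_cast at h1
    have h2 : (H.card : ℤ) = ℓ ^ a := by linarith
    exact_mod_cast h2
  have hsub : orbit P x0 ⊆ (H : Set Ω) := by
    rintro _ ⟨g, rfl⟩
    exact hstable P g g.2 x0 hx0H
  have hge : ℓ ^ a ≤ (orbit P x0).ncard := by
    apply Nat.le_of_dvd
    · rw [Set.ncard_pos]
      exact ⟨x0, mem_orbit_self x0⟩
    · exact pow_dvd_card_orbit P (by rw [hcard]; exact dvd_mul_left _ _) x0
  have hHorb : orbit P x0 = (H : Set Ω) := by
    apply Set.eq_of_subset_of_ncard_le hsub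
    rw [Set.ncard_coe_finset, hHcard]
    exact hge
  have hconst : ∀ x ∈ H, (e x : ZMod ℓ) = e x0 := by
    intro x hx
    have : x ∈ orbit P x0 := by rw [hHorb]; exact hx
    obtain ⟨g, rfl⟩ := this
    exact hfixed g g.2 x0
  have hE : ∑ x ∈ H, e x * s x = 0 := by
    have h1 := sum_half hii hH (f := fun x => e x * s x) (fun x => by rw [hs, he.1]; ring)
    have h2 := he.2 1
    simp only [one_smul] at h2
    rw [h2] at h1
    linarith
  apply hT
  rw [← ZMod.intCast_zmod_eq_zero_iff_dvd]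
  have h1 : ((∑ x ∈ H, e x * s x : ℤ) : ZMod ℓ) = e x0 * ((∑ x ∈ H, s x : ℤ) : ZMod ℓ) := by
    push_cast
    rw [Finset.mul_sum]
    exact Finset.sum_congr rfl fun x hx => by rw [hconst x hx]
  rw [hE, Int.cast_zero] at h1
  exact (mul_eq_zero.mp h1.symm).resolve_left hx0

end

end Pool.Agent.Lib.MP_950c68_ag
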