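import Mathlib
import Pool.Agent.Lib.MP_950c68_ag.Gen

/-!
# From the absence of relations to the statement on Tate classes
-/

namespace Pool.Agent.Lib.MP_950c68_ag

open Polynomial

theorem log_norm_ne_zero {p f : ℕ} [Fact p.Prime] (hf : f ≠ 0) :
    Real.log ‖((p ^ f : ℕ) : PadicAlgCl p)‖ ≠ 0 := by
  have hp : p.Prime := Fact.out
  have h1 : ‖((p ^ f : ℕ) : PadicAlgCl p)‖ = ((p : ℝ)⁻¹) ^ f := by
    push_cast
    rw [norm_pow]
    congr 1
    have h2 := PadicAlgCl.valuation_p p
    have h3 := PadicAlgCl.valuation_coe p (p : PadicAlgCl p)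
    rw [← h3, h2]
    simp
  rw [h1, Real.log_pow, Real.log_inv]
  have h4 : 0 < Real.log p := Real.log_pos (by exact_mod_cast hp.one_lt)
  have h5 : (f : ℝ) ≠ 0 := by exact_mod_cast hf
  intro h6
  rcases mul_eq_zero.mp h6 with h | h
  · exact h5 h
  · linarith

theorem tate_mul {K V : Type*} [Field K] [AddCommGroup V] [Module K V] (F : V →ₗ[K] V) (Q : K)
    (i j : ℕ) : tateClasses K F Q i * tateClasses K F Q j ≤ tateClasses K F Q (i + j) := by
  rw [Submodule.mul_le]
  intro x hx y hy
  rw [tateClasses, Submodule.mem_inf, Module.End.mem_eigenspace_iff] at hx hy ⊢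
  refine ⟨?_, ?_⟩
  · rw [ExteriorAlgebra.exteriorPower, mul_add, pow_add]
    exact Submodule.mul_mem_mul hx.1 hy.1
  · have h1 : ExteriorAlgebra.map F x = Q ^ i • x := hx.2
    have h2 : ExteriorAlgebra.map F y = Q ^ j • y := hy.2
    change ExteriorAlgebra.map F (x * y) = _
    rw [map_mul, h1, h2, smul_mul_smul_comm, pow_add]

theorem pow_tate_le {K V : Type*} [Field K] [AddCommGroup V] [Module K V] (F : V →ₗ[K] V) (Q : K)
    (j : ℕ) : (tateClasses K F Q 1) ^ j ≤ tateClasses K F Q j := by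
  induction j with
  | zero =>
    rw [pow_zero, Submodule.one_le, tateClasses, Submodule.mem_inf,
      Module.End.mem_eigenspace_iff]
    refine ⟨?_, ?_⟩
    · rw [ExteriorAlgebra.exteriorPower, mul_zero, pow_zero]
      exact Submodule.one_le.mp le_rfl
    · change ExteriorAlgebra.map F 1 = _
      simp
  | succ j ih =>
    rw [pow_succ]
    exact (mul_le_mul' ih le_rfl).trans (tate_mul F Q j 1)

/-- The final step. -/
theorem tate_eq_of_norel {R : ℚ[X]} {q : ℕ} (hR : Irreducible R) (hdeg1 : R.natDegree ≠ 1)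
    (hq : q ≠ 0)
    (K V : Type*) [Field K] [CharZero K] [AddCommGroup V] [Module K V]
    (hnorel : NoRel R q (AlgebraicClosure K)) (F : Module.End K V)
    (hF : aeval F ((R * (X ^ 2 - C (q : ℚ))).map (algebraMap ℚ K)) = 0)
    (n : ℕ) (hn : n ≠ 0) (j : ℕ) :
    tateClasses K (F ^ n) ((q : K) ^ n) j = (tateClasses K (F ^ n) ((q : K) ^ n) 1) ^ j := by
  apply le_antisymm _ (pow_tate_le _ _ _)
  let E := AlgebraicClosure K
  have hq0 : (q : E) ≠ 0 := by
    have h1 : (q : K) ≠ 0 := by exact_mod_cast hq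
    have h2 : algebraMap K E (q : K) ≠ 0 := (_root_.map_ne_zero _).mpr h1
    rwa [map_natCast] at h2
  have h0 : ∀ z : E, aeval z R = 0 → z ≠ 0 := fun z hz => ne_zero_of_root hR hdeg1 hz
  have hF' : aeval (LinearMap.baseChange E F)
      ((R * (X ^ 2 - C (q : ℚ))).map (algebraMap ℚ E)) = 0 := by
    have h1 : (R * (X ^ 2 - C (q : ℚ))).map (algebraMap ℚ E) =
        ((R * (X ^ 2 - C (q : ℚ))).map (algebraMap ℚ K)).map (algebraMap K E) := by
      rw [Polynomial.map_map]
      congr 1
    rw [h1, aeval_map_algebraMap]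
    have h2 := aeval_algHom_apply (Module.End.baseChangeHom K E V) F
      ((R * (X ^ 2 - C (q : ℚ))).map (algebraMap ℚ K))
    rw [hF, map_zero] at h2
    exact h2
  have key := tateClasses_le_of_isAlgClosed hR h0 hq0 hnorel
    (LinearMap.baseChange E F) hF' hn j
  apply tateClasses_descent K E
  have h3 : LinearMap.baseChange E (F ^ n) = (LinearMap.baseChange E F) ^ n :=
    map_pow (Module.End.baseChangeHom K E V) F n
  have h4 : algebraMap K E ((q : K) ^ n) = (q : E) ^ n := by
    rw [map_pow, map_natCast]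
  rw [h3, h4]
  exact key

end Pool.Agent.Lib.MP_950c68_ag
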