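import Mathlib

/-!
# A Frobenius element for a polynomial irreducible modulo a prime
-/

namespace Pool.Agent.Lib.MP_950c68_ag

open Polynomial

set_option synthInstance.maxHeartbeats 400000

/-- If the monic integral polynomial `R` is irreducible modulo the prime `r` then some element
`σ` of the Galois group has no root of `R` with a period smaller than the degree. -/
theorem exists_frobenius {L : Type*} [Field L] [Algebra ℚ L] [FiniteDimensional ℚ L]
    [IsGalois ℚ L] (R : ℤ[X]) (hmonic : R.Monic) (r : ℕ) [hr : Fact r.Prime]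
    (hirr : Irreducible (R.map (Int.castRingHom (ZMod r)))) :
    ∃ σ : L ≃ₐ[ℚ] L, ∀ x : L, aeval x R = 0 → ∀ j : ℕ, 0 < j → j < R.natDegree →
      (σ ^ j) x ≠ x := by
  classical
  let B := integralClosure ℤ L
  have : Algebra.IsSeparable ℚ L := inferInstance
  have hfin : Module.Finite ℤ B := IsIntegralClosure.finite ℤ ℚ L B
  let P : Ideal ℤ := Ideal.span {(r : ℤ)}
  have hPprime : Prime (r : ℤ) := Nat.prime_iff_prime_int.mp hr.out
  have hPmax : P.IsMaximal :=
    PrincipalIdealRing.isMaximal_of_irreducible hPprime.irreducible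
  have hfrac : IsFractionRing B L := integralClosure.isFractionRing_of_finite_extension ℚ L
  have hL0 : CharZero L := charZero_of_injective_algebraMap (algebraMap ℚ L).injective
  have hinjZ : Function.Injective (algebraMap ℤ B) := by
    intro a b hab
    have h1 : ((a : ℤ) : L) = (b : L) := by
      have h2 := congrArg (algebraMap B L) hab
      simpa using h2
    exact_mod_cast h1
  obtain ⟨Q, hQmax, hQcomap⟩ := Ideal.exists_ideal_over_maximal_of_isIntegral (S := B) P
    (by rw [(RingHom.injective_iff_ker_eq_bot _).mp hinjZ]; exact bot_le)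
  have hrQ : (r : B) ∈ Q := by
    have h1 : (r : ℤ) ∈ Q.comap (algebraMap ℤ B) := by
      rw [hQcomap]
      exact Ideal.mem_span_singleton_self _
    rw [Ideal.mem_comap] at h1
    simpa using h1
  have hfinQ : Finite (B ⧸ Q) := by
    have : Module.Finite ℤ (B ⧸ Q) := Module.Finite.of_surjective
      (Ideal.Quotient.mkₐ ℤ Q).toLinearMap Ideal.Quotient.mk_surjective
    apply Module.finite_of_fg_torsion
    intro x
    refine ⟨⟨(r : ℤ), mem_nonZeroDivisors_of_ne_zero hPprime.ne_zero⟩, ?_⟩
    obtain ⟨b, rfl⟩ := Ideal.Quotient.mk_surjective x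
    change (r : ℤ) • (Ideal.Quotient.mk Q b) = 0
    rw [zsmul_eq_mul, Int.cast_natCast]
    have h2 : ((r : ℕ) : B ⧸ Q) = Ideal.Quotient.mk Q (r : B) := by simp
    rw [h2, Ideal.Quotient.eq_zero_iff_mem.mpr hrQ, zero_mul]
  let _ : MulSemiringAction (L ≃ₐ[ℚ] L) B := IsIntegralClosure.MulSemiringAction ℤ ℚ L B
  have hinv : Algebra.IsInvariant ℤ B (L ≃ₐ[ℚ] L) := Algebra.isInvariant_of_isGalois ℤ ℚ L B
  obtain ⟨σ, hσ⟩ := IsArithFrobAt.exists_of_isInvariant ℤ (L ≃ₐ[ℚ] L) Q
  have hcard : Nat.card (ℤ ⧸ Q.under ℤ) = r := by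
    have h1 : Q.under ℤ = P := hQcomap
    rw [h1]
    have h2 := Nat.card_congr (Int.quotientSpanNatEquivZMod r).toEquiv
    rw [h2, Nat.card_zmod]
  have hcoe : ∀ (g : L ≃ₐ[ℚ] L) (b : B), ((g • b : B) : L) = g (b : L) := by
    intro g b
    exact algebraMap_galRestrict_apply ℤ g b
  have hfrob : ∀ b : B, Ideal.Quotient.mk Q (σ • b) = (Ideal.Quotient.mk Q b) ^ r := by
    intro b
    have h1 := hσ b
    rw [hcard] at h1
    rw [← map_pow, Ideal.Quotient.eq]
    exact h1
  have hfrobj : ∀ (j : ℕ) (b : B), Ideal.Quotient.mk Q ((σ ^ j) • b) =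
      (Ideal.Quotient.mk Q b) ^ (r ^ j) := by
    intro j
    induction j with
    | zero => intro b; simp
    | succ j ih =>
      intro b
      rw [pow_succ', mul_smul, hfrob, ih, ← pow_mul, pow_succ]
  refine ⟨σ, fun x hx j hj0 hjn hfixx => ?_⟩
  -- the root as an element of `B`
  have hxint : IsIntegral ℤ x := ⟨R, hmonic, by rw [← aeval_def]; exact hx⟩
  let y : B := ⟨x, hxint⟩
  have hy : (σ ^ j) • y = y := by
    apply Subtype.ext
    rw [hcoe]
    exact hfixx
  have hyroot : aeval y R = 0 := by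
    apply Subtype.ext
    have h1 : ((aeval y R : B) : L) = aeval (y : L) R := by
      have := aeval_algebraMap_apply L y R
      exact this.symm
    rw [h1]
    exact hx
  set ybar := Ideal.Quotient.mk Q y with hybar
  have hybarpow : ybar ^ (r ^ j) = ybar := by
    rw [hybar, ← hfrobj, hy]
  -- the residue field as an algebra over `ZMod r`
  let _ : Field (B ⧸ Q) := Ideal.Quotient.field Q
  have hchar : CharP (B ⧸ Q) r := by
    apply (CharP.charP_iff_prime_eq_zero hr.out).mpr
    have h2 : ((r : ℕ) : B ⧸ Q) = Ideal.Quotient.mk Q (r : B) := by simp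
    rw [h2, Ideal.Quotient.eq_zero_iff_mem.mpr hrQ]
  let _ : Algebra (ZMod r) (B ⧸ Q) := ZMod.algebra _ r
  have hbarroot : aeval ybar (R.map (Int.castRingHom (ZMod r))) = 0 := by
    rw [aeval_def, eval₂_map]
    have h3 : (algebraMap (ZMod r) (B ⧸ Q)).comp (Int.castRingHom (ZMod r)) =
        (Ideal.Quotient.mk Q).comp (algebraMap ℤ B) := RingHom.ext_int _ _
    rw [h3, hybar, ← hom_eval₂, ← aeval_def, hyroot, map_zero]
  have hdvd : R.map (Int.castRingHom (ZMod r)) ∣ X ^ (Nat.card (ZMod r)) ^ j - X := by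
    have hmin : R.map (Int.castRingHom (ZMod r)) = minpoly (ZMod r) ybar :=
      minpoly.eq_of_irreducible_of_monic hirr hbarroot (hmonic.map _)
    rw [hmin]
    apply minpoly.dvd
    rw [Nat.card_zmod]
    simp [hybarpow]
  have hdeg := hirr.natDegree_dvd_of_dvd_X_pow_card_pow_sub_X hdvd
  rw [hmonic.natDegree_map] at hdeg
  have := Nat.le_of_dvd hj0 hdeg
  omega

end Pool.Agent.Lib.MP_950c68_ag
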