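import Mathlib
import Pool.Agent.Lib.MP_950c68_ag.Ext

/-!
# Tate classes in the exterior algebra, for a separable polynomial
-/

namespace Pool.Agent.Lib.MP_950c68_ag

open Polynomial
open scoped Pointwise

section

variable {E V : Type*} [Field E] [AddCommGroup V] [Module E V]

variable {R : ℚ[X]} {q : ℕ}

/-- `V` is spanned by eigenvectors. -/
theorem span_eigen_sep [Algebra ℚ E] [IsAlgClosed E] (hR0 : R ≠ 0) (hRs : R.Separable) (hq0 : (q : E) ≠ 0)
    (hfix : ∀ z : E, aeval z R = 0 → (q : E) / z ≠ z)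
    (F : Module.End E V)
    (hF : aeval F ((R * (X ^ 2 - C (q : ℚ))).map (algebraMap ℚ E)) = 0) :
    Submodule.span E {v : V | ∃ μ : E, F v = μ • v ∧ (aeval μ R = 0 ∨ μ ^ 2 = q)} = ⊤ := by
  classical
  obtain ⟨r, hr⟩ := IsAlgClosed.exists_pow_nat_eq (q : E) (n := 2) (by norm_num)
  have hr0 : r ≠ 0 := by
    rintro rfl
    apply hq0
    rw [← hr]; simp
  have hrr : r ≠ -r := by
    intro h
    have : (2 : E) * r = 0 := by linear_combination h
    have h2 : (2 : E) ≠ 0 := by
      have : (algebraMap ℚ E 2) ≠ 0 := (_root_.map_ne_zero _).mpr (by norm_num)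
      rwa [map_ofNat] at this
    rcases mul_eq_zero.mp this with h3 | h3
    · exact h2 h3
    · exact hr0 h3
  set R' := R.map (algebraMap ℚ E) with hR'
  have hR'0 : R' ≠ 0 := (Polynomial.map_ne_zero_iff (algebraMap ℚ E).injective).mpr hR0
  let Z1 : Finset E := R'.roots.toFinset
  have hsep : R'.Separable := hRs.map
  have hnod : R'.roots.Nodup := nodup_roots hsep
  have hR'prod : R' = C R'.leadingCoeff * ∏ z ∈ Z1, (X - C z) := by
    conv_lhs => rw [(IsAlgClosed.splits R').eq_prod_roots]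
    congr 1
    rw [Finset.prod_multiset_map_count]
    apply Finset.prod_congr rfl
    intro z hz
    rw [Multiset.count_eq_one_of_mem hnod (Multiset.mem_toFinset.mp hz), pow_one]
  have hZ1 : ∀ z ∈ Z1, aeval z R = 0 := by
    intro z hz
    rw [Multiset.mem_toFinset, mem_roots_map hR0] at hz
    exact hz
  have hX : (X ^ 2 - C (q : ℚ)).map (algebraMap ℚ E) = (X - C r) * (X - C (-r)) := by
    have h1 : (X ^ 2 - C (q : ℚ)).map (algebraMap ℚ E) = X ^ 2 - C (q : E) := by simp
    rw [h1, ← hr]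
    simp only [map_pow, map_neg]
    ring
  have hrZ : r ∉ Z1 ∧ -r ∉ Z1 := by
    constructor
    · intro h
      apply hfix _ (hZ1 _ h)
      rw [← hr, sq, mul_div_assoc, div_self hr0, mul_one]
    · intro h
      apply hfix _ (hZ1 _ h)
      rw [← hr, sq]
      field_simp
  let Z : Finset E := insert r (insert (-r) Z1)
  have hprod : (R * (X ^ 2 - C (q : ℚ))).map (algebraMap ℚ E) =
      C R'.leadingCoeff * ∏ z ∈ Z, (X - C z) := by
    rw [Polynomial.map_mul, hX, ← hR']
    conv_lhs => rw [hR'prod]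
    rw [Finset.prod_insert, Finset.prod_insert hrZ.2]
    · ring
    · rw [Finset.mem_insert]
      push Not
      exact ⟨hrr, hrZ.1⟩
  rw [hprod, map_mul, aeval_C] at hF
  have hlc : R'.leadingCoeff ≠ 0 := leadingCoeff_ne_zero.mpr hR'0
  have hF' : aeval F (∏ z ∈ Z, (X - C z)) = 0 := by
    rw [Algebra.algebraMap_eq_smul_one, smul_mul_assoc, one_mul] at hF
    exact (smul_eq_zero.mp hF).resolve_left hlc
  have htop : LinearMap.ker (aeval F (∏ z ∈ Z, (X - C z))) = ⊤ := by
    rw [hF']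
    exact LinearMap.ker_zero
  rw [iSup_eigenspace_of_prod] at htop
  rw [eq_top_iff, ← htop]
  refine iSup_le fun μ => iSup_le fun hμ => ?_
  intro v hv
  apply Submodule.subset_span
  refine ⟨μ, Module.End.mem_eigenspace_iff.mp hv, ?_⟩
  simp only [Z, Finset.mem_insert] at hμ
  rcases hμ with h | h | h
  · right; rw [h, hr]
  · right; rw [h, neg_sq, hr]
  · left; exact hZ1 _ h

/-- The theorem over an algebraically closed field. -/
theorem tateClasses_le_of_separable [Algebra ℚ E] [IsAlgClosed E] (hR0 : R ≠ 0) (hRs : R.Separable)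
    (h0 : ∀ z : E, aeval z R = 0 → z ≠ 0)
    (hq0 : (q : E) ≠ 0) (hrel : NoRel R q E) (F : Module.End E V)
    (hF : aeval F ((R * (X ^ 2 - C (q : ℚ))).map (algebraMap ℚ E)) = 0)
    {n : ℕ} (hn : n ≠ 0) (j : ℕ) :
    tateClasses E (F ^ n) ((q : E) ^ n) j ≤ (tateClasses E (F ^ n) ((q : E) ^ n) 1) ^ j := by
  classical
  have hfix : ∀ z : E, aeval z R = 0 → (q : E) / z ≠ z := fun z hz =>
    (hrel (fun _ => 0) 0 (by simp) z hz).1
  have hspan := span_eigen_sep hR0 hRs hq0 hfix F hF
  set Eig : Set V := {v : V | ∃ μ : E, F v = μ • v ∧ (aeval μ R = 0 ∨ μ ^ 2 = q)} with hEig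
  intro x hx
  rw [mem_tateClasses] at hx
  obtain ⟨hx1, hx2⟩ := hx
  have hrange : LinearMap.range (ExteriorAlgebra.ι E : V →ₗ[E] ExteriorAlgebra E V) =
      Submodule.span E ((ExteriorAlgebra.ι E : V →ₗ[E] ExteriorAlgebra E V) '' Eig) := by
    rw [Submodule.span_image, hspan, Submodule.map_top]
  rw [ExteriorAlgebra.exteriorPower, hrange, Submodule.span_pow] at hx1
  -- description of the generators
  have hgen : ∀ w ∈ ((ExteriorAlgebra.ι E : V →ₗ[E] ExteriorAlgebra E V) '' Eig) ^ (2 * j),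
      ∃ l : List (E × V), l.length = 2 * j ∧
        (∀ b ∈ l, F b.2 = b.1 • b.2 ∧ (aeval b.1 R = 0 ∨ b.1 ^ 2 = q)) ∧
        w = ((l.map Prod.snd).map (ExteriorAlgebra.ι E)).prod := by
    intro w hw
    rw [Set.mem_pow] at hw
    obtain ⟨f, hf⟩ := hw
    choose v hv hvf using fun i => (f i).2
    choose μ hμ using hv
    refine ⟨List.ofFn fun i => (μ i, v i), by simp, ?_, ?_⟩
    · intro b hb
      rw [List.mem_ofFn] at hb
      obtain ⟨i, rfl⟩ := hb
      exact hμ i
    · rw [← hf]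
      simp only [List.map_ofFn, Function.comp_def, hvf]
  have hev : ∀ l : List (E × V), (∀ b ∈ l, F b.2 = b.1 • b.2 ∧ (aeval b.1 R = 0 ∨ b.1 ^ 2 = q)) →
      ExteriorAlgebra.map (F ^ n) ((l.map Prod.snd).map (ExteriorAlgebra.ι E)).prod =
        ((l.map Prod.fst).prod) ^ n • ((l.map Prod.snd).map (ExteriorAlgebra.ι E)).prod := by
    intro l hl
    have h1 := map_prod_list (F ^ n) (l.map fun b => (b.1 ^ n, b.2)) (by
      intro b hb
      rw [List.mem_map] at hb
      obtain ⟨c, hc, rfl⟩ := hb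
      exact pow_apply_of_eigen F (hl c hc).1 n)
    simp only [List.map_map, Function.comp_def] at h1 ⊢
    rw [h1]
    congr 1
    exact prod_map_pow' l n
  have hS := mem_span_of_eigen (ExteriorAlgebra.map (F ^ n)).toLinearMap _ (fun w hw => by
    obtain ⟨l, _, hl, rfl⟩ := hgen w hw
    exact ⟨_, hev l hl⟩) (((q : E) ^ n) ^ j) hx1 hx2
  refine (Submodule.span_le.mpr ?_) hS
  rintro w ⟨hw, hweig⟩
  obtain ⟨l, hlen, hl, rfl⟩ := hgen w hw
  by_cases hzero : ((l.map Prod.snd).map (ExteriorAlgebra.ι E)).prod = 0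
  · rw [hzero]
    exact Submodule.zero_mem _
  · refine mon_mem hR0 h0 hq0 hrel F hn j l hlen hl ?_
    have h1 := hev l hl
    change ExteriorAlgebra.map (F ^ n) _ = _ at hweig
    rw [hweig] at h1
    have h2 := smul_left_injective E hzero h1
    rw [← h2, ← pow_mul]

end

end Pool.Agent.Lib.MP_950c68_ag
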