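import Mathlib
import Pool.Agent.Lib.MP_950c68_ag.OrbCross
import Pool.Agent.Lib.MP_950c68_ag.OrbFinal

/-!
# Several clusters of orbits
-/

namespace Pool.Agent.Lib.MP_950c68_ag.Orb

open MulAction Polynomial
open scoped IntermediateField

/-- A relation on several clusters reduces to relations on one cluster. -/
theorem eq_zero_of_clusters {G Ω I : Type*} [Group G] [MulAction G Ω] [Finite G] [Finite I]
    {ι : G} {Λ : AddSubgroup (Ω → ℤ)}
    (hΛ : ∀ d ∈ Λ, ∀ g : G, (fun y => d (g • y)) ∈ Λ)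
    (hanti : ∀ d ∈ Λ, ∀ y, d (ι • y) = - d y) (κ : Ω → I) (hκ : ∀ (g : G) (x : Ω), κ (g • x) = κ x)
    (hloc : ∀ i : I, ∀ d ∈ Λ, (∀ y, κ y ≠ i → d y = 0) → ∀ x, d x = 0)
    (hcross : ∀ i j : I, i ≠ j →
      (∀ x y : Ω, κ x = i → κ y = j → ∃ g : G, g • x = x ∧ g • y = ι • y) ∨
      (∀ x y : Ω, κ x = j → κ y = i → ∃ g : G, g • x = x ∧ g • y = ι • y)) :
    ∀ d ∈ Λ, ∀ x, d x = 0 := by
  classical
  have := Fintype.ofFinite I
  -- one step
  have step : ∀ d ∈ Λ, ∀ (x : Ω) (j : I), d x ≠ 0 →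
      (∀ y, κ y = j → ∃ g : G, g • x = x ∧ g • y = ι • y) →
      ∃ e ∈ Λ, e x ≠ 0 ∧ (∀ z, κ z = j → e z = 0) ∧
        ∀ i, (∀ w, κ w = i → d w = 0) → ∀ w, κ w = i → e w = 0 := by
    intro d hd x j hdx hy
    obtain ⟨e, he, hinv, h0, hsupp⟩ := exists_avg_supp hΛ x hd
    refine ⟨e, he, fun h => hdx (h0 h), ?_, ?_⟩
    · intro z hz
      obtain ⟨g, hg1, hg2⟩ := hy z hz
      have h1 := hinv g hg1 z
      rw [hg2, hanti e he] at h1
      omega
    · intro i hi w hw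
      apply hsupp
      rintro _ ⟨g, rfl⟩
      exact hi _ (by rw [← hw]; exact hκ g w)
  let cnt : (Ω → ℤ) → ℕ := fun d => (Finset.univ.filter fun i : I => ∃ z, κ z = i ∧ d z ≠ 0).card
  have hlt : ∀ d e : Ω → ℤ, ∀ y : Ω, d y ≠ 0 → (∀ z, κ z = κ y → e z = 0) →
      (∀ i, (∀ w, κ w = i → d w = 0) → ∀ w, κ w = i → e w = 0) → cnt e < cnt d := by
    intro d e y hdy hey hsupp
    apply Finset.card_lt_card
    rw [Finset.ssubset_iff_of_subset]
    · refine ⟨κ y, ?_, ?_⟩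
      · rw [Finset.mem_filter]
        exact ⟨Finset.mem_univ _, y, rfl, hdy⟩
      · rw [Finset.mem_filter]
        rintro ⟨_, z, hz, hez⟩
        exact hez (hey z hz)
    · intro i hi
      rw [Finset.mem_filter] at hi ⊢
      obtain ⟨_, z, hz, hez⟩ := hi
      refine ⟨Finset.mem_univ _, ?_⟩
      by_contra hcon
      push Not at hcon
      exact hez (hsupp i hcon z hz)
  suffices H : ∀ n : ℕ, ∀ d ∈ Λ, cnt d ≤ n → ∀ x, d x = 0 from
    fun d hd => H (cnt d) d hd le_rfl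
  intro n
  induction n with
  | zero =>
    intro d _ hcnt x
    by_contra hx
    have h1 : κ x ∈ (Finset.univ.filter fun i : I => ∃ z, κ z = i ∧ d z ≠ 0) := by
      rw [Finset.mem_filter]
      exact ⟨Finset.mem_univ _, x, rfl, hx⟩
    have h2 := Finset.card_pos.mpr ⟨_, h1⟩
    simp only [cnt] at hcnt
    omega
  | succ n ih =>
    intro d hd hcnt x
    by_contra hx
    by_cases hone : ∀ y, κ y ≠ κ x → d y = 0
    · exact hx (hloc (κ x) d hd hone x)
    · push Not at hone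
      obtain ⟨y, hy, hdy⟩ := hone
      rcases hcross (κ x) (κ y) (Ne.symm hy) with h | h
      · obtain ⟨e, he, hex, hey, hsupp⟩ := step d hd x (κ y) hx fun z hz => h x z rfl hz
        have h1 := hlt d e y hdy hey hsupp
        exact hex (ih e he (by omega) x)
      · obtain ⟨e, he, hey, hex, hsupp⟩ := step d hd y (κ x) hdy fun z hz => h y z rfl hz
        have h1 := hlt d e x hx hex hsupp
        exact hey (ih e he (by omega) y)

/-- Only trivial multiplicative relations modulo powers of `q` between the roots. -/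
def Free (q : ℕ) (S : ℚ[X]) : Prop :=
  ∀ (d : ℂ → ℤ) (m : ℤ), ∏ z ∈ (S.aroots ℂ).toFinset, z ^ d z = (q : ℂ) ^ m →
    ∀ z : ℂ, aeval z S = 0 → d z = d (q / z)

/-- Irreducible of degree `2 l`, `l` prime, roots with different powers, and a condition on
half systems. -/
def PrimeDegreePoly (q : ℕ) (S : ℚ[X]) : Prop :=
  Irreducible S ∧ ∃ l : ℕ, l.Prime ∧ S.natDegree = 2 * l ∧
  (∀ x y : ℂ, aeval x S = 0 → aeval y S = 0 → x ≠ y → ∀ n : ℕ, n ≠ 0 → x ^ n ≠ y ^ n) ∧
  ∀ Φ : Finset ℂ, (∀ z ∈ Φ, aeval z S = 0) → (∀ z : ℂ, aeval z S = 0 → (z ∈ Φ ↔ q / z ∉ Φ)) →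
    (∀ σ : ℂ ≃ₐ[ℚ] ℂ, (∀ z ∈ Φ, σ z ∈ Φ) ∨ ∀ z ∈ Φ, σ z ∉ Φ) →
    ∀ n : ℕ, n ≠ 0 → (∏ z ∈ Φ, z) ^ (2 * n) ≠ (q : ℂ) ^ (l * n)

/-- For all roots `x` of `S` and `y` of `T` the numbers `y`, `q / y` are conjugate over `ℚ(x)`. -/
def Separated (q : ℕ) (S T : ℚ[X]) : Prop :=
  ∀ x y : ℂ, aeval x S = 0 → aeval y T = 0 → IsConjRoot ℚ⟮x⟯ y (q / y)

theorem isConjRoot_iff_of_irreducible {S : ℚ[X]} (hS : Irreducible S) {x : ℂ}
    (hx : aeval x S = 0) (y : ℂ) : IsConjRoot ℚ x y ↔ aeval y S = 0 := by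
  have hint : IsIntegral ℚ x := IsAlgebraic.isIntegral ⟨S, hS.ne_zero, hx⟩
  rw [isConjRoot_iff_aeval_eq_zero hint]
  have h1 : Associated (minpoly ℚ x) S :=
    (minpoly.irreducible hint).associated_of_dvd hS (minpoly.dvd ℚ x hx)
  obtain ⟨u, hu⟩ := h1
  have hu' : IsUnit (aeval y (u : ℚ[X])) := (Units.isUnit u).map (aeval y)
  rw [← hu, map_mul]
  constructor
  · intro h
    rw [h, zero_mul]
  · intro h
    exact (mul_eq_zero.mp h).resolve_right hu'.ne_zero

theorem primeDegree_of_poly {q : ℕ} {S : ℚ[X]} (h : PrimeDegreePoly q S) {x : ℂ}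
    (hx : aeval x S = 0) : PrimeDegree q x := by
  obtain ⟨hS, l, hl, hdeg, hstab, hhalf⟩ := h
  have hc := isConjRoot_iff_of_irreducible hS hx
  have hint : IsIntegral ℚ x := IsAlgebraic.isIntegral ⟨S, hS.ne_zero, hx⟩
  refine ⟨l, hl, ?_, ?_, ?_⟩
  · have h1 : Associated (minpoly ℚ x) S :=
      (minpoly.irreducible hint).associated_of_dvd hS (minpoly.dvd ℚ x hx)
    rw [← hdeg]
    exact natDegree_eq_of_degree_eq (degree_eq_degree_of_associated h1)
  · intro y hy hyx n hn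
    exact hstab y x ((hc y).mp hy) hx hyx n hn
  · intro Φ h1 h2 h3
    exact hhalf Φ (fun z hz => (hc z).mp (h1 z hz)) (fun z hz => h2 z ((hc z).mpr hz)) h3

variable {R : ℚ[X]} {q : ℕ}

/-- A free factor supports no antisymmetric relations. -/
theorem eq_zero_of_free (hR0 : R ≠ 0) (hW : ∀ z : ℂ, aeval z R = 0 → ‖z‖ ^ 2 = q) (hq : q ≠ 0)
    {hq' : (q : ℂ) ≠ 0} {h0 : ∀ x : R.rootSet (LF R), ((x : LF R) : ℂ) ≠ 0}
    {S : ℚ[X]} (hS0 : S ≠ 0) (hdvd : S ∣ R) (hS : Free q S) :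
    ∀ d ∈ Lam R q hq' h0, (∀ y : R.rootSet (LF R), aeval ((y : LF R) : ℂ) S ≠ 0 → d y = 0) →
      ∀ x, d x = 0 := by
  classical
  rintro d ⟨hanti, M, hM⟩ hsupp x
  by_cases hx : aeval ((x : LF R) : ℂ) S = 0
  swap
  · exact hsupp x hx
  let D : ℂ → ℤ := fun z => if h : aeval z R = 0 then d (exists_root hR0 h).choose else 0
  have hD : ∀ y : R.rootSet (LF R), D ((y : LF R) : ℂ) = d y := by
    intro y
    have h := aeval_root y
    simp only [D]
    rw [dif_pos h]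
    congr 1
    exact coe_injective (exists_root hR0 h).choose_spec
  have hprod : ∏ z ∈ (S.aroots ℂ).toFinset, z ^ D z = (q : ℂ) ^ M := by
    rw [← hM]
    have hsub : (S.aroots ℂ).toFinset ⊆
        Finset.image (fun y : R.rootSet (LF R) => ((y : LF R) : ℂ)) Finset.univ := by
      intro z hz
      rw [Multiset.mem_toFinset, mem_aroots] at hz
      obtain ⟨T, hT⟩ := hdvd
      obtain ⟨y, hy⟩ := exists_root hR0 (z := z) (by rw [hT, map_mul, hz.2, zero_mul])
      rw [Finset.mem_image]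
      exact ⟨y, Finset.mem_univ _, hy⟩
    rw [Finset.prod_subset hsub, Finset.prod_image coe_injective.injOn]
    · refine Finset.prod_congr rfl fun y _ => ?_
      rw [hD]
    · intro z hz hz'
      rw [Finset.mem_image] at hz
      obtain ⟨y, _, rfl⟩ := hz
      rw [hD, hsupp y, zpow_zero]
      intro h
      apply hz'
      rw [Multiset.mem_toFinset, mem_aroots]
      exact ⟨hS0, h⟩
  have h1 := hS D M hprod _ hx
  rw [← coe_iota' hW hq, hD, hD, hanti] at h1
  omega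

theorem noRel_of_zero (hR0 : R ≠ 0) (hW : ∀ z : ℂ, aeval z R = 0 → ‖z‖ ^ 2 = q) (hq : q ≠ 0)
    (hns : ∀ z : ℂ, aeval z R = 0 → ∀ n : ℕ, n ≠ 0 → z ^ (2 * n) ≠ (q : ℂ) ^ n)
    (hzero : ∀ (hq' : (q : ℂ) ≠ 0) (h0 : ∀ x : R.rootSet (LF R), ((x : LF R) : ℂ) ≠ 0),
      ∀ d ∈ Lam R q hq' h0, ∀ x, d x = 0)
    (E : Type*) [Field E] [Algebra ℚ E] [IsAlgClosed E] : NoRel R q E := by
  classical
  intro c M hrel z hz
  let τ : LF R →ₐ[ℚ] E := IsAlgClosed.lift
  have hq' : (q : ℂ) ≠ 0 := by exact_mod_cast hq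
  have h0 : ∀ x : R.rootSet (LF R), ((x : LF R) : ℂ) ≠ 0 := by
    intro x
    have := root_ne_zero hW hq x
    simpa using this
  have hτι : ∀ x : R.rootSet (LF R), τ (iota R • x : R.rootSet (LF R)) = (q : E) / τ x := by
    intro x
    rw [coe_iota_smul hW hq, map_div₀, map_natCast]
  -- the relation in `ℂ`
  have hrelL : ∏ x : R.rootSet (LF R), (x : LF R) ^ c (τ x) = (q : LF R) ^ M := by
    have h1 := hrel
    rw [prod_roots hR0 τ] at h1
    apply τ.injective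
    rw [map_prod, map_pow, map_natCast, ← h1]
    refine Finset.prod_congr rfl fun x _ => ?_
    rw [map_pow]
    rfl
  have hrelC : ∏ x : R.rootSet (LF R), ((x : LF R) : ℂ) ^ c (τ x) = (q : ℂ) ^ M := by
    have h1 := congrArg (algebraMap (LF R) ℂ) hrelL
    rw [map_prod, map_pow, map_natCast] at h1
    rw [← h1]
    refine Finset.prod_congr rfl fun x _ => ?_
    rw [map_pow]
    rfl
  let e : R.rootSet (LF R) → ℕ := fun x => c (τ x)
  have hd : (fun x => (e x : ℤ) - e (iota R • x)) ∈ Lam R q hq' h0 := by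
    refine ⟨fun x => ?_, ?_⟩
    · simp only
      rw [iota_iota hW hq]
      ring
    · refine ⟨2 * M - ∑ x : R.rootSet (LF R), (e x : ℤ), ?_⟩
      have h1 : ∏ x : R.rootSet (LF R), ((x : LF R) : ℂ) ^ (e (iota R • x)) =
          (q : ℂ) ^ (∑ x : R.rootSet (LF R), e x) / (q : ℂ) ^ M := by
        rw [← Equiv.prod_comp (MulAction.toPerm (iota R))
          (fun x : R.rootSet (LF R) => ((x : LF R) : ℂ) ^ (e (iota R • x)))]
        simp only [MulAction.toPerm_apply]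
        rw [← hrelC, ← Finset.prod_pow_eq_pow_sum, ← Finset.prod_div_distrib]
        refine Finset.prod_congr rfl fun x _ => ?_
        rw [iota_iota hW hq, coe_iota' hW hq, div_pow]
      have h2 : ∏ x : R.rootSet (LF R), ((x : LF R) : ℂ) ^ ((e x : ℤ) - e (iota R • x)) =
          (∏ x : R.rootSet (LF R), ((x : LF R) : ℂ) ^ (e x)) /
            ∏ x : R.rootSet (LF R), ((x : LF R) : ℂ) ^ (e (iota R • x)) := by
        rw [← Finset.prod_div_distrib]
        refine Finset.prod_congr rfl fun x _ => ?_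
        rw [zpow_sub₀ (h0 x), zpow_natCast, zpow_natCast]
      rw [h2, h1]
      have h3 : ∏ x : R.rootSet (LF R), ((x : LF R) : ℂ) ^ (e x) = (q : ℂ) ^ M := hrelC
      rw [h3, zpow_sub₀ hq', ← Nat.cast_sum, zpow_natCast, mul_comm 2, zpow_mul, zpow_natCast]
      have h4 : (q : ℂ) ^ M ≠ 0 := pow_ne_zero _ hq'
      have h5 : (q : ℂ) ^ (∑ x : R.rootSet (LF R), e x) ≠ 0 := pow_ne_zero _ hq'
      rw [div_div_eq_mul_div, ← sq]
      rfl
  obtain ⟨x, rfl⟩ := exists_root_eq hR0 τ hz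
  have hx := hzero hq' h0 _ hd x
  rw [← hτι]
  refine ⟨fun h => iota_ne hW hq hns x (Subtype.ext (τ.injective h)), ?_⟩
  simp only [e] at hx
  omega

/-- The product theorem on the level of relations. -/
theorem noRel_prod {I : Type*} [Fintype I] (R : I → ℚ[X]) (hq : q ≠ 0)
    (hR : Squarefree (∏ i, R i))
    (hW : ∀ i, ∀ z : ℂ, aeval z (R i) = 0 → ‖z‖ ^ 2 = q)
    (hns : ∀ i, ∀ z : ℂ, aeval z (R i) = 0 → ∀ n : ℕ, n ≠ 0 → z ^ (2 * n) ≠ (q : ℂ) ^ n)
    (hloc : ∀ i, Free q (R i) ∨ PrimeDegreePoly q (R i))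
    (hcross : ∀ i j, i ≠ j → Separated q (R i) (R j) ∨ Separated q (R j) (R i))
    (E : Type*) [Field E] [Algebra ℚ E] [IsAlgClosed E] : NoRel (∏ i, R i) q E := by
  classical
  have hR0 : (∏ i, R i) ≠ 0 := hR.ne_zero
  have hRi0 : ∀ i, R i ≠ 0 := fun i => by
    intro h
    exact hR0 (Finset.prod_eq_zero (Finset.mem_univ i) h)
  have hdvd : ∀ i, R i ∣ ∏ i, R i := fun i => Finset.dvd_prod_of_mem R (Finset.mem_univ i)
  have hroot : ∀ z : ℂ, aeval z (∏ i, R i) = 0 → ∃ i, aeval z (R i) = 0 := by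
    intro z hz
    rw [map_prod, Finset.prod_eq_zero_iff] at hz
    obtain ⟨i, _, hi⟩ := hz
    exact ⟨i, hi⟩
  have hW' : ∀ z : ℂ, aeval z (∏ i, R i) = 0 → ‖z‖ ^ 2 = q := by
    intro z hz
    obtain ⟨i, hi⟩ := hroot z hz
    exact hW i z hi
  have hns' : ∀ z : ℂ, aeval z (∏ i, R i) = 0 → ∀ n : ℕ, n ≠ 0 → z ^ (2 * n) ≠ (q : ℂ) ^ n := by
    intro z hz
    obtain ⟨i, hi⟩ := hroot z hz
    exact hns i z hi
  -- a root of two different factors does not exist
  have huniq : ∀ z : ℂ, ∀ i j, aeval z (R i) = 0 → aeval z (R j) = 0 → i = j := by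
    intro z i j hi hj
    by_contra hij
    have hint : IsIntegral ℚ z := IsAlgebraic.isIntegral ⟨R i, hRi0 i, hi⟩
    have h1 : minpoly ℚ z ∣ R i := minpoly.dvd ℚ z hi
    have h2 : minpoly ℚ z ∣ R j := minpoly.dvd ℚ z hj
    have h3 : minpoly ℚ z * minpoly ℚ z ∣ ∏ i, R i := by
      rw [← Finset.mul_prod_erase Finset.univ R (Finset.mem_univ i)]
      apply mul_dvd_mul h1
      exact h2.trans (Finset.dvd_prod_of_mem R
        (Finset.mem_erase.mpr ⟨Ne.symm hij, Finset.mem_univ j⟩))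
    exact (minpoly.irreducible hint).not_isUnit (hR _ h3)
  refine noRel_of_zero hR0 hW' hq hns' ?_ E
  intro hq' h0
  let κ : (∏ i, R i).rootSet (LF (∏ i, R i)) → I := fun x => (hroot _ (aeval_root x)).choose
  have hκ : ∀ x i, κ x = i ↔ aeval ((x : LF (∏ i, R i)) : ℂ) (R i) = 0 := by
    intro x i
    have h1 := (hroot _ (aeval_root x)).choose_spec
    constructor
    · rintro rfl
      exact h1
    · intro h
      exact huniq _ _ _ h1 h
  refine eq_zero_of_clusters (ι := iota _) (Lam_smul hW' hq) (fun d hd => hd.1) κ ?_ ?_ ?_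
  · intro g x
    rw [hκ]
    have h1 : IsConjRoot ℚ ((x : LF (∏ i, R i)) : ℂ) (((g • x : (∏ i, R i).rootSet
        (LF (∏ i, R i))) : LF (∏ i, R i)) : ℂ) :=
      (mem_orbit_iff_isConjRoot x (g • x)).mp (mem_orbit x g)
    exact aeval_of_isConjRoot h1 ((hκ x _).mp rfl)
  · intro i d hd hsupp
    rcases hloc i with h | h
    · refine eq_zero_of_free hR0 hW' hq (hRi0 i) (hdvd i) h d hd ?_
      intro y hy
      apply hsupp
      rw [ne_eq, hκ]
      exact hy
    · intro x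
      by_cases hx : κ x = i
      · have hx' := (hκ x i).mp hx
        refine eq_zero_of_primeDegree hR0 hW' hq hns' x (primeDegree_of_poly h hx') d hd ?_
        intro y hy
        apply hsupp
        rw [ne_eq, hκ]
        intro hy'
        apply hy
        rw [mem_orbit_iff_isConjRoot]
        exact (isConjRoot_iff_of_irreducible h.1 hx' _).mpr hy'
      · exact hsupp x hx
  · intro i j hij
    rcases hcross i j hij with h | h
    · left
      intro x y hx hy
      exact exists_smul_iota hW' hq x y (h _ _ ((hκ x i).mp hx) ((hκ y j).mp hy))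
    · right
      intro x y hx hy
      exact exists_smul_iota hW' hq x y (h _ _ ((hκ x j).mp hx) ((hκ y i).mp hy))

end Pool.Agent.Lib.MP_950c68_ag.Orb
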