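import Mathlib
import Pool.Agent.Lib.MP_950c68_ag.Final

/-!
# Relations between Frobenius eigenvalues: an imaginary quadratic subfield
-/

namespace Pool.Agent.Lib.MP_950c68_ag

open MulAction Polynomial

section

variable {k : Type*} [Field k] {A B R : k[X]} {D : k}

theorem aeval_R {E : Type*} [Field E] [Algebra k E] (hRdef : R = A ^ 2 + C D * B ^ 2) (z : E) :
    aeval z R = (aeval z A) ^ 2 + algebraMap k E D * (aeval z B) ^ 2 := by
  rw [hRdef]
  simp [aeval_def, eval₂_add, eval₂_mul, eval₂_pow]

theorem aeval_B_ne {E : Type*} [Field E] [Algebra k E] (hRdef : R = A ^ 2 + C D * B ^ 2)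
    (hR : Irreducible R) {z : E} (hz : aeval z R = 0) : aeval z B ≠ 0 := by
  intro hB
  have hA : aeval z A = 0 := by
    have h1 := aeval_R hRdef z
    rw [hz, hB] at h1
    have h2 : (aeval z A) ^ 2 = 0 := by
      rw [h1]; ring
    exact pow_eq_zero_iff (two_ne_zero) |>.mp h2
  have hmin : ∀ P : k[X], aeval z P = 0 → R ∣ P := by
    intro P hP
    have h1 := minpoly.dvd k z hP
    have h2 : Associated (minpoly k z) R := by
      have hzint : IsIntegral k z := by
        rw [← isAlgebraic_iff_isIntegral]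
        exact ⟨R, hR.ne_zero, hz⟩
      exact (minpoly.irreducible hzint).associated_of_dvd hR (minpoly.dvd k z hz)
    exact h2.symm.dvd.trans h1
  have h3 : R ^ 2 ∣ R := by
    conv_rhs => rw [hRdef]
    exact dvd_add (pow_dvd_pow_of_dvd (hmin A hA) 2)
      ((pow_dvd_pow_of_dvd (hmin B hB) 2).mul_left _)
  have h4 : R ∣ 1 := by
    rw [sq] at h3
    exact (mul_dvd_mul_iff_left hR.ne_zero).mp (by rwa [mul_one])
  exact hR.not_isUnit (isUnit_of_dvd_one h4)

/-- the ratio `A(z)/B(z)`, a square root of `-D` -/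
noncomputable def ratio (A B : k[X]) {E : Type*} [Field E] [Algebra k E] (z : E) : E :=
  aeval z A / aeval z B

theorem ratio_sq {E : Type*} [Field E] [Algebra k E] (hRdef : R = A ^ 2 + C D * B ^ 2)
    (hR : Irreducible R) {z : E} (hz : aeval z R = 0) :
    ratio A B z ^ 2 = - algebraMap k E D := by
  have hB := aeval_B_ne hRdef hR hz
  have h1 := aeval_R hRdef z
  rw [hz] at h1
  rw [ratio, div_pow, div_eq_iff (pow_ne_zero 2 hB)]
  linear_combination -h1

theorem ratio_map {E E' : Type*} [Field E] [Algebra k E] [Field E'] [Algebra k E']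
    (φ : E →ₐ[k] E') (z : E) : ratio A B (φ z) = φ (ratio A B z) := by
  rw [ratio, ratio, aeval_algHom_apply, aeval_algHom_apply, map_div₀]

/-- **No nontrivial relations**, imaginary quadratic subfield. -/
theorem no_relations_quad [CharZero k] {q : ℕ} (hR : Irreducible R) (hRdef : R = A ^ 2 + C D * B ^ 2)
    (hD : D ≠ 0) {ℓ a : ℕ} [hℓ : Fact ℓ.Prime] (hℓ2 : ℓ ≠ 2)
    (hdeg : R.natDegree = 2 * ℓ ^ a) (hq0 : (q : k) ≠ 0)
    {Cx : Type*} [Field Cx] [Algebra k Cx] [IsAlgClosed Cx]
    (hsym : ∀ z : Cx, aeval z R = 0 → aeval ((q : Cx) / z) R = 0)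
    (hflipC : ∀ z : Cx, aeval z R = 0 → ratio A B ((q : Cx) / z) = - ratio A B z)
    {W : Type*} [Field W] [Algebra k W] [IsAlgClosed W]
    (v : W → ℝ) (hv : ∀ x y : W, x ≠ 0 → y ≠ 0 → v (x * y) = v x + v y) (hvq : v (q : W) = 1)
    (m : W → ℤ) (S : ℝ)
    (hm : ∀ z ∈ R.rootSet W, S * (2 * v z - 1) = m z)
    (δ : W) (hδ : δ ^ 2 = - algebraMap k W D)
    [DecidablePred fun z : W => ratio A B z = δ]
    (hT : ¬ (ℓ : ℤ) ∣ ∑ z ∈ (R.rootSet_finite W).toFinset.filter
      (fun z => ratio A B z = δ), m z)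
    {E : Type*} [Field E] [Algebra k E] (hsplit : (R.map (algebraMap k E)).Splits)
    (c : E → ℕ) (M : ℕ)
    (hrel : ∏ z ∈ (R.rootSet_finite E).toFinset, z ^ c z = (q : E) ^ M) :
    ∀ z, aeval z R = 0 → (q : E) / z ≠ z ∧ c ((q : E) / z) = c z := by
  classical
  have hdeg1 : R.natDegree ≠ 1 := by
    rw [hdeg]
    intro h
    have h2 : 0 < ℓ ^ a := pow_pos hℓ.out.pos _
    omega
  have hR0 := hR.ne_zero
  let L := R.SplittingField
  let σ : L →ₐ[k] W := IsAlgClosed.lift
  let ρ : L →ₐ[k] Cx := IsAlgClosed.lift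
  have hclosed : ∀ z : R.SplittingField, aeval z R = 0 →
      aeval ((q : R.SplittingField) / z) R = 0 := fun z hz => closed_transfer hR hsym hz
  have hqL : (q : L) ≠ 0 := by
    have : algebraMap k L (q : k) ≠ 0 := (_root_.map_ne_zero _).mpr hq0
    rwa [map_natCast] at this
  have hqW : (q : W) ≠ 0 := by
    have : algebraMap k W (q : k) ≠ 0 := (_root_.map_ne_zero _).mpr hq0
    rwa [map_natCast] at this
  have hroot : ∀ x : R.rootSet L, aeval (x : L) R = 0 := fun x => (mem_rootSet.mp x.2).2
  let i : R.rootSet L → R.rootSet L := invRoot R q hclosed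
  have hii : ∀ x, i (i x) = x := invRoot_invRoot hqL hclosed
  -- the ratio changes sign under the involution
  have hflip : ∀ x : R.rootSet L, ratio A B ((i x : R.rootSet L) : L) = - ratio A B (x : L) := by
    intro x
    have hρinj : Function.Injective ρ := ρ.injective
    apply hρinj
    rw [← ratio_map, map_neg, ← ratio_map]
    have h1 : ρ ((i x : R.rootSet L) : L) = (q : Cx) / ρ x := by
      change ρ ((q : L) / (x : L)) = _
      rw [map_div₀, map_natCast]
    rw [h1]
    exact hflipC _ (by rw [aeval_algHom_apply, hroot x, map_zero])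
  have h2L : (2 : L) ≠ 0 := by
    have : (algebraMap k L 2) ≠ 0 := (_root_.map_ne_zero _).mpr two_ne_zero
    rwa [map_ofNat] at this
  have h2W : (2 : W) ≠ 0 := by
    have : (algebraMap k W 2) ≠ 0 := (_root_.map_ne_zero _).mpr two_ne_zero
    rwa [map_ofNat] at this
  have hratio_ne : ∀ x : R.rootSet L, ratio A B (x : L) ≠ 0 := by
    intro x h
    have h1 := ratio_sq hRdef hR (hroot x)
    rw [h] at h1
    have h2 : algebraMap k L D = 0 := by
      have : (0 : L) ^ 2 = 0 := by ring
      rw [this] at h1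
      linear_combination h1
    exact hD ((_root_.map_eq_zero _).mp h2)
  have hfix : ∀ x, i x ≠ x := by
    intro x h
    have h1 := hflip x
    rw [h] at h1
    have h2 : (2 : L) * ratio A B (x : L) = 0 := by linear_combination h1
    rcases mul_eq_zero.mp h2 with h4 | h4
    · exact h2L h4
    · exact hratio_ne x h4
  have hσratio : ∀ x : R.rootSet L, ratio A B (σ (x : L)) = δ ∨ ratio A B (σ (x : L)) = -δ := by
    intro x
    apply sq_eq_sq_iff_eq_or_eq_neg.mp
    rw [hδ]
    exact ratio_sq hRdef hR (by rw [aeval_algHom_apply, hroot x, map_zero])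
  let H : Finset (R.rootSet L) := Finset.univ.filter fun x => ratio A B (σ (x : L)) = δ
  have hδ0 : δ ≠ 0 := by
    rintro rfl
    have h2 : algebraMap k W D = 0 := by
      have : (0 : W) ^ 2 = 0 := by ring
      rw [this] at hδ
      linear_combination hδ
    exact hD ((_root_.map_eq_zero _).mp h2)
  have hH : ∀ x, x ∈ H ↔ i x ∉ H := by
    intro x
    simp only [H, Finset.mem_filter, Finset.mem_univ, true_and]
    have h1 : ratio A B (σ ((i x : R.rootSet L) : L)) = - ratio A B (σ (x : L)) := by
      rw [ratio_map, hflip x, map_neg, ← ratio_map]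
    rw [h1]
    rcases hσratio x with h | h
    · simp only [h, true_iff]
      intro h3
      have h4 : (2 : W) * δ = 0 := by linear_combination -h3
      rcases mul_eq_zero.mp h4 with h5 | h5
      · exact h2W h5
      · exact hδ0 h5
    · rw [h, neg_neg]
      constructor
      · intro h3
        have h4 : (2 : W) * δ = 0 := by linear_combination -h3
        rcases mul_eq_zero.mp h4 with h5 | h5
        · exact absurd h5 h2W
        · exact absurd h5 hδ0
      · intro h3
        exact absurd rfl h3
  -- stability under Sylow subgroups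
  have hstable : ∀ (P : Sylow ℓ R.Gal), ∀ g ∈ P, ∀ x ∈ H, g • x ∈ H := by
    intro P g hg x hx
    simp only [H, Finset.mem_filter, Finset.mem_univ, true_and] at hx ⊢
    have hodd : Odd (orderOf (⟨g, hg⟩ : P)) := by
      obtain ⟨n, hn⟩ := (IsPGroup.iff_orderOf.mp P.isPGroup') ⟨g, hg⟩
      rw [hn]
      exact (hℓ.out.odd_of_ne_two hℓ2).pow
    have hg1 : g ^ orderOf (⟨g, hg⟩ : P) = 1 := by
      have h1 := pow_orderOf_eq_one (⟨g, hg⟩ : P)
      exact congrArg Subtype.val h1
    let g' : L ≃ₐ[k] L := g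
    have hg1' : g' ^ orderOf (⟨g, hg⟩ : P) = 1 := hg1
    set r := ratio A B (x : L) with hr
    have hgr : g' r = r ∨ g' r = - r := by
      apply sq_eq_sq_iff_eq_or_eq_neg.mp
      rw [← map_pow, hr, ratio_sq hRdef hR (hroot x), map_neg, AlgEquiv.commutes]
    have hgr' : g' r = r := by
      rcases hgr with h | h
      · exact h
      · exfalso
        have h5 : ∀ n : ℕ, (g' ^ n) r = (-1) ^ n * r := by
          intro n
          induction n with
          | zero => simp
          | succ n ih =>
            rw [pow_succ', AlgEquiv.mul_apply, ih, map_mul, h, map_pow, map_neg, map_one, pow_succ]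
            ring
        have h6 := h5 (orderOf (⟨g, hg⟩ : P))
        rw [hg1', hodd.neg_one_pow, AlgEquiv.one_apply] at h6
        have h2 : (2 : L) * r = 0 := by linear_combination h6
        rcases mul_eq_zero.mp h2 with h4 | h4
        · exact h2L h4
        · exact hratio_ne x h4
    have h7 : ratio A B ((g • x : R.rootSet L) : L) = r := by
      change ratio A B ((g' : L →ₐ[k] L) (x : L)) = r
      rw [ratio_map]
      exact hgr'
    rw [ratio_map, h7, hr, ← ratio_map]
    exact hx
  -- integrality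
  let s : R.rootSet L → ℤ := fun x => m (σ x)
  have hσmem : ∀ x : R.rootSet L, σ x ∈ R.rootSet W := by
    intro x
    rw [mem_rootSet]
    refine ⟨hR0, ?_⟩
    rw [aeval_algHom_apply, hroot x, map_zero]
  have hσne : ∀ x : L, x ≠ 0 → σ x ≠ 0 := fun x hx => (_root_.map_ne_zero σ).mpr hx
  have hne : ∀ x : R.rootSet L, (x : L) ≠ 0 := fun x => ne_zero_of_root hR hdeg1 (hroot x)
  have hs : ∀ x, s (i x) = - s x := by
    intro x
    have h0 : v (σ ((i x : R.rootSet L) : L)) = 1 - v (σ x) := by
      have h1 : σ ((q : L) / x) * σ x = (q : W) := by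
        rw [← map_mul, div_mul_cancel₀ _ (hne x), map_natCast]
      have h2 := hv (σ ((q : L) / x)) (σ x) (hσne _ (div_ne_zero hqL (hne x))) (hσne _ (hne x))
      rw [h1, hvq] at h2
      change v (σ ((q : L) / x)) = _
      linarith
    have h1 := hm _ (hσmem (i x))
    have h2 := hm _ (hσmem x)
    rw [h0] at h1
    have h4 : ((m (σ (i x : L)) : ℤ) : ℝ) = - (m (σ (x : L)) : ℤ) := by
      rw [← h1, ← h2]; ring
    exact_mod_cast h4
  have hcard : Nat.card (R.rootSet L) = 2 * ℓ ^ a := by
    rw [Nat.card_eq_fintype_card]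
    rw [card_rootSet_eq_natDegree hR.separable (SplittingField.splits R), hdeg]
  have hTL : ∑ z ∈ (R.rootSet_finite W).toFinset.filter (fun z => ratio A B z = δ), m z =
      ∑ x ∈ H, s x := by
    rw [Finset.sum_filter, Finset.sum_filter]
    exact prod_roots_eq (A := Multiplicative ℤ) hR0 σ
      (fun z => Multiplicative.ofAdd (if ratio A B z = δ then m z else 0))
  have htrans : IsPretransitive R.Gal (R.rootSet L) := gal_transitive hR
  refine norel_of_key hR hdeg1 hq0 hclosed σ v hv hvq hfix ?_ hsplit c M hrel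
  intro d hd hdrel
  refine relLattice_trivial_half (G := R.Gal) (i := i) (s := s) (invRoot_smul hclosed) hii hs
    hcard H hH hstable (by rw [← hTL]; exact hT) ?_
  refine ⟨hd, fun g => ?_⟩
  have h1 := hdrel g
  have h2 : ((∑ x, d x * s (g • x) : ℤ) : ℝ) = S * ∑ x, (d x : ℝ) *
      (2 * v (σ (g • x : R.rootSet R.SplittingField)) - 1) := by
    push_cast
    rw [Finset.mul_sum]
    refine Finset.sum_congr rfl fun x _ => ?_
    have h3 := hm _ (hσmem (g • x))
    change (d x : ℝ) * (m (σ (g • x : R.rootSet L)) : ℝ) = _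
    rw [← h3]
    ring
  rw [h1, mul_zero] at h2
  exact_mod_cast h2

end

end Pool.Agent.Lib.MP_950c68_ag
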